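import Mathlib

set_option autoImplicit false

/-!
The gauge `√r (log (1 / r) log log (1 / r))^(5/2)`.
-/

open Set Filter Topology

namespace Pool.Agent.Helper24.ST

/-- The function `(log (1 / r) log log (1 / r))^(5/2)`. -/
noncomputable def Gll (r : ℝ) : ℝ := (Real.log (1 / r) * Real.log (Real.log (1 / r))) ^ (5 / 2 : ℝ)

theorem log_inv_gt {r : ℝ} (h0 : 0 < r) (h : r < Real.exp (-4)) : 4 < Real.log (1 / r) := by
  rw [one_div, Real.log_inv]
  have := Real.log_lt_log h0 h
  rw [Real.log_exp] at this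
  linarith

theorem loglog_pos {x : ℝ} (h : 4 < x) : 1 < Real.log x := by
  rw [Real.lt_log_iff_exp_lt (by linarith)]
  have := Real.exp_one_lt_d9
  linarith

theorem Gll_pos : ∀ r ∈ Ioo 0 (Real.exp (-4)), 0 < Gll r := by
  intro r hr
  have h1 := log_inv_gt hr.1 hr.2
  have h2 := loglog_pos h1
  unfold Gll
  exact Real.rpow_pos_of_pos (mul_pos (by linarith) (by linarith)) _

theorem Gll_anti : AntitoneOn Gll (Ioo 0 (Real.exp (-4))) := by
  intro r hr s hs hrs
  have h1 := log_inv_gt hs.1 hs.2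
  have h2 := loglog_pos h1
  have h3 : Real.log (1 / s) ≤ Real.log (1 / r) :=
    Real.log_le_log (by have := hs.1; positivity) (one_div_le_one_div_of_le hr.1 hrs)
  have h4 : Real.log (Real.log (1 / s)) ≤ Real.log (Real.log (1 / r)) :=
    Real.log_le_log (by linarith) h3
  unfold Gll
  refine Real.rpow_le_rpow (mul_nonneg (by linarith) (by linarith)) ?_ (by norm_num)
  exact mul_le_mul h3 h4 (by linarith) (by linarith)

theorem Gll_div : ¬ Summable fun n : ℕ => Gll ((1 / 2) ^ n) ^ (-(2 / 5) : ℝ) := by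
  intro hs
  -- the tail
  have hs1 := (summable_nat_add_iff 8).2 hs
  have hl2 : Real.log 2 < 0.7 := by linarith [Real.log_two_lt_d9]
  have hl2' : 0.69 < Real.log 2 := by linarith [Real.log_two_gt_d9]
  have e1 : ∀ n : ℕ, Gll ((1 / 2) ^ (n + 8)) ^ (-(2 / 5) : ℝ)
      = ((((n + 8 : ℕ) : ℝ) * Real.log 2) * Real.log (((n + 8 : ℕ) : ℝ) * Real.log 2))⁻¹ := by
    intro n
    have h0 : Real.log (1 / (1 / 2) ^ (n + 8)) = ((n + 8 : ℕ) : ℝ) * Real.log 2 := by
      have : (1 : ℝ) / (1 / 2) ^ (n + 8) = 2 ^ (n + 8) := by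
        rw [one_div_pow, one_div_one_div]
      rw [this, Real.log_pow]
    have h8 : (8 : ℝ) ≤ ((n + 8 : ℕ) : ℝ) := by push_cast; linarith [(Nat.cast_nonneg n : (0 : ℝ) ≤ n)]
    have h1 : 4 < ((n + 8 : ℕ) : ℝ) * Real.log 2 := by nlinarith
    have h2 := loglog_pos h1
    unfold Gll
    rw [h0, ← Real.rpow_mul (mul_nonneg (by linarith) (by linarith)),
      show (5 / 2 : ℝ) * (-(2 / 5)) = -1 by norm_num, Real.rpow_neg_one]
  -- the comparison with `1 / (n log n)`
  set f : ℕ → ℝ := fun n => if 8 ≤ n then ((n : ℝ) * Real.log n)⁻¹ else (8 * Real.log 8)⁻¹ with hf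
  have hpos8 : 0 < 8 * Real.log 8 := by
    have := Real.log_pos (by norm_num : (1 : ℝ) < 8)
    positivity
  have hf0 : ∀ n, 0 ≤ f n := by
    intro n
    simp only [hf]
    split_ifs with h
    · have h8 : (8 : ℝ) ≤ n := by exact_mod_cast h
      have := Real.log_nonneg (by linarith : (1 : ℝ) ≤ n)
      positivity
    · positivity
  have hfanti : ∀ ⦃m n : ℕ⦄, 0 < m → m ≤ n → f n ≤ f m := by
    intro m n _ hmn
    simp only [hf]
    by_cases hm : 8 ≤ m
    · rw [if_pos hm, if_pos (hm.trans hmn)]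
      have h8 : (8 : ℝ) ≤ m := by exact_mod_cast hm
      have hmn' : (m : ℝ) ≤ n := by exact_mod_cast hmn
      have h1 := Real.log_pos (by linarith : (1 : ℝ) < m)
      have h2 : Real.log m ≤ Real.log n := Real.log_le_log (by linarith) hmn'
      have h3 : 0 < (m : ℝ) * Real.log m := by positivity
      exact inv_anti₀ h3 (mul_le_mul hmn' h2 h1.le (by linarith))
    · rw [if_neg hm]
      by_cases hn : 8 ≤ n
      · rw [if_pos hn]
        have h8 : (8 : ℝ) ≤ n := by exact_mod_cast hn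
        have h2 : Real.log 8 ≤ Real.log n := Real.log_le_log (by norm_num) h8
        have h1 := Real.log_pos (by norm_num : (1 : ℝ) < 8)
        exact inv_anti₀ hpos8 (mul_le_mul h8 h2 h1.le (by linarith))
      · rw [if_neg hn]
  have hfs : Summable f := by
    refine (summable_nat_add_iff 8).1 ?_
    refine Summable.of_nonneg_of_le (fun n => hf0 _) (fun n => ?_) hs1
    rw [e1 n]
    simp only [hf]
    rw [if_pos (by omega)]
    have h8 : (8 : ℝ) ≤ ((n + 8 : ℕ) : ℝ) := by push_cast; linarith [(Nat.cast_nonneg n : (0 : ℝ) ≤ n)]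
    have h1 : 4 < ((n + 8 : ℕ) : ℝ) * Real.log 2 := by nlinarith
    have h2 := loglog_pos h1
    have h3 : ((n + 8 : ℕ) : ℝ) * Real.log 2 ≤ ((n + 8 : ℕ) : ℝ) := by nlinarith
    have h4 : Real.log (((n + 8 : ℕ) : ℝ) * Real.log 2) ≤ Real.log ((n + 8 : ℕ) : ℝ) :=
      Real.log_le_log (by linarith) h3
    refine inv_anti₀ (mul_pos (by linarith) (by linarith)) ?_
    exact mul_le_mul h3 h4 (by linarith) (by linarith)
  have hc := (summable_condensed_iff_of_nonneg hf0 hfanti).2 hfs
  -- the harmonic series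
  have hh : Summable fun n : ℕ => (1 : ℝ) / (((n + 3 : ℕ) : ℝ)) := by
    have hc3 := (summable_nat_add_iff 3).2 hc
    refine Summable.of_nonneg_of_le (fun n => by positivity) (fun n => ?_) hc3
    simp only [hf]
    have h8 : 8 ≤ 2 ^ (n + 3) := by
      have : 1 ≤ 2 ^ n := Nat.one_le_two_pow
      rw [pow_add]; omega
    rw [if_pos h8]
    push_cast
    rw [Real.log_pow]
    push_cast
    have h9 : (0 : ℝ) < 2 ^ (n + 3) := by positivity
    have h10 : (2 : ℝ) ^ (n + 3) * ((2 : ℝ) ^ (n + 3) * (((n : ℝ) + 3) * Real.log 2))⁻¹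
        = 1 / ((n + 3) * Real.log 2) := by
      field_simp
    rw [h10]
    have h11 : (0 : ℝ) ≤ n := Nat.cast_nonneg n
    apply one_div_le_one_div_of_le
    · apply mul_pos <;> linarith
    · nlinarith
  exact Real.not_summable_one_div_natCast ((summable_nat_add_iff 3).1 hh)

end Pool.Agent.Helper24.ST
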