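import Pool.Agent.Helper24.ST.Quant

set_option autoImplicit false

/-!
The covering numbers of the singular times with bounded density of the dissipation.
-/

open MeasureTheory Set Filter Topology
open scoped ContDiff ENNReal NNReal

namespace Pool.Agent.Helper24.ST

open H459R3.NS Pool.Agent.Q63.Win

/-- The parameter for the density `M`. -/
noncomputable def lamM (M : ℝ) : ℝ := 1 / 36 * (1 + M) ^ (-(2 / 5) : ℝ)

theorem lamM_pos {M : ℝ} (hM : 0 ≤ M) : 0 < lamM M := by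
  unfold lamM
  have : 0 < (1 + M) ^ (-(2 / 5) : ℝ) := Real.rpow_pos_of_pos (by linarith) _
  positivity

theorem lamM_le {M : ℝ} (hM : 0 ≤ M) : lamM M ≤ 1 / 36 := by
  unfold lamM
  have : (1 + M) ^ (-(2 / 5) : ℝ) ≤ 1 := Real.rpow_le_one_of_one_le_of_nonpos (by linarith)
    (by norm_num)
  linarith

theorem lamM_rpow {M : ℝ} (hM : 0 ≤ M) : lamM M ^ 2 * Real.sqrt (lamM M) * M < 1 := by
  have h0 := lamM_pos hM
  rw [← rpow_five_half h0]
  unfold lamM
  have hb : 0 < (1 + M) ^ (-(2 / 5) : ℝ) := Real.rpow_pos_of_pos (by linarith) _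
  rw [Real.mul_rpow (by norm_num) hb.le, ← Real.rpow_mul (by linarith)]
  have e1 : (-(2 / 5) : ℝ) * (5 / 2) = -1 := by norm_num
  rw [e1, Real.rpow_neg_one]
  have h2 : (1 / 36 : ℝ) ^ (5 / 2 : ℝ) ≤ 1 := Real.rpow_le_one (by norm_num) (by norm_num)
    (by norm_num)
  have h3 : (1 + M)⁻¹ * M < 1 := by
    rw [inv_mul_lt_iff₀ (by linarith)]
    linarith
  have h4 : 0 ≤ (1 + M)⁻¹ * M := by positivity
  have h5 : 0 < (1 / 36 : ℝ) ^ (5 / 2 : ℝ) := Real.rpow_pos_of_pos (by norm_num) _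
  calc (1 / 36 : ℝ) ^ (5 / 2 : ℝ) * (1 + M)⁻¹ * M = (1 / 36 : ℝ) ^ (5 / 2 : ℝ) * ((1 + M)⁻¹ * M) := by
        ring
    _ ≤ 1 * ((1 + M)⁻¹ * M) := by gcongr
    _ < 1 := by linarith

/-- The lengths. -/
noncomputable def elM (ν M : ℝ) (n : ℕ) : ℝ := lamM M * (1 / 4) ^ n / ν

theorem elM_pos {ν M : ℝ} (hν : 0 < ν) (hM : 0 ≤ M) (n : ℕ) : 0 < elM ν M n := by
  unfold elM
  have := lamM_pos hM
  positivity

theorem elM_anti {ν M : ℝ} (hν : 0 < ν) (hM : 0 ≤ M) : Antitone (elM ν M) := by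
  refine antitone_nat_of_succ_le fun n => ?_
  have := elM_pos hν hM n
  have e : elM ν M (n + 1) = elM ν M n / 4 := by
    unfold elM
    rw [pow_succ]
    ring
  linarith

theorem elM_three {ν M : ℝ} (hν : 0 < ν) (hM : 0 ≤ M) {n j : ℕ} (h : n < j) :
    3 * elM ν M j ≤ elM ν M n := by
  have h1 := elM_anti hν hM (show n + 1 ≤ j by omega)
  have := elM_pos hν hM n
  have e : elM ν M (n + 1) = elM ν M n / 4 := by
    unfold elM
    rw [pow_succ]
    ring
  linarith

/-- The drop of the dimension. -/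
noncomputable def qM (M : ℝ) : ℝ := lamM M / CF / 8

theorem qM_pos {M : ℝ} (hM : 0 ≤ M) : 0 < qM M := by
  unfold qM
  have := lamM_pos hM
  have := CF_pos
  positivity

theorem qM_le {M : ℝ} (hM : 0 ≤ M) : qM M ≤ 1 / 2 := by
  unfold qM
  have h1 := lamM_le hM
  have h2 := CF_pos
  have h3 : lamM M / CF ≤ 1 := by
    rw [div_le_one (by linarith)]
    linarith
  linarith

section

variable {ν T E : ℝ} {G : Set ℝ} {u : ℝ → V → V} {p : ℝ → V → ℝ}

/-- The covering at one scale. -/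
theorem IsLeray.cover_one (h : IsLeray ν T E G u p) (hν : 0 < ν) {M : ℝ} (hM : 0 ≤ M) {ρ : ℝ}
    {k0 K : ℕ} (hk : k0 ≤ K) {X : Set ℝ} (hX : X ⊆ Ioo 0 T \ G)
    (hX2 : ∀ t ∈ X, 3 * elM ν M k0 ≤ t) (hρ : 2 * elM ν M k0 < ρ)
    (hd : ∀ t ∈ X, ∀ r ∈ Ioo 0 ρ, ∫ τ in G ∩ Ioo (t - r) (t + r), enstrophy (u τ)
      ≤ M * (ν * Real.sqrt ν) * Real.sqrt r) :
    ∃ F : Finset ℝ, (X ⊆ ⋃ t ∈ F, Icc (t - 3 * elM ν M K) (t + 3 * elM ν M K)) ∧
      (F.card : ℝ) ≤ 2800000 / (ν * lamM M) * 2 ^ K * (1 - qM M) ^ (K - k0) * Ptot G u k0 := by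
  classical
  have hcas := h.cas hν.le
  have hfin : ∀ j, IsFiniteMeasure (dm G (fun τ => YW j (cof (u τ)))) := fun j =>
    dm_finite (h.int_YW hν.le j)
  have hCF := CF_pos
  have hlp := lamM_pos hM
  have hlle := lamM_le hM
  have hq0 := qM_pos hM
  have hq1 := qM_le hM
  set lam := lamM M with hlam
  set β : ℝ := 1 / 400000 * ν ^ 2 * 2 ^ K * elM ν M K with hβ
  have hβe : β = ν * lam / 400000 * (1 / 2) ^ K := by
    rw [hβ]
    unfold elM
    have h5 : (2 : ℝ) ^ K * (1 / 4) ^ K = (1 / 2) ^ K := by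
      rw [← mul_pow]; norm_num
    rw [← h5, ← hlam]
    field_simp
  have hβ0 : 0 < β := by rw [hβe]; positivity
  obtain ⟨F, hF1, hF2, hF3⟩ := cover_main (y := fun j => dm G (fun τ => YW j (cof (u τ))))
    (l := elM ν M) (K := K) (k0 := k0) (A := 0) (B := T) (X0 := X)
    (fun t ht => ⟨(hX ht).1.1.le, (hX ht).1.2.le⟩)
    (c := fun n => lam / CF) (θ := fun n => ν * (1 / 2) ^ n / lam ^ 2)
    (a := fun n => 7 / β * (1 - qM M) ^ (K - n)) (w := fun n => if n = K then 1 else 0)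
    (β := β)
    (elM_pos hν hM) (fun n j _ hj _ => elM_three hν hM hj)
    (fun n => by positivity)
    (fun n => by
      rw [div_le_one (by linarith)]
      linarith)
    (fun n hn hnK t ht p hp0 hp hpt => hcas.hypH hν hlp (hlle.trans (by norm_num)) rfl
      ((mul_le_mul_of_nonneg_left (elM_anti hν hM hn) (by norm_num)).trans (hX2 t ht))
      (hX ht).1.2 hp0 hp hpt)
    (fun t ht => by
      have h1 := elM_pos hν hM K
      have h2 := elM_anti hν hM hk
      have h3 := hX2 t ht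
      refine h.ball_lower hν (hX ht) (by linarith) h1 K ?_
      unfold elM
      have h4 : 36 * ν * 4 ^ K * (lamM M * (1 / 4) ^ K / ν) = 36 * lamM M := by
        have h5 : (4 : ℝ) ^ K * (1 / 4) ^ K = 1 := by
          rw [← mul_pow]; norm_num
        calc 36 * ν * 4 ^ K * (lamM M * (1 / 4) ^ K / ν)
            = 36 * lamM M * (4 ^ K * (1 / 4) ^ K) := by field_simp
          _ = _ := by rw [h5, mul_one]
      rw [h4]
      linarith)
    (fun n => by
      have : 0 ≤ 1 - qM M := by linarith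
      positivity)
    (fun n _ hnK => by
      have e : K - n = K - (n + 1) + 1 := by omega
      rw [e, pow_succ]
      have : lam / CF / 8 = qM M := rfl
      rw [this]
      exact le_of_eq (by ring))
    (fun n _ hnK => by
      rw [if_neg (by omega), mul_zero]
      have : 0 ≤ 1 - qM M := by linarith
      positivity)
    (by
      show 7 * (if K = K then (1 : ℝ) else 0) ≤ 7 / β * (1 - qM M) ^ (K - K) * β
      rw [if_pos rfl, Nat.sub_self, pow_zero, mul_one, mul_one, div_mul_cancel₀ _ hβ0.ne'])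
    (K - k0) k0 le_rfl (by omega) X (subset_refl X)
  -- all the intervals have the smallest length
  have hK : ∀ q ∈ F, q.2 = K := by
    intro q hq
    obtain ⟨h1, h2, h3, h4⟩ := hF1 q hq
    by_contra hne
    have h5 := h4 (lt_of_le_of_ne h3 hne)
    have h6 := hcas.QQl_le (l := elM ν M) (K := K) (n := q.2) q.1
    set r : ℝ := 2 * elM ν M q.2 with hr
    have hr0 : 0 < r := by
      have := elM_pos hν hM q.2
      rw [hr]; linarith
    have hrρ : r < ρ := by
      have := elM_anti hν hM h2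
      rw [hr]; linarith
    have h7 := hd q.1 h1 r ⟨hr0, hrρ⟩
    have hm : MeasurableSet (G ∩ Ioo (q.1 - r) (q.1 + r)) :=
      h.openG.measurableSet.inter measurableSet_Ioo
    rw [Real.ball_eq_Ioo] at h6
    have h8 : 36 * ∫ τ in G ∩ Ioo (q.1 - r) (q.1 + r), ZW (q.2 + 1) (cof (u τ))
        ≤ ∫ τ in G ∩ Ioo (q.1 - r) (q.1 + r), enstrophy (u τ) := by
      rw [← integral_const_mul]
      exact setIntegral_mono_on (((h.int_ZW hν.le _).mono_set inter_subset_left).const_mul _)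
        (h.enst_int.mono_set inter_subset_left) hm fun τ hτ => h.ZW_le hτ.1 _
    have h9 : 36 * ∫ τ in G ∩ Ioo (q.1 - r) (q.1 + r), YW q.2 (cof (u τ))
        ≤ ∫ τ in G ∩ Ioo (q.1 - r) (q.1 + r), enstrophy (u τ) := by
      rw [← integral_const_mul]
      exact setIntegral_mono_on (((h.int_YW hν.le _).mono_set inter_subset_left).const_mul _)
        (h.enst_int.mono_set inter_subset_left) hm fun τ hτ => h.YW_le hτ.1 _
    have h10 : ν * (1 / 2) ^ q.2 / lam ^ 2 ≤ 1 / 2 * (M * (ν * Real.sqrt ν) * Real.sqrt r) := by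
      have a1 := Real.sqrt_nonneg r
      have a2 : 0 ≤ M * (ν * Real.sqrt ν) * Real.sqrt r := by positivity
      linarith
    have h11 : Real.sqrt ν * Real.sqrt r ≤ 2 * (Real.sqrt lam * (1 / 2) ^ q.2) := by
      rw [← Real.sqrt_mul hν.le]
      have e1 : ν * r = 2 * (lam * ((1 / 2) ^ q.2) ^ 2) := by
        rw [hr]
        unfold elM
        rw [← pow_mul, mul_comm q.2 2, pow_mul]
        have : ((1 : ℝ) / 2) ^ 2 = 1 / 4 := by norm_num
        rw [this, ← hlam]
        field_simp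
      rw [e1]
      have e2 : 2 * (Real.sqrt lam * (1 / 2) ^ q.2) = Real.sqrt (4 * (lam * ((1 / 2) ^ q.2) ^ 2)) := by
        rw [Real.sqrt_mul (by norm_num), Real.sqrt_mul hlp.le, Real.sqrt_sq (by positivity),
          show (4 : ℝ) = 2 ^ 2 by norm_num, Real.sqrt_sq (by norm_num)]
      rw [e2]
      refine Real.sqrt_le_sqrt ?_
      have : 0 ≤ lam * ((1 / 2 : ℝ) ^ q.2) ^ 2 := by positivity
      linarith
    have h12 : ν * (1 / 2) ^ q.2 / lam ^ 2 ≤ ν * (1 / 2) ^ q.2 * (M * Real.sqrt lam) := by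
      calc ν * (1 / 2) ^ q.2 / lam ^ 2 ≤ 1 / 2 * (M * (ν * Real.sqrt ν) * Real.sqrt r) := h10
        _ = 1 / 2 * M * ν * (Real.sqrt ν * Real.sqrt r) := by ring
        _ ≤ 1 / 2 * M * ν * (2 * (Real.sqrt lam * (1 / 2) ^ q.2)) := by gcongr
        _ = _ := by ring
    rw [div_le_iff₀ (by positivity)] at h12
    have h13 := lamM_rpow hM
    rw [← hlam] at h13
    have h14 : 0 < ν * (1 / 2 : ℝ) ^ q.2 := by positivity
    have h15 : ν * (1 / 2) ^ q.2 * (M * Real.sqrt lam) * lam ^ 2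
        = ν * (1 / 2) ^ q.2 * (lam ^ 2 * Real.sqrt lam * M) := by ring
    rw [h15] at h12
    nlinarith
  refine ⟨F.image fun q => q.1, ?_, ?_⟩
  · intro x hx
    obtain ⟨q, hq, hxq⟩ := mem_iUnion₂.1 (hF2 hx)
    rw [hK q hq] at hxq
    exact mem_iUnion₂.2 ⟨q.1, Finset.mem_image.2 ⟨q, hq, rfl⟩, hxq⟩
  · have h1 : ((F.image fun q => q.1).card : ℝ) ≤ F.card := by
      exact_mod_cast Finset.card_image_le
    have h2 : (F.card : ℝ) = ∑ q ∈ F, (if q.2 = K then (1 : ℝ) else 0) := by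
      rw [Finset.sum_congr rfl fun q hq => if_pos (hK q hq), Finset.sum_const, nsmul_eq_mul, mul_one]
    have h3 := hcas.PP_le (l := elM ν M) (K := K) (n := k0) X
    have h4 : 7 / β = 2800000 / (ν * lam) * 2 ^ K := by
      rw [hβe]
      have h5 : (1 / 2 : ℝ) ^ K = 1 / 2 ^ K := by rw [one_div_pow]
      rw [h5]
      field_simp
      norm_num
    have h6 : 0 ≤ 1 - qM M := by linarith
    calc ((F.image fun q => q.1).card : ℝ) ≤ F.card := h1
      _ = ∑ q ∈ F, (if q.2 = K then (1 : ℝ) else 0) := h2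
      _ ≤ 7 / β * (1 - qM M) ^ (K - k0) * PP (fun j => dm G (fun τ => YW j (cof (u τ))))
          (elM ν M) K k0 X := hF3
      _ ≤ 7 / β * (1 - qM M) ^ (K - k0) * Ptot G u k0 := by
          refine mul_le_mul_of_nonneg_left h3 ?_
          positivity
      _ = _ := by rw [h4]

end

end Pool.Agent.Helper24.ST
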