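import Pool.Agent.Helper24.ST.Ineq

set_option autoImplicit false

/-!
The window inequality.
-/

open MeasureTheory Set Filter Topology
open scoped ContDiff ENNReal NNReal

namespace Pool.Agent.Helper24.ST

open H459R3.NS Pool.Agent.Q63.Win

/-- The properties of the dissipation and of the energy near and above a frequency which are used
in the covering argument. -/
structure Cas (ν T E : ℝ) (G : Set ℝ) (Y Z e : ℕ → ℝ → ℝ) : Prop where
  openG : IsOpen G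
  subG : G ⊆ Ioo 0 T
  fullG : volume (Ioo 0 T \ G) = 0
  Y0 : ∀ n t, 0 ≤ Y n t
  Z0 : ∀ n t, 0 ≤ Z n t
  e0 : ∀ n t, 0 ≤ e n t
  intY : ∀ n, IntegrableOn (Y n) G
  intZ : ∀ n, IntegrableOn (Z n) G
  intF : ∀ n, IntegrableOn (fun t => Real.sqrt (Y n t) * e n t) G
  e_bdd : ∀ n, ∀ t ∈ G, e n t ≤ E ^ 2
  i2 : ∀ n, ∀ t ∈ G, 4 ^ n * e n t ≤ 4 * Y n t
  i3 : ∀ j n, ∀ t ∈ G, rh ^ dd j n * Y j t ≤ Y n t
  i4 : ∀ n K, ∀ t ∈ G, ∑ j ∈ Finset.Icc n K, Y j t ≤ 7 * (Z (n + 1) t + Y n t)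
  hi : ∀ n, ∀ s ∈ G, ∀ t ∈ G, s ≤ t →
    e (n + 1) t + 72 * ν * ∫ τ in G ∩ Ioo s t, Z (n + 1) τ
      ≤ e (n + 1) s + 53000 * (2 ^ n / th4 ^ (2 * n)) *
        ∫ τ in G ∩ Ioo s t, Real.sqrt (Y n τ) * e n τ
  lo : ∀ s ∈ G, ∀ t ∈ G, s ≤ t → e 0 t ≤ e 0 s

theorem IsLeray.cas {ν T E : ℝ} {G : Set ℝ} {u : ℝ → V → V} {p : ℝ → V → ℝ}
    (h : IsLeray ν T E G u p) (hν : 0 ≤ ν) :
    Cas ν T E G (fun n t => YW n (cof (u t))) (fun n t => ZW n (cof (u t)))
      (fun n t => EW n (cof (u t))) where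
  openG := h.openG
  subG := h.subG
  fullG := h.fullG
  Y0 := fun n t => YW_nonneg _ _
  Z0 := fun n t => ZW_nonneg _ _
  e0 := fun n t => EW_nonneg _ _
  intY := h.int_YW hν
  intZ := h.int_ZW hν
  intF := fun n => h.int_flux hν n
  e_bdd := fun n t ht => h.EW_le_energy ht n
  i2 := fun n t ht => EW_le (h.rapV ht) n
  i3 := fun j n t ht => YW_shift (h.rapV ht) j n
  i4 := fun n K t ht => sum_YW (h.rapV ht) n K
  hi := fun n s hs t ht hst => h.high_ineq hν n hs ht hst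
  lo := fun s hs t ht hst => h.EW_zero_le hν hs ht hst

section

variable {ν T E : ℝ} {G : Set ℝ} {Y Z e : ℕ → ℝ → ℝ}

theorem Cas.e_le (h : Cas ν T E G Y Z e) (n : ℕ) {t : ℝ} (ht : t ∈ G) :
    e n t ≤ 4 * (1 / 4) ^ n * Y n t := by
  have h1 := h.i2 n t ht
  have h4 : (0 : ℝ) < 4 ^ n := by positivity
  have h5 : ((1 : ℝ) / 4) ^ n = 1 / 4 ^ n := by rw [div_pow, one_pow]
  rw [h5]
  have : e n t ≤ 4 * Y n t / 4 ^ n := by
    rw [le_div_iff₀ h4]
    linarith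
  refine this.trans (le_of_eq ?_)
  ring

theorem Cas.Y_succ (h : Cas ν T E G Y Z e) (n : ℕ) {t : ℝ} (ht : t ∈ G) :
    rh * Y n t ≤ Y (n + 1) t := by
  have h1 := h.i3 n (n + 1) t ht
  have h2 : dd n (n + 1) = 1 := by unfold dd; omega
  rwa [h2, pow_one] at h1

theorem Cas.Y_pred (h : Cas ν T E G Y Z e) (n : ℕ) {t : ℝ} (ht : t ∈ G) :
    rh * Y (n + 1) t ≤ Y n t := by
  have h1 := h.i3 (n + 1) n t ht
  have h2 : dd (n + 1) n = 1 := by unfold dd; omega
  rwa [h2, pow_one] at h1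

/-- The integral over a window. -/
noncomputable def Dw (G : Set ℝ) (Y : ℕ → ℝ → ℝ) (a b : ℝ) (n : ℕ) : ℝ :=
  ∫ τ in G ∩ Ioo a b, Y n τ

theorem Cas.Dw_nonneg (h : Cas ν T E G Y Z e) (a b : ℝ) (n : ℕ) : 0 ≤ Dw G Y a b n :=
  integral_nonneg fun τ => h.Y0 n τ

theorem Cas.Dw_succ (h : Cas ν T E G Y Z e) (a b : ℝ) (n : ℕ) :
    rh * Dw G Y a b n ≤ Dw G Y a b (n + 1) := by
  unfold Dw
  rw [← integral_const_mul]
  refine setIntegral_mono_on (((h.intY n).mono_set inter_subset_left).const_mul _)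
    ((h.intY (n + 1)).mono_set inter_subset_left)
    (h.openG.measurableSet.inter measurableSet_Ioo) fun τ hτ => h.Y_succ n hτ.1

/-- The constant of the closing argument. -/
noncomputable def CA : ℝ := 32 * 53000 ^ 2

/-- The supremum of the energy in a window. -/
noncomputable def Mw (G : Set ℝ) (e : ℕ → ℝ → ℝ) (a b : ℝ) (n : ℕ) : ℝ :=
  sSup ((fun t => e n t) '' (G ∩ Ico a b))

theorem Cas.bdd (h : Cas ν T E G Y Z e) (a b : ℝ) (n : ℕ) :
    BddAbove ((fun t => e n t) '' (G ∩ Ico a b)) := by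
  refine ⟨E ^ 2, ?_⟩
  rintro _ ⟨t, ht, rfl⟩
  exact h.e_bdd n t ht.1

theorem Cas.le_Mw (h : Cas ν T E G Y Z e) {a b t : ℝ} (n : ℕ) (ht : t ∈ G ∩ Ico a b) :
    e n t ≤ Mw G e a b n := le_csSup (h.bdd a b n) ⟨t, ht, rfl⟩

/-- One step. -/
theorem Cas.step (h : Cas ν T E G Y Z e) {a b t : ℝ} (n : ℕ) (ha : a ∈ G)
    (ht : t ∈ G ∩ Ico a b) :
    e (n + 1) t + 72 * ν * ∫ τ in G ∩ Ioo a t, Z (n + 1) τ
      ≤ e (n + 1) a + 2 * (53000 * (1 / th4 ^ (2 * n)) *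
        (Real.sqrt (Mw G e a b n) * Dw G Y a b n)) := by
  have h1 := h.hi n a ha t ht.1 ht.2.1
  refine h1.trans ?_
  have hm : MeasurableSet (G ∩ Ioo a t) := h.openG.measurableSet.inter measurableSet_Ioo
  have h4 := th4_pos
  have h5 : 0 < th4 ^ (2 * n) := pow_pos h4 _
  have h2 : ∫ τ in G ∩ Ioo a t, Real.sqrt (Y n τ) * e n τ
      ≤ ∫ τ in G ∩ Ioo a t, (2 * Real.sqrt (Mw G e a b n) / 2 ^ n) * Y n τ := by
    refine setIntegral_mono_on ((h.intF n).mono_set inter_subset_left)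
      (((h.intY n).mono_set inter_subset_left).const_mul _) hm fun τ hτ => ?_
    have hτ' : τ ∈ G ∩ Ico a b := ⟨hτ.1, hτ.2.1.le, hτ.2.2.trans ht.2.2⟩
    have a1 := h.le_Mw n hτ'
    have a2 := h.i2 n τ hτ.1
    have a3 := h.e0 n τ
    have a4 := h.Y0 n τ
    have a5 : Real.sqrt (e n τ) * Real.sqrt (e n τ) = e n τ := Real.mul_self_sqrt a3
    have a6 : Real.sqrt (Y n τ) * Real.sqrt (Y n τ) = Y n τ := Real.mul_self_sqrt a4
    have a7 : Real.sqrt (e n τ) ≤ Real.sqrt (Mw G e a b n) := Real.sqrt_le_sqrt a1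
    have a8 : 2 ^ n * Real.sqrt (e n τ) ≤ 2 * Real.sqrt (Y n τ) := by
      have b1 : Real.sqrt (4 ^ n * e n τ) = 2 ^ n * Real.sqrt (e n τ) := by
        rw [Real.sqrt_mul (by positivity)]
        congr 1
        rw [show (4 : ℝ) ^ n = (2 ^ n) ^ 2 by rw [← pow_mul, mul_comm, pow_mul]; norm_num]
        exact Real.sqrt_sq (by positivity)
      have b2 : Real.sqrt (4 * Y n τ) = 2 * Real.sqrt (Y n τ) := by
        rw [Real.sqrt_mul (by norm_num)]
        congr 1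
        rw [show (4 : ℝ) = 2 ^ 2 by norm_num]
        exact Real.sqrt_sq (by norm_num)
      rw [← b1, ← b2]
      exact Real.sqrt_le_sqrt a2
    have a9 : Real.sqrt (e n τ) ≤ 2 * Real.sqrt (Y n τ) / 2 ^ n := by
      rw [le_div_iff₀ (by positivity)]
      linarith
    calc Real.sqrt (Y n τ) * e n τ
        = Real.sqrt (Y n τ) * (Real.sqrt (e n τ) * Real.sqrt (e n τ)) := by rw [a5]
      _ ≤ Real.sqrt (Y n τ) * (Real.sqrt (Mw G e a b n) * (2 * Real.sqrt (Y n τ) / 2 ^ n)) := by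
          gcongr
      _ = (2 * Real.sqrt (Mw G e a b n) / 2 ^ n) * (Real.sqrt (Y n τ) * Real.sqrt (Y n τ)) := by
          ring
      _ = _ := by rw [a6]
  rw [integral_const_mul] at h2
  have h3 : ∫ τ in G ∩ Ioo a t, Y n τ ≤ Dw G Y a b n := by
    unfold Dw
    refine setIntegral_mono_set ((h.intY n).mono_set inter_subset_left)
      (Eventually.of_forall fun τ => h.Y0 n τ) (LE.le.eventuallyLE ?_)
    exact inter_subset_inter_right _ (Ioo_subset_Ioo_right ht.2.2.le)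
  have h6 : 53000 * (2 ^ n / th4 ^ (2 * n)) * ∫ τ in G ∩ Ioo a t, Real.sqrt (Y n τ) * e n τ
      ≤ 53000 * (2 ^ n / th4 ^ (2 * n)) * ((2 * Real.sqrt (Mw G e a b n) / 2 ^ n) * Dw G Y a b n) := by
    have : (2 * Real.sqrt (Mw G e a b n) / 2 ^ n) * ∫ τ in G ∩ Ioo a t, Y n τ
        ≤ (2 * Real.sqrt (Mw G e a b n) / 2 ^ n) * Dw G Y a b n := by gcongr
    have h7 := h2.trans this
    gcongr
  refine (add_le_add le_rfl h6).trans (le_of_eq ?_)
  have h8 : (2 : ℝ) ^ n ≠ 0 := by positivity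
  field_simp

theorem th4_inv (n : ℕ) : (1 / th4 ^ (2 * n)) ^ 2 = 2 ^ n := by
  have h1 : th4 ^ (2 * n) * th4 ^ (2 * n) = (1 / 2) ^ n := by
    rw [← th4_four, ← pow_mul, ← pow_add]
    congr 1
    ring
  rw [div_pow, one_pow, sq, h1, one_div_pow, one_div_one_div]

theorem Cas.Mw_nonneg (h : Cas ν T E G Y Z e) (a b : ℝ) (n : ℕ) : 0 ≤ Mw G e a b n := by
  refine Real.sSup_nonneg ?_
  rintro _ ⟨t, _, rfl⟩
  exact h.e0 n t

theorem Cas.Z_int_nonneg (h : Cas ν T E G Y Z e) (n : ℕ) (S : Set ℝ) : 0 ≤ ∫ τ in S, Z n τ :=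
  integral_nonneg fun τ => h.Z0 n τ

/-- The closing argument. -/
theorem Cas.Mw_le (h : Cas ν T E G Y Z e) (hν : 0 ≤ ν) {a b : ℝ} (ha : a ∈ G) (hab : a < b)
    (n : ℕ) : Mw G e a b n ≤ CA * ((1 / 4) ^ n * Y n a + 2 ^ n * Dw G Y a b n ^ 2) := by
  have hne : ((G ∩ Ico a b)).Nonempty := ⟨a, ha, le_rfl, hab⟩
  have hCA : (8 : ℝ) ≤ CA := by unfold CA; norm_num
  induction n with
  | zero =>
    refine csSup_le (hne.image _) ?_
    rintro _ ⟨t, ht, rfl⟩
    have h1 := h.lo a ha t ht.1 ht.2.1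
    have h2 := h.e_le 0 ha
    have h3 := h.Y0 0 a
    simp only [pow_zero, mul_one, one_mul] at h2 ⊢
    have h4 : 0 ≤ Dw G Y a b 0 ^ 2 := sq_nonneg _
    calc e 0 t ≤ 4 * Y 0 a := h1.trans h2
      _ ≤ CA * Y 0 a := by gcongr; linarith
      _ ≤ CA * (Y 0 a + Dw G Y a b 0 ^ 2) := by gcongr; linarith
  | succ n ih =>
    have hY := h.Y_succ n ha
    have hD := h.Dw_succ a b n
    have hD0 := h.Dw_nonneg a b n
    have hD1 := h.Dw_nonneg a b (n + 1)
    have hM0 := h.Mw_nonneg a b n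
    have hM1 := h.Mw_nonneg a b (n + 1)
    have hY0 := h.Y0 n a
    have hY1 := h.Y0 (n + 1) a
    have hrh := rh_gt
    have hrh2 := rh_sq
    have hD2 : 2 ^ n * Dw G Y a b n ^ 2 ≤ 2 ^ (n + 1) * Dw G Y a b (n + 1) ^ 2 := by
      have h1 : (rh * Dw G Y a b n) ^ 2 ≤ Dw G Y a b (n + 1) ^ 2 :=
        pow_le_pow_left₀ (by positivity) hD 2
      rw [mul_pow, hrh2] at h1
      have h2 : (0 : ℝ) < 2 ^ n := by positivity
      have e2 : (2 : ℝ) ^ (n + 1) = 2 ^ n * 2 := pow_succ 2 n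
      rw [e2]
      calc 2 ^ n * Dw G Y a b n ^ 2 = 2 ^ n * 2 * (1 / 2 * Dw G Y a b n ^ 2) := by ring
        _ ≤ 2 ^ n * 2 * Dw G Y a b (n + 1) ^ 2 := by gcongr
    have hYb : (1 / 4 : ℝ) ^ n * Y n a ≤ 8 * ((1 / 4) ^ (n + 1) * Y (n + 1) a) := by
      have h2 : (0 : ℝ) < (1 / 4) ^ n := by positivity
      have h3 : Y n a ≤ 2 * Y (n + 1) a := by nlinarith
      rw [pow_succ]
      nlinarith
    rcases le_or_gt (Mw G e a b n) (8 * Mw G e a b (n + 1)) with hc | hc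
    · -- the first case
      have hk : Mw G e a b (n + 1) ≤ e (n + 1) a + 2 * (53000 * (1 / th4 ^ (2 * n)) *
          (Real.sqrt (Mw G e a b n) * Dw G Y a b n)) := by
        refine csSup_le (hne.image _) ?_
        rintro _ ⟨t, ht, rfl⟩
        have h1 := h.step n ha ht
        have h2 := h.Z_int_nonneg (n + 1) (G ∩ Ioo a t)
        have h3 : 0 ≤ 72 * ν * ∫ τ in G ∩ Ioo a t, Z (n + 1) τ := by positivity
        simp only
        linarith
      set x := Real.sqrt (Mw G e a b n) with hx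
      set w := 1 / th4 ^ (2 * n) with hw
      have hw2 : w ^ 2 = 2 ^ n := th4_inv n
      have hx2 : x ^ 2 = Mw G e a b n := Real.sq_sqrt hM0
      have hxx : x ^ 2 ≤ 8 * Mw G e a b (n + 1) := by rw [hx2]; exact hc
      have am : 2 * (53000 * w * (x * Dw G Y a b n))
          ≤ x ^ 2 / 16 + 16 * 53000 ^ 2 * (w ^ 2 * Dw G Y a b n ^ 2) := by
        nlinarith [sq_nonneg (x / 4 - 4 * 53000 * w * Dw G Y a b n)]
      rw [hw2] at am
      have he := h.e_le (n + 1) ha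
      have hM2 : Mw G e a b (n + 1) ≤ 2 * e (n + 1) a + CA * (2 ^ n * Dw G Y a b n ^ 2) := by
        unfold CA
        linarith
      have h9 : 0 ≤ (1 / 4 : ℝ) ^ (n + 1) * Y (n + 1) a := by positivity
      calc Mw G e a b (n + 1) ≤ 2 * e (n + 1) a + CA * (2 ^ n * Dw G Y a b n ^ 2) := hM2
        _ ≤ 2 * (4 * (1 / 4) ^ (n + 1) * Y (n + 1) a)
            + CA * (2 ^ (n + 1) * Dw G Y a b (n + 1) ^ 2) := by gcongr
        _ = 8 * ((1 / 4) ^ (n + 1) * Y (n + 1) a)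
            + CA * (2 ^ (n + 1) * Dw G Y a b (n + 1) ^ 2) := by ring
        _ ≤ CA * ((1 / 4) ^ (n + 1) * Y (n + 1) a)
            + CA * (2 ^ (n + 1) * Dw G Y a b (n + 1) ^ 2) := by gcongr
        _ = _ := by ring
    · have h9 : 0 ≤ 2 ^ (n + 1) * Dw G Y a b (n + 1) ^ 2 := by positivity
      have hCA0 : 0 ≤ CA := by linarith
      calc Mw G e a b (n + 1) ≤ Mw G e a b n / 8 := by linarith
        _ ≤ CA * ((1 / 4) ^ n * Y n a + 2 ^ n * Dw G Y a b n ^ 2) / 8 := by gcongr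
        _ ≤ CA * (8 * ((1 / 4) ^ (n + 1) * Y (n + 1) a)
            + 2 ^ (n + 1) * Dw G Y a b (n + 1) ^ 2) / 8 := by gcongr
        _ ≤ CA * (8 * ((1 / 4) ^ (n + 1) * Y (n + 1) a)
            + 8 * (2 ^ (n + 1) * Dw G Y a b (n + 1) ^ 2)) / 8 := by
            have h10 : 2 ^ (n + 1) * Dw G Y a b (n + 1) ^ 2
              ≤ 8 * (2 ^ (n + 1) * Dw G Y a b (n + 1) ^ 2) := by linarith
            have h11 := add_le_add_right h10 (8 * ((1 / 4) ^ (n + 1) * Y (n + 1) a))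
            exact div_le_div_of_nonneg_right (mul_le_mul_of_nonneg_left h11 hCA0) (by norm_num)
        _ = _ := by ring

/-- The constant of the window inequality. -/
noncomputable def CF : ℝ := 53000 * (CA + 1) + 2

/-- The window inequality up to a regular time. -/
theorem Cas.win0 (h : Cas ν T E G Y Z e) (hν : 0 ≤ ν) {a b t : ℝ} (ha : a ∈ G) (hab : a < b)
    (n : ℕ) (ht : t ∈ G ∩ Ico a b) :
    72 * ν * ∫ τ in G ∩ Ioo a t, Z (n + 1) τ
      ≤ CF * ((1 / 4) ^ n * Y n a + 2 ^ n * Dw G Y a b n ^ 2) := by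
  have h1 := h.step n ha ht
  have h2 := h.Mw_le hν ha hab n
  have h3 := h.e_le (n + 1) ha
  have h4 := h.Y_pred n ha
  have h5 := h.e0 (n + 1) t
  have hrh := rh_gt
  have hY1 := h.Y0 (n + 1) a
  have hY0 := h.Y0 n a
  have hM0 := h.Mw_nonneg a b n
  have hD0 := h.Dw_nonneg a b n
  set x := Real.sqrt (Mw G e a b n) with hx
  set w := 1 / th4 ^ (2 * n) with hw
  have hw2 : w ^ 2 = 2 ^ n := th4_inv n
  have hx2 : x ^ 2 = Mw G e a b n := Real.sq_sqrt hM0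
  have am : 2 * (53000 * w * (x * Dw G Y a b n))
      ≤ 53000 * (x ^ 2 + w ^ 2 * Dw G Y a b n ^ 2) := by
    nlinarith [sq_nonneg (x - w * Dw G Y a b n)]
  rw [hw2, hx2] at am
  have h6 : e (n + 1) a ≤ 2 * ((1 / 4) ^ n * Y n a) := by
    refine h3.trans ?_
    have h7 : Y (n + 1) a ≤ 2 * Y n a := by nlinarith
    have h8 : (0 : ℝ) < (1 / 4) ^ n := by positivity
    rw [pow_succ]
    nlinarith
  have h9 : 0 ≤ 2 ^ n * Dw G Y a b n ^ 2 := by positivity
  have h10 : 0 ≤ (1 / 4 : ℝ) ^ n * Y n a := by positivity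
  unfold CF
  set Y' := (1 / 4 : ℝ) ^ n * Y n a with hY'
  set D' := 2 ^ n * Dw G Y a b n ^ 2 with hD'
  have h11 : 53000 * (Mw G e a b n + D') ≤ 53000 * (CA * (Y' + D') + D') := by
    have := h2
    linarith
  have h12 : (53000 * (CA + 1) + 2) * (Y' + D')
      = 2 * Y' + 53000 * (CA * (Y' + D') + D') + (53000 * Y' + 2 * D') := by ring
  rw [h12]
  linarith

/-- There are regular times close to the left of each time. -/
theorem Cas.exists_reg (h : Cas ν T E G Y Z e) {a b : ℝ} (ha : 0 ≤ a) (hab : a < b) (hb : b ≤ T) :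
    ∃ t ∈ G, t ∈ Ioo a b := by
  by_contra hc
  push Not at hc
  have h1 : Ioo a b ⊆ Ioo 0 T \ G := fun t ht =>
    ⟨⟨ha.trans_lt ht.1, ht.2.trans_le hb⟩, fun hG => hc t hG ht⟩
  have h2 : volume (Ioo a b) = 0 := measure_mono_null h1 h.fullG
  rw [Real.volume_Ioo, ENNReal.ofReal_eq_zero] at h2
  linarith

/-- The window inequality. -/
theorem Cas.win1 (h : Cas ν T E G Y Z e) (hν : 0 ≤ ν) {a b : ℝ} (ha : a ∈ G) (hab : a < b)
    (hb : b ≤ T) (n : ℕ) :
    72 * ν * ∫ τ in G ∩ Ioo a b, Z (n + 1) τ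
      ≤ CF * ((1 / 4) ^ n * Y n a + 2 ^ n * Dw G Y a b n ^ 2) := by
  set B := CF * ((1 / 4) ^ n * Y n a + 2 ^ n * Dw G Y a b n ^ 2) with hB
  obtain ⟨x, hx1, hx2, hx3⟩ := exists_seq_strictMono_tendsto b
  have hmono : Monotone fun k => G ∩ Ioo a (x k) := fun i j hij =>
    inter_subset_inter_right _ (Ioo_subset_Ioo_right (hx1.monotone hij))
  have hU : ⋃ k, G ∩ Ioo a (x k) = G ∩ Ioo a b := by
    ext τ
    simp only [mem_iUnion, mem_inter_iff, mem_Ioo]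
    constructor
    · rintro ⟨k, h1, h2, h3⟩
      exact ⟨h1, h2, h3.trans (hx2 k)⟩
    · rintro ⟨h1, h2, h3⟩
      obtain ⟨k, hk⟩ := (hx3.eventually (lt_mem_nhds h3)).exists
      exact ⟨k, h1, h2, hk⟩
  have hlim := tendsto_setIntegral_of_monotone (μ := volume) (f := fun τ => Z (n + 1) τ)
    (fun k => h.openG.measurableSet.inter (measurableSet_Ioo (a := a) (b := x k))) hmono
    (by rw [hU]; exact (h.intZ (n + 1)).mono_set inter_subset_left)
  rw [hU] at hlim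
  refine le_of_tendsto (hlim.const_mul (72 * ν)) (Eventually.of_forall fun k => ?_)
  rcases le_or_gt (x k) a with hk | hk
  · rw [Ioo_eq_empty (not_lt.2 hk), inter_empty]
    simp only [Measure.restrict_empty, integral_zero_measure, mul_zero]
    have := h.Y0 n a
    have : 0 ≤ CF := by unfold CF CA; norm_num
    positivity
  · obtain ⟨t, htG, ht⟩ := h.exists_reg (a := x k) (b := b)
      ((h.subG ha).1.le.trans hk.le) (hx2 k) hb
    refine le_trans ?_ (h.win0 hν ha hab n ⟨htG, hk.le.trans ht.1.le, ht.2⟩)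
    refine mul_le_mul_of_nonneg_left ?_ (by positivity)
    refine setIntegral_mono_set ((h.intZ (n + 1)).mono_set inter_subset_left)
      (Eventually.of_forall fun τ => h.Z0 (n + 1) τ) (LE.le.eventuallyLE ?_)
    exact inter_subset_inter_right _ (Ioo_subset_Ioo_right ht.1.le)

/-- The window inequality with average. -/
theorem Cas.win (h : Cas ν T E G Y Z e) (hν : 0 ≤ ν) {t l : ℝ} (hl : 0 < l) (ht : 3 * l ≤ t)
    (htT : t < T) (n : ℕ) :
    72 * ν * ∫ τ in G ∩ Ioo (t - 2 * l) (t + 2 * l), Z (n + 1) τ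
      ≤ CF * ((1 / 4) ^ n * (Dw G Y (t - 3 * l) (t + 3 * l) n / l)
        + 2 ^ n * Dw G Y (t - 3 * l) (t + 3 * l) n ^ 2) := by
  set D := Dw G Y (t - 3 * l) (t + 3 * l) n with hD
  set S : Set ℝ := G ∩ Ioo (t - 3 * l) (t - 2 * l) with hS
  have hSm : MeasurableSet S := h.openG.measurableSet.inter measurableSet_Ioo
  have hSv : volume S = ENNReal.ofReal l := by
    have h1 : volume (Ioo (t - 3 * l) (t - 2 * l)) = ENNReal.ofReal l := by
      rw [Real.volume_Ioo]; congr 1; ring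
    rw [← h1]
    refine le_antisymm (measure_mono inter_subset_right) ?_
    have h2 : Ioo (t - 3 * l) (t - 2 * l) ⊆ S ∪ (Ioo 0 T \ G) := by
      intro τ hτ
      by_cases hG : τ ∈ G
      · exact Or.inl ⟨hG, hτ⟩
      · exact Or.inr ⟨⟨by linarith [hτ.1], by linarith [hτ.2]⟩, hG⟩
    refine (measure_mono h2).trans ((measure_union_le _ _).trans ?_)
    rw [h.fullG, add_zero]
  have hint : IntegrableOn (Y n) S := (h.intY n).mono_set inter_subset_left
  obtain ⟨a, haS, haY⟩ := exists_le_setAverage (μ := volume) (s := S) (f := Y n)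
    (by rw [hSv]; simpa using hl) (by rw [hSv]; exact ENNReal.ofReal_ne_top) hint
  rw [setAverage_eq, measureReal_def, hSv, ENNReal.toReal_ofReal hl.le, smul_eq_mul,
    inv_mul_eq_div] at haY
  have hY : Y n a ≤ D / l := by
    refine haY.trans ?_
    refine div_le_div_of_nonneg_right ?_ hl.le
    refine setIntegral_mono_set ((h.intY n).mono_set inter_subset_left)
      (Eventually.of_forall fun τ => h.Y0 n τ) (LE.le.eventuallyLE ?_)
    exact inter_subset_inter_right _ (Ioo_subset_Ioo_right (by linarith))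
  set b := min (t + 3 * l) T with hb
  have hab : a < b := by
    rw [hb, lt_min_iff]
    exact ⟨by linarith [haS.2.2], by linarith [haS.2.2]⟩
  have hsubw : G ∩ Ioo a b ⊆ G ∩ Ioo (t - 3 * l) (t + 3 * l) := fun τ hτ =>
    ⟨hτ.1, haS.2.1.trans hτ.2.1, hτ.2.2.trans_le (min_le_left _ _)⟩
  have h1 := h.win1 hν haS.1 hab (min_le_right _ _) n
  have hDD : Dw G Y a b n ≤ D := by
    rw [hD]
    unfold Dw
    exact setIntegral_mono_set ((h.intY n).mono_set inter_subset_left)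
      (Eventually.of_forall fun τ => h.Y0 n τ) (LE.le.eventuallyLE hsubw)
  have hD0 := h.Dw_nonneg a b n
  have h2 : ∫ τ in G ∩ Ioo (t - 2 * l) (t + 2 * l), Z (n + 1) τ
      ≤ ∫ τ in G ∩ Ioo a b, Z (n + 1) τ := by
    refine setIntegral_mono_set ((h.intZ (n + 1)).mono_set inter_subset_left)
      (Eventually.of_forall fun τ => h.Z0 (n + 1) τ) (LE.le.eventuallyLE ?_)
    intro τ hτ
    refine ⟨hτ.1, haS.2.2.trans hτ.2.1, ?_⟩
    rw [hb, lt_min_iff]
    exact ⟨by linarith [hτ.2.2], (h.subG hτ.1).2⟩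
  have hCF : 0 ≤ CF := by unfold CF CA; norm_num
  calc 72 * ν * ∫ τ in G ∩ Ioo (t - 2 * l) (t + 2 * l), Z (n + 1) τ
      ≤ 72 * ν * ∫ τ in G ∩ Ioo a b, Z (n + 1) τ := by gcongr
    _ ≤ CF * ((1 / 4) ^ n * Y n a + 2 ^ n * Dw G Y a b n ^ 2) := h1
    _ ≤ _ := by gcongr

end

end Pool.Agent.Helper24.ST
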