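import Pool.Agent.Helper24.ST.Ftc

set_option autoImplicit false

/-!
The Fourier coefficients are Lipschitz functions of time.
-/

open MeasureTheory Set Filter Topology
open scoped ContDiff ENNReal NNReal

namespace Pool.Agent.Helper24.ST

open H459R3.NS Pool.Agent.Q63.Win

/-- The fields `w cos (2 π k · x)` and `w sin (2 π k · x)`. -/
noncomputable def tf (g : ℝ → ℝ) (w : Fin 3 → ℝ) (k : K3) (x : V) : V :=
  fun j => w j * g (2 * Real.pi * ph k x)

theorem tf_spv {g : ℝ → ℝ} (hg : ContDiff ℝ ∞ g) (hper : ∀ (x : ℝ) (n : ℤ), g (x + n * (2 * Real.pi)) = g x)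
    (w : Fin 3 → ℝ) (k : K3) : SPV (tf g w k) := by
  constructor
  · refine contDiff_pi.2 fun j => ?_
    exact contDiff_const.mul (hg.comp (contDiff_const.mul (ph_contDiff k)))
  · intro i x
    funext j
    unfold tf
    rw [ph_add, ph_single, mul_one, mul_add,
      show 2 * Real.pi * ph k x + 2 * Real.pi * (k i : ℝ)
        = 2 * Real.pi * ph k x + (k i : ℝ) * (2 * Real.pi) by ring, hper]

theorem tf_div {g g' : ℝ → ℝ} (hg : ∀ x, HasDerivAt g (g' x) x)
    {w : Fin 3 → ℝ} {k : K3} (hw : ∑ j, (k j : ℝ) * w j = 0) (x : V) :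
    ∑ i, pd i (fun y => tf g w k y i) x = 0 := by
  have h : ∀ i, pd i (fun y => tf g w k y i) x
      = (2 * Real.pi * g' (2 * Real.pi * ph k x)) * ((k i : ℝ) * w i) := by
    intro i
    have h1 := ((hasFDerivAt_ph k x).const_mul (2 * Real.pi))
    have h2 := ((hg (2 * Real.pi * ph k x)).comp_hasFDerivAt x h1).const_mul (w i)
    have h3 : HasFDerivAt (fun y => tf g w k y i) _ x := h2
    unfold pd
    rw [h3.fderiv]
    simp only [smul_apply, sum_apply,
      ContinuousLinearMap.proj_apply, smul_eq_mul, Pi.single_apply]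
    rw [Finset.sum_eq_single i (fun b _ hb => by rw [if_neg hb, mul_zero])
      (fun h => absurd (Finset.mem_univ i) h), if_pos rfl]
    ring
  simp_rw [h]
  rw [← Finset.mul_sum, hw, mul_zero]

theorem tf_int (g : ℝ → ℝ) (w : Fin 3 → ℝ) (k : K3) (v : V → V) :
    ∑ i, ∫ x in cube, v x i * tf g w k x i
      = ∑ i, w i * ∫ x in cube, g (2 * Real.pi * ph k x) * v x i := by
  refine Finset.sum_congr rfl fun i _ => ?_
  rw [← integral_const_mul]
  congr 1
  funext x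
  unfold tf
  ring

section

variable {ν T E : ℝ} {G : Set ℝ} {u : ℝ → V → V} {p : ℝ → V → ℝ}

theorem IsLeray.coef_lip_w (h : IsLeray ν T E G u p) (hν : 0 ≤ ν) {w : Fin 3 → ℝ} {k : K3}
    (hw : ∑ j, (k j : ℝ) * w j = 0) :
    ∃ B : ℝ, 0 ≤ B ∧ ∀ s ∈ G, ∀ t ∈ G,
      ‖(∑ i, (w i : ℂ) * cof (u t) k i) - ∑ i, (w i : ℂ) * cof (u s) k i‖ ≤ B * |t - s| := by
  have hcosper : ∀ (x : ℝ) (n : ℤ), Real.cos (x + n * (2 * Real.pi)) = Real.cos x :=
    Real.cos_add_int_mul_two_pi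
  have hsinper : ∀ (x : ℝ) (n : ℤ), Real.sin (x + n * (2 * Real.pi)) = Real.sin x :=
    Real.sin_add_int_mul_two_pi
  obtain ⟨B1, hB10, hB1⟩ := h.lip hν (tf_spv Real.contDiff_cos hcosper w k)
    (tf_div (g' := fun x => -Real.sin x) Real.hasDerivAt_cos hw)
  obtain ⟨B2, hB20, hB2⟩ := h.lip hν (tf_spv Real.contDiff_sin hsinper w k)
    (tf_div (g' := Real.cos) Real.hasDerivAt_sin hw)
  refine ⟨B1 + B2, by positivity, fun s hs t ht => ?_⟩
  have h1 := hB1 s hs t ht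
  have h2 := hB2 s hs t ht
  rw [tf_int, tf_int] at h1 h2
  have e : ∀ τ ∈ G, (∑ i, (w i : ℂ) * cof (u τ) k i)
      = ((∑ i, w i * ∫ x in cube, Real.cos (2 * Real.pi * ph k x) * u τ x i : ℝ) : ℂ)
        - ((∑ i, w i * ∫ x in cube, Real.sin (2 * Real.pi * ph k x) * u τ x i : ℝ) : ℂ) * Complex.I := by
    intro τ hτ
    unfold cof
    push_cast
    rw [Finset.sum_mul, ← Finset.sum_sub_distrib]
    refine Finset.sum_congr rfl fun i _ => ?_
    rw [fr_eq (h.sp hτ i).cont]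
    push_cast
    ring
  rw [e t ht, e s hs]
  set a := ∑ i, w i * ∫ x in cube, Real.cos (2 * Real.pi * ph k x) * u t x i
  set a' := ∑ i, w i * ∫ x in cube, Real.cos (2 * Real.pi * ph k x) * u s x i
  set b := ∑ i, w i * ∫ x in cube, Real.sin (2 * Real.pi * ph k x) * u t x i
  set b' := ∑ i, w i * ∫ x in cube, Real.sin (2 * Real.pi * ph k x) * u s x i
  have e2 : (a : ℂ) - (b : ℂ) * Complex.I - ((a' : ℂ) - (b' : ℂ) * Complex.I)
      = ((a - a' : ℝ) : ℂ) - ((b - b' : ℝ) : ℂ) * Complex.I := by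
    push_cast
    ring
  rw [e2]
  refine (norm_sub_le _ _).trans ?_
  rw [norm_mul, Complex.norm_I, mul_one, Complex.norm_real, Complex.norm_real, Real.norm_eq_abs,
    Real.norm_eq_abs]
  calc |a - a'| + |b - b'| ≤ B1 * |t - s| + B2 * |t - s| := add_le_add h1 h2
    _ = _ := by ring

theorem IsLeray.div0 (h : IsLeray ν T E G u p) {t : ℝ} (ht : t ∈ G) (k : K3) :
    ∑ i, (k i : ℂ) * cof (u t) k i = 0 :=
  fr_div (v := fun i y => u t y i) (fun i => h.sp ht i) (h.divfree t ht) k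

theorem IsLeray.coef_lip (h : IsLeray ν T E G u p) (hν : 0 ≤ ν) (k : K3) (i : Fin 3) :
    ∃ B : ℝ, 0 ≤ B ∧ ∀ s ∈ G, ∀ t ∈ G, ‖cof (u t) k i - cof (u s) k i‖ ≤ B * |t - s| := by
  by_cases hk : k = 0
  · obtain ⟨B, hB0, hB⟩ := h.coef_lip_w hν (w := Pi.single i 1) (k := k) (by
      subst hk
      simp)
    refine ⟨B, hB0, fun s hs t ht => ?_⟩
    have h1 := hB s hs t ht
    have e : ∀ τ, (∑ j, (((Pi.single i 1 : Fin 3 → ℝ) j : ℝ) : ℂ) * cof (u τ) k j) = cof (u τ) k i := by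
      intro τ
      rw [Finset.sum_eq_single i]
      · simp
      · intro j _ hj
        simp [hj]
      · intro h
        exact absurd (Finset.mem_univ i) h
    rwa [e, e] at h1
  · set K2 : ℝ := ∑ j, (k j : ℝ) ^ 2 with hK2
    have hK2pos : 0 < K2 := by
      have h1 := N_sq_le k
      have h2 : N k ≠ 0 := fun h => hk (N_eq_zero.1 h)
      have h3 : (0 : ℝ) < (N k : ℝ) ^ 2 := by positivity
      linarith
    set w : Fin 3 → ℝ := fun j => K2 * (if j = i then 1 else 0) - k i * k j with hw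
    obtain ⟨B, hB0, hB⟩ := h.coef_lip_w hν (w := w) (k := k) (by
      simp only [hw]
      have : ∀ j, (k j : ℝ) * (K2 * (if j = i then 1 else 0) - k i * k j)
          = K2 * ((k j : ℝ) * (if j = i then 1 else 0)) - k i * (k j : ℝ) ^ 2 := fun j => by ring
      simp_rw [this]
      rw [Finset.sum_sub_distrib, ← Finset.mul_sum, ← Finset.mul_sum]
      simp [← hK2]
      ring)
    refine ⟨B / K2, by positivity, fun s hs t ht => ?_⟩
    have h1 := hB s hs t ht
    have e : ∀ τ ∈ G, (∑ j, ((w j : ℝ) : ℂ) * cof (u τ) k j) = (K2 : ℂ) * cof (u τ) k i := by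
      intro τ hτ
      have h2 := h.div0 hτ k
      have e1 : ∀ j, ((w j : ℝ) : ℂ) * cof (u τ) k j
          = (K2 : ℂ) * ((if j = i then 1 else 0) * cof (u τ) k j) - (k i : ℂ) * ((k j : ℂ) * cof (u τ) k j) := by
        intro j
        simp only [hw]
        push_cast
        split_ifs <;> push_cast <;> ring
      simp_rw [e1]
      rw [Finset.sum_sub_distrib, ← Finset.mul_sum, ← Finset.mul_sum, h2, mul_zero, sub_zero]
      simp
    rw [e t ht, e s hs, ← mul_sub, norm_mul, Complex.norm_real, Real.norm_eq_abs,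
      abs_of_pos hK2pos] at h1
    rw [div_mul_eq_mul_div, le_div_iff₀ hK2pos]
    linarith

theorem IsLeray.coef_le (h : IsLeray ν T E G u p) {t : ℝ} (ht : t ∈ G) (k : K3) :
    amp (cof (u t)) k ≤ |E| := by
  have h1 := hasSum_amp (fun i => h.sp ht i)
  have h2 : amp (cof (u t)) k ^ 2 ≤ energy (u t) := by
    rw [← h1.tsum_eq]
    exact h1.summable.le_tsum k fun _ _ => sq_nonneg _
  have h3 := h.energy_le t ht
  exact abs_le_of_sq_le_sq' (h2.trans h3) |>.2
where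
  abs_le_of_sq_le_sq' {x y : ℝ} (h : x ^ 2 ≤ y ^ 2) : -|y| ≤ x ∧ x ≤ |y| :=
    abs_le.1 (sq_le_sq.1 h)

/-- The squares of the amplitudes are Lipschitz functions of time. -/
theorem IsLeray.amp_lip (h : IsLeray ν T E G u p) (hν : 0 ≤ ν) (k : K3) :
    ∃ L : ℝ≥0, LipschitzOnWith L (fun t => amp (cof (u t)) k ^ 2) G := by
  choose B hB0 hB using fun i => h.coef_lip hν k i
  have hS : 0 ≤ ∑ i, 2 * |E| * B i := Finset.sum_nonneg fun i _ => by
    have := hB0 i
    positivity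
  refine ⟨⟨∑ i, 2 * |E| * B i, hS⟩, LipschitzOnWith.of_dist_le_mul fun s hs t ht => ?_⟩
  rw [Real.dist_eq, Real.dist_eq, amp_sq, amp_sq, ← Finset.sum_sub_distrib]
  show _ ≤ (∑ i, 2 * |E| * B i) * |s - t|
  rw [Finset.sum_mul]
  refine (Finset.abs_sum_le_sum_abs _ _).trans (Finset.sum_le_sum fun i _ => ?_)
  have h1 : ‖cof (u s) k i‖ ≤ |E| := (norm_le_amp _ k i).trans (h.coef_le hs k)
  have h2 : ‖cof (u t) k i‖ ≤ |E| := (norm_le_amp _ k i).trans (h.coef_le ht k)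
  have h3 : |‖cof (u s) k i‖ - ‖cof (u t) k i‖| ≤ B i * |s - t| :=
    (abs_norm_sub_norm_le _ _).trans (hB i t ht s hs)
  have h4 : ‖cof (u s) k i‖ ^ 2 - ‖cof (u t) k i‖ ^ 2
      = (‖cof (u s) k i‖ + ‖cof (u t) k i‖) * (‖cof (u s) k i‖ - ‖cof (u t) k i‖) := by ring
  rw [h4, abs_mul, abs_of_nonneg (by positivity)]
  calc (‖cof (u s) k i‖ + ‖cof (u t) k i‖) * |‖cof (u s) k i‖ - ‖cof (u t) k i‖|
      ≤ (|E| + |E|) * (B i * |s - t|) := by gcongr
    _ = _ := by ring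

theorem IsLeray.null (h : IsLeray ν T E G u p) {s t : ℝ} (hs : s ∈ G) (ht : t ∈ G) :
    volume (Ioo s t \ G) = 0 := by
  refine measure_mono_null (sdiff_subset_sdiff_left ?_) h.fullG
  exact Ioo_subset_Ioo (h.subG hs).1.le (h.subG ht).2.le

/-- The evolution of the square of an amplitude, also across singular times. -/
theorem IsLeray.amp_evo (h : IsLeray ν T E G u p) (hν : 0 ≤ ν) (k : K3) {s t : ℝ} (hs : s ∈ G)
    (ht : t ∈ G) (hst : s ≤ t) :
    IntegrableOn (fun τ => -(2 * msym ν k * amp (cof (u τ)) k ^ 2)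
      - 2 * (∑ i, (starRingEnd ℂ) (cof (u τ) k i) * NL (cof (u τ)) k i).re) (G ∩ Ioo s t) ∧
    ∫ τ in G ∩ Ioo s t, (-(2 * msym ν k * amp (cof (u τ)) k ^ 2)
      - 2 * (∑ i, (starRingEnd ℂ) (cof (u τ) k i) * NL (cof (u τ)) k i).re)
      = amp (cof (u t)) k ^ 2 - amp (cof (u s)) k ^ 2 := by
  obtain ⟨L, hL⟩ := h.amp_lip hν k
  exact ftc_open h.openG hst hs ht (h.null hs ht) hL fun τ hτ => h.esq hτ k

end

end Pool.Agent.Helper24.ST
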