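import Mathlib

set_option autoImplicit false

/-!
An abstract covering argument.
-/

open MeasureTheory Set Filter Topology
open scoped ENNReal NNReal

namespace Pool.Agent.Helper24.ST

/-- One point in each cell of length `l` which meets `X`. -/
theorem reps {X : Set ℝ} {a b l : ℝ} (hX : X ⊆ Icc a b) (hl : 0 < l) :
    ∃ F : Finset ℝ, (∀ t ∈ F, t ∈ X) ∧ (∀ s ∈ F, ∀ t ∈ F, ⌊s / l⌋ = ⌊t / l⌋ → s = t) ∧
      ∀ x ∈ X, ∃ t ∈ F, |x - t| < l := by
  classical
  set g : ℝ → ℤ := fun t => ⌊t / l⌋ with hg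
  have hfin : (g '' X).Finite := by
    refine (Set.finite_Icc ⌊a / l⌋ ⌊b / l⌋).subset ?_
    rintro _ ⟨x, hx, rfl⟩
    have h1 := hX hx
    exact ⟨Int.floor_le_floor (div_le_div_of_nonneg_right h1.1 hl.le),
      Int.floor_le_floor (div_le_div_of_nonneg_right h1.2 hl.le)⟩
  choose! r hr using fun (m : ℤ) (hm : m ∈ g '' X) => hm
  refine ⟨hfin.toFinset.image r, ?_, ?_, ?_⟩
  · intro t ht
    obtain ⟨m, hm, rfl⟩ := Finset.mem_image.1 ht
    exact (hr m (hfin.mem_toFinset.1 hm)).1
  · intro s hs t ht hst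
    obtain ⟨m, hm, rfl⟩ := Finset.mem_image.1 hs
    obtain ⟨m', hm', rfl⟩ := Finset.mem_image.1 ht
    have h1 := (hr m (hfin.mem_toFinset.1 hm)).2
    have h2 := (hr m' (hfin.mem_toFinset.1 hm')).2
    have h3 : m = m' := by
      rw [← h1, ← h2]
      exact hst
    rw [h3]
  · intro x hx
    have hm : g x ∈ g '' X := ⟨x, hx, rfl⟩
    refine ⟨r (g x), Finset.mem_image.2 ⟨g x, hfin.mem_toFinset.2 hm, rfl⟩, ?_⟩
    have h1 := (hr (g x) hm).2
    have h2 : ⌊r (g x) / l⌋ = ⌊x / l⌋ := h1
    have h3 := Int.abs_sub_lt_one_of_floor_eq_floor h2.symm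
    rw [← sub_div, abs_div, abs_of_pos hl, div_lt_one hl] at h3
    exact h3

/-- Bounded overlap. -/
theorem overlap (μ : Measure ℝ) [IsFiniteMeasure μ] {S : Set ℝ} (hS : MeasurableSet S) {l : ℝ}
    (hl : 0 < l) {F : Finset ℝ} (hF : ∀ s ∈ F, ∀ t ∈ F, ⌊s / l⌋ = ⌊t / l⌋ → s = t) :
    ∑ t ∈ F, μ.real (S ∩ Metric.ball t (3 * l)) ≤ 7 * μ.real S := by
  classical
  have hm : ∀ t, MeasurableSet (S ∩ Metric.ball t (3 * l)) := fun t =>
    hS.inter Metric.isOpen_ball.measurableSet
  have key : ∑ t ∈ F, μ (S ∩ Metric.ball t (3 * l)) ≤ 7 * μ S := by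
    calc ∑ t ∈ F, μ (S ∩ Metric.ball t (3 * l))
        = ∑ t ∈ F, ∫⁻ x, (S ∩ Metric.ball t (3 * l)).indicator 1 x ∂μ := by
          refine Finset.sum_congr rfl fun t _ => ?_
          rw [lintegral_indicator_one (hm t)]
      _ = ∫⁻ x, ∑ t ∈ F, (S ∩ Metric.ball t (3 * l)).indicator 1 x ∂μ := by
          rw [lintegral_finsetSum]
          intro t _
          exact (measurable_one.indicator (hm t))
      _ ≤ ∫⁻ x, 7 * S.indicator 1 x ∂μ := by
          refine lintegral_mono fun x => ?_
          by_cases hx : x ∈ S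
          · rw [indicator_of_mem hx]
            have e1 : ∀ t ∈ F, (S ∩ Metric.ball t (3 * l)).indicator (1 : ℝ → ℝ≥0∞) x
                = if x ∈ Metric.ball t (3 * l) then 1 else 0 := by
              intro t _
              by_cases h : x ∈ Metric.ball t (3 * l)
              · rw [indicator_of_mem (show x ∈ S ∩ Metric.ball t (3 * l) from ⟨hx, h⟩), if_pos h]; rfl
              · rw [indicator_of_notMem (fun h' => h h'.2), if_neg h]
            rw [Finset.sum_congr rfl e1, Finset.sum_boole, Pi.one_apply, mul_one]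
            have hcard : (F.filter fun t => x ∈ Metric.ball t (3 * l)).card
                ≤ (Finset.Icc (⌊x / l⌋ - 3) (⌊x / l⌋ + 3)).card := by
              refine Finset.card_le_card_of_injOn (fun t => ⌊t / l⌋) (fun t ht => ?_)
                (fun s hs t ht hst => ?_)
              · have h1 := (Finset.mem_filter.1 ht).2
                rw [Metric.mem_ball, Real.dist_eq, abs_lt] at h1
                rw [Finset.coe_Icc]
                have e3 : x / l - 3 < t / l := by
                  rw [lt_div_iff₀ hl, sub_mul, div_mul_cancel₀ _ hl.ne']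
                  linarith
                have e4 : t / l < x / l + 3 := by
                  rw [div_lt_iff₀ hl, add_mul, div_mul_cancel₀ _ hl.ne']
                  linarith
                have f1 := Int.floor_le (x / l)
                have f2 := Int.lt_floor_add_one (x / l)
                constructor
                · rw [Int.le_floor]
                  push_cast
                  linarith
                · have : ⌊t / l⌋ < ⌊x / l⌋ + 4 := by
                    rw [Int.floor_lt]
                    push_cast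
                    linarith
                  show ⌊t / l⌋ ≤ ⌊x / l⌋ + 3
                  omega
              · exact hF s (Finset.mem_filter.1 hs).1 t (Finset.mem_filter.1 ht).1 hst
            rw [Int.card_Icc] at hcard
            have h7 : (⌊x / l⌋ + 3 + 1 - (⌊x / l⌋ - 3)).toNat = 7 := by
              have : ⌊x / l⌋ + 3 + 1 - (⌊x / l⌋ - 3) = 7 := by ring
              rw [this]; rfl
            rw [h7] at hcard
            have h8 : (((F.filter fun t => x ∈ Metric.ball t (3 * l)).card : ℕ) : ℝ≥0∞)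
                ≤ ((7 : ℕ) : ℝ≥0∞) := Nat.cast_le.2 hcard
            simpa using h8
          · have e1 : ∀ t ∈ F, (S ∩ Metric.ball t (3 * l)).indicator (1 : ℝ → ℝ≥0∞) x = 0 :=
              fun t _ => indicator_of_notMem (fun h => hx h.1) _
            rw [Finset.sum_congr rfl e1, Finset.sum_const_zero]
            exact zero_le
      _ = 7 * μ S := by
          rw [lintegral_const_mul _ (measurable_one.indicator hS), lintegral_indicator_one hS]
  have h2 : ∑ t ∈ F, μ.real (S ∩ Metric.ball t (3 * l))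
      = (∑ t ∈ F, μ (S ∩ Metric.ball t (3 * l))).toReal := by
    rw [ENNReal.toReal_sum fun t _ => measure_ne_top _ _]
    rfl
  rw [h2]
  have h3 : (7 * μ S).toReal = 7 * μ.real S := by
    rw [ENNReal.toReal_mul]
    rfl
  rw [← h3]
  exact ENNReal.toReal_mono (ENNReal.mul_ne_top (by norm_num) (measure_ne_top _ _)) key

section

variable (y : ℕ → Measure ℝ) (l : ℕ → ℝ) (K : ℕ)

/-- The potential. -/
noncomputable def PP (n : ℕ) (X : Set ℝ) : ℝ :=
  ∑ j ∈ Finset.Icc n K, (y j).real (Metric.thickening (3 * l j) X)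

/-- The local potential. -/
noncomputable def pl (n : ℕ) (X : Set ℝ) (t : ℝ) : ℝ :=
  ∑ j ∈ Finset.Icc (n + 1) K, (y j).real (Metric.thickening (3 * l j) X ∩ Metric.ball t (2 * l n))

/-- The upper bound for the local potential. -/
noncomputable def QQl (n : ℕ) (t : ℝ) : ℝ :=
  ∑ j ∈ Finset.Icc (n + 1) K, (y j).real (Metric.ball t (2 * l n))

variable {y l K}
variable [∀ j, IsFiniteMeasure (y j)]

omit [∀ j, IsFiniteMeasure (y j)] in
theorem PP_nonneg (n : ℕ) (X : Set ℝ) : 0 ≤ PP y l K n X :=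
  Finset.sum_nonneg fun _ _ => measureReal_nonneg

omit [∀ j, IsFiniteMeasure (y j)] in
theorem pl_nonneg (n : ℕ) (X : Set ℝ) (t : ℝ) : 0 ≤ pl y l K n X t :=
  Finset.sum_nonneg fun _ _ => measureReal_nonneg

theorem pl_mono (n : ℕ) {X X' : Set ℝ} (h : X' ⊆ X) (t : ℝ) :
    pl y l K n X' t ≤ pl y l K n X t :=
  Finset.sum_le_sum fun _ _ => measureReal_mono
    (inter_subset_inter_left _ (Metric.thickening_subset_of_subset _ h))

theorem pl_le (n : ℕ) (X : Set ℝ) (t : ℝ) : pl y l K n X t ≤ QQl y l K n t :=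
  Finset.sum_le_sum fun _ _ => measureReal_mono inter_subset_right

omit [∀ j, IsFiniteMeasure (y j)] in
theorem PP_split {n : ℕ} (hn : n ≤ K) (X : Set ℝ) :
    PP y l K n X = (y n).real (Metric.thickening (3 * l n) X) + PP y l K (n + 1) X := by
  unfold PP
  rw [← Finset.insert_Icc_succ_left_eq_Icc (by simpa using hn), Finset.sum_insert (by simp)]
  rfl

/-- The decrement. -/
theorem decrement {n : ℕ} (hn : n ≤ K) {A B : ℝ} {X : Set ℝ} (hX : X ⊆ Icc A B)
    (hl : ∀ j, 0 < l j) (h3 : ∀ j, n < j → j ≤ K → 3 * l j ≤ l n) {c : ℝ} (hc0 : 0 ≤ c)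
    (hc1 : c ≤ 1)
    (hp : ∀ t ∈ X, c * pl y l K n X t ≤ (y n).real (Metric.ball t (3 * l n))) :
    c / 8 * PP y l K n X ≤ (y n).real (Metric.thickening (3 * l n) X) := by
  obtain ⟨F, hF1, hF2, hF3⟩ := reps hX (hl n)
  have h1 : PP y l K (n + 1) X ≤ ∑ t ∈ F, pl y l K n X t := by
    unfold PP pl
    rw [Finset.sum_comm]
    refine Finset.sum_le_sum fun j hj => ?_
    rw [Finset.mem_Icc] at hj
    have hsub : Metric.thickening (3 * l j) X
        ⊆ ⋃ t ∈ F, (Metric.thickening (3 * l j) X ∩ Metric.ball t (2 * l n)) := by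
      intro x hx
      obtain ⟨x', hx', hd⟩ := Metric.mem_thickening_iff.1 hx
      obtain ⟨t, ht, htx⟩ := hF3 x' hx'
      have := h3 j (by omega) hj.2
      refine mem_iUnion₂.2 ⟨t, ht, hx, ?_⟩
      rw [Metric.mem_ball]
      calc dist x t ≤ dist x x' + dist x' t := dist_triangle _ _ _
        _ < 3 * l j + l n := by
            rw [Real.dist_eq x' t]
            exact add_lt_add hd htx
        _ ≤ 2 * l n := by linarith
    refine (measureReal_mono hsub (measure_ne_top _ _)).trans ?_
    exact measureReal_biUnion_finset_le _ _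
  have h2 : c * PP y l K (n + 1) X ≤ 7 * (y n).real (Metric.thickening (3 * l n) X) := by
    calc c * PP y l K (n + 1) X ≤ c * ∑ t ∈ F, pl y l K n X t := by gcongr
      _ = ∑ t ∈ F, c * pl y l K n X t := Finset.mul_sum _ _ _
      _ ≤ ∑ t ∈ F, (y n).real (Metric.thickening (3 * l n) X ∩ Metric.ball t (3 * l n)) := by
          refine Finset.sum_le_sum fun t ht => ?_
          have hsub : Metric.ball t (3 * l n) ⊆ Metric.thickening (3 * l n) X := fun x hx =>
            Metric.mem_thickening_iff.2 ⟨t, hF1 t ht, hx⟩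
          rw [inter_eq_self_of_subset_right hsub]
          exact hp t (hF1 t ht)
      _ ≤ _ := overlap (y n) Metric.isOpen_thickening.measurableSet (hl n) hF2
  rw [PP_split hn]
  have h4 : 0 ≤ (y n).real (Metric.thickening (3 * l n) X) := measureReal_nonneg
  nlinarith

/-- The stopping step. -/
theorem stop {n : ℕ} (hn : n ≤ K) {A B : ℝ} {X : Set ℝ} (hX : X ⊆ Icc A B)
    (hl : ∀ j, 0 < l j) (h3 : ∀ j, n < j → j ≤ K → 3 * l j ≤ l n) (θ : ℝ) :
    ∃ (F : Finset ℝ) (X' : Set ℝ), X' ⊆ X ∧ (∀ t ∈ F, t ∈ X ∧ θ ≤ pl y l K n X t) ∧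
      (∀ t ∈ X', pl y l K n X' t < θ) ∧
      X ⊆ X' ∪ ⋃ t ∈ F, Icc (t - 3 * l n) (t + 3 * l n) ∧
      PP y l K n X' + F.card * θ / 7 ≤ PP y l K n X := by
  set B' : Set ℝ := {t ∈ X | θ ≤ pl y l K n X t} with hB'
  obtain ⟨F, hF1, hF2, hF3⟩ := reps (show B' ⊆ Icc A B from fun t ht => hX ht.1) (hl n)
  set U : Set ℝ := ⋃ t ∈ F, Icc (t - 3 * l n) (t + 3 * l n) with hU
  have hln := hl n
  refine ⟨F, X \ U, sdiff_subset, fun t ht => hF1 t ht, fun t ht => ?_, ?_, ?_⟩
  · by_contra hc
    rw [not_lt] at hc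
    have h1 : t ∈ B' := ⟨ht.1, hc.trans (pl_mono n sdiff_subset t)⟩
    obtain ⟨s, hs, hts⟩ := hF3 t h1
    refine ht.2 (mem_iUnion₂.2 ⟨s, hs, ?_⟩)
    rw [abs_lt] at hts
    constructor <;> linarith
  · intro x hx
    by_cases h : x ∈ U
    · exact Or.inr h
    · exact Or.inl ⟨hx, h⟩
  · rw [PP_split hn, PP_split hn X]
    have h1 : (y n).real (Metric.thickening (3 * l n) (X \ U))
        ≤ (y n).real (Metric.thickening (3 * l n) X) :=
      measureReal_mono (Metric.thickening_subset_of_subset _ sdiff_subset)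
    set W : Set ℝ := ⋃ t ∈ F, Metric.ball t (2 * l n) with hW
    have hWm : MeasurableSet W := (isOpen_biUnion fun t _ => Metric.isOpen_ball).measurableSet
    have hth : ∀ j, MeasurableSet (Metric.thickening (3 * l j) X) := fun j =>
      Metric.isOpen_thickening.measurableSet
    have h2 : PP y l K (n + 1) (X \ U)
        + ∑ j ∈ Finset.Icc (n + 1) K, (y j).real (Metric.thickening (3 * l j) X ∩ W)
        ≤ PP y l K (n + 1) X := by
      unfold PP
      rw [← Finset.sum_add_distrib]
      refine Finset.sum_le_sum fun j hj => ?_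
      rw [Finset.mem_Icc] at hj
      have h3j := h3 j (by omega) hj.2
      have hdisj : Disjoint (Metric.thickening (3 * l j) (X \ U))
          (Metric.thickening (3 * l j) X ∩ W) := by
        rw [Set.disjoint_left]
        rintro x hx ⟨_, hxW⟩
        obtain ⟨x', hx', hd⟩ := Metric.mem_thickening_iff.1 hx
        obtain ⟨t, ht, hxt⟩ := mem_iUnion₂.1 hxW
        refine hx'.2 (mem_iUnion₂.2 ⟨t, ht, ?_⟩)
        rw [Metric.mem_ball, Real.dist_eq, abs_lt] at hxt
        rw [Real.dist_eq, abs_lt] at hd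
        constructor <;> linarith
      rw [← measureReal_union hdisj ((hth j).inter hWm)]
      exact measureReal_mono (union_subset (Metric.thickening_subset_of_subset _ sdiff_subset)
        inter_subset_left)
    have h4 : F.card * θ
        ≤ 7 * ∑ j ∈ Finset.Icc (n + 1) K, (y j).real (Metric.thickening (3 * l j) X ∩ W) := by
      calc F.card * θ = ∑ _t ∈ F, θ := by rw [Finset.sum_const, nsmul_eq_mul]
        _ ≤ ∑ t ∈ F, pl y l K n X t := Finset.sum_le_sum fun t ht => (hF1 t ht).2
        _ = ∑ j ∈ Finset.Icc (n + 1) K, ∑ t ∈ F,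
            (y j).real (Metric.thickening (3 * l j) X ∩ Metric.ball t (2 * l n)) := by
            unfold pl
            rw [Finset.sum_comm]
        _ ≤ ∑ j ∈ Finset.Icc (n + 1) K, 7 * (y j).real (Metric.thickening (3 * l j) X ∩ W) := by
            refine Finset.sum_le_sum fun j _ => ?_
            refine le_trans (Finset.sum_le_sum fun t ht => measureReal_mono ?_)
              (overlap (y j) ((hth j).inter hWm) (hl n) hF2)
            rintro x ⟨hx1, hx2⟩
            refine ⟨⟨hx1, mem_iUnion₂.2 ⟨t, ht, hx2⟩⟩, ?_⟩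
            exact Metric.ball_subset_ball (by linarith) hx2
        _ = _ := by rw [Finset.mul_sum]
    linarith

/-- The covering theorem. -/
theorem cover_main {k0 : ℕ} {A B : ℝ} {X0 : Set ℝ} (hX0 : X0 ⊆ Icc A B) {c θ a w : ℕ → ℝ} {β : ℝ}
    (hl : ∀ j, 0 < l j) (h3 : ∀ n j, k0 ≤ n → n < j → j ≤ K → 3 * l j ≤ l n)
    (hc0 : ∀ n, 0 ≤ c n) (hc1 : ∀ n, c n ≤ 1)
    (H : ∀ n, k0 ≤ n → n < K → ∀ t ∈ X0, ∀ p, 0 ≤ p → p ≤ QQl y l K n t → p < θ n →
      c n * p ≤ (y n).real (Metric.ball t (3 * l n)))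
    (hβ : ∀ t ∈ X0, β ≤ (y K).real (Metric.ball t (3 * l K)))
    (ha0 : ∀ n, 0 ≤ a n) (ha1 : ∀ n, k0 ≤ n → n < K → a (n + 1) * (1 - c n / 8) ≤ a n)
    (ha2 : ∀ n, k0 ≤ n → n < K → 7 * w n ≤ a n * θ n) (ha3 : 7 * w K ≤ a K * β) (m : ℕ) :
    ∀ n, k0 ≤ n → n + m = K → ∀ X : Set ℝ, X ⊆ X0 → ∃ F : Finset (ℝ × ℕ),
      (∀ q ∈ F, q.1 ∈ X ∧ n ≤ q.2 ∧ q.2 ≤ K ∧ (q.2 < K → θ q.2 ≤ QQl y l K q.2 q.1)) ∧
      (X ⊆ ⋃ q ∈ F, Icc (q.1 - 3 * l q.2) (q.1 + 3 * l q.2)) ∧
      ∑ q ∈ F, w q.2 ≤ a n * PP y l K n X := by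
  classical
  induction m with
  | zero =>
    intro n hn hnK X hX
    rw [add_zero] at hnK
    subst hnK
    obtain ⟨F, hF1, hF2, hF3⟩ := reps (hX.trans hX0) (hl n)
    have hln := hl n
    refine ⟨F.image fun t => (t, n), ?_, ?_, ?_⟩
    · intro q hq
      obtain ⟨t, ht, rfl⟩ := Finset.mem_image.1 hq
      exact ⟨hF1 t ht, le_rfl, le_rfl, fun h => absurd h (lt_irrefl _)⟩
    · intro x hx
      obtain ⟨t, ht, hxt⟩ := hF3 x hx
      refine mem_iUnion₂.2 ⟨(t, n), Finset.mem_image.2 ⟨t, ht, rfl⟩, ?_⟩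
      rw [abs_lt] at hxt
      constructor <;> simp only <;> linarith
    · rw [Finset.sum_image (fun s _ t _ h => (Prod.mk.inj h).1)]
      simp only
      rw [Finset.sum_const, nsmul_eq_mul]
      have h1 : F.card * β ≤ 7 * (y n).real (Metric.thickening (3 * l n) X) := by
        calc F.card * β = ∑ _t ∈ F, β := by rw [Finset.sum_const, nsmul_eq_mul]
          _ ≤ ∑ t ∈ F, (y n).real (Metric.thickening (3 * l n) X ∩ Metric.ball t (3 * l n)) := by
              refine Finset.sum_le_sum fun t ht => ?_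
              have hsub : Metric.ball t (3 * l n) ⊆ Metric.thickening (3 * l n) X := fun x hx =>
                Metric.mem_thickening_iff.2 ⟨t, hF1 t ht, hx⟩
              rw [inter_eq_self_of_subset_right hsub]
              exact hβ t (hX (hF1 t ht))
          _ ≤ _ := overlap (y n) Metric.isOpen_thickening.measurableSet (hl n) hF2
      have h2 : PP y l n n X = (y n).real (Metric.thickening (3 * l n) X) := by
        unfold PP
        rw [Finset.Icc_self, Finset.sum_singleton]
      rw [h2]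
      have h4 : (0 : ℝ) ≤ F.card := Nat.cast_nonneg _
      have h5 := ha0 n
      have h6 : 7 * ((F.card : ℝ) * w n) ≤ a n * (F.card * β) := by
        calc 7 * ((F.card : ℝ) * w n) = F.card * (7 * w n) := by ring
          _ ≤ F.card * (a n * β) := by gcongr
          _ = _ := by ring
      have h7 : a n * (F.card * β) ≤ a n * (7 * (y n).real (Metric.thickening (3 * l n) X)) := by
        gcongr
      linarith
  | succ m ih =>
    intro n hn hnK X hX
    have hnK' : n < K := by omega
    obtain ⟨F1, X', hX', hF1, hp, hcov, hPP⟩ := stop (y := y) hnK'.le (hX.trans hX0) hl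
      (fun j h h' => h3 n j hn h h') (θ n)
    obtain ⟨F2, hF2, hcov2, hsum2⟩ := ih (n + 1) (by omega) (by omega) X' (hX'.trans hX)
    have hd := decrement (y := y) hnK'.le ((hX'.trans hX).trans hX0) hl
      (fun j h h' => h3 n j hn h h') (hc0 n) (hc1 n) (fun t ht =>
        H n hn hnK' t (hX (hX' ht)) _ (pl_nonneg n X' t) (pl_le n X' t) (hp t ht))
    refine ⟨(F1.image fun t => (t, n)) ∪ F2, ?_, ?_, ?_⟩
    · intro q hq
      rcases Finset.mem_union.1 hq with hq | hq
      · obtain ⟨t, ht, rfl⟩ := Finset.mem_image.1 hq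
        exact ⟨(hF1 t ht).1, le_rfl, hnK'.le, fun _ => (hF1 t ht).2.trans (pl_le n X t)⟩
      · obtain ⟨h1, h2, h4, h5⟩ := hF2 q hq
        exact ⟨hX' h1, by omega, h4, h5⟩
    · intro x hx
      rcases hcov hx with hx | hx
      · obtain ⟨q, hq, hxq⟩ := mem_iUnion₂.1 (hcov2 hx)
        exact mem_iUnion₂.2 ⟨q, Finset.mem_union_right _ hq, hxq⟩
      · obtain ⟨t, ht, hxt⟩ := mem_iUnion₂.1 hx
        exact mem_iUnion₂.2 ⟨(t, n), Finset.mem_union_left _ (Finset.mem_image.2 ⟨t, ht, rfl⟩), hxt⟩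
    · have hdisj : Disjoint (F1.image fun t => (t, n)) F2 := by
        rw [Finset.disjoint_left]
        intro q hq hq2
        obtain ⟨t, ht, rfl⟩ := Finset.mem_image.1 hq
        have := (hF2 _ hq2).2.1
        simp only at this
        omega
      rw [Finset.sum_union hdisj, Finset.sum_image (fun s _ t _ h => (Prod.mk.inj h).1)]
      simp only
      rw [Finset.sum_const, nsmul_eq_mul]
      have h4 : (0 : ℝ) ≤ F1.card := Nat.cast_nonneg _
      have h5 := ha0 n
      have h6 := ha0 (n + 1)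
      have hP0 : 0 ≤ PP y l K n X' := PP_nonneg n X'
      have hs := PP_split (y := y) (l := l) hnK'.le X'
      have h7 : PP y l K (n + 1) X' ≤ (1 - c n / 8) * PP y l K n X' := by linarith
      have h8 : a (n + 1) * PP y l K (n + 1) X' ≤ a n * PP y l K n X' := by
        calc a (n + 1) * PP y l K (n + 1) X' ≤ a (n + 1) * ((1 - c n / 8) * PP y l K n X') := by
              gcongr
          _ = a (n + 1) * (1 - c n / 8) * PP y l K n X' := by ring
          _ ≤ a n * PP y l K n X' := by
              gcongr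
              exact ha1 n hn hnK'
      have h9 : a n * PP y l K n X' ≤ a n * (PP y l K n X - F1.card * θ n / 7) := by
        gcongr
        linarith
      have h10 : (F1.card : ℝ) * (7 * w n) ≤ F1.card * (a n * θ n) :=
        mul_le_mul_of_nonneg_left (ha2 n hn hnK') h4
      nlinarith

end

end Pool.Agent.Helper24.ST
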