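import Pool.Agent.Helper24.ST.Box

set_option autoImplicit false

/-!
The dimension of the singular times with bounded density of the dissipation.
-/

open MeasureTheory Set Filter Topology
open scoped ContDiff ENNReal NNReal

namespace Pool.Agent.Helper24.ST

open H459R3.NS Pool.Agent.Q63.Win

theorem one_sub_le {q : ℝ} (hq : 0 ≤ q) : 1 - q ≤ (2 : ℝ) ^ (-q) := by
  rw [Real.rpow_def_of_pos (by norm_num)]
  have h1 := Real.add_one_le_exp (Real.log 2 * -q)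
  have h2 : Real.log 2 ≤ 1 := by
    have := Real.log_two_lt_d9
    linarith
  nlinarith

section

variable {ν T E : ℝ} {G : Set ℝ} {u : ℝ → V → V} {p : ℝ → V → ℝ}

/-- The covering numbers. -/
theorem IsLeray.box (h : IsLeray ν T E G u p) (hν : 0 < ν) {M : ℝ} (hM : 0 ≤ M) {ρ δ : ℝ}
    (hδ : 0 < δ) (hρ : 0 < ρ) {X : Set ℝ} (hX : X ⊆ Ioo 0 T \ G) (hX2 : ∀ t ∈ X, δ ≤ t)
    (hd : ∀ t ∈ X, ∀ r ∈ Ioo 0 ρ, ∫ τ in G ∩ Ioo (t - r) (t + r), enstrophy (u τ)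
      ≤ M * (ν * Real.sqrt ν) * Real.sqrt r) :
    ∃ C : ℝ, 0 ≤ C ∧ ∀ r ∈ Ioo (0 : ℝ) 1, ∃ F : Finset ℝ, (X ⊆ ⋃ t ∈ F, Icc t (t + r)) ∧
      (F.card : ℝ) ≤ C * r ^ (-((1 - qM M) / 2)) := by
  classical
  have hlp := lamM_pos hM
  have hq0 := qM_pos hM
  have hq1 := qM_le hM
  -- the first scale
  have hlim : Tendsto (fun n => elM ν M n) atTop (𝓝 0) := by
    have h1 : Tendsto (fun n : ℕ => (1 / 4 : ℝ) ^ n) atTop (𝓝 0) :=
      tendsto_pow_atTop_nhds_zero_of_lt_one (by norm_num) (by norm_num)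
    have h2 := (h1.const_mul (lamM M)).div_const ν
    simpa [elM] using h2
  have hmin : 0 < min (δ / 3) (ρ / 2) := by positivity
  obtain ⟨k0, hk0⟩ := (hlim.eventually (gt_mem_nhds hmin)).exists
  rw [lt_min_iff] at hk0
  set s : ℝ := (1 - qM M) / 2 with hs
  have hs0 : 0 ≤ s := by rw [hs]; linarith
  set A : ℝ := 6 * lamM M / ν with hA
  have hA0 : 0 < A := by positivity
  set B : ℝ := 4 * (4 ^ k0 * (1 + A)) with hB
  have hB0 : 0 < B := by positivity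
  have hP0 : 0 ≤ Ptot G u k0 := by
    unfold Ptot
    have h1 : 0 ≤ ∫ τ in G, ZW (k0 + 1) (cof (u τ)) := integral_nonneg fun τ => ZW_nonneg _ _
    have h2 : 0 ≤ ∫ τ in G, YW k0 (cof (u τ)) := integral_nonneg fun τ => YW_nonneg _ _
    positivity
  have h1q : 0 < 1 - qM M := by linarith
  refine ⟨2800000 / (ν * lamM M) * ((1 - qM M) ^ k0)⁻¹ * Ptot G u k0 * B ^ s, by positivity, ?_⟩
  intro r hr
  have hy1 : (1 : ℝ) ≤ 4 ^ k0 * (1 + A) / r := by
    rw [le_div_iff₀ hr.1, one_mul]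
    have a1 : (1 : ℝ) ≤ 4 ^ k0 := one_le_pow₀ (by norm_num)
    nlinarith [hr.2]
  obtain ⟨n, hn1, hn2⟩ := exists_nat_pow_near hy1 (by norm_num : (1 : ℝ) < 4)
  set K := n + 1 with hK
  have hkK : k0 ≤ K := by
    by_contra hc
    have h1 : K ≤ k0 := by omega
    have h2 : (4 : ℝ) ^ K ≤ 4 ^ k0 := pow_le_pow_right₀ (by norm_num) h1
    have h3 : (4 : ℝ) ^ k0 ≤ 4 ^ k0 * (1 + A) / r := by
      rw [le_div_iff₀ hr.1]
      have a1 : (0 : ℝ) < 4 ^ k0 := by positivity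
      have a2 : r ≤ 1 + A := by linarith [hr.2]
      gcongr
    linarith
  obtain ⟨F, hF1, hF2⟩ := h.cover_one hν hM hkK hX (fun t ht => by linarith [hX2 t ht])
    (by linarith : 2 * elM ν M k0 < ρ) hd
  have h4K : (4 : ℝ) ^ K ≤ B / r := by
    rw [hK, pow_succ, hB]
    calc (4 : ℝ) ^ n * 4 ≤ 4 ^ k0 * (1 + A) / r * 4 := by gcongr
      _ = _ := by ring
  have hlen : 6 * elM ν M K ≤ r := by
    have h1 : A / r < 4 ^ K := by
      refine lt_of_le_of_lt ?_ hn2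
      refine div_le_div_of_nonneg_right ?_ hr.1.le
      have a1 : (1 : ℝ) ≤ 4 ^ k0 := one_le_pow₀ (by norm_num)
      nlinarith
    rw [div_lt_iff₀ hr.1] at h1
    have h2 : 6 * elM ν M K = A * (1 / 4) ^ K := by
      unfold elM
      rw [hA]; ring
    rw [h2]
    have h3 : (4 : ℝ) ^ K * (1 / 4) ^ K = 1 := by
      rw [← mul_pow]; norm_num
    have h4 : (0 : ℝ) < (1 / 4) ^ K := by positivity
    calc A * (1 / 4) ^ K ≤ 4 ^ K * r * (1 / 4) ^ K := by gcongr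
      _ = r * (4 ^ K * (1 / 4) ^ K) := by ring
      _ = r := by rw [h3, mul_one]
  refine ⟨F.image fun t => t - 3 * elM ν M K, ?_, ?_⟩
  · intro x hx
    obtain ⟨t, ht, hxt⟩ := mem_iUnion₂.1 (hF1 hx)
    refine mem_iUnion₂.2 ⟨t - 3 * elM ν M K, Finset.mem_image.2 ⟨t, ht, rfl⟩, hxt.1, ?_⟩
    linarith [hxt.2]
  · have h1 : ((F.image fun t => t - 3 * elM ν M K).card : ℝ) ≤ F.card := by
      exact_mod_cast Finset.card_image_le
    refine h1.trans (hF2.trans ?_)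
    have h2 : (2 : ℝ) ^ K * (1 - qM M) ^ (K - k0) = ((1 - qM M) ^ k0)⁻¹ * (2 * (1 - qM M)) ^ K := by
      rw [mul_pow]
      have h3 : (1 - qM M) ^ K = (1 - qM M) ^ (K - k0) * (1 - qM M) ^ k0 := by
        rw [← pow_add]; congr 1; omega
      rw [h3]
      field_simp
    have h3 : (2 * (1 - qM M)) ^ K ≤ ((4 : ℝ) ^ K) ^ s := by
      have a1 : 2 * (1 - qM M) ≤ (4 : ℝ) ^ s := by
        have a2 := one_sub_le hq0.le
        have a3 : (4 : ℝ) ^ s = 2 * 2 ^ (-qM M) := by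
          rw [show (4 : ℝ) = 2 ^ (2 : ℝ) by norm_num, ← Real.rpow_mul (by norm_num), hs,
            show (2 : ℝ) * ((1 - qM M) / 2) = 1 + -qM M by ring, Real.rpow_add (by norm_num),
            Real.rpow_one]
        rw [a3]
        linarith
      rw [← Real.rpow_natCast (4 : ℝ) K, ← Real.rpow_mul (by norm_num), mul_comm (K : ℝ) s,
        Real.rpow_mul (by norm_num), Real.rpow_natCast]
      exact pow_le_pow_left₀ (by positivity) a1 K
    have h5 : ((4 : ℝ) ^ K) ^ s ≤ (B / r) ^ s := Real.rpow_le_rpow (by positivity) h4K hs0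
    have h6 : (B / r) ^ s = B ^ s * r ^ (-s) := by
      rw [Real.div_rpow hB0.le hr.1.le, Real.rpow_neg hr.1.le]
      rfl
    calc 2800000 / (ν * lamM M) * 2 ^ K * (1 - qM M) ^ (K - k0) * Ptot G u k0
        = 2800000 / (ν * lamM M) * (2 ^ K * (1 - qM M) ^ (K - k0)) * Ptot G u k0 := by ring
      _ = 2800000 / (ν * lamM M) * ((1 - qM M) ^ k0)⁻¹ * Ptot G u k0 * (2 * (1 - qM M)) ^ K := by
          rw [h2]; ring
      _ ≤ 2800000 / (ν * lamM M) * ((1 - qM M) ^ k0)⁻¹ * Ptot G u k0 * (B ^ s * r ^ (-s)) := by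
          rw [← h6]
          have := h3.trans h5
          gcongr
      _ = _ := by ring

/-- From covering numbers to the dimension. -/
theorem dimH_le_of_box {X : Set ℝ} {C : ℝ} {s : ℝ≥0}
    (h : ∀ r ∈ Ioo (0 : ℝ) 1, ∃ F : Finset ℝ, (X ⊆ ⋃ t ∈ F, Icc t (t + r)) ∧
      (F.card : ℝ) ≤ C * r ^ (-(s : ℝ))) : dimH X ≤ s := by
  refine dimH_le_of_hausdorffMeasure_ne_top ?_
  set r : ℕ → ℝ := fun n => 1 / ((n : ℝ) + 2) with hr
  have hr0 : ∀ n, r n ∈ Ioo (0 : ℝ) 1 := by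
    intro n
    have : (0 : ℝ) ≤ n := Nat.cast_nonneg n
    constructor
    · simp only [hr]; positivity
    · simp only [hr]
      rw [div_lt_one (by positivity)]
      linarith
  choose F hF1 hF2 using fun n => h (r n) (hr0 n)
  have hrt : Tendsto (fun n => ENNReal.ofReal (r n)) atTop (𝓝 0) := by
    rw [← ENNReal.ofReal_zero]
    refine ENNReal.tendsto_ofReal ?_
    have h1 : Tendsto (fun n : ℕ => 1 / ((n : ℝ) + 1)) atTop (𝓝 0) :=
      tendsto_one_div_add_atTop_nhds_zero_nat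
    have h2 := h1.comp (tendsto_add_atTop_nat 1)
    refine h2.congr fun n => ?_
    simp only [hr, Function.comp]
    push_cast
    ring
  have key := Measure.hausdorffMeasure_le_liminf_sum (X := ℝ) (ι := fun n => ↥(F n)) (s : ℝ) X
    (l := atTop) (fun n => ENNReal.ofReal (r n)) hrt (fun n i => Icc (i : ℝ) (i + r n))
    (Eventually.of_forall fun n i => by
      rw [Real.ediam_Icc]
      exact le_of_eq (by congr 1; ring))
    (Eventually.of_forall fun n x hx => by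
      obtain ⟨t, ht, hxt⟩ := mem_iUnion₂.1 (hF1 n hx)
      exact mem_iUnion.2 ⟨⟨t, ht⟩, hxt⟩)
  suffices hfin : liminf (fun n => ∑ i : ↥(F n), Metric.ediam (Icc (i : ℝ) (i + r n)) ^ (s : ℝ)) atTop
      ≤ ENNReal.ofReal C from ne_top_of_le_ne_top ENNReal.ofReal_ne_top (key.trans hfin)
  refine liminf_le_of_frequently_le' (Frequently.of_forall fun n => ?_)
  have e1 : ∀ i : ↥(F n), Metric.ediam (Icc (i : ℝ) (i + r n)) ^ (s : ℝ)
      = ENNReal.ofReal (r n ^ (s : ℝ)) := by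
    intro i
    rw [Real.ediam_Icc, add_sub_cancel_left,
      ENNReal.ofReal_rpow_of_nonneg (hr0 n).1.le s.coe_nonneg]
  simp_rw [e1]
  rw [Finset.sum_const, Finset.card_univ, Fintype.card_coe, nsmul_eq_mul,
    ← ENNReal.ofReal_natCast, ← ENNReal.ofReal_mul (Nat.cast_nonneg _)]
  refine ENNReal.ofReal_le_ofReal ?_
  have h1 := hF2 n
  have h2 : 0 < r n ^ (s : ℝ) := Real.rpow_pos_of_pos (hr0 n).1 _
  calc ((F n).card : ℝ) * r n ^ (s : ℝ) ≤ C * r n ^ (-(s : ℝ)) * r n ^ (s : ℝ) := by gcongr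
    _ = C := by
        rw [mul_assoc, ← Real.rpow_add (hr0 n).1]
        simp

/-- The dimension of the singular times with bounded density. -/
theorem IsLeray.dim (h : IsLeray ν T E G u p) (hν : 0 < ν) {M : ℝ} (hM : 0 ≤ M) :
    dimH {t ∈ Ioo 0 T \ G | ∃ ρ > 0, ∀ r ∈ Ioo 0 ρ,
      ∫ τ in G ∩ Ioo (t - r) (t + r), enstrophy (u τ) ≤ M * (ν * Real.sqrt ν) * Real.sqrt r}
      ≤ ENNReal.ofReal ((1 - qM M) / 2) := by
  have hq0 := qM_pos hM
  have hq1 := qM_le hM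
  set Xm : ℕ → Set ℝ := fun m => {t ∈ Ioo 0 T \ G | 1 / ((m : ℝ) + 1) ≤ t ∧
    ∀ r ∈ Ioo 0 (1 / ((m : ℝ) + 1)),
      ∫ τ in G ∩ Ioo (t - r) (t + r), enstrophy (u τ) ≤ M * (ν * Real.sqrt ν) * Real.sqrt r}
    with hXm
  have hsub : {t ∈ Ioo 0 T \ G | ∃ ρ > 0, ∀ r ∈ Ioo 0 ρ,
      ∫ τ in G ∩ Ioo (t - r) (t + r), enstrophy (u τ) ≤ M * (ν * Real.sqrt ν) * Real.sqrt r}
      ⊆ ⋃ m, Xm m := by
    rintro t ⟨ht, ρ, hρ, hd⟩
    obtain ⟨m, hm⟩ := exists_nat_one_div_lt (lt_min hρ ht.1.1)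
    rw [lt_min_iff] at hm
    exact mem_iUnion.2 ⟨m, ht, hm.2.le, fun r hr => hd r ⟨hr.1, hr.2.trans hm.1⟩⟩
  refine (dimH_mono hsub).trans ?_
  rw [dimH_iUnion]
  refine iSup_le fun m => ?_
  obtain ⟨C, hC0, hC⟩ := h.box hν hM (ρ := 1 / ((m : ℝ) + 1)) (δ := 1 / ((m : ℝ) + 1))
    (by positivity) (by positivity) (X := Xm m) (fun t ht => ht.1) (fun t ht => ht.2.1)
    (fun t ht => ht.2.2)
  have hs0 : 0 ≤ (1 - qM M) / 2 := by linarith
  have := dimH_le_of_box (X := Xm m) (C := C) (s := ⟨(1 - qM M) / 2, hs0⟩) hC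
  refine this.trans (le_of_eq ?_)
  rw [ENNReal.ofReal, Real.toNNReal_of_nonneg hs0]
  rfl

end

end Pool.Agent.Helper24.ST
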