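import Pool.Agent.H459R3.NS.High2

set_option autoImplicit false

/-!
The flux of energy through a frequency.
-/

open MeasureTheory Set H459R3.NS

namespace Pool.Agent.Helper24.ST

/-- The frequencies at most `2 ^ n`. -/
def Lo (n : ℕ) : Set K3 := {k | N k ≤ 2 ^ n}

/-- The frequencies larger than `2 ^ n / 2`. -/
def Hi (n : ℕ) : Set K3 := {k | 2 ^ n < 2 * N k}

/-- The finite set of the nonzero frequencies at most `2 ^ n`. -/
noncomputable def LoF (n : ℕ) : Finset K3 := (finite_box 0 (2 ^ n)).toFinset.erase 0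

theorem mem_LoF {n : ℕ} {k : K3} : k ∈ LoF n ↔ k ≠ 0 ∧ N k ≤ 2 ^ n := by
  unfold LoF
  rw [Finset.mem_erase, Set.Finite.mem_toFinset]
  simp

/-- The square of the length of the Fourier coefficient. -/
noncomputable def cc (v : Fin 3 → V → ℝ) (k : K3) : ℝ := ∑ i, ‖fr (v i) k‖ ^ 2

theorem cc_nonneg (v : Fin 3 → V → ℝ) (k : K3) : 0 ≤ cc v k :=
  Finset.sum_nonneg fun _ _ => sq_nonneg _

theorem norm_le_sqrt_cc (v : Fin 3 → V → ℝ) (k : K3) (i : Fin 3) :
    ‖fr (v i) k‖ ≤ Real.sqrt (cc v k) := by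
  apply Real.le_sqrt_of_sq_le
  unfold cc
  exact Finset.single_le_sum (f := fun i => ‖fr (v i) k‖ ^ 2) (fun _ _ => sq_nonneg _)
    (Finset.mem_univ i)

/-- The sum of the lengths of the Fourier coefficients with `0 < N k ≤ 2 ^ n`. -/
noncomputable def sg (v : Fin 3 → V → ℝ) (n : ℕ) : ℝ := ∑ k ∈ LoF n, Real.sqrt (cc v k)

theorem sg_nonneg (v : Fin 3 → V → ℝ) (n : ℕ) : 0 ≤ sg v n :=
  Finset.sum_nonneg fun _ _ => Real.sqrt_nonneg _

/-- The energy at the frequencies larger than `2 ^ n / 2`. -/
noncomputable def ep (v : Fin 3 → V → ℝ) (n : ℕ) : ℝ := ∑' k, (Hi n).indicator (cc v) k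

variable {v : Fin 3 → V → ℝ} (hv : ∀ i, SP (v i)) (hdiv : ∀ x, ∑ i, pd i (v i) x = 0)

include hv in
theorem summable_cc : Summable (cc v) := by
  unfold cc
  exact summable_sum fun i _ => summable_sq (rap_fr (hv i)).summable

include hv in
theorem n2_hi_le {R : Set K3} {n : ℕ} (hR : R ⊆ Hi n) (i : Fin 3) :
    n2 (R.indicator (fr (v i))) ≤ Real.sqrt (ep v n) := by
  unfold n2 ep
  refine Real.sqrt_le_sqrt ?_
  refine Summable.tsum_le_tsum (fun k => ?_)
    (summable_sq ((rap_fr (hv i)).ind R).summable) ((summable_cc hv).indicator _)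
  by_cases hk : k ∈ R
  · rw [indicator_of_mem hk, indicator_of_mem (hR hk)]
    exact Finset.single_le_sum (f := fun i => ‖fr (v i) k‖ ^ 2) (fun _ _ => sq_nonneg _)
      (Finset.mem_univ i)
  · rw [indicator_of_notMem hk, norm_zero, sq, zero_mul]
    exact indicator_nonneg (fun k _ => cc_nonneg v k) k

theorem ep_nonneg (n : ℕ) : 0 ≤ ep v n :=
  tsum_nonneg fun k => indicator_nonneg (fun k _ => cc_nonneg v k) k

/-- The supremum of a sum over low frequencies. -/
theorem norm_S_lo {R : Set K3} {n : ℕ} (hR : ∀ k ∈ R, k ≠ 0 → N k ≤ 2 ^ n) {a : K3 → ℂ}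
    (h0 : 0 ∈ R → a 0 = 0) {w : K3 → ℝ} (hw : ∀ k ∈ LoF n, ‖a k‖ ≤ w k) (hw0 : ∀ k ∈ LoF n, 0 ≤ w k)
    (x : V) : ‖S (R.indicator a) x‖ ≤ ∑ k ∈ LoF n, w k := by
  have hz : ∀ k, k ∉ LoF n → R.indicator a k = 0 := by
    intro k hk
    by_cases hkR : k ∈ R
    · rw [indicator_of_mem hkR]
      by_cases hk0 : k = 0
      · rw [hk0]; exact h0 (hk0 ▸ hkR)
      · exact absurd (mem_LoF.2 ⟨hk0, hR k hkR hk0⟩) hk
    · exact indicator_of_notMem hkR _
  have hs : Summable (R.indicator a) := summable_of_ne_finset_zero hz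
  refine (norm_S_le hs x).trans ?_
  rw [tsum_eq_sum (s := LoF n) (fun k hk => by rw [hz k hk, norm_zero])]
  refine Finset.sum_le_sum fun k hk => ?_
  exact (norm_indicator_le_norm_self _ _).trans (hw k hk)

include hv in
theorem sup_lo {R : Set K3} {n : ℕ} (hR : ∀ k ∈ R, k ≠ 0 → N k ≤ 2 ^ n) (h0 : (0 : K3) ∉ R)
    (j : Fin 3) (x : V) : ‖S (R.indicator (fr (v j))) x‖ ≤ sg v n :=
  norm_S_lo hR (fun h => absurd h h0) (fun k _ => norm_le_sqrt_cc v k j)
    (fun k _ => Real.sqrt_nonneg _) x

include hv in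
theorem sup_D_lo {R : Set K3} {n : ℕ} (hR : ∀ k ∈ R, k ≠ 0 → N k ≤ 2 ^ n)
    (i j : Fin 3) (x : V) :
    ‖S (R.indicator (D j (fr (v i)))) x‖ ≤ 2 * Real.pi * 2 ^ n * sg v n := by
  have h := norm_S_lo (R := R) (n := n) hR (a := D j (fr (v i))) (fun _ => by simp [D])
    (w := fun k => 2 * Real.pi * 2 ^ n * Real.sqrt (cc v k)) (fun k hk => ?_)
    (fun k _ => by positivity) x
  · rwa [← Finset.mul_sum] at h
  · refine (norm_D_le j _ k).trans ?_
    have h1 : (N k : ℝ) ≤ 2 ^ n := by exact_mod_cast (mem_LoF.1 hk).2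
    have h2 := norm_le_sqrt_cc v k i
    have h3 : (N k : ℝ) * ‖fr (v i) k‖ ≤ 2 ^ n * Real.sqrt (cc v k) :=
      mul_le_mul h1 h2 (norm_nonneg _) (by positivity)
    have hp := Real.pi_pos
    calc 2 * Real.pi * (N k * ‖fr (v i) k‖) ≤ 2 * Real.pi * (2 ^ n * Real.sqrt (cc v k)) := by gcongr
      _ = _ := by ring

theorem n2_D_le {a : K3 → ℂ} (ha : Rap a) {R : Set K3} {n : ℕ} (hR : ∀ k ∈ R, N k ≤ 2 ^ n)
    (j : Fin 3) : n2 (R.indicator (D j a)) ≤ 2 * Real.pi * 2 ^ n * n2 (R.indicator a) := by
  have hp := Real.pi_pos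
  have h : n2 (R.indicator (D j a)) ^ 2 ≤ (2 * Real.pi * 2 ^ n * n2 (R.indicator a)) ^ 2 := by
    rw [n2_sq, mul_pow, n2_sq, ← tsum_mul_left]
    refine Summable.tsum_le_tsum (fun k => ?_) (summable_sq ((ha.D j).ind R).summable)
      ((summable_sq (ha.ind R).summable).mul_left _)
    by_cases hk : k ∈ R
    · rw [indicator_of_mem hk, indicator_of_mem hk, ← mul_pow]
      refine pow_le_pow_left₀ (norm_nonneg _) ?_ 2
      refine (norm_D_le j _ k).trans ?_
      have h1 : (N k : ℝ) ≤ 2 ^ n := by exact_mod_cast hR k hk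
      calc 2 * Real.pi * (N k * ‖a k‖) ≤ 2 * Real.pi * (2 ^ n * ‖a k‖) := by gcongr
        _ = _ := by ring
    · rw [indicator_of_notMem hk, indicator_of_notMem hk]
      simp
  exact (pow_le_pow_iff_left₀ (n2_nonneg _) (mul_nonneg (by positivity) (n2_nonneg _))
    (by norm_num)).1 h

theorem tri_zero {a b c : K3 → ℂ} (h : ∀ p q : K3, a p = 0 ∨ b q = 0 ∨ c (-p - q) = 0) :
    Tri a b c = 0 := by
  unfold Tri
  rw [tsum_congr (g := fun _ => (0 : ℂ)) (fun p => ?_), tsum_zero]
  rcases h p.1 p.2 with h | h | h <;> rw [h] <;> ring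

/-- splitting a sequence -/
theorem ind_split (R R' : Set K3) (h : R' ⊆ R) (a : K3 → ℂ) :
    R.indicator a = R'.indicator a + (R \ R').indicator a := by
  funext k
  simp only [Pi.add_apply]
  by_cases hk : k ∈ R'
  · rw [indicator_of_mem (h hk), indicator_of_mem hk, indicator_of_notMem (by simp [hk]), add_zero]
  · by_cases hk2 : k ∈ R
    · rw [indicator_of_mem hk2, indicator_of_notMem hk, indicator_of_mem (show k ∈ R \ R' from ⟨hk2, hk⟩), zero_add]
    · rw [indicator_of_notMem hk2, indicator_of_notMem hk,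
        indicator_of_notMem (fun h => hk2 h.1), add_zero]

theorem N_add_le (k l : K3) : N (k + l) ≤ N k + N l := by
  rw [N_le_iff]
  intro j
  have h1 := (N_le_iff k (N k)).1 le_rfl j
  have h2 := (N_le_iff l (N l)).1 le_rfl j
  push_cast
  exact (abs_add_le _ _).trans (add_le_add h1 h2)

include hv in
/-- The bound for one pair of components. -/
theorem tri_bound (n : ℕ) (i j : Fin 3) :
    ‖Tri (fr (v j)) (D j ((Lo n).indicator (fr (v i)))) ((Lo n)ᶜ.indicator (fr (v i)))‖
      ≤ 3 * (2 * Real.pi * 2 ^ n * sg v n * ep v n) := by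
  have hp := Real.pi_pos
  set a := fr (v i) with ha
  set u := fr (v j) with hu
  have ra : Rap a := rap_fr (hv i)
  have ru : Rap u := rap_fr (hv j)
  set L := Lo n with hL
  set H := Lᶜ with hH
  -- the set of the low half
  set L' : Set K3 := L \ Hi n with hL'
  have hL'L : L' ⊆ L := diff_subset
  have hmid : L \ L' ⊆ Hi n := fun k hk => by
    by_contra h
    exact hk.2 ⟨hk.1, h⟩
  have hHHi : H ⊆ Hi n := fun k hk => by
    simp only [hH, hL, Lo, mem_compl_iff, mem_setOf_eq, not_le] at hk
    simp only [Hi, mem_setOf_eq]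
    omega
  have h0L' : (0 : K3) ∈ L' := by
    refine ⟨?_, ?_⟩
    · simp only [hL, Lo, mem_setOf_eq]
      rw [N_eq_zero.2 rfl]; positivity
    · simp only [Hi, mem_setOf_eq, not_lt]
      rw [N_eq_zero.2 rfl]; simp
  have h0L : (0 : K3) ∈ L := hL'L h0L'
  have hLn : ∀ k ∈ L, k ≠ 0 → N k ≤ 2 ^ n := fun k hk _ => hk
  set Z : Set K3 := {0} with hZ
  have hZL : Z ⊆ L := fun k hk => by rw [hZ, mem_singleton_iff] at hk; rw [hk]; exact h0L
  have e0 : u = L.indicator u + H.indicator u := by
    funext k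
    simp only [Pi.add_apply]
    exact (indicator_self_add_compl_apply L u k).symm
  have e1 : L.indicator u = Z.indicator u + (L \ Z).indicator u := ind_split L Z hZL u
  have e2 : L.indicator a = L'.indicator a + (L \ L').indicator a := ind_split L L' hL'L a
  have hZL' : Z ⊆ L' := fun k hk => by rw [hZ, mem_singleton_iff] at hk; rw [hk]; exact h0L'
  have e3 : (L \ Z).indicator u = (L' \ Z).indicator u + (L \ L').indicator u := by
    have := ind_split (L \ Z) (L' \ Z) (diff_subset_diff_left hL'L) u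
    rw [this]
    congr 2
    ext k
    simp only [mem_diff]
    constructor
    · rintro ⟨⟨h1, h2⟩, h3⟩
      exact ⟨h1, fun h => h3 ⟨h, h2⟩⟩
    · rintro ⟨h1, h2⟩
      exact ⟨⟨h1, fun h => h2 (hZL' h)⟩, fun h => h2 h.1⟩
  have sind : ∀ (R : Set K3) (b : K3 → ℂ), Rap b → Summable (R.indicator b) :=
    fun R b hb => (hb.ind R).summable
  -- the decomposition
  have t1 : Tri u (D j (L.indicator a)) (H.indicator a)
      = Tri ((L \ Z).indicator u) (D j ((L \ L').indicator a)) (H.indicator a)
        + Tri ((L \ L').indicator u) (D j (L'.indicator a)) (H.indicator a)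
        + Tri (H.indicator u) (D j (L.indicator a)) (H.indicator a) := by
    have sD : Summable (D j (L.indicator a)) := ((ra.ind L).D j).summable
    have sD1 : Summable (D j (L'.indicator a)) := ((ra.ind L').D j).summable
    have sD2 : Summable (D j ((L \ L').indicator a)) := ((ra.ind _).D j).summable
    have sc := sind H a ra
    have c0 : Tri (Z.indicator u) (D j (L.indicator a)) (H.indicator a) = 0 := by
      refine tri_zero fun p q => ?_
      by_cases hpz : p = 0
      · right
        by_cases hq : q ∈ L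
        · right
          rw [indicator_of_notMem]
          rw [hpz]
          simp only [hH, mem_compl_iff, not_not]
          simp only [hL, Lo, mem_setOf_eq] at hq ⊢
          rw [neg_zero, zero_sub, N_neg]
          exact hq
        · left
          rw [D, indicator_of_notMem hq, mul_zero]
      · left
        rw [indicator_of_notMem]
        rw [hZ]; exact hpz
    have c1 : Tri ((L' \ Z).indicator u) (D j (L'.indicator a)) (H.indicator a) = 0 := by
      refine tri_zero fun p q => ?_
      by_cases hpz : p ∈ L' \ Z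
      · right
        by_cases hq : q ∈ L'
        · right
          rw [indicator_of_notMem]
          simp only [hH, mem_compl_iff, not_not]
          have h1 := hpz.1.2
          have h2 := hq.2
          simp only [Hi, mem_setOf_eq, not_lt] at h1 h2
          simp only [hL, Lo, mem_setOf_eq]
          rw [show -p - q = -(p + q) by abel, N_neg]
          have := N_add_le p q
          omega
        · left
          rw [D, indicator_of_notMem hq, mul_zero]
      · left
        exact indicator_of_notMem hpz _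
    have d1 : Tri u (D j (L.indicator a)) (H.indicator a)
        = Tri (L.indicator u) (D j (L.indicator a)) (H.indicator a)
          + Tri (H.indicator u) (D j (L.indicator a)) (H.indicator a) := by
      conv_lhs => rw [e0]
      exact tri_add1 (sind L u ru) (sind H u ru) sD sc
    have d2 : Tri (L.indicator u) (D j (L.indicator a)) (H.indicator a)
        = Tri ((L \ Z).indicator u) (D j (L.indicator a)) (H.indicator a) := by
      conv_lhs => rw [e1]
      rw [tri_add1 (sind Z u ru) (sind _ u ru) sD sc, c0, zero_add]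
    have d3 : Tri ((L \ Z).indicator u) (D j (L.indicator a)) (H.indicator a)
        = Tri ((L \ Z).indicator u) (D j (L'.indicator a)) (H.indicator a)
          + Tri ((L \ Z).indicator u) (D j ((L \ L').indicator a)) (H.indicator a) := by
      have : D j (L.indicator a) = D j (L'.indicator a) + D j ((L \ L').indicator a) := by
        funext k
        have := congrFun e2 k
        simp only [Pi.add_apply] at this
        simp only [D, Pi.add_apply]
        rw [this]; ring
      rw [this]
      exact tri_add2 (sind _ u ru) sD1 sD2 sc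
    have d4 : Tri ((L \ Z).indicator u) (D j (L'.indicator a)) (H.indicator a)
        = Tri ((L \ L').indicator u) (D j (L'.indicator a)) (H.indicator a) := by
      rw [e3, tri_add1 (sind _ u ru) (sind _ u ru) sD1 sc, c1, zero_add]
    rw [d1, d2, d3, d4]
    ring
  rw [t1]
  have sq_ep : Real.sqrt (ep v n) * Real.sqrt (ep v n) = ep v n := Real.mul_self_sqrt (ep_nonneg n)
  have hsg := sg_nonneg v n
  have hs0 := Real.sqrt_nonneg (ep v n)
  have b1 : ‖Tri ((L \ Z).indicator u) (D j ((L \ L').indicator a)) (H.indicator a)‖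
      ≤ 2 * Real.pi * 2 ^ n * sg v n * ep v n := by
    refine (norm_tri_le (sind _ u ru) ((ra.ind _).D j).summable (sind H a ra)
      (M := sg v n) (sup_lo hv (R := L \ Z) (fun k hk _ => hk.1) (fun h => h.2 rfl) j)).trans ?_
    have h1 : n2 (D j ((L \ L').indicator a)) ≤ 2 * Real.pi * 2 ^ n * Real.sqrt (ep v n) := by
      rw [D_ind]
      refine (n2_D_le ra (R := L \ L') (fun k hk => hk.1) j).trans ?_
      have := n2_hi_le hv hmid i
      gcongr
    have h2 : n2 (H.indicator a) ≤ Real.sqrt (ep v n) := n2_hi_le hv hHHi i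
    calc sg v n * (n2 (D j ((L \ L').indicator a)) * n2 (H.indicator a))
        ≤ sg v n * ((2 * Real.pi * 2 ^ n * Real.sqrt (ep v n)) * Real.sqrt (ep v n)) := by
          gcongr
          exact n2_nonneg _
      _ = 2 * Real.pi * 2 ^ n * sg v n * (Real.sqrt (ep v n) * Real.sqrt (ep v n)) := by ring
      _ = _ := by rw [sq_ep]
  have b2 : ‖Tri ((L \ L').indicator u) (D j (L'.indicator a)) (H.indicator a)‖
      ≤ 2 * Real.pi * 2 ^ n * sg v n * ep v n := by
    refine (norm_tri_le2 (sind _ u ru) ((ra.ind _).D j).summable (sind H a ra)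
      (M := 2 * Real.pi * 2 ^ n * sg v n) (fun x => ?_)).trans ?_
    · rw [D_ind]
      exact sup_D_lo hv (R := L') (fun k hk _ => hk.1) i j x
    · have h1 : n2 ((L \ L').indicator u) ≤ Real.sqrt (ep v n) := n2_hi_le hv hmid j
      have h2 : n2 (H.indicator a) ≤ Real.sqrt (ep v n) := n2_hi_le hv hHHi i
      calc 2 * Real.pi * 2 ^ n * sg v n * (n2 ((L \ L').indicator u) * n2 (H.indicator a))
          ≤ 2 * Real.pi * 2 ^ n * sg v n * (Real.sqrt (ep v n) * Real.sqrt (ep v n)) := by
            gcongr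
            exact n2_nonneg _
        _ = _ := by rw [sq_ep]
  have b3 : ‖Tri (H.indicator u) (D j (L.indicator a)) (H.indicator a)‖
      ≤ 2 * Real.pi * 2 ^ n * sg v n * ep v n := by
    refine (norm_tri_le2 (sind _ u ru) ((ra.ind _).D j).summable (sind H a ra)
      (M := 2 * Real.pi * 2 ^ n * sg v n) (fun x => ?_)).trans ?_
    · rw [D_ind]
      exact sup_D_lo hv (R := L) (fun k hk _ => hk) i j x
    · have h1 : n2 (H.indicator u) ≤ Real.sqrt (ep v n) := n2_hi_le hv hHHi j
      have h2 : n2 (H.indicator a) ≤ Real.sqrt (ep v n) := n2_hi_le hv hHHi i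
      calc 2 * Real.pi * 2 ^ n * sg v n * (n2 (H.indicator u) * n2 (H.indicator a))
          ≤ 2 * Real.pi * 2 ^ n * sg v n * (Real.sqrt (ep v n) * Real.sqrt (ep v n)) := by
            gcongr
            exact n2_nonneg _
        _ = _ := by rw [sq_ep]
  refine (norm_add_le _ _).trans ?_
  refine (add_le_add (norm_add_le _ _) le_rfl).trans ?_
  linarith

include hv hdiv in
theorem sum_tri_div (b c : K3 → ℂ) (hb : Rap b) (hc : Rap c) :
    ∑ j, Tri (D j (fr (v j))) b c = 0 := by
  have h1 : ∀ k, ∑ j, D j (fr (v j)) k = 0 := by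
    intro k
    have := fr_div hv hdiv k
    have e : ∑ j, D j (fr (v j)) k = (2 * Real.pi * Complex.I) * ∑ j, (k j : ℂ) * fr (v j) k := by
      rw [Finset.mul_sum]
      exact Finset.sum_congr rfl fun j _ => by rw [D]; ring
    rw [e, this, mul_zero]
  unfold Tri
  rw [← Summable.tsum_finsetSum fun j _ =>
    summable_tri ((rap_fr (hv j)).D j).summable hb.summable hc.summable]
  rw [tsum_congr (g := fun _ => (0 : ℂ)) (fun p => ?_), tsum_zero]
  rw [← Finset.sum_mul, ← Finset.sum_mul, h1, zero_mul, zero_mul]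

/-- The transport form. -/
noncomputable def TT (v : Fin 3 → V → ℝ) (b c : K3 → ℂ) : ℂ := ∑ j, Tri (fr (v j)) (D j b) c

include hv hdiv in
theorem TT_anti (b c : K3 → ℂ) (hb : Rap b) (hc : Rap c) : TT v b c = -TT v c b := by
  unfold TT
  have h : ∀ j, Tri (fr (v j)) (D j b) c
      = -Tri (D j (fr (v j))) b c - Tri (fr (v j)) (D j c) b := by
    intro j
    rw [tri_D2 (rap_fr (hv j)) hb hc j, tri_comm23 (fr (v j)) b (D j c)]
  simp_rw [h]
  rw [Finset.sum_sub_distrib, Finset.sum_neg_distrib, sum_tri_div hv hdiv b c hb hc]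
  ring

include hv hdiv in
theorem TT_self (b : K3 → ℂ) (hb : Rap b) : TT v b b = 0 := by
  have h := TT_anti hv hdiv b b hb hb
  have h2 : (2 : ℂ) * TT v b b = 0 := by linear_combination h
  simpa using h2

/-- The flux of energy out of the frequencies at most `2 ^ n`. -/
noncomputable def flux (v : Fin 3 → V → ℝ) (n : ℕ) : ℂ :=
  ∑ i, TT v (fr (v i)) ((Lo n).indicator (fr (v i)))

include hv hdiv in
theorem norm_flux_le (n : ℕ) : ‖flux v n‖ ≤ 27 * (2 * Real.pi * 2 ^ n * sg v n * ep v n) := by
  have h : ∀ i, TT v (fr (v i)) ((Lo n).indicator (fr (v i)))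
      = -TT v ((Lo n).indicator (fr (v i))) ((Lo n)ᶜ.indicator (fr (v i))) := by
    intro i
    have ra : Rap (fr (v i)) := rap_fr (hv i)
    rw [TT_anti hv hdiv _ _ ra (ra.ind _)]
    have e : ∀ b : K3 → ℂ, Rap b → TT v b (fr (v i))
        = TT v b ((Lo n).indicator (fr (v i))) + TT v b ((Lo n)ᶜ.indicator (fr (v i))) := by
      intro b hb
      unfold TT
      rw [← Finset.sum_add_distrib]
      refine Finset.sum_congr rfl fun j _ => ?_
      rw [← tri_add3 (rap_fr (hv j)).summable (hb.D j).summable (ra.ind _).summable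
        (ra.ind _).summable]
      congr 1
      funext k
      simp only [Pi.add_apply]
      exact (indicator_self_add_compl_apply (Lo n) (fr (v i)) k).symm
    rw [e _ (ra.ind _), TT_self hv hdiv _ (ra.ind _), zero_add]
  have h1 : ∀ i, ‖TT v (fr (v i)) ((Lo n).indicator (fr (v i)))‖
      ≤ 9 * (2 * Real.pi * 2 ^ n * sg v n * ep v n) := by
    intro i
    rw [h i, norm_neg]
    unfold TT
    refine (norm_sum_le _ _).trans ?_
    refine (Finset.sum_le_sum fun j _ => tri_bound hv n i j).trans (le_of_eq ?_)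
    rw [Finset.sum_const, Finset.card_univ, Fintype.card_fin, nsmul_eq_mul]
    push_cast
    ring
  unfold flux
  refine (norm_sum_le _ _).trans ((Finset.sum_le_sum fun i _ => h1 i).trans (le_of_eq ?_))
  rw [Finset.sum_const, Finset.card_univ, Fintype.card_fin, nsmul_eq_mul]
  push_cast
  ring

end Pool.Agent.Helper24.ST
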