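import Pool.Agent.Helper24.ST.Leray

set_option autoImplicit false

/-!
The fundamental theorem of calculus across the singular times.
-/

open MeasureTheory Set Filter Topology
open scoped ContDiff ENNReal NNReal

namespace Pool.Agent.Helper24.ST

open H459R3.NS Pool.Agent.Q63.Win

/-- The fundamental theorem of calculus for a Lipschitz function on an open set of full measure. -/
theorem ftc_open {G : Set ℝ} (hG : IsOpen G) {s t : ℝ} (hst : s ≤ t) (hs : s ∈ G) (ht : t ∈ G)
    (h0 : volume (Ioo s t \ G) = 0) {f f' : ℝ → ℝ} {L : ℝ≥0} (hL : LipschitzOnWith L f G)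
    (hf : ∀ τ ∈ G, HasDerivAt f (f' τ) τ) :
    IntegrableOn f' (G ∩ Ioo s t) ∧ ∫ τ in G ∩ Ioo s t, f' τ = f t - f s := by
  obtain ⟨g, hg, hfg⟩ := hL.extend_real
  have hd : ∀ τ ∈ G, deriv g τ = f' τ := by
    intro τ hτ
    refine (HasDerivAt.congr_of_eventuallyEq (hf τ hτ) ?_).deriv
    filter_upwards [hG.mem_nhds hτ] with x hx
    exact (hfg hx).symm
  have hint : IntegrableOn (deriv g) (Ioo s t) := by
    refine Measure.integrableOn_of_bounded (M := L) (by rw [Real.volume_Ioo]; exact ENNReal.ofReal_ne_top)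
      (measurable_deriv g).aestronglyMeasurable ?_
    exact ae_of_all _ fun x => norm_deriv_le_of_lipschitz hg
  have e1 : ∫ τ in Ioo s t, deriv g τ = ∫ τ in G ∩ Ioo s t, f' τ := by
    have h1 : ∫ τ in Ioo s t, deriv g τ = ∫ τ in G ∩ Ioo s t, deriv g τ := by
      refine (setIntegral_congr_set ?_).symm
      rw [ae_eq_set]
      refine ⟨?_, ?_⟩
      · rw [sdiff_eq_empty.2 inter_subset_right]; simp
      · refine measure_mono_null ?_ h0
        intro x hx
        exact ⟨hx.1, fun h => hx.2 ⟨h, hx.1⟩⟩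
    rw [h1]
    refine setIntegral_congr_fun (hG.measurableSet.inter measurableSet_Ioo) fun x hx => hd x hx.1
  have e2 : ∫ τ in s..t, deriv g τ = g t - g s :=
    (hg.lipschitzOnWith.absolutelyContinuousOnInterval).integral_deriv_eq_sub
  rw [intervalIntegral.integral_of_le hst, integral_Ioc_eq_integral_Ioo] at e2
  refine ⟨?_, ?_⟩
  · refine (hint.mono_set inter_subset_right).congr_fun (fun x hx => hd x hx.1)
      (hG.measurableSet.inter measurableSet_Ioo)
  · rw [← e1, e2, hfg ht, hfg hs]

/-- The spatial part of the weak formulation. -/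
noncomputable def wk (ν : ℝ) (v ψ : V → V) : ℝ :=
  ∑ i, ((∑ j, ∫ x in cube, v x i * v x j * pd j (fun y => ψ y i) x)
          + ν * ∫ x in cube, v x i * lap (fun y => ψ y i) x)

theorem abs_wk_le {ν : ℝ} (hν : 0 ≤ ν) {ψ : V → V} (hψ : SPV ψ) :
    ∃ B : ℝ, 0 ≤ B ∧ ∀ v : V → V, (∀ i, SP (fun y => v y i)) → |wk ν v ψ| ≤ B * (energy v + 1) := by
  have hψi : ∀ i, SP (fun y => ψ y i) := fun i =>
    ⟨contDiff_pi.1 hψ.1 i, fun j x => by simp only [hψ.2 j x]⟩
  have hK : IsCompact cube := isCompact_Icc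
  choose C1 hC1 using fun i j => hK.exists_bound_of_continuousOn ((hψi i).pd j).cont.continuousOn
  choose C2 hC2 using fun i => hK.exists_bound_of_continuousOn (hψi i).lap.cont.continuousOn
  set B1 : ℝ := ∑ i, ∑ j, |C1 i j| with hB1
  set B2 : ℝ := ∑ i, |C2 i| with hB2
  have hB10 : 0 ≤ B1 := Finset.sum_nonneg fun i _ => Finset.sum_nonneg fun j _ => abs_nonneg _
  have hB20 : 0 ≤ B2 := Finset.sum_nonneg fun i _ => abs_nonneg _
  have hb1 : ∀ i j, |C1 i j| ≤ B1 := fun i j =>
    (Finset.single_le_sum (f := fun j => |C1 i j|) (fun _ _ => abs_nonneg _) (Finset.mem_univ j)).trans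
      (Finset.single_le_sum (f := fun i => ∑ j, |C1 i j|)
        (fun _ _ => Finset.sum_nonneg fun _ _ => abs_nonneg _) (Finset.mem_univ i))
  have hb2 : ∀ i, |C2 i| ≤ B2 := fun i =>
    Finset.single_le_sum (f := fun i => |C2 i|) (fun _ _ => abs_nonneg _) (Finset.mem_univ i)
  refine ⟨9 * B1 + 3 * ν * B2, by positivity, fun v hv => ?_⟩
  set e : Fin 3 → ℝ := fun i => ∫ x in cube, v x i ^ 2 with he
  have he0 : ∀ i, 0 ≤ e i := fun i => integral_nonneg fun x => sq_nonneg _
  have hei : ∀ i, e i ≤ energy v := fun i =>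
    Finset.single_le_sum (f := e) (fun i _ => he0 i) (Finset.mem_univ i)
  have hE0 : 0 ≤ energy v := Finset.sum_nonneg fun i _ => he0 i
  have hvc : ∀ i, Continuous fun x => v x i := fun i => (hv i).cont
  have hmeas : MeasurableSet cube := measurableSet_Icc
  have t1 : ∀ i j, |∫ x in cube, v x i * v x j * pd j (fun y => ψ y i) x| ≤ B1 * energy v := by
    intro i j
    have h1 : |∫ x in cube, v x i * v x j * pd j (fun y => ψ y i) x|
        ≤ ∫ x in cube, B1 * (1 / 2 * (v x i ^ 2 + v x j ^ 2)) := by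
      rw [← Real.norm_eq_abs]
      have hc1 := hvc i
      have hc2 := hvc j
      refine norm_integral_le_of_norm_le (integrableOn_cube (by fun_prop)) ?_
      refine (ae_restrict_iff' hmeas).2 (Eventually.of_forall fun x hx => ?_)
      rw [norm_mul, mul_comm]
      have a1 := (hC1 i j x hx).trans ((le_abs_self _).trans (hb1 i j))
      refine mul_le_mul a1 ?_ (norm_nonneg _) hB10
      rw [Real.norm_eq_abs, abs_le]
      constructor <;> nlinarith [sq_nonneg (v x i + v x j), sq_nonneg (v x i - v x j)]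
    refine h1.trans ?_
    rw [integral_const_mul, integral_const_mul, integral_add]
    · have := hei i
      have := hei j
      have h2 : (∫ x in cube, v x i ^ 2) + ∫ x in cube, v x j ^ 2 ≤ 2 * energy v := by
        have a : e i = ∫ x in cube, v x i ^ 2 := rfl
        have b : e j = ∫ x in cube, v x j ^ 2 := rfl
        linarith
      calc B1 * (1 / 2 * ((∫ x in cube, v x i ^ 2) + ∫ x in cube, v x j ^ 2))
          ≤ B1 * (1 / 2 * (2 * energy v)) := by gcongr
        _ = _ := by ring
    · exact integrableOn_cube ((hvc i).pow 2)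
    · exact integrableOn_cube ((hvc j).pow 2)
  have t2 : ∀ i, |∫ x in cube, v x i * lap (fun y => ψ y i) x| ≤ B2 * (energy v + 1) := by
    intro i
    have h1 : |∫ x in cube, v x i * lap (fun y => ψ y i) x|
        ≤ ∫ x in cube, B2 * (v x i ^ 2 + 1) := by
      rw [← Real.norm_eq_abs]
      have hc1 := hvc i
      refine norm_integral_le_of_norm_le (integrableOn_cube (by fun_prop)) ?_
      refine (ae_restrict_iff' hmeas).2 (Eventually.of_forall fun x hx => ?_)
      rw [norm_mul, mul_comm]
      have a1 := (hC2 i x hx).trans ((le_abs_self _).trans (hb2 i))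
      refine mul_le_mul a1 ?_ (norm_nonneg _) hB20
      rw [Real.norm_eq_abs, abs_le]
      constructor <;> nlinarith [sq_nonneg (v x i + 1), sq_nonneg (v x i - 1)]
    refine h1.trans ?_
    rw [integral_const_mul, integral_add]
    · have h3 : ∫ _x in cube, (1 : ℝ) = 1 := by
        rw [integral_const]
        simp [measureReal_def, volume_cube]
      rw [h3]
      have a : e i = ∫ x in cube, v x i ^ 2 := rfl
      have := hei i
      gcongr
    · exact integrableOn_cube ((hvc i).pow 2)
    · exact integrableOn_cube continuous_const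
  unfold wk
  refine (Finset.abs_sum_le_sum_abs _ _).trans ?_
  have t3 : ∀ i ∈ (Finset.univ : Finset (Fin 3)),
      |(∑ j, ∫ x in cube, v x i * v x j * pd j (fun y => ψ y i) x)
          + ν * ∫ x in cube, v x i * lap (fun y => ψ y i) x|
      ≤ 3 * (B1 * energy v) + ν * (B2 * (energy v + 1)) := by
    intro i _
    refine (abs_add_le _ _).trans (add_le_add ?_ ?_)
    · refine (Finset.abs_sum_le_sum_abs _ _).trans ((Finset.sum_le_sum fun j _ => t1 i j).trans
        (le_of_eq ?_))
      simp
    · rw [abs_mul, abs_of_nonneg hν]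
      have := t2 i
      gcongr
  refine (Finset.sum_le_sum t3).trans ?_
  rw [Finset.sum_const, Finset.card_univ, Fintype.card_fin, nsmul_eq_mul]
  push_cast
  have : 0 ≤ B1 := hB10
  nlinarith

section

variable {ν T E : ℝ} {G : Set ℝ} {u : ℝ → V → V} {p : ℝ → V → ℝ}

/-- Integrals against smooth divergence-free fields are Lipschitz functions of time. -/
theorem IsLeray.lip (h : IsLeray ν T E G u p) (hν : 0 ≤ ν) {ψ : V → V} (hψ : SPV ψ)
    (hdiv : ∀ x, ∑ i, pd i (fun y => ψ y i) x = 0) :
    ∃ B : ℝ, 0 ≤ B ∧ ∀ s ∈ G, ∀ t ∈ G,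
      |(∑ i, ∫ x in cube, u t x i * ψ x i) - ∑ i, ∫ x in cube, u s x i * ψ x i| ≤ B * |t - s| := by
  obtain ⟨B, hB0, hB⟩ := abs_wk_le hν hψ
  have key : ∀ s ∈ G, ∀ t ∈ G, s ≤ t →
      |(∑ i, ∫ x in cube, u t x i * ψ x i) - ∑ i, ∫ x in cube, u s x i * ψ x i|
        ≤ (B * (E ^ 2 + 1)) * |t - s| := by
    intro s hs t ht hst
    rw [h.weak ψ hψ hdiv s hs t ht hst, ← Real.norm_eq_abs]
    have hv : volume (G ∩ Ioo s t) ≤ ENNReal.ofReal (t - s) := by
      refine (measure_mono inter_subset_right).trans (le_of_eq Real.volume_Ioo)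
    refine (norm_setIntegral_le_of_norm_le_const (hv.trans_lt ENNReal.ofReal_lt_top)
      (C := B * (E ^ 2 + 1)) (fun τ hτ => ?_)).trans ?_
    · have h1 := hB (u τ) (fun i => h.sp hτ.1 i)
      refine h1.trans ?_
      have := h.energy_le τ hτ.1
      gcongr
    · rw [abs_of_nonneg (by linarith : 0 ≤ t - s)]
      have h2 : volume.real (G ∩ Ioo s t) ≤ t - s := by
        rw [measureReal_def]
        exact ENNReal.toReal_le_of_le_ofReal (by linarith) hv
      gcongr
  refine ⟨B * (E ^ 2 + 1), by positivity, fun s hs t ht => ?_⟩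
  rcases le_total s t with hst | hst
  · exact key s hs t ht hst
  · rw [abs_sub_comm, abs_sub_comm t s]
    exact key t ht s hs hst

end

end Pool.Agent.Helper24.ST
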