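import Pool.Agent.Helper24.ST.Tot

set_option autoImplicit false

/-!
The Hausdorff measures of the singular times for gauges with a logarithm.
-/

open MeasureTheory Set Filter Topology
open scoped ContDiff ENNReal NNReal

namespace Pool.Agent.Helper24.ST

open H459R3.NS Pool.Agent.Q63.Win

/-- The constant of the covering by scales between `K / 2` and `K`. -/
noncomputable def C3 : ℝ := C2 * (40 * CF) ^ (5 / 2 : ℝ)

theorem C3_pos : 0 < C3 := by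
  unfold C3 C2
  have := CF_pos
  positivity

theorem lamf_half {K : ℕ} (hK : 1 ≤ K) :
    lamf K (K / 2) ^ (5 / 2 : ℝ) ≤ (40 * CF) ^ (5 / 2 : ℝ) * (K : ℝ) ^ (-(5 / 2) : ℝ) := by
  have hCF := CF_pos
  have hK0 : (0 : ℝ) < K := by exact_mod_cast hK
  have h1 : lamf K (K / 2) ≤ 40 * CF / K := by
    unfold lamf Den
    have h2 : (K : ℝ) / 2 ≤ ((K - K / 2 : ℕ) : ℝ) := by
      have : K ≤ 2 * (K - K / 2) := by omega
      have h3 : (K : ℝ) ≤ 2 * ((K - K / 2 : ℕ) : ℝ) := by exact_mod_cast this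
      linarith
    rw [div_le_div_iff₀ (by positivity) hK0, one_mul]
    have h4 : 40 * CF * (((K - K / 2 : ℕ) : ℝ) / (20 * CF)) = 2 * ((K - K / 2 : ℕ) : ℝ) := by
      field_simp
      ring
    rw [mul_add, h4]
    nlinarith
  calc lamf K (K / 2) ^ (5 / 2 : ℝ) ≤ (40 * CF / K) ^ (5 / 2 : ℝ) :=
        Real.rpow_le_rpow (lamf_pos _ _).le h1 (by norm_num)
    _ = _ := by
        rw [Real.div_rpow (by positivity) hK0.le, Real.rpow_neg hK0.le]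
        rfl

theorem quarter_half (K : ℕ) : (1 / 4 : ℝ) ^ (K / 2) ≤ 2 * (1 / 2) ^ K := by
  have h1 : (1 / 4 : ℝ) ^ (K / 2) = (1 / 2) ^ (2 * (K / 2)) := by
    rw [pow_mul]; norm_num
  rw [h1]
  have h2 : K ≤ 2 * (K / 2) + 1 := by omega
  have h3 : (1 / 2 : ℝ) ^ (2 * (K / 2) + 1) ≤ (1 / 2) ^ K :=
    pow_le_pow_of_le_one (by norm_num) (by norm_num) h2
  rw [pow_succ] at h3
  linarith

theorem ell_half {ν : ℝ} (hν : 0 < ν) (K : ℕ) : 3 * ell ν K (K / 2) ≤ 1 / 6 * (1 / 2) ^ K / ν := by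
  unfold ell
  rw [← mul_div_assoc]
  refine div_le_div_of_nonneg_right ?_ hν.le
  have h1 := quarter_half K
  have h2 := lamf_le K (K / 2)
  have h3 := lamf_pos K (K / 2)
  calc 3 * (lamf K (K / 2) * (1 / 4) ^ (K / 2)) ≤ 3 * (1 / 36 * (2 * (1 / 2) ^ K)) := by gcongr
    _ = _ := by ring

section

variable {ν T E : ℝ} {G : Set ℝ} {u : ℝ → V → V} {p : ℝ → V → ℝ}

/-- The covering with scales between `K / 2` and `K`. -/
theorem IsLeray.cover_half (h : IsLeray ν T E G u p) (hν : 0 < ν) {K : ℕ} (hK : 1 ≤ K) {X : Set ℝ}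
    (hX : X ⊆ Ioo 0 T \ G) (hX2 : ∀ t ∈ X, 1 / 6 * (1 / 2) ^ K ≤ ν * t) :
    ∃ F : Finset (ℝ × ℕ), (∀ q ∈ F, q.1 ∈ X ∧ K / 2 ≤ q.2 ∧ q.2 ≤ K) ∧
      (X ⊆ ⋃ q ∈ F, Icc (q.1 - 3 * ell ν K q.2) (q.1 + 3 * ell ν K q.2)) ∧
      ∑ q ∈ F, Real.sqrt (ν * ell ν K q.2)
        ≤ C3 / ν * (K : ℝ) ^ (-(5 / 2) : ℝ) * Ptot G u (K / 2) := by
  obtain ⟨F, hF1, hF2, hF3⟩ := h.cover hν (k0 := K / 2) (K := K) (by omega) hX (fun t ht => by
    refine (ell_half hν K).trans ?_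
    rw [div_le_iff₀ hν]
    have := hX2 t ht
    linarith)
  refine ⟨F, hF1, hF2, hF3.trans ?_⟩
  refine mul_le_mul_of_nonneg_right ?_ (Ptot_nonneg _ _ _)
  have h1 := lamf_half hK
  have h2 : 0 ≤ C2 / ν := by unfold C2; positivity
  calc C2 / ν * lamf K (K / 2) ^ (5 / 2 : ℝ)
      ≤ C2 / ν * ((40 * CF) ^ (5 / 2 : ℝ) * (K : ℝ) ^ (-(5 / 2) : ℝ)) := by gcongr
    _ = _ := by unfold C3; ring

/-- **The quantitative theorem.** -/
theorem quant_cover : ∃ C : ℝ, 0 < C ∧ ∀ (ν T E : ℝ) (G : Set ℝ) (u : ℝ → V → V) (p : ℝ → V → ℝ),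
    0 < ν → IsLeray ν T E G u p → ∀ K : ℕ, 1 ≤ K → ∃ F : Finset (ℝ × ℝ),
      (∀ q ∈ F, (1 / 4) ^ K / C ≤ ν * (q.2 - q.1) ∧ ν * (q.2 - q.1) ≤ C * (1 / 2) ^ K) ∧
      ({t ∈ Ioo 0 T \ G | C * (1 / 2) ^ K ≤ ν * t} ⊆ ⋃ q ∈ F, Icc q.1 q.2) ∧
      ∑ q ∈ F, Real.sqrt (ν * (q.2 - q.1)) ≤ C * (E / ν) ^ 2 * (K : ℝ) ^ (-(5 / 2) : ℝ) := by
  classical
  have hC3 := C3_pos
  refine ⟨3 * C3 + 10, by positivity, ?_⟩
  intro ν T E G u p hν h K hK
  obtain ⟨F, hF1, hF2, hF3⟩ := h.cover_half hν hK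
    (X := {t ∈ Ioo 0 T \ G | (3 * C3 + 10) * (1 / 2) ^ K ≤ ν * t}) (fun t ht => ht.1)
    (fun t ht => by
      have h1 := ht.2
      have h2 : (0 : ℝ) < (1 / 2) ^ K := by positivity
      nlinarith)
  have hK0 : (0 : ℝ) < K := by exact_mod_cast hK
  have hKp : 0 < (K : ℝ) ^ (-(5 / 2) : ℝ) := Real.rpow_pos_of_pos hK0 _
  refine ⟨F.image fun q => (q.1 - 3 * ell ν K q.2, q.1 + 3 * ell ν K q.2), ?_, ?_, ?_⟩
  · intro q hq
    obtain ⟨q', hq', rfl⟩ := Finset.mem_image.1 hq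
    simp only
    have e1 : ν * (q'.1 + 3 * ell ν K q'.2 - (q'.1 - 3 * ell ν K q'.2)) = ν * (6 * ell ν K q'.2) := by
      ring
    rw [e1]
    obtain ⟨h1, h2, h3⟩ := hF1 q' hq'
    constructor
    · have h4 := ell_anti hν K h3
      have h5 : ν * (6 * ell ν K K) = 1 / 6 * (1 / 4) ^ K := by
        unfold ell lamf Den
        rw [Nat.sub_self]
        field_simp
        norm_num
      have h6 : (1 / 4 : ℝ) ^ K / (3 * C3 + 10) ≤ 1 / 6 * (1 / 4) ^ K := by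
        rw [div_le_iff₀ (by positivity)]
        have : (0 : ℝ) < (1 / 4) ^ K := by positivity
        nlinarith
      refine h6.trans ?_
      rw [← h5]
      gcongr
    · have h4 := ell_anti hν K h2
      have h5 := ell_half hν K
      rw [le_div_iff₀ hν] at h5
      have h6 : ν * (6 * ell ν K q'.2) ≤ 2 * (1 / 6 * (1 / 2) ^ K) := by
        calc ν * (6 * ell ν K q'.2) ≤ ν * (6 * ell ν K (K / 2)) := by gcongr
          _ = 2 * (3 * ell ν K (K / 2) * ν) := by ring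
          _ ≤ _ := by linarith
      refine h6.trans ?_
      have : (0 : ℝ) < (1 / 2) ^ K := by positivity
      nlinarith
  · intro x hx
    obtain ⟨q, hq, hxq⟩ := mem_iUnion₂.1 (hF2 hx)
    exact mem_iUnion₂.2 ⟨_, Finset.mem_image.2 ⟨q, hq, rfl⟩, hxq⟩
  · have hfun : ∀ q : ℝ × ℕ, Real.sqrt (ν * (q.1 + 3 * ell ν K q.2 - (q.1 - 3 * ell ν K q.2)))
        ≤ 3 * Real.sqrt (ν * ell ν K q.2) := by
      intro q
      have h0 : 0 ≤ ν * ell ν K q.2 := by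
        have := ell_pos hν K q.2
        positivity
      have e1 : 3 * Real.sqrt (ν * ell ν K q.2) = Real.sqrt (9 * (ν * ell ν K q.2)) := by
        rw [Real.sqrt_mul (by norm_num : (0 : ℝ) ≤ 9), show (9 : ℝ) = 3 ^ 2 by norm_num,
          Real.sqrt_sq (by norm_num : (0 : ℝ) ≤ 3)]
      rw [e1]
      refine Real.sqrt_le_sqrt ?_
      nlinarith
    have h1 : ∑ q ∈ F.image fun q => (q.1 - 3 * ell ν K q.2, q.1 + 3 * ell ν K q.2),
        Real.sqrt (ν * (q.2 - q.1)) ≤ ∑ q ∈ F, 3 * Real.sqrt (ν * ell ν K q.2) := by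
      refine (Finset.sum_image_le_of_nonneg fun q _ => Real.sqrt_nonneg _).trans ?_
      exact Finset.sum_le_sum fun q _ => hfun q
    rw [← Finset.mul_sum] at h1
    have h2 := h.Ptot_le hν (K / 2)
    calc ∑ q ∈ F.image fun q => (q.1 - 3 * ell ν K q.2, q.1 + 3 * ell ν K q.2),
          Real.sqrt (ν * (q.2 - q.1)) ≤ 3 * ∑ q ∈ F, Real.sqrt (ν * ell ν K q.2) := h1
      _ ≤ 3 * (C3 / ν * (K : ℝ) ^ (-(5 / 2) : ℝ) * Ptot G u (K / 2)) := by gcongr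
      _ ≤ 3 * (C3 / ν * (K : ℝ) ^ (-(5 / 2) : ℝ) * (E ^ 2 / ν)) := by gcongr
      _ = 3 * C3 * (E / ν) ^ 2 * (K : ℝ) ^ (-(5 / 2) : ℝ) := by ring
      _ ≤ (3 * C3 + 10) * (E / ν) ^ 2 * (K : ℝ) ^ (-(5 / 2) : ℝ) := by gcongr; linarith

end

end Pool.Agent.Helper24.ST
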