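import Pool.Agent.Helper24.ST.Gauge

set_option autoImplicit false

/-!
The Hausdorff measures of the singular times for gauges with a logarithm, continued.
-/

open MeasureTheory Set Filter Topology
open scoped ContDiff ENNReal NNReal

namespace Pool.Agent.Helper24.ST

open H459R3.NS Pool.Agent.Q63.Win

/-- The gauge `√r Γ(r)`. -/
noncomputable def gau (Γ : ℝ → ℝ) (x : ℝ≥0∞) : ℝ≥0∞ :=
  ENNReal.ofReal (Real.sqrt x.toReal * Γ x.toReal)

theorem ell_self (ν : ℝ) (K : ℕ) : 6 * ell ν K K = 1 / 6 * (1 / 4) ^ K / ν := by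
  unfold ell lamf Den
  rw [Nat.sub_self]
  norm_num
  ring

/-- The gauge at the smallest length is small for infinitely many scales. -/
theorem freq_gauge {ν : ℝ} (hν : 0 < ν) {Γ : ℝ → ℝ} {δ M : ℝ} (hδ : 0 < δ)
    (hΓ : AntitoneOn Γ (Ioo 0 δ))
    (hM : ∃ᶠ r in 𝓝[>] (0 : ℝ), Γ r ≤ M * Real.log (1 / r) ^ (5 / 2 : ℝ)) :
    ∃ᶠ K : ℕ in atTop, Γ (6 * ell ν K K) ≤ |M| * (|Real.log (6 * ν)| + 4) ^ (5 / 2 : ℝ)
      * (K : ℝ) ^ (5 / 2 : ℝ) := by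
  rw [frequently_atTop]
  intro K0
  -- a small radius
  have hr0 : 0 < min (min δ 1) (1 / 6 * (1 / 4) ^ (K0 + 1) / ν) := by positivity
  have hev : ∀ᶠ r in 𝓝[>] (0 : ℝ), r ∈ Ioo 0 (min (min δ 1) (1 / 6 * (1 / 4) ^ (K0 + 1) / ν)) :=
    Ioo_mem_nhdsGT hr0
  have hlim : Tendsto (fun n : ℕ => 1 / 6 * (1 / 4 : ℝ) ^ n / ν) atTop (𝓝 0) := by
    have h1 : Tendsto (fun n : ℕ => (1 / 4 : ℝ) ^ n) atTop (𝓝 0) :=
      tendsto_pow_atTop_nhds_zero_of_lt_one (by norm_num) (by norm_num)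
    have h2 := (h1.const_mul (1 / 6)).div_const ν
    simpa using h2
  obtain ⟨K1, hK1⟩ := (hlim.eventually (gt_mem_nhds hδ)).exists
  have hr1 : 0 < 1 / 6 * (1 / 4 : ℝ) ^ (K1 + 1) / ν := by positivity
  have hev2 : ∀ᶠ r in 𝓝[>] (0 : ℝ), r ∈ Ioo 0 (1 / 6 * (1 / 4 : ℝ) ^ (K1 + 1) / ν) :=
    Ioo_mem_nhdsGT hr1
  obtain ⟨r, hr, hrI, hrI2⟩ := (hM.and_eventually (hev.and hev2)).exists
  obtain ⟨hrp, hrs⟩ := hrI
  rw [lt_min_iff, lt_min_iff] at hrs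
  obtain ⟨⟨hrδ, hr1'⟩, hrK⟩ := hrs
  set y : ℝ := 1 / (6 * ν * r) with hy
  have hyp : 0 < 6 * ν * r := by positivity
  have hyK : ∀ K2 : ℕ, r < 1 / 6 * (1 / 4) ^ (K2 + 1) / ν → (4 : ℝ) ^ (K2 + 1) < y := by
    intro K2 h2
    rw [hy, lt_div_iff₀ hyp]
    rw [lt_div_iff₀ hν] at h2
    have h3 : (4 : ℝ) ^ (K2 + 1) * (1 / 4) ^ (K2 + 1) = 1 := by
      rw [← mul_pow]; norm_num
    have h4 : (0 : ℝ) < 4 ^ (K2 + 1) := by positivity
    calc (4 : ℝ) ^ (K2 + 1) * (6 * ν * r) = 6 * (4 ^ (K2 + 1) * (r * ν)) := by ring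
      _ < 6 * (4 ^ (K2 + 1) * (1 / 6 * (1 / 4) ^ (K2 + 1))) := by gcongr
      _ = 4 ^ (K2 + 1) * (1 / 4) ^ (K2 + 1) := by ring
      _ = 1 := h3
  have hy0 := hyK K0 hrK
  have hy1 : 1 ≤ y := by
    have : (1 : ℝ) ≤ 4 ^ (K0 + 1) := one_le_pow₀ (by norm_num)
    linarith
  obtain ⟨K, hKa, hKb⟩ := exists_nat_pow_near hy1 (by norm_num : (1 : ℝ) < 4)
  have hlt : ∀ K2 : ℕ, (4 : ℝ) ^ (K2 + 1) < y → K2 + 1 ≤ K := by
    intro K2 h2
    have h3 : (4 : ℝ) ^ (K2 + 1) < 4 ^ (K + 1) := h2.trans hKb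
    have h4 := (pow_lt_pow_iff_right₀ (by norm_num : (1 : ℝ) < 4)).1 h3
    omega
  have hK0K := hlt K0 hy0
  have hK1K := hlt K1 (hyK K1 hrI2.2)
  refine ⟨K, by omega, ?_⟩
  have hel : 6 * ell ν K K = 1 / 6 * (1 / 4) ^ K / ν := ell_self ν K
  have h4K : (4 : ℝ) ^ K * (1 / 4) ^ K = 1 := by
    rw [← mul_pow]; norm_num
  have hrle : r ≤ 6 * ell ν K K := by
    rw [hel, le_div_iff₀ hν]
    rw [hy, le_div_iff₀ hyp] at hKa
    have h4 : (0 : ℝ) < (1 / 4) ^ K := by positivity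
    calc r * ν = 1 / 6 * ((4 : ℝ) ^ K * (1 / 4) ^ K * (6 * ν * r)) := by rw [h4K]; ring
      _ = 1 / 6 * ((1 / 4) ^ K * (4 ^ K * (6 * ν * r))) := by ring
      _ ≤ 1 / 6 * ((1 / 4) ^ K * 1) := by gcongr
      _ = _ := by ring
  have helδ : 6 * ell ν K K < δ := by
    rw [hel]
    refine lt_of_le_of_lt ?_ hK1
    have : (1 / 4 : ℝ) ^ K ≤ (1 / 4) ^ K1 :=
      pow_le_pow_of_le_one (by norm_num) (by norm_num) (by omega)
    gcongr
  have h1 : Γ (6 * ell ν K K) ≤ Γ r := hΓ ⟨hrp, hrδ⟩ ⟨hrp.trans_le hrle, helδ⟩ hrle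
  refine h1.trans (hr.trans ?_)
  have hK1' : (1 : ℝ) ≤ K := by
    have : 1 ≤ K := by omega
    exact_mod_cast this
  have hlog0 : 0 ≤ Real.log (1 / r) := Real.log_nonneg (by
    rw [le_div_iff₀ hrp]; linarith)
  have hlog : Real.log (1 / r) ≤ (|Real.log (6 * ν)| + 4) * K := by
    have e1 : 1 / r = 6 * ν * y := by
      rw [hy]; field_simp
    rw [e1, Real.log_mul (by positivity) (by positivity)]
    have h2 : Real.log y ≤ (K + 1) * Real.log 4 := by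
      have := Real.log_le_log (by linarith) hKb.le
      rw [Real.log_pow] at this
      push_cast at this
      exact this
    have h3 : Real.log 4 ≤ 2 := by
      have : Real.log 4 = 2 * Real.log 2 := by
        rw [show (4 : ℝ) = 2 ^ 2 by norm_num, Real.log_pow]; norm_num
      rw [this]
      have := Real.log_two_lt_d9
      linarith
    have h4 : Real.log (6 * ν) ≤ |Real.log (6 * ν)| := le_abs_self _
    have h5 : 0 ≤ |Real.log (6 * ν)| := abs_nonneg _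
    have h6 : ((K : ℝ) + 1) * Real.log 4 ≤ (K + 1) * 2 := by gcongr
    nlinarith
  have hb0 : 0 ≤ |Real.log (6 * ν)| + 4 := by positivity
  calc M * Real.log (1 / r) ^ (5 / 2 : ℝ) ≤ |M| * Real.log (1 / r) ^ (5 / 2 : ℝ) := by
        gcongr
        exact le_abs_self M
    _ ≤ |M| * ((|Real.log (6 * ν)| + 4) * K) ^ (5 / 2 : ℝ) := by
        gcongr
    _ = _ := by
        rw [Real.mul_rpow hb0 (by linarith)]
        ring

section

variable {ν T E : ℝ} {G : Set ℝ} {u : ℝ → V → V} {p : ℝ → V → ℝ}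

/-- The part of the singular times after `δ'`. -/
theorem IsLeray.gauge_part (h : IsLeray ν T E G u p) (hν : 0 < ν) {Γ : ℝ → ℝ} {δ M : ℝ}
    (hδ : 0 < δ) (hΓ : AntitoneOn Γ (Ioo 0 δ))
    (hM : ∃ᶠ r in 𝓝[>] (0 : ℝ), Γ r ≤ M * Real.log (1 / r) ^ (5 / 2 : ℝ)) {δ' : ℝ} (hδ' : 0 < δ') :
    Measure.mkMetric (gau Γ) {t ∈ Ioo 0 T \ G | δ' ≤ t} = 0 := by
  classical
  set X : Set ℝ := {t ∈ Ioo 0 T \ G | δ' ≤ t} with hXdef
  set A : ℝ := |M| * (|Real.log (6 * ν)| + 4) ^ (5 / 2 : ℝ) with hA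
  have hA0 : 0 ≤ A := by positivity
  have hfreq := freq_gauge hν hδ hΓ hM
  rw [← hA] at hfreq
  -- the scales
  have hlim : Tendsto (fun n : ℕ => (1 / 2 : ℝ) ^ n) atTop (𝓝 0) :=
    tendsto_pow_atTop_nhds_zero_of_lt_one (by norm_num) (by norm_num)
  have hev1 : ∀ᶠ K : ℕ in atTop, (1 / 2 : ℝ) ^ K < min (ν * δ') (ν * δ) :=
    hlim.eventually (gt_mem_nhds (by positivity))
  set good : Set ℕ := {K | 1 ≤ K ∧ (1 / 2 : ℝ) ^ K < min (ν * δ') (ν * δ)} with hgood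
  have hgood' : ∀ᶠ K in atTop, K ∈ good := (eventually_ge_atTop 1).and hev1
  have hcov : ∀ K : ℕ, ∃ F : Finset (ℝ × ℕ), K ∈ good →
      (∀ q ∈ F, q.1 ∈ X ∧ K / 2 ≤ q.2 ∧ q.2 ≤ K) ∧
      (X ⊆ ⋃ q ∈ F, Icc (q.1 - 3 * ell ν K q.2) (q.1 + 3 * ell ν K q.2)) ∧
      ∑ q ∈ F, Real.sqrt (ν * ell ν K q.2)
        ≤ C3 / ν * (K : ℝ) ^ (-(5 / 2) : ℝ) * Ptot G u (K / 2) := by
    intro K
    by_cases hK : K ∈ good
    · obtain ⟨F, hF⟩ := h.cover_half hν hK.1 (X := X) (fun t ht => ht.1) (fun t ht => by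
        have h1 := hK.2
        rw [lt_min_iff] at h1
        have h2 : ν * δ' ≤ ν * t := by
          have := ht.2
          gcongr
        have h3 : (0 : ℝ) < (1 / 2) ^ K := by positivity
        linarith [h1.1])
      exact ⟨F, fun _ => hF⟩
    · exact ⟨∅, fun h' => absurd h' hK⟩
  choose F hF using hcov
  set good2 : Set ℕ := {K | Γ (6 * ell ν K K) ≤ A * (K : ℝ) ^ (5 / 2 : ℝ)} with hgood2
  set l : Filter ℕ := atTop ⊓ 𝓟 good2 with hl
  have hlne : l.NeBot := frequently_mem_iff_neBot.1 hfreq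
  have hll : l ≤ atTop := inf_le_left
  have hlg : ∀ᶠ K in l, K ∈ good := hgood'.filter_mono hll
  have hlg2 : ∀ᶠ K in l, K ∈ good2 := (eventually_principal.2 fun K hK => hK).filter_mono inf_le_right
  -- the lengths
  have hlen : ∀ K q : ℕ, K / 2 ≤ q → 6 * ell ν K q ≤ 1 / 3 * (1 / 2) ^ K / ν := by
    intro K q hq
    have h1 := ell_anti hν K hq
    have h2 := ell_half hν K
    have h3 : 1 / 3 * (1 / 2 : ℝ) ^ K / ν = 2 * (1 / 6 * (1 / 2) ^ K / ν) := by ring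
    rw [h3]
    linarith
  have hrt : Tendsto (fun K : ℕ => ENNReal.ofReal (1 / 3 * (1 / 2) ^ K / ν)) l (𝓝 0) := by
    rw [← ENNReal.ofReal_zero]
    refine (ENNReal.tendsto_ofReal ?_).mono_left hll
    have h2 := (hlim.const_mul (1 / 3)).div_const ν
    simpa using h2
  have hdiam : ∀ (t e : ℝ), Metric.ediam (Icc (t - 3 * e) (t + 3 * e)) = ENNReal.ofReal (6 * e) := by
    intro t e
    rw [Real.ediam_Icc]
    congr 1
    ring
  have key := Measure.mkMetric_le_liminf_sum (X := ℝ) (ι := fun K => ↥(F K)) X (l := l)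
    (fun K => ENNReal.ofReal (1 / 3 * (1 / 2) ^ K / ν)) hrt
    (fun K i => Icc (i.1.1 - 3 * ell ν K i.1.2) (i.1.1 + 3 * ell ν K i.1.2))
    (by
      filter_upwards [hlg] with K hK i
      rw [hdiam]
      exact ENNReal.ofReal_le_ofReal (hlen K i.1.2 ((hF K hK).1 i.1 i.2).2.1))
    (by
      filter_upwards [hlg] with K hK x hx
      obtain ⟨q, hq, hxq⟩ := mem_iUnion₂.1 ((hF K hK).2.1 hx)
      exact mem_iUnion.2 ⟨⟨q, hq⟩, hxq⟩) (gau Γ)
  set B : ℝ := 3 * (1 / Real.sqrt ν) * (C3 / ν) * A with hB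
  have hub : ∀ᶠ K in l, ∑ i : ↥(F K), gau Γ (Metric.ediam
      (Icc (i.1.1 - 3 * ell ν K i.1.2) (i.1.1 + 3 * ell ν K i.1.2)))
      ≤ ENNReal.ofReal (B * Ptot G u (K / 2)) := by
    filter_upwards [hlg, hlg2] with K hK hK2
    obtain ⟨hF1, hF2, hF3⟩ := hF K hK
    have hK0 : (0 : ℝ) < K := by exact_mod_cast hK.1
    have hKp : 0 < (K : ℝ) ^ (5 / 2 : ℝ) := Real.rpow_pos_of_pos hK0 _
    have e1 : ∀ i : ↥(F K), gau Γ (Metric.ediam
        (Icc (i.1.1 - 3 * ell ν K i.1.2) (i.1.1 + 3 * ell ν K i.1.2)))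
        ≤ ENNReal.ofReal (3 * (1 / Real.sqrt ν) * (A * (K : ℝ) ^ (5 / 2 : ℝ))
          * Real.sqrt (ν * ell ν K i.1.2)) := by
      intro i
      have h0 := ell_pos hν K i.1.2
      rw [hdiam]
      unfold gau
      rw [ENNReal.toReal_ofReal (by positivity)]
      refine ENNReal.ofReal_le_ofReal ?_
      obtain ⟨h1, h2, h3⟩ := hF1 i.1 i.2
      have h4 : Γ (6 * ell ν K i.1.2) ≤ A * (K : ℝ) ^ (5 / 2 : ℝ) := by
        refine le_trans ?_ hK2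
        have h5 := ell_anti hν K h3
        have h6 := ell_pos hν K K
        have h7 : 6 * ell ν K i.1.2 < δ := by
          refine lt_of_le_of_lt (hlen K i.1.2 h2) ?_
          have h8 := hK.2
          rw [lt_min_iff] at h8
          rw [div_lt_iff₀ hν]
          have h9 : (0 : ℝ) < (1 / 2) ^ K := by positivity
          linarith [h8.2]
        exact hΓ ⟨by positivity, by linarith⟩ ⟨by positivity, h7⟩ (by linarith)
      have h5 : Real.sqrt (6 * ell ν K i.1.2) ≤ 3 * (1 / Real.sqrt ν) * Real.sqrt (ν * ell ν K i.1.2) := by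
        rw [Real.sqrt_mul (by norm_num : (0 : ℝ) ≤ 6), Real.sqrt_mul hν.le]
        have h6 : Real.sqrt 6 ≤ 3 := by
          rw [Real.sqrt_le_iff]; norm_num
        have h7 : 0 < Real.sqrt ν := Real.sqrt_pos.2 hν
        have h8 : 3 * (1 / Real.sqrt ν) * (Real.sqrt ν * Real.sqrt (ell ν K i.1.2))
            = 3 * Real.sqrt (ell ν K i.1.2) := by
          field_simp
        rw [h8]
        gcongr
      have h6 : 0 ≤ A * (K : ℝ) ^ (5 / 2 : ℝ) := by positivity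
      calc Real.sqrt (6 * ell ν K i.1.2) * Γ (6 * ell ν K i.1.2)
          ≤ Real.sqrt (6 * ell ν K i.1.2) * (A * (K : ℝ) ^ (5 / 2 : ℝ)) := by gcongr
        _ ≤ (3 * (1 / Real.sqrt ν) * Real.sqrt (ν * ell ν K i.1.2)) * (A * (K : ℝ) ^ (5 / 2 : ℝ)) := by
            gcongr
        _ = _ := by ring
    refine (Finset.sum_le_sum fun i _ => e1 i).trans ?_
    rw [← ENNReal.ofReal_sum_of_nonneg fun i _ => by positivity]
    refine ENNReal.ofReal_le_ofReal ?_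
    rw [← Finset.mul_sum, Finset.univ_eq_attach,
      Finset.sum_attach (F K) (fun q : ℝ × ℕ => Real.sqrt (ν * ell ν K q.2))]
    have h7 : (K : ℝ) ^ (5 / 2 : ℝ) * (K : ℝ) ^ (-(5 / 2) : ℝ) = 1 := by
      rw [← Real.rpow_add hK0]
      norm_num
    calc 3 * (1 / Real.sqrt ν) * (A * (K : ℝ) ^ (5 / 2 : ℝ)) * ∑ q ∈ F K, Real.sqrt (ν * ell ν K q.2)
        ≤ 3 * (1 / Real.sqrt ν) * (A * (K : ℝ) ^ (5 / 2 : ℝ)) *
          (C3 / ν * (K : ℝ) ^ (-(5 / 2) : ℝ) * Ptot G u (K / 2)) := by gcongr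
      _ = 3 * (1 / Real.sqrt ν) * (C3 / ν) * A * Ptot G u (K / 2)
          * ((K : ℝ) ^ (5 / 2 : ℝ) * (K : ℝ) ^ (-(5 / 2) : ℝ)) := by ring
      _ = _ := by rw [h7, mul_one]
  have hlim2 : Tendsto (fun K : ℕ => ENNReal.ofReal (B * Ptot G u (K / 2))) l (𝓝 0) := by
    rw [← ENNReal.ofReal_zero]
    refine (ENNReal.tendsto_ofReal ?_).mono_left hll
    have h1 : Tendsto (fun K : ℕ => K / 2) atTop atTop :=
      Nat.tendsto_div_const_atTop (by norm_num)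
    have h2 := ((h.tendsto_Ptot hν.le).comp h1).const_mul B
    rw [mul_zero] at h2
    exact h2
  refine le_antisymm (key.trans ?_) zero_le
  calc _ ≤ liminf (fun K : ℕ => ENNReal.ofReal (B * Ptot G u (K / 2))) l :=
        liminf_le_liminf hub
    _ = 0 := hlim2.liminf_eq

/-- **The Hausdorff measure for a gauge with a logarithm.** -/
theorem IsLeray.gauge (h : IsLeray ν T E G u p) (hν : 0 < ν) {Γ : ℝ → ℝ} {δ M : ℝ}
    (hδ : 0 < δ) (hΓ : AntitoneOn Γ (Ioo 0 δ))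
    (hM : ∃ᶠ r in 𝓝[>] (0 : ℝ), Γ r ≤ M * Real.log (1 / r) ^ (5 / 2 : ℝ)) :
    Measure.mkMetric (gau Γ) (Ioo 0 T \ G) = 0 := by
  have hsub : Ioo 0 T \ G ⊆ ⋃ m : ℕ, {t ∈ Ioo 0 T \ G | 1 / ((m : ℝ) + 1) ≤ t} := by
    intro t ht
    obtain ⟨m, hm⟩ := exists_nat_one_div_lt ht.1.1
    exact mem_iUnion.2 ⟨m, ht, hm.le⟩
  refine measure_mono_null hsub (measure_iUnion_null fun m => ?_)
  exact h.gauge_part hν hδ hΓ hM (by positivity)

end

end Pool.Agent.Helper24.ST
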