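import Pool.Agent.Helper24.ST.Low

set_option autoImplicit false

/-!
The energy inequality for the high frequencies.
-/

open MeasureTheory Set Filter Topology
open scoped ContDiff ENNReal NNReal

namespace Pool.Agent.Helper24.ST

open H459R3.NS Pool.Agent.Q63.Win

theorem cc_eq (v : V → V) (k : K3) : cc (fun i y => v y i) k = amp (cof v) k ^ 2 := by
  rw [amp_sq]
  rfl

theorem sg_eq (v : V → V) (n : ℕ) : sg (fun i y => v y i) n = ∑ k ∈ LoF n, amp (cof v) k := by
  unfold sg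
  refine Finset.sum_congr rfl fun k _ => ?_
  rw [cc_eq, Real.sqrt_sq (amp_nonneg _ _)]

theorem ep_eq (v : V → V) (n : ℕ) : ep (fun i y => v y i) n = EW n (cof v) := by
  unfold ep EW XX
  refine tsum_congr fun k => ?_
  unfold we
  by_cases h : 2 ^ n < 2 * N k
  · rw [indicator_of_mem (show k ∈ Hi n from h), if_pos h, one_mul, cc_eq]
  · rw [indicator_of_notMem (show k ∉ Hi n from h), if_neg h, zero_mul]

/-- The bound of the flux. -/
theorem norm_flux_le' {v : V → V} (hv : ∀ i, SP (fun y => v y i))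
    (hdiv : ∀ x, ∑ i, pd i (fun y => v y i) x = 0) (hc : RapV (cof v)) (n : ℕ) :
    2 * ‖flux (fun i y => v y i) n‖
      ≤ 53000 * (2 ^ n / th4 ^ (2 * n)) * (Real.sqrt (YW n (cof v)) * EW n (cof v)) := by
  have h1 := norm_flux_le (v := fun i y => v y i) hv hdiv n
  have h2 := low_sum_le hc n
  rw [sg_eq, ep_eq] at h1
  have h3 := th4_pos
  have h4 : 0 < th4 ^ (2 * n) := pow_pos h3 _
  have h5 := EW_nonneg n (cof v)
  have h6 : ∑ k ∈ LoF n, amp (cof v) k ≤ 154 * Real.sqrt (YW n (cof v)) / th4 ^ (2 * n) := by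
    rw [le_div_iff₀ h4]
    linarith
  have hpi : Real.pi ≤ 3.15 := Real.pi_lt_d2.le
  have hpi0 := Real.pi_pos
  calc 2 * ‖flux (fun i y => v y i) n‖
      ≤ 2 * (27 * (2 * Real.pi * 2 ^ n * (∑ k ∈ LoF n, amp (cof v) k) * EW n (cof v))) := by
        gcongr
    _ ≤ 2 * (27 * (2 * 3.15 * 2 ^ n * (154 * Real.sqrt (YW n (cof v)) / th4 ^ (2 * n))
          * EW n (cof v))) := by
        gcongr
        exact Finset.sum_nonneg fun k _ => amp_nonneg _ _
    _ = 52390.8 * (2 ^ n / th4 ^ (2 * n)) * (Real.sqrt (YW n (cof v)) * EW n (cof v)) := by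
        ring
    _ ≤ _ := by
        gcongr
        norm_num

section

variable {ν T E : ℝ} {G : Set ℝ} {u : ℝ → V → V} {p : ℝ → V → ℝ}

theorem IsLeray.cont_XX (h : IsLeray ν T E G u p) (hν : 0 ≤ ν) {φ : K3 → ℝ} (hφ : Pol φ) :
    ContinuousOn (fun t => XX φ (amp (cof (u t)))) G := by
  intro t ht
  obtain ⟨a, b, ha, hb, hab⟩ := exists_Icc h.openG ht
  have h1 := ((h.fsol (Ico_subset_Icc_self.trans hab)).hasDerivAt_XX (msym_pol hν) hφ
    (t := t - a) ⟨by linarith, by linarith⟩).continuousAt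
  have h2 : ContinuousAt (fun s : ℝ => s - a) t := by fun_prop
  have h3 := ContinuousAt.comp (g := fun s => XX φ (amp (cof (u (a + s))))) (f := fun s => s - a) h1 h2
  refine (h3.congr (Eventually.of_forall fun s => ?_)).continuousWithinAt
  simp [Function.comp]

theorem IsLeray.cont_YW (h : IsLeray ν T E G u p) (hν : 0 ≤ ν) (n : ℕ) :
    ContinuousOn (fun t => YW n (cof (u t))) G := h.cont_XX hν (pol_wt n)

theorem IsLeray.cont_ZW (h : IsLeray ν T E G u p) (hν : 0 ≤ ν) (n : ℕ) :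
    ContinuousOn (fun t => ZW n (cof (u t))) G := h.cont_XX hν (pol_wz n)

theorem IsLeray.cont_EW (h : IsLeray ν T E G u p) (hν : 0 ≤ ν) (n : ℕ) :
    ContinuousOn (fun t => EW n (cof (u t))) G := h.cont_XX hν (pol_we n)

/-- weighted sums and the enstrophy -/
theorem XX_le_enst {φ : K3 → ℝ} (hP : Pol φ) (hφ : ∀ k, φ k ≤ (N k : ℝ) ^ 2) {v : V → V}
    (hv : ∀ i, SP (fun y => v y i)) (hc : RapV (cof v)) :
    36 * XX φ (amp (cof v)) ≤ enstrophy v := by
  have h := hasSum_msym 1 hv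
  rw [one_mul] at h
  rw [← h.tsum_eq]
  unfold XX
  rw [← tsum_mul_left]
  refine Summable.tsum_le_tsum (fun k => ?_) ((XX_summable hP hc.rapR).mul_left 36) h.summable
  have h1 := msym_ge zero_le_one k
  have h2 := hφ k
  have h3 := sq_nonneg (amp (cof v) k)
  calc 36 * (φ k * amp (cof v) k ^ 2) ≤ 36 * ((N k : ℝ) ^ 2 * amp (cof v) k ^ 2) := by gcongr
    _ = 36 * 1 * (N k : ℝ) ^ 2 * amp (cof v) k ^ 2 := by ring
    _ ≤ _ := by gcongr

theorem IsLeray.YW_le (h : IsLeray ν T E G u p) {t : ℝ} (ht : t ∈ G) (n : ℕ) :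
    36 * YW n (cof (u t)) ≤ enstrophy (u t) :=
  XX_le_enst (pol_wt n) (wt_le n) (fun i => h.sp ht i) (h.rapV ht)

theorem IsLeray.ZW_le (h : IsLeray ν T E G u p) {t : ℝ} (ht : t ∈ G) (n : ℕ) :
    36 * ZW n (cof (u t)) ≤ enstrophy (u t) :=
  XX_le_enst (pol_wz n) (wz_le n) (fun i => h.sp ht i) (h.rapV ht)

theorem IsLeray.int_YW (h : IsLeray ν T E G u p) (hν : 0 ≤ ν) (n : ℕ) :
    IntegrableOn (fun t => YW n (cof (u t))) G := by
  refine Integrable.mono' h.enst_int ((h.cont_YW hν n).aestronglyMeasurable h.openG.measurableSet) ?_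
  refine (ae_restrict_iff' h.openG.measurableSet).2 (Eventually.of_forall fun t ht => ?_)
  rw [Real.norm_eq_abs, abs_of_nonneg (YW_nonneg _ _)]
  have := h.YW_le ht n
  have := YW_nonneg n (cof (u t))
  linarith

theorem IsLeray.int_ZW (h : IsLeray ν T E G u p) (hν : 0 ≤ ν) (n : ℕ) :
    IntegrableOn (fun t => ZW n (cof (u t))) G := by
  refine Integrable.mono' h.enst_int ((h.cont_ZW hν n).aestronglyMeasurable h.openG.measurableSet) ?_
  refine (ae_restrict_iff' h.openG.measurableSet).2 (Eventually.of_forall fun t ht => ?_)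
  rw [Real.norm_eq_abs, abs_of_nonneg (ZW_nonneg _ _)]
  have := h.ZW_le ht n
  have := ZW_nonneg n (cof (u t))
  linarith

theorem IsLeray.EW_le_energy (h : IsLeray ν T E G u p) {t : ℝ} (ht : t ∈ G) (n : ℕ) :
    EW n (cof (u t)) ≤ E ^ 2 := by
  refine le_trans ?_ (h.energy_le t ht)
  have h1 := hasSum_amp (fun i => h.sp ht i)
  rw [← h1.tsum_eq]
  unfold EW XX
  refine Summable.tsum_le_tsum (fun k => ?_) (XX_summable (pol_we n) (h.rapV ht).rapR) h1.summable
  have := sq_nonneg (amp (cof (u t)) k)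
  unfold we
  split_ifs <;> linarith

theorem IsLeray.int_flux (h : IsLeray ν T E G u p) (hν : 0 ≤ ν) (n : ℕ) :
    IntegrableOn (fun t => Real.sqrt (YW n (cof (u t))) * EW n (cof (u t))) G := by
  have hT : volume G ≠ ⊤ := by
    refine ne_top_of_le_ne_top ?_ (measure_mono h.subG)
    rw [Real.volume_Ioo]
    exact ENNReal.ofReal_ne_top
  have h1 : IntegrableOn (fun t => (1 + YW n (cof (u t))) * E ^ 2) G := by
    have h2 : IntegrableOn (fun _ : ℝ => (1 : ℝ)) G := integrableOn_const hT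
    exact (h2.add (h.int_YW hν n)).mul_const _
  refine Integrable.mono' h1 ?_ ?_
  · exact ((h.cont_YW hν n).sqrt.mul (h.cont_EW hν n)).aestronglyMeasurable h.openG.measurableSet
  · refine (ae_restrict_iff' h.openG.measurableSet).2 (Eventually.of_forall fun t ht => ?_)
    have a1 := YW_nonneg n (cof (u t))
    have a2 := EW_nonneg n (cof (u t))
    have a3 := h.EW_le_energy ht n
    rw [Real.norm_eq_abs, abs_of_nonneg (mul_nonneg (Real.sqrt_nonneg _) a2)]
    refine mul_le_mul ?_ a3 a2 (by linarith)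
    rw [Real.sqrt_le_iff]
    constructor
    · linarith
    · nlinarith

/-- The energy inequality for the frequencies larger than `2 ^ n`. -/
theorem IsLeray.high_ineq (h : IsLeray ν T E G u p) (hν : 0 ≤ ν) (n : ℕ) {s t : ℝ} (hs : s ∈ G)
    (ht : t ∈ G) (hst : s ≤ t) :
    EW (n + 1) (cof (u t)) + 72 * ν * ∫ τ in G ∩ Ioo s t, ZW (n + 1) (cof (u τ))
      ≤ EW (n + 1) (cof (u s)) + 53000 * (2 ^ n / th4 ^ (2 * n)) *
        ∫ τ in G ∩ Ioo s t, Real.sqrt (YW n (cof (u τ))) * EW n (cof (u τ)) := by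
  have hm : MeasurableSet (G ∩ Ioo s t) := h.openG.measurableSet.inter measurableSet_Ioo
  have he := h.energy_ineq s hs t ht hst
  rw [energy_split (fun i => h.sp ht i) n, energy_split (fun i => h.sp hs i) n] at he
  have hamp := fun k => h.amp_evo hν k hs ht hst
  have hsum : ∑ k ∈ box (2 ^ n), amp (cof (u t)) k ^ 2 - ∑ k ∈ box (2 ^ n), amp (cof (u s)) k ^ 2
      = ∫ τ in G ∩ Ioo s t, ∑ k ∈ box (2 ^ n), (-(2 * msym ν k * amp (cof (u τ)) k ^ 2)
      - 2 * (∑ i, (starRingEnd ℂ) (cof (u τ) k i) * NL (cof (u τ)) k i).re) := by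
    rw [integral_finsetSum _ fun k _ => (hamp k).1, ← Finset.sum_sub_distrib]
    exact Finset.sum_congr rfl fun k _ => (hamp k).2.symm
  have hint1 : IntegrableOn (fun τ => ∑ k ∈ box (2 ^ n), (-(2 * msym ν k * amp (cof (u τ)) k ^ 2)
      - 2 * (∑ i, (starRingEnd ℂ) (cof (u τ) k i) * NL (cof (u τ)) k i).re)) (G ∩ Ioo s t) :=
    integrable_finsetSum _ fun k _ => (hamp k).1
  have hi1 : IntegrableOn (fun τ => enstrophy (u τ)) (G ∩ Ioo s t) :=
    h.enst_int.mono_set inter_subset_left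
  have hi2 : IntegrableOn (fun τ => ZW (n + 1) (cof (u τ))) (G ∩ Ioo s t) :=
    (h.int_ZW hν (n + 1)).mono_set inter_subset_left
  have hi3 : IntegrableOn (fun τ => Real.sqrt (YW n (cof (u τ))) * EW n (cof (u τ)))
      (G ∩ Ioo s t) := (h.int_flux hν n).mono_set inter_subset_left
  have key : 72 * ν * ∫ τ in G ∩ Ioo s t, ZW (n + 1) (cof (u τ))
      ≤ 2 * ν * (∫ τ in G ∩ Ioo s t, enstrophy (u τ))
        + (∫ τ in G ∩ Ioo s t, ∑ k ∈ box (2 ^ n), (-(2 * msym ν k * amp (cof (u τ)) k ^ 2)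
      - 2 * (∑ i, (starRingEnd ℂ) (cof (u τ) k i) * NL (cof (u τ)) k i).re))
        + 53000 * (2 ^ n / th4 ^ (2 * n)) *
        ∫ τ in G ∩ Ioo s t, Real.sqrt (YW n (cof (u τ))) * EW n (cof (u τ)) := by
    have hi12 : IntegrableOn (fun τ => 2 * ν * enstrophy (u τ) +
        ∑ k ∈ box (2 ^ n), (-(2 * msym ν k * amp (cof (u τ)) k ^ 2)
          - 2 * (∑ i, (starRingEnd ℂ) (cof (u τ) k i) * NL (cof (u τ)) k i).re)) (G ∩ Ioo s t) :=
      (hi1.const_mul _).add hint1
    rw [← integral_const_mul, ← integral_const_mul, ← integral_const_mul,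
      ← integral_add (hi1.const_mul _) hint1, ← integral_add hi12 (hi3.const_mul _)]
    refine setIntegral_mono_on (hi2.const_mul _) (hi12.add (hi3.const_mul _)) hm fun τ hτ => ?_
    have hv : ∀ i, SP (fun y => u τ y i) := fun i => h.sp hτ.1 i
    have a1 := enst_split hν hv n
    have a2 := norm_flux_le' hv (h.divfree τ hτ.1) (h.rapV hτ.1) n
    rw [flux_eq hv n] at a2
    have a3 : ∑ k ∈ box (2 ^ n), (-(2 * msym ν k * amp (cof (u τ)) k ^ 2)
        - 2 * (∑ i, (starRingEnd ℂ) (cof (u τ) k i) * NL (cof (u τ)) k i).re)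
        = -(2 * ∑ k ∈ box (2 ^ n), msym ν k * amp (cof (u τ)) k ^ 2)
          - 2 * (∑ k ∈ box (2 ^ n), ∑ i, (starRingEnd ℂ) (cof (u τ) k i) * NL (cof (u τ)) k i).re := by
      rw [Complex.re_sum, Finset.mul_sum, Finset.mul_sum, ← Finset.sum_neg_distrib,
        ← Finset.sum_sub_distrib]
      refine Finset.sum_congr rfl fun k _ => ?_
      ring
    have a4 := Complex.re_le_norm (∑ k ∈ box (2 ^ n), ∑ i, (starRingEnd ℂ) (cof (u τ) k i)
      * NL (cof (u τ)) k i)
    rw [a3]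
    linarith
  linarith

/-- The energy of the nonzero frequencies decreases. -/
theorem IsLeray.EW_zero_le (h : IsLeray ν T E G u p) (hν : 0 ≤ ν) {s t : ℝ} (hs : s ∈ G)
    (ht : t ∈ G) (hst : s ≤ t) : EW 0 (cof (u t)) ≤ EW 0 (cof (u s)) := by
  have he := h.energy_ineq s hs t ht hst
  have h0 : 0 ≤ 2 * ν * ∫ τ in G ∩ Ioo s t, enstrophy (u τ) := by
    have : 0 ≤ ∫ τ in G ∩ Ioo s t, enstrophy (u τ) :=
      integral_nonneg fun τ => enstrophy_nonneg _
    positivity
  rw [energy_split0 (fun i => h.sp ht i), energy_split0 (fun i => h.sp hs i)] at he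
  have h1 := (h.amp_evo hν 0 hs ht hst).2
  have h2 : ∀ τ ∈ G ∩ Ioo s t, -(2 * msym ν 0 * amp (cof (u τ)) 0 ^ 2)
      - 2 * (∑ i, (starRingEnd ℂ) (cof (u τ) 0 i) * NL (cof (u τ)) 0 i).re = 0 := by
    intro τ hτ
    have hb := hasSum_tg (h.rapV hτ.1) 0
    have hz : ∀ q, tg (cof (u τ)) 0 q = 0 := by
      intro q
      have hn := norm_tg_le (c := cof (u τ)) (fun k => h.div0 hτ.1 k) 0 q
      rw [N_eq_zero.2 rfl] at hn
      have : min ((0 : ℕ) : ℝ) (N q : ℝ) = 0 := by
        rw [Nat.cast_zero]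
        exact min_eq_left (Nat.cast_nonneg _)
      rw [this, zero_mul, mul_zero] at hn
      exact norm_le_zero_iff.1 hn
    have hz2 : ∑ i, (starRingEnd ℂ) (cof (u τ) 0 i) * NL (cof (u τ)) 0 i = 0 := by
      rw [← hb.tsum_eq]
      simp [hz]
    rw [hz2]
    unfold msym
    simp
  rw [setIntegral_congr_fun (h.openG.measurableSet.inter measurableSet_Ioo) h2] at h1
  simp only [integral_zero] at h1
  linarith

/-- The total dissipation. -/
theorem IsLeray.enst_total (h : IsLeray ν T E G u p) {s t : ℝ} (hs : s ∈ G)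
    (ht : t ∈ G) (hst : s ≤ t) : 2 * ν * ∫ τ in G ∩ Ioo s t, enstrophy (u τ) ≤ E ^ 2 := by
  have he := h.energy_ineq s hs t ht hst
  have h1 := h.energy_le s hs
  have h2 := energy_nonneg (u t)
  linarith

end

end Pool.Agent.Helper24.ST
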