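import Pool.Agent.Helper24.ST.Wts

set_option autoImplicit false

/-!
Sums of the Fourier coefficients over shells.
-/

open MeasureTheory Set Filter Topology
open scoped ENNReal

namespace Pool.Agent.Helper24.ST

open H459R3.NS Pool.Agent.Q63.Win

/-- geometric sums -/
theorem geoR {r : ℝ} (h0 : 0 < r) (h1 : r < 1) (m K : ℕ) :
    ∑ j ∈ Finset.range K, r ^ dd m j ≤ 2 / (1 - r) := by
  have h1' : 0 < 1 - r := by linarith
  have key : ∀ K, (K ≤ m + 1 → ∑ j ∈ Finset.range K, r ^ dd m j ≤ r ^ (m + 1 - K) / (1 - r)) ∧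
      (m + 1 ≤ K → ∑ j ∈ Finset.range K, r ^ dd m j ≤ (2 - r ^ (K - m)) / (1 - r)) := by
    intro K
    induction K with
    | zero =>
      refine ⟨fun _ => ?_, fun h => by omega⟩
      simp only [Finset.range_zero, Finset.sum_empty]
      positivity
    | succ K ih =>
      have hA : K + 1 ≤ m + 1 → ∑ j ∈ Finset.range (K + 1), r ^ dd m j
          ≤ r ^ (m + 1 - (K + 1)) / (1 - r) := by
        intro hK
        rw [Finset.sum_range_succ]
        have e1 : dd m K = m - K := by unfold dd; omega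
        have e2 : m + 1 - (K + 1) = m - K := by omega
        have e3 : m + 1 - K = m - K + 1 := by omega
        have h2 := ih.1 (by omega)
        rw [e3] at h2
        rw [e1, e2]
        refine (add_le_add h2 le_rfl).trans (le_of_eq ?_)
        rw [pow_succ]
        field_simp
        ring
      refine ⟨hA, fun hK => ?_⟩
      rcases Nat.lt_or_ge K (m + 1) with hlt | hge
      · have hKm : K = m := by omega
        have h2 := hA (by omega)
        refine h2.trans ?_
        rw [hKm]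
        simp only [Nat.sub_self, pow_zero, Nat.add_sub_cancel_left, pow_one]
        apply div_le_div_of_nonneg_right _ h1'.le
        linarith
      · rw [Finset.sum_range_succ]
        have e1 : dd m K = K - m := by unfold dd; omega
        have e2 : K + 1 - m = K - m + 1 := by omega
        rw [e1, e2]
        refine (add_le_add (ih.2 hge) le_rfl).trans (le_of_eq ?_)
        rw [pow_succ]
        field_simp
        ring
  rcases Nat.lt_or_ge K (m + 1) with h | h
  · refine ((key K).1 h.le).trans ?_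
    have h3 : r ^ (m + 1 - K) ≤ 1 := pow_le_one₀ h0.le (by linarith)
    have : (1 : ℝ) ≤ 2 := by norm_num
    calc r ^ (m + 1 - K) / (1 - r) ≤ 1 / (1 - r) := by gcongr
      _ ≤ 2 / (1 - r) := by gcongr
  · refine ((key K).2 h).trans ?_
    have h3 : 0 ≤ r ^ (K - m) := by positivity
    gcongr
    linarith

theorem geo_th (m K : ℕ) : ∑ j ∈ Finset.range K, th4 ^ dd m j ≤ 14 := by
  refine (geoR th4_pos (by linarith [th4_lt]) m K).trans ?_
  have h1 : 0.15 < 1 - th4 := by linarith [th4_lt]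
  rw [div_le_iff₀ (by linarith)]
  linarith

theorem dd_comm (m n : ℕ) : dd m n = dd n m := by unfold dd; omega

/-- The shell. -/
noncomputable def shellF (m : ℕ) : Finset K3 := by
  classical exact (box (2 ^ m)).filter fun k => k ≠ 0 ∧ sc k = m

theorem mem_shellF {m : ℕ} {k : K3} : k ∈ shellF m ↔ k ≠ 0 ∧ sc k = m := by
  classical
  unfold shellF
  rw [Finset.mem_filter, mem_box]
  constructor
  · exact fun h => h.2
  · exact fun h => ⟨h.2 ▸ N_le_sc k, h⟩

theorem card_shellF (m : ℕ) : ((shellF m).card : ℝ) ≤ 27 * 8 ^ m := by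
  classical
  have h1 : (shellF m).card ≤ (2 * 2 ^ m + 1) ^ 3 := by
    rw [← card_box]
    unfold shellF
    exact Finset.card_filter_le _ _
  have h2 : ((shellF m).card : ℝ) ≤ (2 * 2 ^ m + 1) ^ 3 := by exact_mod_cast h1
  refine h2.trans ?_
  have h3 : (1 : ℝ) ≤ 2 ^ m := one_le_pow₀ (by norm_num)
  calc (2 * (2 : ℝ) ^ m + 1) ^ 3 ≤ (3 * 2 ^ m) ^ 3 := by
        gcongr
        linarith
    _ = 27 * (2 ^ m) ^ 3 := by ring
    _ = 27 * 8 ^ m := by rw [← pow_mul, mul_comm m 3, pow_mul]; norm_num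

/-- The sum over a shell. -/
noncomputable def TS (m : ℕ) (c : Fam) : ℝ := ∑ k ∈ shellF m, amp c k

theorem TS_nonneg (m : ℕ) (c : Fam) : 0 ≤ TS m c := Finset.sum_nonneg fun _ _ => amp_nonneg _ _

theorem TS_sq {c : Fam} (hc : RapV c) (m n : ℕ) :
    rh ^ dd m n * TS m c ^ 2 ≤ 108 * 2 ^ m * YW n c := by
  have h1 : TS m c ^ 2 ≤ (shellF m).card * ∑ k ∈ shellF m, amp c k ^ 2 :=
    sq_sum_le_card_mul_sum_sq
  have h2 : 4 ^ m * (rh ^ dd m n * ∑ k ∈ shellF m, amp c k ^ 2) ≤ 4 * YW n c := by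
    have h3 : ∑ k ∈ shellF m, wt n k * amp c k ^ 2 ≤ YW n c :=
      (XX_summable (pol_wt n) hc.rapR).sum_le_tsum _ fun k _ =>
        mul_nonneg (wt_nonneg n k) (sq_nonneg _)
    rw [Finset.mul_sum, Finset.mul_sum]
    refine le_trans (Finset.sum_le_sum (g := fun k => 4 * (wt n k * amp c k ^ 2)) fun k hk => ?_) ?_
    · obtain ⟨hk0, hkm⟩ := mem_shellF.1 hk
      have h4 : (2 : ℝ) ^ m ≤ 2 * N k := by
        rw [← hkm]
        exact_mod_cast sc_le hk0
      have h5 : (4 : ℝ) ^ m ≤ 4 * (N k : ℝ) ^ 2 := by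
        have e : (4 : ℝ) ^ m = ((2 : ℝ) ^ m) ^ 2 := by
          rw [← pow_mul, mul_comm, pow_mul]; norm_num
        rw [e]
        calc ((2 : ℝ) ^ m) ^ 2 ≤ (2 * (N k : ℝ)) ^ 2 := pow_le_pow_left₀ (by positivity) h4 2
          _ = _ := by ring
      unfold wt
      rw [hkm]
      have h6 := rh_pos
      calc (4 : ℝ) ^ m * (rh ^ dd m n * amp c k ^ 2)
          ≤ (4 * (N k : ℝ) ^ 2) * (rh ^ dd m n * amp c k ^ 2) := by gcongr
        _ = _ := by ring
    · rw [← Finset.mul_sum]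
      linarith
  have h3 := card_shellF m
  have h4 : 0 ≤ ∑ k ∈ shellF m, amp c k ^ 2 := Finset.sum_nonneg fun _ _ => sq_nonneg _
  have h5 := rh_pos
  calc rh ^ dd m n * TS m c ^ 2
      ≤ rh ^ dd m n * ((27 * 8 ^ m) * ∑ k ∈ shellF m, amp c k ^ 2) := by
        refine mul_le_mul_of_nonneg_left (h1.trans ?_) (by positivity)
        gcongr
    _ = 27 * 2 ^ m * (4 ^ m * (rh ^ dd m n * ∑ k ∈ shellF m, amp c k ^ 2)) := by
        have : (8 : ℝ) ^ m = 2 ^ m * 4 ^ m := by rw [← mul_pow]; norm_num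
        rw [this]; ring
    _ ≤ 27 * 2 ^ m * (4 * YW n c) := by gcongr
    _ = _ := by ring

/-- `TS` is at most `11 √Y θ ^ (-(2 m + |m - n|))` -/
theorem TS_le {c : Fam} (hc : RapV c) (m n : ℕ) :
    th4 ^ (2 * m + dd m n) * TS m c ≤ 11 * Real.sqrt (YW n c) := by
  have h0 := th4_pos
  have hY := YW_nonneg n c
  have h1 := TS_sq hc m n
  have h2 : (th4 ^ (2 * m + dd m n) * TS m c) ^ 2 ≤ (11 * Real.sqrt (YW n c)) ^ 2 := by
    rw [mul_pow, mul_pow, Real.sq_sqrt hY, ← pow_mul]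
    have e1 : th4 ^ ((2 * m + dd m n) * 2) = (1 / 2) ^ m * rh ^ dd m n := by
      unfold rh
      rw [← pow_mul, ← th4_four, ← pow_mul, ← pow_add]
      congr 1
      ring
    rw [e1]
    have e2 : (1 / 2 : ℝ) ^ m * 2 ^ m = 1 := by rw [← mul_pow]; norm_num
    calc (1 / 2 : ℝ) ^ m * rh ^ dd m n * TS m c ^ 2
        = (1 / 2 : ℝ) ^ m * (rh ^ dd m n * TS m c ^ 2) := by ring
      _ ≤ (1 / 2 : ℝ) ^ m * (108 * 2 ^ m * YW n c) := by gcongr
      _ = 108 * ((1 / 2 : ℝ) ^ m * 2 ^ m) * YW n c := by ring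
      _ ≤ 11 ^ 2 * YW n c := by rw [e2]; nlinarith
  exact (pow_le_pow_iff_left₀ (mul_nonneg (pow_nonneg h0.le _) (TS_nonneg _ _))
    (mul_nonneg (by norm_num) (Real.sqrt_nonneg _)) (by norm_num)).1 h2

/-- (A') -/
theorem low_sum_le {c : Fam} (hc : RapV c) (n : ℕ) :
    th4 ^ (2 * n) * ∑ k ∈ LoF n, amp c k ≤ 154 * Real.sqrt (YW n c) := by
  have h0 := th4_pos
  have hY := Real.sqrt_nonneg (YW n c)
  have h1 : ∑ k ∈ LoF n, amp c k ≤ ∑ m ∈ Finset.range (n + 1), TS m c := by
    classical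
    rw [← Finset.sum_fiberwise_of_maps_to (s := LoF n) (t := Finset.range (n + 1)) (g := sc)
      (fun k hk => ?_)]
    · refine Finset.sum_le_sum fun m _ => ?_
      unfold TS
      refine Finset.sum_le_sum_of_subset_of_nonneg (fun k hk => ?_) fun _ _ _ => amp_nonneg _ _
      rw [Finset.mem_filter] at hk
      exact mem_shellF.2 ⟨(mem_LoF.1 hk.1).1, hk.2⟩
    · rw [Finset.mem_range]
      have : sc k ≤ n := (Nat.clog_le_iff_le_pow (by norm_num)).2 (mem_LoF.1 hk).2
      omega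
  have h2 : ∀ m ∈ Finset.range (n + 1), th4 ^ (2 * n) * TS m c
      ≤ 11 * Real.sqrt (YW n c) * th4 ^ dd n m := by
    intro m hm
    rw [Finset.mem_range] at hm
    have h3 := TS_le hc m n
    have e1 : 2 * n = (2 * m + dd m n) + dd n m := by unfold dd; omega
    rw [e1, pow_add]
    calc th4 ^ (2 * m + dd m n) * th4 ^ dd n m * TS m c
        = th4 ^ dd n m * (th4 ^ (2 * m + dd m n) * TS m c) := by ring
      _ ≤ th4 ^ dd n m * (11 * Real.sqrt (YW n c)) := by gcongr
      _ = _ := by ring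
  calc th4 ^ (2 * n) * ∑ k ∈ LoF n, amp c k
      ≤ th4 ^ (2 * n) * ∑ m ∈ Finset.range (n + 1), TS m c := by gcongr
    _ = ∑ m ∈ Finset.range (n + 1), th4 ^ (2 * n) * TS m c := Finset.mul_sum _ _ _
    _ ≤ ∑ m ∈ Finset.range (n + 1), 11 * Real.sqrt (YW n c) * th4 ^ dd n m :=
        Finset.sum_le_sum h2
    _ = 11 * Real.sqrt (YW n c) * ∑ m ∈ Finset.range (n + 1), th4 ^ dd n m := by
        rw [← Finset.mul_sum]
    _ ≤ 11 * Real.sqrt (YW n c) * 14 := by
        have := geo_th n (n + 1)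
        gcongr
    _ = _ := by ring

/-- (R'') -/
theorem YY_le {c : Fam} (hc : RapV c) (n : ℕ) :
    YY (2 ^ n) c ≤ ENNReal.ofReal (308 * (th4 ^ (2 * n) * Real.sqrt (YW n c))) := by
  have h0 := th4_pos
  have hY := Real.sqrt_nonneg (YW n c)
  have h1 : YY (2 ^ n) c = ∑' m : ℕ, ENNReal.ofReal (∑ k ∈ shellF m, ws (2 ^ n) k * amp c k) := by
    unfold YY
    have e1 : ∀ k : K3, ENNReal.ofReal (ws (2 ^ n) k * am c k)
        = ∑' m : ℕ, if k ∈ shellF m then ENNReal.ofReal (ws (2 ^ n) k * amp c k) else 0 := by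
      intro k
      by_cases hk : k = 0
      · subst hk
        rw [am_zero, mul_zero, ENNReal.ofReal_zero]
        symm
        refine ENNReal.tsum_eq_zero.2 fun m => ?_
        rw [if_neg]
        intro h
        exact (mem_shellF.1 h).1 rfl
      · rw [tsum_eq_single (sc k), if_pos (mem_shellF.2 ⟨hk, rfl⟩), am_ne c hk]
        intro m hm
        rw [if_neg]
        intro h
        exact hm (mem_shellF.1 h).2.symm
    simp_rw [e1]
    rw [ENNReal.tsum_comm]
    refine tsum_congr fun m => ?_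
    rw [ENNReal.ofReal_sum_of_nonneg fun k _ => mul_nonneg (ws_nonneg _ _) (amp_nonneg _ _)]
    rw [tsum_eq_sum (s := shellF m) (fun k hk => if_neg hk)]
    exact Finset.sum_congr rfl fun k hk => if_pos hk
  have h2 : ∀ m : ℕ, ∑ k ∈ shellF m, ws (2 ^ n) k * amp c k
      ≤ 22 * (th4 ^ (2 * n) * Real.sqrt (YW n c)) * th4 ^ dd n m := by
    intro m
    have h3 := TS_le hc m n
    have hT := TS_nonneg m c
    rcases le_total m n with hmn | hmn
    · have h4 : ∀ k ∈ shellF m, ws (2 ^ n) k * amp c k ≤ (1 / 2) ^ n * amp c k := by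
        intro k hk
        have h5 : ws (2 ^ n) k ≤ (1 / 2) ^ n := by
          unfold ws
          rw [if_neg (mem_shellF.1 hk).1, one_div_pow]
          apply one_div_le_one_div_of_le (by positivity)
          push_cast
          exact le_max_right _ _
        have := amp_nonneg c k
        gcongr
      refine (Finset.sum_le_sum h4).trans ?_
      rw [← Finset.mul_sum, ← th4_four, ← pow_mul]
      have e1 : 4 * n = 2 * n + (dd n m + (2 * m + dd m n)) := by unfold dd; omega
      rw [e1, pow_add, pow_add]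
      calc th4 ^ (2 * n) * (th4 ^ dd n m * th4 ^ (2 * m + dd m n)) * TS m c
          = th4 ^ (2 * n) * th4 ^ dd n m * (th4 ^ (2 * m + dd m n) * TS m c) := by ring
        _ ≤ th4 ^ (2 * n) * th4 ^ dd n m * (11 * Real.sqrt (YW n c)) := by gcongr
        _ ≤ th4 ^ (2 * n) * th4 ^ dd n m * (22 * Real.sqrt (YW n c)) := by gcongr; norm_num
        _ = _ := by ring
    · have h4 : ∀ k ∈ shellF m, ws (2 ^ n) k * amp c k ≤ 2 * (1 / 2) ^ m * amp c k := by
        intro k hk
        have hk0 := (mem_shellF.1 hk).1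
        have h5 : ws (2 ^ n) k ≤ 2 * (1 / 2) ^ m := by
          unfold ws
          rw [if_neg hk0]
          have h6 := N_pos hk0
          have h7 : (2 : ℝ) ^ m ≤ 2 * N k := by
            rw [← (mem_shellF.1 hk).2]
            exact_mod_cast sc_le hk0
          have h8 : 1 / max (N k : ℝ) ((2 ^ n : ℕ) : ℝ) ≤ 1 / N k :=
            one_div_le_one_div_of_le (by linarith) (le_max_left _ _)
          refine h8.trans ?_
          rw [one_div_pow, mul_one_div, div_le_div_iff₀ (by linarith) (by positivity)]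
          linarith
        have := amp_nonneg c k
        gcongr
      refine (Finset.sum_le_sum h4).trans ?_
      rw [← Finset.mul_sum, ← th4_four, ← pow_mul]
      have e1 : 4 * m = 2 * n + (dd n m + (2 * m + dd m n)) := by unfold dd; omega
      rw [e1, pow_add, pow_add]
      calc 2 * (th4 ^ (2 * n) * (th4 ^ dd n m * th4 ^ (2 * m + dd m n))) * TS m c
          = 2 * th4 ^ (2 * n) * th4 ^ dd n m * (th4 ^ (2 * m + dd m n) * TS m c) := by ring
        _ ≤ 2 * th4 ^ (2 * n) * th4 ^ dd n m * (11 * Real.sqrt (YW n c)) := by gcongr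
        _ = _ := by ring
  rw [h1]
  refine ENNReal.tsum_le_of_sum_range_le fun K => ?_
  refine (Finset.sum_le_sum fun m _ => ENNReal.ofReal_le_ofReal (h2 m)).trans ?_
  rw [← ENNReal.ofReal_sum_of_nonneg (fun m _ => by positivity)]
  apply ENNReal.ofReal_le_ofReal
  rw [← Finset.mul_sum]
  have h3 := geo_th n K
  calc 22 * (th4 ^ (2 * n) * Real.sqrt (YW n c)) * ∑ m ∈ Finset.range K, th4 ^ dd n m
      ≤ 22 * (th4 ^ (2 * n) * Real.sqrt (YW n c)) * 14 := by gcongr
    _ = _ := by ring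

/-- The smallness in terms of the weighted dissipation. -/
theorem YY_small {c : Fam} (hc : RapV c) {ν : ℝ} (hν : 0 < ν) (n : ℕ)
    (h : YW n c ≤ 1 / 400000 * ν ^ 2 * 2 ^ n) : YY (2 ^ n) c ≤ ENNReal.ofReal (ν / 2) := by
  refine (YY_le hc n).trans (ENNReal.ofReal_le_ofReal ?_)
  have h0 := th4_pos
  have h1 : (308 * (th4 ^ (2 * n) * Real.sqrt (YW n c))) ^ 2 ≤ (ν / 2) ^ 2 := by
    rw [mul_pow, mul_pow, Real.sq_sqrt (YW_nonneg n c), ← pow_mul]
    have e1 : th4 ^ (2 * n * 2) = (1 / 2) ^ n := by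
      rw [← th4_four, ← pow_mul]
      congr 1
      ring
    rw [e1]
    have e2 : (1 / 2 : ℝ) ^ n * 2 ^ n = 1 := by rw [← mul_pow]; norm_num
    calc (308 : ℝ) ^ 2 * ((1 / 2) ^ n * YW n c)
        ≤ 308 ^ 2 * ((1 / 2) ^ n * (1 / 400000 * ν ^ 2 * 2 ^ n)) := by gcongr
      _ = 308 ^ 2 / 400000 * ν ^ 2 * ((1 / 2 : ℝ) ^ n * 2 ^ n) := by ring
      _ ≤ (ν / 2) ^ 2 := by rw [e2]; nlinarith [sq_nonneg ν]
  exact (pow_le_pow_iff_left₀ (by positivity) (by positivity) (by norm_num)).1 h1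

end Pool.Agent.Helper24.ST
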