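import Pool.Agent.Helper24.ST.Life3
import Pool.Agent.Helper24.ST.Wts2

set_option autoImplicit false

/-!
Leray-Hopf solutions with their epochs of regularity.
-/

open MeasureTheory Set Filter Topology
open scoped ContDiff ENNReal

namespace Pool.Agent.Helper24.ST

open H459R3.NS Pool.Agent.Q63.Win

/-- A periodic Leray-Hopf solution of the Navier-Stokes equations on the time interval `(0, T)`
with viscosity `ν`, with its open set `G` of the times of regularity. -/
structure IsLeray (ν T E : ℝ) (G : Set ℝ) (u : ℝ → V → V) (p : ℝ → V → ℝ) : Prop where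
  openG : IsOpen G
  subG : G ⊆ Ioo 0 T
  fullG : volume (Ioo 0 T \ G) = 0
  smooth_u : ContDiffOn ℝ ∞ (fun z : ℝ × V => u z.1 z.2) (G ×ˢ univ)
  smooth_p : ContDiffOn ℝ ∞ (fun z : ℝ × V => p z.1 z.2) (G ×ˢ univ)
  per_u : ∀ t ∈ G, Per (u t)
  per_p : ∀ t ∈ G, Per (p t)
  divfree : ∀ t ∈ G, ∀ x, ∑ i, pd i (fun y => u t y i) x = 0
  momentum : ∀ t ∈ G, ∀ x i,
    deriv (fun s => u s x i) t + ∑ j, u t x j * pd j (fun y => u t y i) x
      = ν * ∑ j, pd j (pd j (fun y => u t y i)) x - pd i (p t) x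
  energy_le : ∀ t ∈ G, energy (u t) ≤ E ^ 2
  enst_int : IntegrableOn (fun t => enstrophy (u t)) G
  energy_ineq : ∀ s ∈ G, ∀ t ∈ G, s ≤ t →
    energy (u t) + 2 * ν * ∫ τ in G ∩ Ioo s t, enstrophy (u τ) ≤ energy (u s)
  weak : ∀ ψ : V → V, SPV ψ → (∀ x, ∑ i, pd i (fun y => ψ y i) x = 0) →
    ∀ s ∈ G, ∀ t ∈ G, s ≤ t →
      (∑ i, ∫ x in cube, u t x i * ψ x i) - ∑ i, ∫ x in cube, u s x i * ψ x i
        = ∫ τ in G ∩ Ioo s t, ∑ i, ((∑ j, ∫ x in cube, u τ x i * u τ x j * pd j (fun y => ψ y i) x)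
          + ν * ∫ x in cube, u τ x i * lap (fun y => ψ y i) x)
  blowup : ∀ a b, 0 ≤ a → a < b → b < T → Ioo a b ⊆ G → b ∉ G →
    ∀ C : ℝ, ∃ t ∈ Ioo a b, ∃ x i, C < |u t x i|

section

variable {ν T E : ℝ} {G : Set ℝ} {u : ℝ → V → V} {p : ℝ → V → ℝ}

theorem IsLeray.isSol (h : IsLeray ν T E G u p) {a b : ℝ} (hab : Ico a b ⊆ G) :
    IsSol ν (b - a) (fun t => u (a + t)) (fun t => p (a + t)) where
  smooth_u := by
    have hm : MapsTo (fun z : ℝ × V => (a + z.1, z.2)) (Ico 0 (b - a) ×ˢ univ)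
        (G ×ˢ univ) := fun z hz => ⟨hab ⟨by linarith [hz.1.1], by linarith [hz.1.2]⟩, trivial⟩
    exact h.smooth_u.comp ((contDiff_const.add contDiff_fst).prodMk contDiff_snd).contDiffOn hm
  smooth_p := by
    have hm : MapsTo (fun z : ℝ × V => (a + z.1, z.2)) (Ico 0 (b - a) ×ˢ univ)
        (G ×ˢ univ) := fun z hz => ⟨hab ⟨by linarith [hz.1.1], by linarith [hz.1.2]⟩, trivial⟩
    exact h.smooth_p.comp ((contDiff_const.add contDiff_fst).prodMk contDiff_snd).contDiffOn hm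
  per_u := fun t ht => h.per_u (a + t) (hab ⟨by linarith [ht.1], by linarith [ht.2]⟩)
  per_p := fun t ht => h.per_p (a + t) (hab ⟨by linarith [ht.1], by linarith [ht.2]⟩)
  divfree := fun t ht => h.divfree (a + t) (hab ⟨by linarith [ht.1], by linarith [ht.2]⟩)
  momentum := fun t ht x i => by
    have h1 := h.momentum (a + t) (hab ⟨by linarith [ht.1], by linarith [ht.2]⟩) x i
    have e : deriv (fun τ => u (a + τ) x i) t = deriv (fun τ => u τ x i) (a + t) :=
      deriv_comp_const_add (fun τ => u τ x i) a t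
    rw [e]
    exact h1

theorem exists_Icc {G : Set ℝ} (hG : IsOpen G) {t : ℝ} (ht : t ∈ G) :
    ∃ a b, a < t ∧ t < b ∧ Icc a b ⊆ G := by
  obtain ⟨ε, hε, h⟩ := Metric.isOpen_iff.1 hG t ht
  refine ⟨t - ε / 2, t + ε / 2, by linarith, by linarith, fun x hx => h ?_⟩
  rw [Metric.mem_ball, Real.dist_eq, abs_lt]
  constructor <;> linarith [hx.1, hx.2]

theorem IsLeray.fsol (h : IsLeray ν T E G u p) {a b : ℝ} (hab : Ico a b ⊆ G) :
    FSol (msym ν) (b - a) (fun t => cof (u (a + t))) := fsol_of_isSol (h.isSol hab)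

theorem IsLeray.rapV (h : IsLeray ν T E G u p) {t : ℝ} (ht : t ∈ G) : RapV (cof (u t)) := by
  obtain ⟨a, b, ha, hb, hab⟩ := exists_Icc h.openG ht
  have := (h.fsol (Ico_subset_Icc_self.trans hab)).rapV (t := t - a)
    ⟨by linarith, by linarith⟩
  simpa using this

theorem IsLeray.sp (h : IsLeray ν T E G u p) {t : ℝ} (ht : t ∈ G) (i : Fin 3) :
    SP (fun y => u t y i) := by
  obtain ⟨a, b, ha, hb, hab⟩ := exists_Icc h.openG ht
  have := (h.isSol (Ico_subset_Icc_self.trans hab)).sp (t := t - a)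
    ⟨by linarith, by linarith⟩ i
  simpa using this

theorem IsLeray.esq (h : IsLeray ν T E G u p) {t : ℝ} (ht : t ∈ G) (k : K3) :
    HasDerivAt (fun s => amp (cof (u s)) k ^ 2)
    (-(2 * msym ν k * amp (cof (u t)) k ^ 2)
      - 2 * (∑ i, (starRingEnd ℂ) (cof (u t) k i) * NL (cof (u t)) k i).re) t := by
  obtain ⟨a, b, ha, hb, hab⟩ := exists_Icc h.openG ht
  have h1 := (h.fsol (Ico_subset_Icc_self.trans hab)).esq (t - a)
    ⟨by linarith, by linarith⟩ k
  have h2 : HasDerivAt (fun s : ℝ => s - a) 1 t := (hasDerivAt_id t).sub_const a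
  have h3 := HasDerivAt.comp t h1 h2
  simp only [add_sub_cancel, mul_one] at h3
  refine h3.congr_of_eventuallyEq (Eventually.of_forall fun s => ?_)
  simp

theorem hasSum_amp {v : V → V} (hv : ∀ i, SP (fun y => v y i)) :
    HasSum (fun k => amp (cof v) k ^ 2) (energy v) := by
  have h : ∀ i, HasSum (fun k => ‖fr (fun y => v y i) k‖ ^ 2) (∫ x in cube, v x i ^ 2) := by
    intro i
    rw [← n2_fr (hv i), n2_sq]
    exact (summable_sq (rap_fr (hv i)).summable).hasSum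
  simp_rw [amp_sq]
  exact hasSum_sum fun i _ => h i

theorem hasSum_msym (ν : ℝ) {v : V → V} (hv : ∀ i, SP (fun y => v y i)) :
    HasSum (fun k => msym ν k * amp (cof v) k ^ 2) (ν * enstrophy v) := by
  have h : ∀ i j, HasSum (fun k => ‖D j (fr (fun y => v y i)) k‖ ^ 2)
      (∫ x in cube, pd j (fun y => v y i) x ^ 2) := by
    intro i j
    rw [← n2_fr ((hv i).pd j), n2_sq, fr_pd (hv i)]
    exact (summable_sq ((rap_fr (hv i)).D j).summable).hasSum
  have h2 := (hasSum_sum fun i (_ : i ∈ Finset.univ) =>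
    hasSum_sum fun j (_ : j ∈ Finset.univ) => h i j).mul_left ν
  refine h2.congr_fun fun k => ?_
  rw [amp_sq]
  unfold msym cof
  have e : ∀ i j, ‖D j (fr (fun y => v y i)) k‖ ^ 2
      = 4 * Real.pi ^ 2 * ((k j : ℝ) ^ 2 * ‖fr (fun y => v y i) k‖ ^ 2) := by
    intro i j
    rw [D, norm_mul, norm_mul, norm_mul, norm_mul, Complex.norm_I, mul_one, Complex.norm_real,
      Real.norm_eq_abs, abs_of_pos Real.pi_pos, Complex.norm_ofNat, Complex.norm_intCast, mul_pow,
      mul_pow, mul_pow, sq_abs]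
    ring
  simp_rw [e, ← Finset.mul_sum, ← Finset.sum_mul]
  rw [← Finset.mul_sum]
  ring

end

end Pool.Agent.Helper24.ST
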