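import Pool.Agent.Q63.Win.FromSol

set_option autoImplicit false

/-!
A lower bound for the time of existence in terms of the sum of `|u^(k)| / max (|k|, N)`.
-/

open MeasureTheory Set Filter Topology
open scoped ENNReal

namespace Pool.Agent.Helper24.ST

open H459R3.NS Pool.Agent.Q63.Win

/-- The length of the coefficient, zero for `k = 0`. -/
noncomputable def am (c : Fam) (k : K3) : ℝ := if k = 0 then 0 else amp c k

theorem am_nonneg (c : Fam) (k : K3) : 0 ≤ am c k := by
  unfold am
  split_ifs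
  · exact le_rfl
  · exact amp_nonneg c k

theorem am_le (c : Fam) (k : K3) : am c k ≤ amp c k := by
  unfold am
  split_ifs
  · exact amp_nonneg c k
  · exact le_rfl

theorem am_zero (c : Fam) : am c 0 = 0 := by simp [am]

theorem am_ne (c : Fam) {k : K3} (hk : k ≠ 0) : am c k = amp c k := by simp [am, hk]

theorem rapR_am {c : Fam} (hc : RapV c) : RapR (am c) := by
  intro n
  obtain ⟨M, hM0, hM⟩ := hc.rapR n
  refine ⟨M, hM0, fun k => le_trans ?_ (hM k)⟩
  rw [abs_of_nonneg (am_nonneg c k), abs_of_nonneg (amp_nonneg c k)]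
  have := am_le c k
  gcongr

/-- The convolution. -/
noncomputable def cv (c : Fam) (k : K3) : ℝ := ∑' q, am c (k - q) * am c q

theorem summable_cv {c : Fam} (hc : RapV c) (k : K3) :
    Summable fun q => am c (k - q) * am c q := by
  obtain ⟨M, hM0, hM⟩ := (rapR_am hc).bdd
  have h2 := ((rapR_am hc).summable').mul_left M
  refine Summable.of_nonneg_of_le (fun q => mul_nonneg (am_nonneg _ _) (am_nonneg _ _))
    (fun q => ?_) h2
  have := (le_abs_self _).trans (hM (k - q))
  have := am_nonneg c q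
  gcongr

theorem cv_nonneg (c : Fam) (k : K3) : 0 ≤ cv c k :=
  tsum_nonneg fun _ => mul_nonneg (am_nonneg _ _) (am_nonneg _ _)

/-- The production of the square of the length of a coefficient. -/
theorem abs_prod_le {c : Fam} (hc : RapV c) (hreal : ∀ k i, c (-k) i = (starRingEnd ℂ) (c k i))
    (hdiv : ∀ k, ∑ i, (k i : ℂ) * c k i = 0) (k : K3) :
    |(∑ i, (starRingEnd ℂ) (c k i) * NL c k i).re| ≤ 13 * N k * cv c k * amp c k := by
  have h1 := Complex.hasSum_re (hasSum_tg hc k)
  rw [← h1.tsum_eq]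
  have hb : ∀ q, |(tg c k q).re| ≤ 13 * N k * (am c (k - q) * am c q) * amp c k := by
    intro q
    have a3 := amp_nonneg c k
    by_cases hq0 : q = 0
    · subst hq0
      have : tg c k 0 = 0 := by simp [tg]
      rw [this, am_zero]
      simp
    by_cases hqk : q = k
    · subst hqk
      have h2 := tg_swap hreal hdiv q q
      have h3 : (tg c q q).re = 0 := by
        have := congrArg Complex.re h2
        simp only [Complex.neg_re, Complex.conj_re] at this
        linarith
      rw [h3, sub_self, am_zero]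
      simp
    · refine (Complex.abs_re_le_norm _).trans ((norm_tg_le hdiv k q).trans ?_)
      have e1 : am c (k - q) = amp c (k - q) := am_ne c (sub_ne_zero.2 (Ne.symm hqk))
      have e2 : am c q = amp c q := am_ne c hq0
      rw [e1, e2]
      have b1 := amp_nonneg c (k - q)
      have b2 := amp_nonneg c q
      have b3 : min (N k : ℝ) (N q) ≤ N k := min_le_left _ _
      calc 13 * (min (N k : ℝ) (N q) * (amp c (k - q) * amp c q * amp c k))
          ≤ 13 * (N k * (amp c (k - q) * amp c q * amp c k)) := by gcongr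
        _ = _ := by ring
  have hs : Summable fun q => 13 * N k * (am c (k - q) * am c q) * amp c k :=
    ((summable_cv hc k).mul_left _).mul_right _
  have h2 : ‖∑' q, (tg c k q).re‖ ≤ ∑' q, 13 * N k * (am c (k - q) * am c q) * amp c k :=
    tsum_of_norm_bounded hs.hasSum hb
  rw [Real.norm_eq_abs] at h2
  refine h2.trans (le_of_eq ?_)
  rw [tsum_mul_right, tsum_mul_left]
  rfl

section

variable {ν T : ℝ} {c : ℝ → Fam} (h : FSol (msym ν) T c)

include h

theorem amp_cont (k : K3) : ContinuousOn (fun t => amp (c t) k) (Ioo 0 T) := by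
  have h1 : ContinuousOn (fun t => amp (c t) k ^ 2) (Ioo 0 T) := fun t ht =>
    (h.esq t ht k).continuousAt.continuousWithinAt
  have h2 := h1.sqrt
  refine h2.congr fun t _ => ?_
  show amp (c t) k = Real.sqrt (amp (c t) k ^ 2)
  rw [Real.sqrt_sq (amp_nonneg _ _)]

theorem am_cont (k : K3) : ContinuousOn (fun t => am (c t) k) (Ioo 0 T) := by
  by_cases hk : k = 0
  · subst hk
    simp only [am_zero]
    exact continuousOn_const
  · simp only [am_ne _ hk]
    exact amp_cont h k

theorem cv_cont (k : K3) {a b : ℝ} (ha : 0 < a) (hb : b < T) :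
    ContinuousOn (fun t => cv (c t) k) (Icc a b) := by
  obtain ⟨M, hM0, hM⟩ := h.unif 6 ha hb
  unfold cv
  have hsub : Icc a b ⊆ Ioo 0 T := fun t ht => ⟨ha.trans_le ht.1, ht.2.trans_lt hb⟩
  refine continuousOn_tsum (u := fun q => M * (M * ((1 + (N q : ℝ)) ^ 6)⁻¹))
    (fun q => ((am_cont h (k - q)).mono hsub).mul ((am_cont h q).mono hsub))
    ((summable_inv6.mul_left M).mul_left M) fun q t ht => ?_
  rw [Real.norm_eq_abs, abs_of_nonneg (mul_nonneg (am_nonneg _ _) (am_nonneg _ _))]
  have a1 : am (c t) (k - q) ≤ M := by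
    refine (am_le _ _).trans ((hM t ht (k - q)).trans ?_)
    have : ((1 + (N (k - q) : ℝ)) ^ 6)⁻¹ ≤ 1 := by
      apply inv_le_one_of_one_le₀
      apply one_le_pow₀
      linarith [(Nat.cast_nonneg (N (k - q)) : (0 : ℝ) ≤ _)]
    nlinarith
  have a2 : am (c t) q ≤ M * ((1 + (N q : ℝ)) ^ 6)⁻¹ := (am_le _ _).trans (hM t ht q)
  have := am_nonneg (c t) q
  gcongr

/-- The evolution of one coefficient. -/
theorem amp_step (hν : 0 < ν) (k : K3) {s t : ℝ} (hs : 0 < s) (hst : s ≤ t) (ht : t < T) :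
    amp (c t) k + 36 * ν * (N k : ℝ) ^ 2 * ∫ τ in s..t, amp (c τ) k
      ≤ amp (c s) k + 13 * N k * ∫ τ in s..t, cv (c τ) k := by
  have hsub : Icc s t ⊆ Ioo 0 T := fun τ hτ => ⟨hs.trans_le hτ.1, hτ.2.trans_lt ht⟩
  have hac : ContinuousOn (fun τ => amp (c τ) k) (Icc s t) := (amp_cont h k).mono hsub
  have hcc : ContinuousOn (fun τ => cv (c τ) k) (Icc s t) := cv_cont h k hs ht
  set A : ℝ := 36 * ν * (N k : ℝ) ^ 2 with hA
  have hA0 : 0 ≤ A := by positivity
  set B : ℝ := 13 * (N k : ℝ) with hB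
  have hB0 : 0 ≤ B := by positivity
  refine le_of_forall_pos_le_add fun ε' hε' => ?_
  obtain ⟨ε, hε, hε1⟩ : ∃ ε : ℝ, 0 < ε ∧ ε + A * (t - s) * ε ≤ ε' := by
    refine ⟨ε' / (1 + A * (t - s)), div_pos hε' ?_, ?_⟩
    · have : 0 ≤ A * (t - s) := mul_nonneg hA0 (by linarith)
      linarith
    · have h1 : 0 ≤ A * (t - s) := mul_nonneg hA0 (by linarith)
      have h2 : ε' / (1 + A * (t - s)) + A * (t - s) * (ε' / (1 + A * (t - s))) = ε' := by
        field_simp
      exact h2.le
  set f : ℝ → ℝ := fun τ => Real.sqrt (ε ^ 2 + amp (c τ) k ^ 2) with hf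
  have hpos : ∀ τ, 0 < ε ^ 2 + amp (c τ) k ^ 2 := fun τ => by positivity
  have hfpos : ∀ τ, 0 < f τ := fun τ => Real.sqrt_pos.2 (hpos τ)
  have hf2 : ∀ τ, f τ ^ 2 = ε ^ 2 + amp (c τ) k ^ 2 := fun τ => Real.sq_sqrt (hpos τ).le
  have hfge : ∀ τ, amp (c τ) k ≤ f τ := fun τ => by
    apply Real.le_sqrt_of_sq_le
    have : 0 < ε ^ 2 := by positivity
    linarith
  have hfε : ∀ τ, ε ≤ f τ := fun τ => by
    apply Real.le_sqrt_of_sq_le
    have : 0 ≤ amp (c τ) k ^ 2 := sq_nonneg _
    linarith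
  have hfle : ∀ τ, f τ ≤ amp (c τ) k + ε := fun τ => by
    rw [hf]
    apply Real.sqrt_le_iff.2
    have := amp_nonneg (c τ) k
    exact ⟨by linarith, by nlinarith⟩
  have hfc : ContinuousOn f (Icc s t) := (continuousOn_const.add (hac.pow 2)).sqrt
  set g' : ℝ → ℝ := fun τ => (-(2 * msym ν k * amp (c τ) k ^ 2)
    - 2 * (∑ i, (starRingEnd ℂ) (c τ k i) * NL (c τ) k i).re) / (2 * f τ) with hg'
  have hder : ∀ τ ∈ Ioo s t, HasDerivWithinAt f (g' τ) (Ioi τ) τ := by
    intro τ hτ
    have hτT : τ ∈ Ioo 0 T := hsub ⟨hτ.1.le, hτ.2.le⟩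
    have h1 := (h.esq τ hτT k).const_add (ε ^ 2)
    exact (h1.sqrt (hpos τ).ne').hasDerivWithinAt
  set φ : ℝ → ℝ := fun τ => -(A * (amp (c τ) k - ε)) + B * cv (c τ) k with hφ
  have hφc : ContinuousOn φ (Icc s t) :=
    ((continuousOn_const.mul (hac.sub continuousOn_const)).neg).add (continuousOn_const.mul hcc)
  have hle : ∀ τ ∈ Ioo s t, g' τ ≤ φ τ := by
    intro τ hτ
    have hτT : τ ∈ Ioo 0 T := hsub ⟨hτ.1.le, hτ.2.le⟩
    have h2 := abs_prod_le (h.rapV hτT) (h.real τ hτT) (h.div τ hτT) k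
    have h3 := (abs_le.1 h2).1
    have h4 := msym_ge hν.le k
    have h5 := hfpos τ
    have h6 := amp_nonneg (c τ) k
    have h7 := cv_nonneg (c τ) k
    rw [hg', div_le_iff₀ (by positivity)]
    have h8 : A * amp (c τ) k ^ 2 ≤ msym ν k * amp (c τ) k ^ 2 := by gcongr
    have h9 : B * cv (c τ) k * amp (c τ) k ≤ B * cv (c τ) k * f τ := by
      have := hfge τ
      gcongr
    have h10 : A * (amp (c τ) k - ε) * f τ ≤ A * amp (c τ) k ^ 2 := by
      have h11 : (amp (c τ) k - ε) * f τ ≤ amp (c τ) k ^ 2 := by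
        have h12 := hfle τ
        have h13 := hfge τ
        rcases le_total (amp (c τ) k) ε with h14 | h14
        · nlinarith [sq_nonneg (amp (c τ) k)]
        · nlinarith
      calc A * (amp (c τ) k - ε) * f τ = A * ((amp (c τ) k - ε) * f τ) := by ring
        _ ≤ A * amp (c τ) k ^ 2 := by gcongr
    have h15 : 13 * (N k : ℝ) * cv (c τ) k * amp (c τ) k = B * cv (c τ) k * amp (c τ) k := by
      rw [hB]
    rw [h15] at h3
    calc -(2 * msym ν k * amp (c τ) k ^ 2)
          - 2 * (∑ i, (starRingEnd ℂ) (c τ k i) * NL (c τ) k i).re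
        ≤ -(2 * (A * (amp (c τ) k - ε) * f τ)) + 2 * (B * cv (c τ) k * f τ) := by linarith
      _ = φ τ * (2 * f τ) := by rw [hφ]; ring
  have key := intervalIntegral.sub_le_integral_of_hasDeriv_right_of_le hst hfc hder
    hφc.integrableOn_Icc hle
  have i1 : IntervalIntegrable (fun τ => amp (c τ) k) volume s t :=
    (hac.intervalIntegrable_of_Icc hst)
  have i2 : IntervalIntegrable (fun τ => cv (c τ) k) volume s t :=
    (hcc.intervalIntegrable_of_Icc hst)
  have e : ∫ τ in s..t, φ τ = -(A * ((∫ τ in s..t, amp (c τ) k) - (t - s) * ε))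
      + B * ∫ τ in s..t, cv (c τ) k := by
    have j1 : IntervalIntegrable (fun τ => amp (c τ) k - ε) volume s t :=
      i1.sub intervalIntegrable_const
    have j2 : IntervalIntegrable (fun τ => -(A * (amp (c τ) k - ε))) volume s t :=
      (j1.const_mul A).neg
    show (∫ τ in s..t, (-(A * (amp (c τ) k - ε)) + B * cv (c τ) k)) = _
    rw [intervalIntegral.integral_add j2
      (i2.const_mul B), intervalIntegral.integral_neg, intervalIntegral.integral_const_mul,
      intervalIntegral.integral_const_mul, intervalIntegral.integral_sub i1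
      intervalIntegrable_const, intervalIntegral.integral_const]
    simp
  rw [e] at key
  have k1 := hfge t
  have k2 := hfle s
  calc amp (c t) k + A * ∫ τ in s..t, amp (c τ) k
      ≤ f t + A * ∫ τ in s..t, amp (c τ) k := by linarith
    _ ≤ f s + A * (t - s) * ε + B * ∫ τ in s..t, cv (c τ) k := by linarith
    _ ≤ amp (c s) k + B * (∫ τ in s..t, cv (c τ) k) + ε' := by linarith

end

end Pool.Agent.Helper24.ST
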