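import Pool.Agent.Helper24.ST.Life

set_option autoImplicit false

/-!
A lower bound for the time of existence in terms of the sum of `|u^(k)| / max (|k|, N)`, second part.
-/

open MeasureTheory Set Filter Topology
open scoped ENNReal

namespace Pool.Agent.Helper24.ST

open H459R3.NS Pool.Agent.Q63.Win

/-- The weight `1 / max (|k|, N)`. -/
noncomputable def ws (M : ℕ) (k : K3) : ℝ := if k = 0 then 0 else 1 / max (N k : ℝ) M

theorem ws_nonneg (M : ℕ) (k : K3) : 0 ≤ ws M k := by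
  unfold ws
  split_ifs
  · exact le_rfl
  · positivity

theorem N_pos {k : K3} (hk : k ≠ 0) : (1 : ℝ) ≤ N k := by
  have : 1 ≤ N k := Nat.one_le_iff_ne_zero.2 fun h => hk (N_eq_zero.1 h)
  exact_mod_cast this

theorem ws_le_one (M : ℕ) (k : K3) : ws M k ≤ 1 := by
  unfold ws
  split_ifs with h
  · exact zero_le_one
  · have h1 := N_pos h
    rw [div_le_one (by positivity)]
    exact h1.trans (le_max_left _ _)

theorem ws_mul_N (M : ℕ) (k : K3) : ws M k * N k ≤ 1 := by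
  unfold ws
  split_ifs with h
  · simp
  · have h1 := N_pos h
    rw [div_mul_eq_mul_div, one_mul, div_le_one (by positivity)]
    exact le_max_left _ _

theorem ws_key (M : ℕ) {k : K3} (hk : k ≠ 0) :
    1 ≤ ws M k * (((N k : ℝ) ^ 2 + (M : ℝ) ^ 2) * ws M k) := by
  unfold ws
  rw [if_neg hk]
  have h1 := N_pos hk
  have hm : 0 < max (N k : ℝ) M := lt_of_lt_of_le (by linarith) (le_max_left _ _)
  have h2 : max (N k : ℝ) M ^ 2 ≤ (N k : ℝ) ^ 2 + (M : ℝ) ^ 2 := by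
    rcases max_cases (N k : ℝ) (M : ℝ) with ⟨h, _⟩ | ⟨h, _⟩ <;> rw [h] <;> nlinarith [sq_nonneg (N k : ℝ), sq_nonneg (M : ℝ)]
  have e : 1 / max (N k : ℝ) M * (((N k : ℝ) ^ 2 + (M : ℝ) ^ 2) * (1 / max (N k : ℝ) M))
      = ((N k : ℝ) ^ 2 + (M : ℝ) ^ 2) / max (N k : ℝ) M ^ 2 := by
    field_simp
  rw [e, le_div_iff₀ (by positivity), one_mul]
  exact h2

/-- The sum of the coefficients. -/
noncomputable def SS (c : Fam) : ℝ≥0∞ := ∑' k, ENNReal.ofReal (am c k)

/-- The sum of the coefficients divided by `max (|k|, M)`. -/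
noncomputable def YY (M : ℕ) (c : Fam) : ℝ≥0∞ := ∑' k, ENNReal.ofReal (ws M k * am c k)

/-- The sum of the coefficients times `|k|² / max (|k|, M)`. -/
noncomputable def XY (M : ℕ) (c : Fam) : ℝ≥0∞ :=
  ∑' k, ENNReal.ofReal ((N k : ℝ) ^ 2 * (ws M k * am c k))

theorem SS_sq_le (M : ℕ) (c : Fam) : SS c ^ 2 ≤ YY M c * (XY M c + (M : ℝ≥0∞) ^ 2 * YY M c) := by
  set f : K3 → ℝ≥0∞ := fun k => ENNReal.ofReal (Real.sqrt (ws M k * am c k)) with hf
  set g : K3 → ℝ≥0∞ := fun k =>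
    ENNReal.ofReal (Real.sqrt (((N k : ℝ) ^ 2 + (M : ℝ) ^ 2) * (ws M k * am c k))) with hg
  have h0 : ∀ k, 0 ≤ ws M k * am c k := fun k => mul_nonneg (ws_nonneg M k) (am_nonneg c k)
  have h1 : SS c ≤ ∑' k, f k * g k := by
    unfold SS
    refine ENNReal.tsum_le_tsum fun k => ?_
    rw [hf, hg]
    simp only
    rw [← ENNReal.ofReal_mul (Real.sqrt_nonneg _), ← Real.sqrt_mul (h0 k)]
    apply ENNReal.ofReal_le_ofReal
    by_cases hk : k = 0
    · rw [hk, am_zero]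
      exact Real.sqrt_nonneg _
    · apply Real.le_sqrt_of_sq_le
      have h2 := ws_key M hk
      have h3 := am_nonneg c k
      calc am c k ^ 2 = 1 * am c k ^ 2 := by ring
        _ ≤ ws M k * (((N k : ℝ) ^ 2 + (M : ℝ) ^ 2) * ws M k) * am c k ^ 2 := by gcongr
        _ = _ := by ring
  have h2 := enn_cs f g
  have e1 : ∀ k, f k ^ 2 = ENNReal.ofReal (ws M k * am c k) := by
    intro k
    rw [hf]
    simp only
    rw [← ENNReal.ofReal_pow (Real.sqrt_nonneg _), Real.sq_sqrt (h0 k)]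
  have e2 : ∀ k, g k ^ 2 = ENNReal.ofReal ((N k : ℝ) ^ 2 * (ws M k * am c k))
      + (M : ℝ≥0∞) ^ 2 * ENNReal.ofReal (ws M k * am c k) := by
    intro k
    have := h0 k
    rw [hg]
    simp only
    rw [← ENNReal.ofReal_pow (Real.sqrt_nonneg _), Real.sq_sqrt (by positivity), add_mul,
      ENNReal.ofReal_add (by positivity) (by positivity), ENNReal.ofReal_mul (p := (M : ℝ) ^ 2) (by positivity),
      ENNReal.ofReal_pow (by positivity), ENNReal.ofReal_natCast]
  simp_rw [e1, e2] at h2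
  rw [ENNReal.tsum_add, ENNReal.tsum_mul_left] at h2
  have h3 : SS c ≤ (YY M c) ^ (1 / 2 : ℝ) * (XY M c + (M : ℝ≥0∞) ^ 2 * YY M c) ^ (1 / 2 : ℝ) :=
    h1.trans h2
  calc SS c ^ 2 ≤ ((YY M c) ^ (1 / 2 : ℝ) * (XY M c + (M : ℝ≥0∞) ^ 2 * YY M c) ^ (1 / 2 : ℝ)) ^ 2 := by
        gcongr
    _ = _ := by rw [mul_pow, enn_half_sq, enn_half_sq]

theorem tsum_cv {c : Fam} (hc : RapV c) : ∑' k, ENNReal.ofReal (cv c k) = SS c ^ 2 := by
  have h1 : ∀ k, ENNReal.ofReal (cv c k)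
      = ∑' q, ENNReal.ofReal (am c (k - q)) * ENNReal.ofReal (am c q) := by
    intro k
    unfold cv
    rw [ENNReal.ofReal_tsum_of_nonneg (fun q => mul_nonneg (am_nonneg _ _) (am_nonneg _ _))
      (summable_cv hc k)]
    exact tsum_congr fun q => ENNReal.ofReal_mul (am_nonneg _ _)
  simp_rw [h1]
  rw [ENNReal.tsum_comm]
  simp_rw [ENNReal.tsum_mul_right]
  have h2 : ∀ q, ∑' k, ENNReal.ofReal (am c (k - q)) = SS c := fun q =>
    (Equiv.subRight q).tsum_eq fun k => ENNReal.ofReal (am c k)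
  simp_rw [h2]
  rw [ENNReal.tsum_mul_left, sq]
  rfl

theorem prod_cv_le (M : ℕ) {c : Fam} (hc : RapV c) :
    ∑' k, ENNReal.ofReal (ws M k * (13 * N k * cv c k)) ≤ 13 * SS c ^ 2 := by
  rw [← tsum_cv hc, ← ENNReal.tsum_mul_left]
  refine ENNReal.tsum_le_tsum fun k => ?_
  have : (13 : ℝ≥0∞) = ENNReal.ofReal 13 := by norm_num
  rw [this, ← ENNReal.ofReal_mul (by norm_num)]
  apply ENNReal.ofReal_le_ofReal
  have h1 := ws_mul_N M k
  have h2 := cv_nonneg c k
  calc ws M k * (13 * N k * cv c k) = (ws M k * N k) * (13 * cv c k) := by ring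
    _ ≤ 1 * (13 * cv c k) := by gcongr
    _ = _ := by ring

section

variable {ν T : ℝ} {c : ℝ → Fam} (h : FSol (msym ν) T c)

include h

theorem am_step (hν : 0 < ν) (k : K3) {s t : ℝ} (hs : 0 < s) (hst : s ≤ t) (ht : t < T) :
    am (c t) k + 36 * ν * (N k : ℝ) ^ 2 * ∫ τ in s..t, am (c τ) k
      ≤ am (c s) k + 13 * N k * ∫ τ in s..t, cv (c τ) k := by
  by_cases hk : k = 0
  · subst hk
    simp only [am_zero, N_eq_zero.2 rfl]
    simp
  · simp only [am_ne _ hk]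
    exact amp_step h hν k hs hst ht

theorem sum_step (hν : 0 < ν) (M : ℕ) {s t : ℝ} (hs : 0 < s) (hst : s ≤ t) (ht : t < T) :
    YY M (c t) + ENNReal.ofReal (36 * ν) * ∫⁻ τ in Ioo s t, XY M (c τ)
      ≤ YY M (c s) + 13 * ∫⁻ τ in Ioo s t, SS (c τ) ^ 2 := by
  have hsub : Icc s t ⊆ Ioo 0 T := fun τ hτ => ⟨hs.trans_le hτ.1, hτ.2.trans_lt ht⟩
  have hac : ∀ k, ContinuousOn (fun τ => am (c τ) k) (Icc s t) := fun k => (am_cont h k).mono hsub
  have hcc : ∀ k, ContinuousOn (fun τ => cv (c τ) k) (Icc s t) := fun k => cv_cont h k hs ht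
  have hm1 : ∀ k, AEMeasurable (fun τ => ENNReal.ofReal ((N k : ℝ) ^ 2 * (ws M k * am (c τ) k)))
      (volume.restrict (Ioo s t)) := fun k =>
    ((continuousOn_const.mul (continuousOn_const.mul
      ((hac k).mono Ioo_subset_Icc_self))).aemeasurable measurableSet_Ioo).ennreal_ofReal
  have hm2 : ∀ k, AEMeasurable (fun τ => ENNReal.ofReal (ws M k * (13 * N k * cv (c τ) k)))
      (volume.restrict (Ioo s t)) := fun k =>
    ((continuousOn_const.mul (continuousOn_const.mul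
      ((hcc k).mono Ioo_subset_Icc_self))).aemeasurable measurableSet_Ioo).ennreal_ofReal
  have hk : ∀ k, ENNReal.ofReal (ws M k * am (c t) k) + ENNReal.ofReal (36 * ν) *
      ∫⁻ τ in Ioo s t, ENNReal.ofReal ((N k : ℝ) ^ 2 * (ws M k * am (c τ) k))
      ≤ ENNReal.ofReal (ws M k * am (c s) k) +
        ∫⁻ τ in Ioo s t, ENNReal.ofReal (ws M k * (13 * N k * cv (c τ) k)) := by
    intro k
    have h1 := am_step h hν k hs hst ht
    have hw := ws_nonneg M k
    have i1 : IntegrableOn (fun τ => (N k : ℝ) ^ 2 * (ws M k * am (c τ) k)) (Ioo s t) :=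
      ((continuousOn_const.mul (continuousOn_const.mul (hac k))).integrableOn_Icc).mono_set
        Ioo_subset_Icc_self
    have i2 : IntegrableOn (fun τ => ws M k * (13 * N k * cv (c τ) k)) (Ioo s t) :=
      ((continuousOn_const.mul (continuousOn_const.mul (hcc k))).integrableOn_Icc).mono_set
        Ioo_subset_Icc_self
    rw [← ofReal_integral_eq_lintegral_ofReal i1 (ae_of_all _ fun τ =>
        mul_nonneg (sq_nonneg _) (mul_nonneg hw (am_nonneg _ _))),
      ← ofReal_integral_eq_lintegral_ofReal i2 (ae_of_all _ fun τ =>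
        mul_nonneg hw (mul_nonneg (by positivity) (cv_nonneg _ _))),
      ← ENNReal.ofReal_mul (by positivity)]
    have p1 : 0 ≤ ∫ τ in Ioo s t, (N k : ℝ) ^ 2 * (ws M k * am (c τ) k) :=
      integral_nonneg fun τ => mul_nonneg (sq_nonneg _) (mul_nonneg hw (am_nonneg _ _))
    have p2 : 0 ≤ ∫ τ in Ioo s t, ws M k * (13 * N k * cv (c τ) k) :=
      integral_nonneg fun τ => mul_nonneg hw (mul_nonneg (by positivity) (cv_nonneg _ _))
    rw [← ENNReal.ofReal_add (mul_nonneg hw (am_nonneg _ _)) (by positivity),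
      ← ENNReal.ofReal_add (mul_nonneg hw (am_nonneg _ _)) p2]
    apply ENNReal.ofReal_le_ofReal
    rw [intervalIntegral.integral_of_le hst, intervalIntegral.integral_of_le hst,
      integral_Ioc_eq_integral_Ioo, integral_Ioc_eq_integral_Ioo] at h1
    have e1 : ∫ τ in Ioo s t, (N k : ℝ) ^ 2 * (ws M k * am (c τ) k)
        = (N k : ℝ) ^ 2 * (ws M k * ∫ τ in Ioo s t, am (c τ) k) := by
      rw [integral_const_mul, integral_const_mul]
    have e2 : ∫ τ in Ioo s t, ws M k * (13 * N k * cv (c τ) k)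
        = ws M k * (13 * N k * ∫ τ in Ioo s t, cv (c τ) k) := by
      rw [integral_const_mul, integral_const_mul]
    rw [e1, e2]
    have h2 := mul_le_mul_of_nonneg_left h1 hw
    linarith
  have h1 := ENNReal.tsum_le_tsum hk
  rw [ENNReal.tsum_add, ENNReal.tsum_add, ENNReal.tsum_mul_left, ← lintegral_tsum hm1,
    ← lintegral_tsum hm2] at h1
  have h2 : ∫⁻ τ in Ioo s t, ∑' k, ENNReal.ofReal (ws M k * (13 * N k * cv (c τ) k))
      ≤ 13 * ∫⁻ τ in Ioo s t, SS (c τ) ^ 2 := by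
    rw [← lintegral_const_mul' _ _ (by norm_num)]
    refine setLIntegral_mono' measurableSet_Ioo fun τ hτ => ?_
    exact prod_cv_le M (h.rapV (hsub ⟨hτ.1.le, hτ.2.le⟩))
  exact h1.trans (add_le_add le_rfl h2)

/-- bounded on compact intervals -/
theorem SS_bdd {a b : ℝ} (ha : 0 < a) (hb : b < T) :
    ∃ K : ℝ, 0 ≤ K ∧ ∀ t ∈ Icc a b, SS (c t) ≤ ENNReal.ofReal K := by
  obtain ⟨M, hM0, hM⟩ := h.unif 6 ha hb
  refine ⟨M * ∑' k : K3, ((1 + (N k : ℝ)) ^ 6)⁻¹, mul_nonneg hM0 (tsum_nonneg fun _ => by positivity),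
    fun t ht => ?_⟩
  rw [← tsum_mul_left, ENNReal.ofReal_tsum_of_nonneg (fun k => by positivity)
    (summable_inv6.mul_left M)]
  exact ENNReal.tsum_le_tsum fun k => ENNReal.ofReal_le_ofReal ((am_le _ _).trans (hM t ht k))

theorem summable_ws (M : ℕ) {t : ℝ} (ht : t ∈ Ioo 0 T) :
    Summable fun k => ws M k * am (c t) k := by
  refine Summable.of_nonneg_of_le (fun k => mul_nonneg (ws_nonneg M k) (am_nonneg _ _))
    (fun k => ?_) (rapR_am (h.rapV ht)).summable'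
  have := ws_le_one M k
  have := am_nonneg (c t) k
  nlinarith

theorem YY_eq (M : ℕ) {t : ℝ} (ht : t ∈ Ioo 0 T) :
    YY M (c t) = ENNReal.ofReal (∑' k, ws M k * am (c t) k) := by
  unfold YY
  rw [ENNReal.ofReal_tsum_of_nonneg (fun k => mul_nonneg (ws_nonneg M k) (am_nonneg _ _))
    (summable_ws h M ht)]

theorem y_cont (M : ℕ) {a b : ℝ} (ha : 0 < a) (hb : b < T) :
    ContinuousOn (fun t => ∑' k, ws M k * am (c t) k) (Icc a b) := by
  obtain ⟨K, hK0, hK⟩ := h.unif 6 ha hb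
  have hsub : Icc a b ⊆ Ioo 0 T := fun t ht => ⟨ha.trans_le ht.1, ht.2.trans_lt hb⟩
  refine continuousOn_tsum (u := fun q => K * ((1 + (N q : ℝ)) ^ 6)⁻¹)
    (fun q => continuousOn_const.mul ((am_cont h q).mono hsub))
    (summable_inv6.mul_left K) fun q t ht => ?_
  rw [Real.norm_eq_abs, abs_of_nonneg (mul_nonneg (ws_nonneg M q) (am_nonneg _ _))]
  have h1 := ws_le_one M q
  have h2 := am_nonneg (c t) q
  calc ws M q * am (c t) q ≤ 1 * am (c t) q := by gcongr
    _ = am (c t) q := one_mul _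
    _ ≤ _ := (am_le _ _).trans (hK t ht q)

/-- The step of the continuity argument. -/
theorem cont_step (hν : 0 < ν) {M : ℕ} {s t : ℝ} (hs : 0 < s) (hst : s ≤ t) (ht : t < T)
    (hT : 36 * ν * (M : ℝ) ^ 2 * (T - s) ≤ 1) (h0 : YY M (c s) ≤ ENNReal.ofReal (ν / 2))
    (hy : ∀ τ ∈ Ioo s t, YY M (c τ) ≤ ENNReal.ofReal ν) :
    YY M (c t) < ENNReal.ofReal ν ∧ ∫⁻ τ in Ioo s t, SS (c τ) ^ 2 ≤ ENNReal.ofReal ν := by
  set I := ∫⁻ τ in Ioo s t, XY M (c τ) with hI
  have h1 := sum_step h hν M hs hst ht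
  rw [← hI] at h1
  -- the integral of the square
  have h2 : ∫⁻ τ in Ioo s t, SS (c τ) ^ 2
      ≤ ENNReal.ofReal ν * I + ENNReal.ofReal (ν / 36) := by
    have e1 : ∀ τ ∈ Ioo s t, SS (c τ) ^ 2
        ≤ ENNReal.ofReal ν * (XY M (c τ) + (M : ℝ≥0∞) ^ 2 * ENNReal.ofReal ν) := by
      intro τ hτ
      have hyt := hy τ hτ
      refine (SS_sq_le M (c τ)).trans ?_
      gcongr
    refine (setLIntegral_mono' measurableSet_Ioo e1).trans ?_
    rw [lintegral_const_mul' _ _ ENNReal.ofReal_ne_top, lintegral_add_right' _ aemeasurable_const,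
      mul_add, setLIntegral_const, Real.volume_Ioo, ← hI]
    refine add_le_add le_rfl ?_
    have eM : (M : ℝ≥0∞) = ENNReal.ofReal (M : ℝ) := (ENNReal.ofReal_natCast M).symm
    rw [eM, ← ENNReal.ofReal_pow (by positivity), ← ENNReal.ofReal_mul (by positivity),
      ← ENNReal.ofReal_mul (by positivity), ← ENNReal.ofReal_mul (by positivity)]
    apply ENNReal.ofReal_le_ofReal
    have h3 : 36 * ν * (M : ℝ) ^ 2 * (t - s) ≤ 1 := by
      refine le_trans ?_ hT
      gcongr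
    calc ν * ((M : ℝ) ^ 2 * ν * (t - s)) = ν / 36 * (36 * ν * (M : ℝ) ^ 2 * (t - s)) := by ring
      _ ≤ ν / 36 * 1 := by gcongr
      _ = ν / 36 := by ring
  -- finiteness
  have hIf : I ≠ ∞ := by
    intro hIt
    obtain ⟨K, hK0, hK⟩ := SS_bdd h hs ht
    have h3 : ∫⁻ τ in Ioo s t, SS (c τ) ^ 2 ≠ ∞ := by
      have : ∫⁻ τ in Ioo s t, SS (c τ) ^ 2 ≤ ∫⁻ _ in Ioo s t, ENNReal.ofReal K ^ 2 :=
        setLIntegral_mono' measurableSet_Ioo fun τ hτ => by
          have := hK τ ⟨hτ.1.le, hτ.2.le⟩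
          gcongr
      refine ne_top_of_le_ne_top ?_ this
      rw [setLIntegral_const, Real.volume_Ioo]
      exact ENNReal.mul_ne_top (ENNReal.pow_ne_top ENNReal.ofReal_ne_top) ENNReal.ofReal_ne_top
    have h4 : YY M (c s) + 13 * ∫⁻ τ in Ioo s t, SS (c τ) ^ 2 ≠ ∞ :=
      ENNReal.add_ne_top.2 ⟨ne_top_of_le_ne_top ENNReal.ofReal_ne_top h0,
        ENNReal.mul_ne_top (by norm_num) h3⟩
    apply h4
    rw [← top_le_iff]
    refine le_trans ?_ h1
    rw [hIt, ENNReal.mul_top (by simpa using hν)]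
    simp
  obtain ⟨J, hJ0, hJ⟩ : ∃ J : ℝ, 0 ≤ J ∧ I = ENNReal.ofReal J :=
    ⟨I.toReal, ENNReal.toReal_nonneg, (ENNReal.ofReal_toReal hIf).symm⟩
  rw [hJ] at h1 h2
  have h3 : YY M (c t) + ENNReal.ofReal (36 * ν) * ENNReal.ofReal J
      ≤ ENNReal.ofReal (ν / 2) + 13 * (ENNReal.ofReal ν * ENNReal.ofReal J + ENNReal.ofReal (ν / 36)) := by
    refine h1.trans (add_le_add h0 ?_)
    gcongr
  have hyf : YY M (c t) ≠ ∞ := by
    rw [YY_eq h M ⟨hs.trans_le hst, ht⟩]
    exact ENNReal.ofReal_ne_top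
  obtain ⟨y, hy0, hyy⟩ : ∃ y : ℝ, 0 ≤ y ∧ YY M (c t) = ENNReal.ofReal y :=
    ⟨(YY M (c t)).toReal, ENNReal.toReal_nonneg, (ENNReal.ofReal_toReal hyf).symm⟩
  have e13 : (13 : ℝ≥0∞) = ENNReal.ofReal 13 := by norm_num
  rw [hyy, e13, ← ENNReal.ofReal_mul (by positivity), ← ENNReal.ofReal_mul (by positivity),
    ← ENNReal.ofReal_add (by positivity) (by positivity),
    ← ENNReal.ofReal_add (by positivity) (by positivity), ← ENNReal.ofReal_mul (by norm_num),
    ← ENNReal.ofReal_add (by positivity) (by positivity),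
    ENNReal.ofReal_le_ofReal_iff (by positivity)] at h3
  have hJν : J ≤ 1 / 23 := by
    have : ν * J ≤ ν * (1 / 23) := by nlinarith
    exact le_of_mul_le_mul_left this hν
  refine ⟨?_, ?_⟩
  · rw [hyy]
    refine (ENNReal.ofReal_lt_ofReal_iff hν).2 ?_
    have : 0 ≤ ν * J := by positivity
    linarith
  · refine h2.trans ?_
    rw [← ENNReal.ofReal_mul (by positivity), ← ENNReal.ofReal_add (by positivity) (by positivity)]
    apply ENNReal.ofReal_le_ofReal
    have : ν * J ≤ ν * (1 / 23) := by gcongr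
    linarith

/-- The bound up to the time `T`. -/
theorem life_bound (hν : 0 < ν) {M : ℕ} {s : ℝ} (hs : s ∈ Ioo 0 T)
    (hT : 36 * ν * (M : ℝ) ^ 2 * (T - s) ≤ 1) (h0 : YY M (c s) ≤ ENNReal.ofReal (ν / 2)) :
    ∫⁻ τ in Ioo s T, SS (c τ) ^ 2 ≤ ENNReal.ofReal ν := by
  have key : ∀ t, s ≤ t → t < T → YY M (c t) < ENNReal.ofReal ν := by
    intro t hst ht
    by_contra hcon
    rw [not_lt] at hcon
    set y : ℝ → ℝ := fun t => ∑' k, ws M k * am (c t) k with hy
    have hyc : ContinuousOn y (Icc s t) := y_cont h M hs.1 ht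
    have hyn : ∀ t, 0 ≤ y t := fun t => tsum_nonneg fun k =>
      mul_nonneg (ws_nonneg M k) (am_nonneg _ _)
    set A : Set ℝ := {τ ∈ Icc s t | ν ≤ y τ} with hA
    have hAc : IsCompact A := by
      have : IsClosed A := by
        have := hyc.preimage_isClosed_of_isClosed isClosed_Icc (isClosed_Ici (a := ν))
        exact this
      exact isCompact_Icc.of_isClosed_subset this fun τ hτ => hτ.1
    have hmem : ∀ τ ∈ Icc s t, τ ∈ Ioo 0 T := fun τ hτ => ⟨hs.1.trans_le hτ.1, hτ.2.trans_lt ht⟩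
    have hiff : ∀ τ ∈ Icc s t, ν ≤ y τ ↔ ENNReal.ofReal ν ≤ YY M (c τ) := by
      intro τ hτ
      rw [YY_eq h M (hmem τ hτ), ENNReal.ofReal_le_ofReal_iff (hyn τ)]
    have hAne : A.Nonempty := ⟨t, ⟨hst, le_rfl⟩, (hiff t ⟨hst, le_rfl⟩).2 hcon⟩
    obtain ⟨t₁, ht₁, hleast⟩ := hAc.exists_isLeast hAne
    have h1 : ∀ τ ∈ Ioo s t₁, YY M (c τ) ≤ ENNReal.ofReal ν := by
      intro τ hτ
      by_contra hc
      rw [not_le] at hc
      have hτI : τ ∈ Icc s t := ⟨hτ.1.le, hτ.2.le.trans ht₁.1.2⟩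
      have : τ ∈ A := ⟨hτI, (hiff τ hτI).2 hc.le⟩
      exact absurd (hleast this) (not_le.2 hτ.2)
    have h2 := (cont_step h hν hs.1 ht₁.1.1 (ht₁.1.2.trans_lt ht) hT h0 h1).1
    exact absurd ((hiff t₁ ht₁.1).1 ht₁.2) (not_le.2 h2)
  have h2 : ∀ t, s ≤ t → t < T → ∫⁻ τ in Ioo s t, SS (c τ) ^ 2 ≤ ENNReal.ofReal ν := by
    intro t hst ht
    exact (cont_step h hν hs.1 hst ht hT h0 fun τ hτ => (key τ hτ.1.le (hτ.2.trans ht)).le).2
  have e : Ioo s T = ⋃ n : ℕ, Ioo s (T - (T - s) / (n + 1)) := by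
    ext τ
    simp only [mem_iUnion, mem_Ioo]
    constructor
    · rintro ⟨h3, h4⟩
      obtain ⟨n, hn⟩ := exists_nat_gt ((T - s) / (T - τ))
      refine ⟨n, h3, ?_⟩
      have h5 : 0 < T - τ := by linarith
      rw [div_lt_iff₀ h5] at hn
      have h6 : (T - s) / (n + 1) < T - τ := by
        rw [div_lt_iff₀ (by positivity)]
        linarith
      linarith
    · rintro ⟨n, h3, h4⟩
      refine ⟨h3, h4.trans ?_⟩
      have : 0 < (T - s) / ((n : ℝ) + 1) := div_pos (by linarith [hs.2]) (by positivity)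
      linarith
  rw [e, setLIntegral_iUnion_of_directed]
  · refine iSup_le fun n => ?_
    have hn : 0 < (T - s) / ((n : ℝ) + 1) := div_pos (by linarith [hs.2]) (by positivity)
    have hn2 : (T - s) / ((n : ℝ) + 1) ≤ T - s := div_le_self (by linarith [hs.2]) (by
      have : (0 : ℝ) ≤ n := Nat.cast_nonneg n
      linarith)
    exact h2 _ (by linarith) (by linarith)
  · refine Monotone.directed_le fun a b hab => Ioo_subset_Ioo_right ?_
    have h3 : (T - s) / ((b : ℝ) + 1) ≤ (T - s) / ((a : ℝ) + 1) := by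
      have : (a : ℝ) ≤ b := by exact_mod_cast hab
      have := hs.2
      gcongr
    linarith

end

end Pool.Agent.Helper24.ST
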