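import Pool.Agent.Helper24.ST.Life2
import Pool.Agent.H459R3.NS.Cor

set_option autoImplicit false

/-!
A lower bound for the time of existence: conclusion.
-/

open MeasureTheory Set Filter Topology
open scoped ContDiff ENNReal

namespace Pool.Agent.Helper24.ST

open H459R3.NS Pool.Agent.Q63.Win

/-- The shift in time. -/
theorem isSol_shift {ν T : ℝ} {u : ℝ → V → V} {p : ℝ → V → ℝ} (h : IsSol ν T u p) {s : ℝ}
    (hs : 0 ≤ s) : IsSol ν (T - s) (fun t => u (s + t)) (fun t => p (s + t)) where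
  smooth_u := by
    have hm : MapsTo (fun z : ℝ × V => (s + z.1, z.2)) (Ico 0 (T - s) ×ˢ univ)
        (Ico 0 T ×ˢ univ) := fun z hz => ⟨⟨by linarith [hz.1.1], by linarith [hz.1.2]⟩, trivial⟩
    exact h.smooth_u.comp ((contDiff_const.add contDiff_fst).prodMk contDiff_snd).contDiffOn hm
  smooth_p := by
    have hm : MapsTo (fun z : ℝ × V => (s + z.1, z.2)) (Ico 0 (T - s) ×ˢ univ)
        (Ico 0 T ×ˢ univ) := fun z hz => ⟨⟨by linarith [hz.1.1], by linarith [hz.1.2]⟩, trivial⟩
    exact h.smooth_p.comp ((contDiff_const.add contDiff_fst).prodMk contDiff_snd).contDiffOn hm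
  per_u := fun t ht => h.per_u (s + t) ⟨by linarith [ht.1], by linarith [ht.2]⟩
  per_p := fun t ht => h.per_p (s + t) ⟨by linarith [ht.1], by linarith [ht.2]⟩
  divfree := fun t ht => h.divfree (s + t) ⟨by linarith [ht.1], by linarith [ht.2]⟩
  momentum := fun t ht x i => by
    have h1 := h.momentum (s + t) ⟨by linarith [ht.1], by linarith [ht.2]⟩ x i
    have e : deriv (fun τ => u (s + τ) x i) t = deriv (fun τ => u τ x i) (s + t) :=
      deriv_comp_const_add (fun τ => u τ x i) s t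
    rw [e]
    exact h1

/-- **Regularity criterion.** -/
theorem bounded_of_YY {ν T : ℝ} {u : ℝ → V → V} {p : ℝ → V → ℝ} (h : IsSol ν T u p) (hν : 0 < ν)
    {M : ℕ} {s : ℝ} (hs : s ∈ Ioo 0 T) (hT : 36 * ν * (M : ℝ) ^ 2 * (T - s) ≤ 1)
    (h0 : YY M (cof (u s)) ≤ ENNReal.ofReal (ν / 2)) :
    ∃ C, ∀ t ∈ Ico s T, ∀ x i, |u t x i| ≤ C := by
  have hF := fsol_of_isSol h
  have hb := life_bound hF hν hs hT h0
  have hsol := isSol_shift h hs.1.le
  set Sr : ℝ → ℝ := fun τ => ∑' k, am (cof (u τ)) k with hSr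
  have hSrn : ∀ τ, 0 ≤ Sr τ := fun τ => tsum_nonneg fun k => am_nonneg _ _
  have hSe : ∀ τ ∈ Ioo 0 T, SS (cof (u τ)) = ENNReal.ofReal (Sr τ) := by
    intro τ hτ
    unfold SS
    rw [hSr, ENNReal.ofReal_tsum_of_nonneg (fun k => am_nonneg _ _)
      (rapR_am (hF.rapV hτ)).summable']
  set A : ℝ := amp (cof (u s)) 0 with hA
  have hA0 : 0 ≤ A := amp_nonneg _ _
  -- continuity
  have hSc : ContinuousOn Sr (Ioo 0 T) := by
    intro t ht
    obtain ⟨a, ha1, ha2⟩ := exists_between ht.1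
    obtain ⟨b, hb1, hb2⟩ := exists_between ht.2
    obtain ⟨K, hK0, hK⟩ := hF.unif 6 ha1 hb2
    have hsub : Icc a b ⊆ Ioo 0 T := fun t ht => ⟨ha1.trans_le ht.1, ht.2.trans_lt hb2⟩
    have : ContinuousOn Sr (Icc a b) := by
      refine continuousOn_tsum (u := fun q => K * ((1 + (N q : ℝ)) ^ 6)⁻¹)
        (fun q => (am_cont hF q).mono hsub) (summable_inv6.mul_left K) fun q t ht => ?_
      rw [Real.norm_eq_abs, abs_of_nonneg (am_nonneg _ _)]
      exact (am_le _ _).trans (hK t ht q)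
    exact (this.continuousAt (Icc_mem_nhds ha2 hb1)).continuousWithinAt
  have hint : IntegrableOn (fun τ => Sr τ ^ 2) (Ioo s T) := by
    refine ⟨((hSc.pow 2).mono (Ioo_subset_Ioo_left hs.1.le)).aestronglyMeasurable
      measurableSet_Ioo, ?_⟩
    rw [hasFiniteIntegral_iff_ofReal (ae_of_all _ fun τ => sq_nonneg _)]
    refine lt_of_le_of_lt (le_trans (le_of_eq ?_) hb) ENNReal.ofReal_lt_top
    refine setLIntegral_congr_fun measurableSet_Ioo fun τ hτ => ?_
    rw [hSe τ ⟨hs.1.trans hτ.1, hτ.2⟩, ENNReal.ofReal_pow (hSrn τ)]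
  -- the bound
  have hβi : IntegrableOn (fun τ => (A + Sr (s + τ)) ^ 2) (Ioo 0 (T - s)) := by
    have h1 : IntegrableOn (fun τ => Sr (s + τ) ^ 2) (Ioo 0 (T - s)) := by
      have := (integrableOn_image_iff_integrableOn_abs_deriv_smul (s := Ioo 0 (T - s))
        (f := fun τ => s + τ) (f' := fun _ => 1) (g := fun τ => Sr τ ^ 2) measurableSet_Ioo
        (fun x _ => ((hasDerivAt_id x).const_add s).hasDerivWithinAt)
        (add_right_injective s).injOn).1 ?_
      · simpa using this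
      · have e : (fun τ => s + τ) '' Ioo 0 (T - s) = Ioo s T := by
          rw [image_const_add_Ioo]
          simp
        rw [e]
        exact hint
    have h2 : IntegrableOn (fun _ : ℝ => 2 * A ^ 2) (Ioo 0 (T - s)) :=
      integrableOn_const (by rw [Real.volume_Ioo]; exact ENNReal.ofReal_ne_top)
    refine Integrable.mono' (h2.add (h1.const_mul 2)) ?_ (ae_of_all _ fun τ => ?_)
    · have hc : ContinuousOn (fun τ => (A + Sr (s + τ)) ^ 2) (Ioo 0 (T - s)) := by
        refine (continuousOn_const.add (hSc.comp (by fun_prop) ?_)).pow 2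
        intro τ hτ
        exact ⟨by linarith [hs.1, hτ.1], by linarith [hτ.2]⟩
      exact hc.aestronglyMeasurable measurableSet_Ioo
    · rw [Real.norm_eq_abs, abs_of_nonneg (sq_nonneg _)]
      show (A + Sr (s + τ)) ^ 2 ≤ 2 * A ^ 2 + 2 * Sr (s + τ) ^ 2
      nlinarith [sq_nonneg (A - Sr (s + τ))]
  have hβ : ∀ t ∈ Ioo 0 (T - s), ∀ i x,
      ‖S ((univ : Set K3).indicator (fr fun y => u (s + t) y i)) x‖ ≤ A + Sr (s + t) := by
    intro t ht i x
    have htT : s + t ∈ Ioo 0 T := ⟨by linarith [hs.1, ht.1], by linarith [ht.2]⟩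
    have hr := rap_fr (h.sp ⟨htT.1.le, htT.2⟩ i)
    rw [indicator_univ]
    refine (norm_S_le hr.summable x).trans ?_
    have h1 : ∀ k, ‖fr (fun y => u (s + t) y i) k‖
        ≤ (if k = 0 then A else 0) + am (cof (u (s + t))) k := by
      intro k
      have h2 : ‖fr (fun y => u (s + t) y i) k‖ ≤ amp (cof (u (s + t))) k :=
        norm_le_amp (cof (u (s + t))) k i
      by_cases hk : k = 0
      · subst hk
        rw [if_pos rfl, am_zero, add_zero]
        refine h2.trans ?_
        have h3 := amp_step hF hν 0 hs.1 (by linarith [ht.1] : s ≤ s + t) htT.2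
        rw [N_eq_zero.2 rfl] at h3
        simpa using h3
      · rw [if_neg hk, zero_add, am_ne _ hk]
        exact h2
    have s1 : Summable fun k : K3 => if k = 0 then A else 0 := (hasSum_ite_eq (0 : K3) A).summable
    have s2 : Summable (am (cof (u (s + t)))) := (rapR_am (hF.rapV htT)).summable'
    refine (hr.summable.norm.tsum_le_tsum h1 (s1.add s2)).trans ?_
    rw [s1.tsum_add s2, tsum_ite_eq]
  obtain ⟨C, hC⟩ := hsol.bounded hν (A := 0) (Q := fun _ => ∅) (R := fun _ => univ)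
    (fun _ _ => dimTwo_empty) (fun _ _ a b _ => Or.inl (Or.inr trivial))
    (β := fun t => A + Sr (s + t)) hβi hβ
  refine ⟨C, fun t ht x i => ?_⟩
  have := hC (t - s) ⟨by linarith [ht.1], by linarith [ht.2]⟩ x i
  simpa using this

end Pool.Agent.Helper24.ST
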