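import Pool.Agent.Helper24.ST.Coef

set_option autoImplicit false

/-!
The energy inequality for the high frequencies.
-/

open MeasureTheory Set Filter Topology
open scoped ContDiff ENNReal NNReal

namespace Pool.Agent.Helper24.ST

open H459R3.NS Pool.Agent.Q63.Win

/-- The map `(k, q) ↦ (k - q, q)`. -/
def shq : K3 × K3 ≃ K3 × K3 where
  toFun p := (p.1 - p.2, p.2)
  invFun p := (p.1 + p.2, p.2)
  left_inv p := by ext <;> simp
  right_inv p := by ext <;> simp

theorem flux_eq {v : V → V} (hv : ∀ i, SP (fun y => v y i)) (n : ℕ) :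
    flux (fun i y => v y i) n
      = ∑ k ∈ box (2 ^ n), ∑ i, (starRingEnd ℂ) (cof v k i) * NL (cof v) k i := by
  have hc : RapV (cof v) := by
    intro m
    choose M hM using fun i => N_pow_fr (hv i) m
    choose M' hM' using fun i => N_pow_fr (hv i) 0
    refine ⟨2 ^ m * (∑ i, |M' i| + ∑ i, |M i|), fun k i => ?_⟩
    have h1 := hM i k
    have h2 := hM' i k
    rw [pow_zero, one_mul] at h2
    have h3 : M i ≤ ∑ i, |M i| := (le_abs_self _).trans
      (Finset.single_le_sum (f := fun i => |M i|) (fun i _ => abs_nonneg _) (Finset.mem_univ i))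
    have h4 : M' i ≤ ∑ i, |M' i| := (le_abs_self _).trans
      (Finset.single_le_sum (f := fun i => |M' i|) (fun i _ => abs_nonneg _) (Finset.mem_univ i))
    calc (1 + (N k : ℝ)) ^ m * ‖cof v k i‖
        ≤ 2 ^ m * (1 + (N k : ℝ) ^ m) * ‖cof v k i‖ := by
          gcongr
          exact one_add_pow_le _ (Nat.cast_nonneg _) m
      _ = 2 ^ m * (‖fr (fun y => v y i) k‖ + (N k : ℝ) ^ m * ‖fr (fun y => v y i) k‖) := by
          unfold cof; ring
      _ ≤ 2 ^ m * (∑ i, |M' i| + ∑ i, |M i|) := by
          gcongr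
          · exact h2.trans h4
          · exact h1.trans h3
  have hs : ∀ i j, HasSum (fun p : K3 × K3 => fr (fun y => v y j) p.1
      * D j (fr (fun y => v y i)) p.2 * (Lo n).indicator (fr (fun y => v y i)) (-p.1 - p.2))
      (Tri (fr (fun y => v y j)) (D j (fr (fun y => v y i)))
        ((Lo n).indicator (fr (fun y => v y i)))) := fun i j =>
    (summable_tri (rap_fr (hv j)).summable ((rap_fr (hv i)).D j).summable
      ((rap_fr (hv i)).ind _).summable).hasSum
  have h1 := hasSum_sum fun i (_ : i ∈ Finset.univ) =>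
    hasSum_sum fun j (_ : j ∈ Finset.univ) => hs i j
  have h2 : HasSum (fun p : K3 × K3 => if N p.1 ≤ 2 ^ n then tg (cof v) p.1 p.2 else 0)
      (flux (fun i y => v y i) n) := by
    have h3 := (shq.hasSum_iff).2 h1
    refine h3.congr_fun fun p => ?_
    simp only [Function.comp, shq, Equiv.coe_fn_mk]
    have e0 : -(p.1 - p.2) - p.2 = -p.1 := by abel
    rw [e0]
    by_cases hN : N p.1 ≤ 2 ^ n
    · rw [if_pos hN]
      have hm : -p.1 ∈ Lo n := by
        show N (-p.1) ≤ 2 ^ n
        rw [N_neg]; exact hN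
      simp_rw [indicator_of_mem hm]
      unfold tg
      rw [Finset.mul_sum]
      refine Finset.sum_congr rfl fun i _ => ?_
      rw [Finset.mul_sum, Finset.sum_mul]
      refine Finset.sum_congr rfl fun j _ => ?_
      rw [D, fr_neg (hv i).cont]
      unfold cof
      ring
    · rw [if_neg hN]
      have hm : -p.1 ∉ Lo n := by
        show ¬ N (-p.1) ≤ 2 ^ n
        rw [N_neg]; exact hN
      simp_rw [indicator_of_notMem hm, mul_zero]
      simp
  have h4 := h2.prod_fiberwise (fun k => by
    show HasSum (fun q => if N k ≤ 2 ^ n then tg (cof v) k q else 0)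
      (if N k ≤ 2 ^ n then ∑ i, (starRingEnd ℂ) (cof v k i) * NL (cof v) k i else 0)
    by_cases hN : N k ≤ 2 ^ n
    · simp_rw [if_pos hN]
      exact hasSum_tg hc k
    · simp_rw [if_neg hN]
      exact hasSum_zero)
  rw [← h4.tsum_eq, tsum_eq_sum (s := box (2 ^ n)) (fun k hk => by
    rw [mem_box] at hk
    rw [if_neg hk])]
  refine Finset.sum_congr rfl fun k hk => ?_
  rw [mem_box] at hk
  rw [if_pos hk]

theorem we_succ (n : ℕ) (k : K3) : we (n + 1) k = if k ∈ box (2 ^ n) then 0 else 1 := by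
  unfold we
  have : 2 ^ (n + 1) < 2 * N k ↔ ¬ k ∈ box (2 ^ n) := by
    rw [mem_box, pow_succ]
    omega
  by_cases h : k ∈ box (2 ^ n)
  · rw [if_neg (fun h' => this.1 h' h), if_pos h]
  · rw [if_pos (this.2 h), if_neg h]

theorem wz_succ (n : ℕ) (k : K3) : wz (n + 1) k = if k ∈ box (2 ^ n) then 0 else (N k : ℝ) ^ 2 := by
  unfold wz
  have : 2 ^ (n + 1) < 2 * N k ↔ ¬ k ∈ box (2 ^ n) := by
    rw [mem_box, pow_succ]
    omega
  by_cases h : k ∈ box (2 ^ n)
  · rw [if_neg (fun h' => this.1 h' h), if_pos h]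
  · rw [if_pos (this.2 h), if_neg h]

theorem tsum_split {f : K3 → ℝ} (hf : Summable f) (F : Finset K3) :
    ∑' k, f k = ∑ k ∈ F, f k + ∑' k, (if k ∈ F then 0 else f k) := by
  have h1 : ∀ k, f k = (if k ∈ F then f k else 0) + (if k ∈ F then 0 else f k) := fun k => by
    split_ifs <;> simp
  have s1 : Summable fun k => if k ∈ F then f k else 0 :=
    summable_of_ne_finset_zero (s := F) fun k hk => if_neg hk
  have s2 : Summable fun k => if k ∈ F then 0 else f k := by
    have := hf.sub s1
    refine this.congr fun k => ?_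
    split_ifs <;> simp
  calc ∑' k, f k = ∑' k, ((if k ∈ F then f k else 0) + (if k ∈ F then 0 else f k)) :=
        tsum_congr h1
    _ = (∑' k, if k ∈ F then f k else 0) + ∑' k, (if k ∈ F then 0 else f k) := s1.tsum_add s2
    _ = _ := by
        congr 1
        rw [tsum_eq_sum (s := F) fun k hk => if_neg hk]
        exact Finset.sum_congr rfl fun k hk => if_pos hk

theorem energy_split {v : V → V} (hv : ∀ i, SP (fun y => v y i)) (n : ℕ) :
    energy v = ∑ k ∈ box (2 ^ n), amp (cof v) k ^ 2 + EW (n + 1) (cof v) := by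
  have h := hasSum_amp hv
  rw [← h.tsum_eq, tsum_split h.summable (box (2 ^ n))]
  congr 1
  unfold EW XX
  refine tsum_congr fun k => ?_
  rw [we_succ]
  split_ifs <;> simp

theorem enst_split {ν : ℝ} (hν : 0 ≤ ν) {v : V → V} (hv : ∀ i, SP (fun y => v y i)) (n : ℕ) :
    ∑ k ∈ box (2 ^ n), msym ν k * amp (cof v) k ^ 2 + 36 * ν * ZW (n + 1) (cof v)
      ≤ ν * enstrophy v := by
  have h := hasSum_msym ν hv
  rw [← h.tsum_eq, tsum_split h.summable (box (2 ^ n))]
  refine add_le_add le_rfl ?_
  have s2 : Summable fun k => if k ∈ box (2 ^ n) then 0 else msym ν k * amp (cof v) k ^ 2 := by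
    refine Summable.of_nonneg_of_le (fun k => ?_) (fun k => ?_) h.summable
    · have := (msym_ge hν k)
      have h3 : 0 ≤ 36 * ν * (N k : ℝ) ^ 2 := by positivity
      split_ifs
      · exact le_rfl
      · exact mul_nonneg (h3.trans this) (sq_nonneg _)
    · have := (msym_ge hν k)
      have h3 : 0 ≤ 36 * ν * (N k : ℝ) ^ 2 := by positivity
      split_ifs
      · exact mul_nonneg (h3.trans this) (sq_nonneg _)
      · exact le_rfl
  unfold ZW XX
  rw [← tsum_mul_left]
  have key : ∀ k, 36 * ν * (wz (n + 1) k * amp (cof v) k ^ 2)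
      ≤ if k ∈ box (2 ^ n) then 0 else msym ν k * amp (cof v) k ^ 2 := by
    intro k
    rw [wz_succ]
    split_ifs
    · simp
    · rw [← mul_assoc]
      exact mul_le_mul_of_nonneg_right (msym_ge hν k) (sq_nonneg _)
  refine Summable.tsum_le_tsum key ?_ s2
  refine Summable.of_nonneg_of_le (fun k => ?_) key s2
  have := wz_nonneg (n + 1) k
  positivity

theorem energy_split0 {v : V → V} (hv : ∀ i, SP (fun y => v y i)) :
    energy v = amp (cof v) 0 ^ 2 + EW 0 (cof v) := by
  have h := hasSum_amp hv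
  rw [← h.tsum_eq, tsum_split h.summable {0}, Finset.sum_singleton]
  congr 1
  unfold EW XX
  refine tsum_congr fun k => ?_
  unfold we
  by_cases hk : k = 0
  · subst hk
    rw [N_eq_zero.2 rfl]
    simp
  · have h1 : N k ≠ 0 := fun h => hk (N_eq_zero.1 h)
    have h2 : 2 ^ 0 < 2 * N k := by
      rw [pow_zero]; omega
    rw [if_neg (by simpa using hk), if_pos h2, one_mul]

end Pool.Agent.Helper24.ST
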