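import Pool.Agent.Helper24.ST.Sing
import Pool.Agent.Helper24.ST.Cover

set_option autoImplicit false

/-!
The measures of the covering argument.
-/

open MeasureTheory Set Filter Topology
open scoped ContDiff ENNReal NNReal

namespace Pool.Agent.Helper24.ST

open H459R3.NS Pool.Agent.Q63.Win

/-- The measure with density `f` on `G`. -/
noncomputable def dm (G : Set ℝ) (f : ℝ → ℝ) : Measure ℝ :=
  (volume.restrict G).withDensity fun t => ENNReal.ofReal (f t)

theorem dm_finite {G : Set ℝ} {f : ℝ → ℝ} (hf : IntegrableOn f G) : IsFiniteMeasure (dm G f) :=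
  isFiniteMeasure_withDensity_ofReal hf.2

theorem dm_real {G : Set ℝ} {f : ℝ → ℝ} (hf : IntegrableOn f G) (h0 : ∀ t, 0 ≤ f t) {S : Set ℝ}
    (hS : MeasurableSet S) : (dm G f).real S = ∫ t in G ∩ S, f t := by
  unfold dm
  rw [measureReal_def, withDensity_apply _ hS, Measure.restrict_restrict hS, inter_comm,
    integral_eq_lintegral_of_nonneg_ae (Eventually.of_forall h0)
      (hf.mono_set inter_subset_left).aestronglyMeasurable]

section

variable {ν T E : ℝ} {G : Set ℝ} {Y Z e : ℕ → ℝ → ℝ}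

theorem Cas.QQl_le (h : Cas ν T E G Y Z e) {l : ℕ → ℝ} {K n : ℕ} (t : ℝ) :
    QQl (fun j => dm G (Y j)) l K n t
      ≤ 7 * ((∫ τ in G ∩ Metric.ball t (2 * l n), Z (n + 1) τ)
        + ∫ τ in G ∩ Metric.ball t (2 * l n), Y n τ) := by
  have hm : MeasurableSet (G ∩ Metric.ball t (2 * l n)) :=
    h.openG.measurableSet.inter Metric.isOpen_ball.measurableSet
  unfold QQl
  have e1 : ∀ j, (dm G (Y j)).real (Metric.ball t (2 * l n))
      = ∫ τ in G ∩ Metric.ball t (2 * l n), Y j τ := fun j =>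
    dm_real (h.intY j) (h.Y0 j) Metric.isOpen_ball.measurableSet
  simp_rw [e1]
  have iY : ∀ j, IntegrableOn (Y j) (G ∩ Metric.ball t (2 * l n)) := fun j =>
    (h.intY j).mono_set inter_subset_left
  have iZ : IntegrableOn (Z (n + 1)) (G ∩ Metric.ball t (2 * l n)) :=
    (h.intZ (n + 1)).mono_set inter_subset_left
  rw [← integral_finsetSum _ fun j _ => iY j, ← integral_add iZ (iY n), ← integral_const_mul]
  refine setIntegral_mono_on (integrable_finsetSum _ fun j _ => iY j)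
    ((iZ.add (iY n)).const_mul 7) hm fun τ hτ => ?_
  refine le_trans ?_ (h.i4 n K τ hτ.1)
  refine Finset.sum_le_sum_of_subset_of_nonneg (fun j hj => ?_) fun j _ _ => h.Y0 j τ
  rw [Finset.mem_Icc] at hj ⊢
  exact ⟨by omega, hj.2⟩

theorem Cas.PP_le (h : Cas ν T E G Y Z e) {l : ℕ → ℝ} {K n : ℕ} (X : Set ℝ) :
    PP (fun j => dm G (Y j)) l K n X ≤ 7 * ((∫ τ in G, Z (n + 1) τ) + ∫ τ in G, Y n τ) := by
  unfold PP
  have : ∀ j, IsFiniteMeasure (dm G (Y j)) := fun j => dm_finite (h.intY j)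
  have e1 : ∀ j ∈ Finset.Icc n K, (dm G (Y j)).real (Metric.thickening (3 * l j) X)
      ≤ ∫ τ in G, Y j τ := fun j _ => by
    have h1 := dm_real (h.intY j) (h.Y0 j) (MeasurableSet.univ)
    rw [inter_univ] at h1
    rw [← h1]
    exact measureReal_mono (subset_univ _)
  refine (Finset.sum_le_sum e1).trans ?_
  rw [← integral_finsetSum _ fun j _ => h.intY j, ← integral_add (h.intZ (n + 1)) (h.intY n),
    ← integral_const_mul]
  exact setIntegral_mono_on (integrable_finsetSum _ fun j _ => h.intY j)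
    (((h.intZ (n + 1)).add (h.intY n)).const_mul 7) h.openG.measurableSet
    fun τ hτ => h.i4 n K τ hτ

theorem CF_pos : (1000 : ℝ) < CF := by unfold CF CA; norm_num

/-- The main hypothesis of the covering theorem. -/
theorem Cas.hypH (h : Cas ν T E G Y Z e) (hν : 0 < ν) {l : ℕ → ℝ} {K n : ℕ} {lam : ℝ}
    (hlam : 0 < lam) (hlam1 : lam ≤ 1) (hl : l n = lam * (1 / 4) ^ n / ν) {t : ℝ} (ht : 3 * l n ≤ t)
    (htT : t < T) {p : ℝ} (hp0 : 0 ≤ p) (hp : p ≤ QQl (fun j => dm G (Y j)) l K n t)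
    (hpt : p < ν * (1 / 2) ^ n / lam ^ 2) :
    lam / CF * p ≤ (dm G (Y n)).real (Metric.ball t (3 * l n)) := by
  have hl0 : 0 < l n := by rw [hl]; positivity
  have hCF := CF_pos
  have hq := hp.trans (h.QQl_le (K := K) (n := n) (l := l) t)
  have hw := h.win hν.le hl0 ht htT n
  have eD : (dm G (Y n)).real (Metric.ball t (3 * l n)) = Dw G Y (t - 3 * l n) (t + 3 * l n) n := by
    rw [dm_real (h.intY n) (h.Y0 n) Metric.isOpen_ball.measurableSet, Real.ball_eq_Ioo]
    rfl
  rw [eD]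
  set D := Dw G Y (t - 3 * l n) (t + 3 * l n) n with hD
  have hD0 : 0 ≤ D := h.Dw_nonneg _ _ n
  rw [Real.ball_eq_Ioo] at hq
  have hY2 : ∫ τ in G ∩ Ioo (t - 2 * l n) (t + 2 * l n), Y n τ ≤ D := by
    rw [hD]
    unfold Dw
    refine setIntegral_mono_set ((h.intY n).mono_set inter_subset_left)
      (Eventually.of_forall fun τ => h.Y0 n τ) (LE.le.eventuallyLE ?_)
    exact inter_subset_inter_right _ (Ioo_subset_Ioo (by linarith) (by linarith))
  set z := ∫ τ in G ∩ Ioo (t - 2 * l n) (t + 2 * l n), Z (n + 1) τ with hz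
  have e1 : (1 / 4 : ℝ) ^ n * (D / l n) = ν * (D / lam) := by
    rw [hl]
    field_simp
  rw [e1] at hw
  by_contra hc
  rw [not_le] at hc
  have hp1 : 0 < p := by
    by_contra hp2
    have : p = 0 := le_antisymm (not_lt.1 hp2) hp0
    rw [this, mul_zero] at hc
    linarith
  -- the bounds
  have b1 : D / lam < p / CF := by
    rw [div_lt_iff₀ hlam]
    calc D < lam / CF * p := hc
      _ = p / CF * lam := by ring
  have b2 : D < p / CF := by
    calc D < lam / CF * p := hc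
      _ ≤ 1 / CF * p := by gcongr
      _ = p / CF := by ring
  have b3 : 2 ^ n * D ^ 2 ≤ ν * (p / CF ^ 2) := by
    have h2n : (0 : ℝ) < 2 ^ n := by positivity
    have c1 : D ^ 2 ≤ (lam / CF * p) ^ 2 := pow_le_pow_left₀ hD0 hc.le 2
    have c2 : lam ^ 2 * p ≤ ν * (1 / 2) ^ n := by
      rw [lt_div_iff₀ (by positivity)] at hpt
      linarith
    have c3 : (2 : ℝ) ^ n * (1 / 2) ^ n = 1 := by
      rw [← mul_pow]; norm_num
    calc 2 ^ n * D ^ 2 ≤ 2 ^ n * (lam / CF * p) ^ 2 := by gcongr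
      _ = 2 ^ n * (lam ^ 2 * p) * (p / CF ^ 2) := by ring
      _ ≤ 2 ^ n * (ν * (1 / 2) ^ n) * (p / CF ^ 2) := by gcongr
      _ = ν * (p / CF ^ 2) * (2 ^ n * (1 / 2) ^ n) := by ring
      _ = _ := by rw [c3, mul_one]
  have b4 : 72 * z ≤ p + p / CF := by
    have d1 : 72 * ν * z ≤ CF * (ν * (p / CF) + ν * (p / CF ^ 2)) := by
      refine hw.trans ?_
      gcongr
    have d2 : CF * (ν * (p / CF) + ν * (p / CF ^ 2)) = ν * (p + p / CF) := by
      field_simp
    rw [d2] at d1
    have d3 : ν * (72 * z) ≤ ν * (p + p / CF) := by linarith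
    exact le_of_mul_le_mul_left d3 hν
  have b5 : p / CF ≤ p / 1000 := by gcongr
  linarith

end

end Pool.Agent.Helper24.ST
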