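import Pool.Agent.Helper24.ST.Meas

set_option autoImplicit false

/-!
The quantitative covering of the singular times.
-/

open MeasureTheory Set Filter Topology
open scoped ContDiff ENNReal NNReal

namespace Pool.Agent.Helper24.ST

open H459R3.NS Pool.Agent.Q63.Win

/-- The denominators. -/
noncomputable def Den (K n : ℕ) : ℝ := 36 + ((K - n : ℕ) : ℝ) / (20 * CF)

/-- The parameters. -/
noncomputable def lamf (K n : ℕ) : ℝ := 1 / Den K n

/-- The lengths. -/
noncomputable def ell (ν : ℝ) (K n : ℕ) : ℝ := lamf K n * (1 / 4) ^ n / ν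

theorem Den_ge (K n : ℕ) : 36 ≤ Den K n := by
  unfold Den
  have := CF_pos
  have : 0 ≤ ((K - n : ℕ) : ℝ) / (20 * CF) := by positivity
  linarith

theorem lamf_pos (K n : ℕ) : 0 < lamf K n := by
  unfold lamf
  have := Den_ge K n
  positivity

theorem lamf_le (K n : ℕ) : lamf K n ≤ 1 / 36 := by
  unfold lamf
  exact one_div_le_one_div_of_le (by norm_num) (Den_ge K n)

theorem ell_pos {ν : ℝ} (hν : 0 < ν) (K n : ℕ) : 0 < ell ν K n := by
  unfold ell
  have := lamf_pos K n
  positivity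

theorem lamf_succ (K n : ℕ) : 3 * lamf K (n + 1) ≤ 4 * lamf K n := by
  unfold lamf
  have h1 := Den_ge K n
  have h2 := Den_ge K (n + 1)
  have hCF := CF_pos
  rw [mul_one_div, mul_one_div, div_le_div_iff₀ (by linarith) (by linarith)]
  have h3 : Den K n ≤ Den K (n + 1) + 1 := by
    unfold Den
    have h4 : ((K - n : ℕ) : ℝ) ≤ ((K - (n + 1) : ℕ) : ℝ) + 1 := by
      have : K - n ≤ K - (n + 1) + 1 := by omega
      exact_mod_cast this
    have h5 : ((K - n : ℕ) : ℝ) / (20 * CF) ≤ (((K - (n + 1) : ℕ) : ℝ) + 1) / (20 * CF) := by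
      gcongr
    have h6 : (1 : ℝ) / (20 * CF) ≤ 1 := by
      rw [div_le_one (by positivity)]
      linarith
    rw [add_div] at h5
    linarith
  linarith

theorem ell_succ {ν : ℝ} (hν : 0 < ν) (K n : ℕ) : 3 * ell ν K (n + 1) ≤ ell ν K n := by
  unfold ell
  have h1 := lamf_succ K n
  rw [← mul_div_assoc]
  refine div_le_div_of_nonneg_right ?_ hν.le
  rw [pow_succ]
  have : (0 : ℝ) < (1 / 4) ^ n := by positivity
  nlinarith

theorem ell_anti {ν : ℝ} (hν : 0 < ν) (K : ℕ) : Antitone (ell ν K) :=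
  antitone_nat_of_succ_le fun n => by
    have h1 := ell_succ hν K n
    have h2 := ell_pos hν K (n + 1)
    linarith

theorem ell_three {ν : ℝ} (hν : 0 < ν) {K n j : ℕ} (h : n < j) : 3 * ell ν K j ≤ ell ν K n := by
  obtain ⟨i, rfl⟩ := Nat.exists_eq_add_of_lt h
  have h1 := ell_succ hν K (n + i)
  have h2 := ell_anti hν K (show n ≤ n + i by omega)
  linarith

/-- The constant of the covering. -/
noncomputable def C2 : ℝ := 140000000000

theorem a_step (K n : ℕ) (hn : n < K) :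
    lamf K (n + 1) ^ (5 / 2 : ℝ) * (1 - lamf K n / CF / 8) ≤ lamf K n ^ (5 / 2 : ℝ) := by
  have hCF := CF_pos
  have hD := Den_ge K n
  have hD' := Den_ge K (n + 1)
  have hl := lamf_pos K n
  have hl' := lamf_pos K (n + 1)
  set x : ℝ := lamf K n / (20 * CF) with hx
  have hx0 : 0 ≤ x := by positivity
  have hDD : Den K (n + 1) = Den K n * (1 - x) := by
    rw [hx]
    unfold lamf
    have h1 : Den K n * (1 - 1 / Den K n / (20 * CF)) = Den K n - 1 / (20 * CF) := by
      field_simp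
    rw [h1]
    unfold Den
    have h2 : ((K - n : ℕ) : ℝ) = ((K - (n + 1) : ℕ) : ℝ) + 1 := by
      have : K - n = K - (n + 1) + 1 := by omega
      exact_mod_cast this
    rw [h2, add_div]
    ring
  have h1x : 0 < 1 - x := by
    by_contra hc
    rw [not_lt] at hc
    nlinarith
  have hlam : lamf K (n + 1) = lamf K n / (1 - x) := by
    unfold lamf
    rw [hDD]
    field_simp
  have hb := one_add_mul_self_le_rpow_one_add (s := -x) (by linarith) (p := 5 / 2) (by norm_num)
  have hb2 : 1 - lamf K n / CF / 8 = 1 + 5 / 2 * -x := by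
    rw [hx]
    field_simp
    ring
  rw [hb2, hlam, Real.div_rpow hl.le h1x.le]
  have hp : 0 < (1 - x) ^ (5 / 2 : ℝ) := Real.rpow_pos_of_pos h1x _
  calc lamf K n ^ (5 / 2 : ℝ) / (1 - x) ^ (5 / 2 : ℝ) * (1 + 5 / 2 * -x)
      ≤ lamf K n ^ (5 / 2 : ℝ) / (1 - x) ^ (5 / 2 : ℝ) * (1 - x) ^ (5 / 2 : ℝ) := by
        have : (1 - x) = 1 + -x := by ring
        rw [this]
        gcongr
    _ = _ := by field_simp

theorem rpow_five_half {x : ℝ} (hx : 0 < x) : x ^ (5 / 2 : ℝ) = x ^ 2 * Real.sqrt x := by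
  rw [Real.sqrt_eq_rpow, ← Real.rpow_natCast x 2, ← Real.rpow_add hx]
  norm_num

theorem sqrt_ell {ν : ℝ} (hν : 0 < ν) (K n : ℕ) :
    Real.sqrt (ν * ell ν K n) = Real.sqrt (lamf K n) * (1 / 2) ^ n := by
  have e1 : ν * ell ν K n = lamf K n * ((1 / 2) ^ n) ^ 2 := by
    unfold ell
    rw [← pow_mul, mul_comm n 2, pow_mul]
    have : ((1 : ℝ) / 2) ^ 2 = 1 / 4 := by norm_num
    rw [this]
    field_simp
  rw [e1, Real.sqrt_mul (lamf_pos K n).le, Real.sqrt_sq (by positivity)]

section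

variable {ν T E : ℝ} {G : Set ℝ} {u : ℝ → V → V} {p : ℝ → V → ℝ}

/-- The lower bound for the measure of a ball around a singular time. -/
theorem IsLeray.ball_lower (h : IsLeray ν T E G u p) (hν : 0 < ν) {t l : ℝ}
    (ht : t ∈ Ioo 0 T \ G) (hl : l ≤ t) (hl0 : 0 < l) (n : ℕ) (hn : 36 * ν * 4 ^ n * l ≤ 1) :
    1 / 400000 * ν ^ 2 * 2 ^ n * l
      ≤ (dm G (fun τ => YW n (cof (u τ)))).real (Metric.ball t (3 * l)) := by
  have h1 := h.lower_int hν ht.1 ht.2 hl hl0.le n hn
  rw [dm_real (h.int_YW hν.le n) (fun t => YW_nonneg _ _) Metric.isOpen_ball.measurableSet,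
    Real.ball_eq_Ioo]
  refine h1.trans (setIntegral_mono_set ((h.int_YW hν.le n).mono_set inter_subset_left)
    (Eventually.of_forall fun τ => YW_nonneg _ _) (LE.le.eventuallyLE ?_))
  exact inter_subset_inter_right _ (Ioo_subset_Ioo (by linarith) (by linarith))

/-- The bound of the total potential. -/
noncomputable def Ptot (G : Set ℝ) (u : ℝ → V → V) (n : ℕ) : ℝ :=
  7 * ((∫ τ in G, ZW (n + 1) (cof (u τ))) + ∫ τ in G, YW n (cof (u τ)))

/-- **The quantitative covering.** -/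
theorem IsLeray.cover (h : IsLeray ν T E G u p) (hν : 0 < ν) {k0 K : ℕ} (hk : k0 ≤ K) {X : Set ℝ}
    (hX : X ⊆ Ioo 0 T \ G) (hX2 : ∀ t ∈ X, 3 * ell ν K k0 ≤ t) :
    ∃ F : Finset (ℝ × ℕ), (∀ q ∈ F, q.1 ∈ X ∧ k0 ≤ q.2 ∧ q.2 ≤ K) ∧
      (X ⊆ ⋃ q ∈ F, Icc (q.1 - 3 * ell ν K q.2) (q.1 + 3 * ell ν K q.2)) ∧
      ∑ q ∈ F, Real.sqrt (ν * ell ν K q.2) ≤ C2 / ν * lamf K k0 ^ (5 / 2 : ℝ) * Ptot G u k0 := by
  have hcas := h.cas hν.le
  have hfin : ∀ j, IsFiniteMeasure (dm G (fun τ => YW j (cof (u τ)))) := fun j =>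
    dm_finite (h.int_YW hν.le j)
  have hCF := CF_pos
  have hlp := lamf_pos K
  have hlle := lamf_le K
  obtain ⟨F, hF1, hF2, hF3⟩ := cover_main (y := fun j => dm G (fun τ => YW j (cof (u τ))))
    (l := ell ν K) (K := K) (k0 := k0) (A := 0) (B := T) (X0 := X)
    (fun t ht => ⟨(hX ht).1.1.le, (hX ht).1.2.le⟩)
    (c := fun n => lamf K n / CF) (θ := fun n => ν * (1 / 2) ^ n / lamf K n ^ 2)
    (a := fun n => C2 / ν * lamf K n ^ (5 / 2 : ℝ)) (w := fun n => Real.sqrt (ν * ell ν K n))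
    (β := 1 / 400000 * ν ^ 2 * 2 ^ K * ell ν K K)
    (ell_pos hν K) (fun n j _ hj _ => ell_three hν hj)
    (fun n => by have := hlp n; positivity)
    (fun n => by
      rw [div_le_one (by linarith)]
      linarith [hlle n])
    (fun n hn hnK t ht p hp0 hp hpt => hcas.hypH hν (hlp n) ((hlle n).trans (by norm_num)) rfl
      ((mul_le_mul_of_nonneg_left (ell_anti hν K hn) (by norm_num)).trans (hX2 t ht))
      (hX ht).1.2 hp0 hp hpt)
    (fun t ht => by
      have h1 := ell_pos hν K K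
      have h2 := ell_anti hν K hk
      have h3 := hX2 t ht
      refine h.ball_lower hν (hX ht) (by linarith) h1 K ?_
      unfold ell
      have h4 : 36 * ν * 4 ^ K * (lamf K K * (1 / 4) ^ K / ν) = 36 * lamf K K := by
        have h5 : (4 : ℝ) ^ K * (1 / 4) ^ K = 1 := by
          rw [← mul_pow]; norm_num
        calc 36 * ν * 4 ^ K * (lamf K K * (1 / 4) ^ K / ν)
            = 36 * lamf K K * (4 ^ K * (1 / 4) ^ K) := by field_simp
          _ = _ := by rw [h5, mul_one]
      rw [h4]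
      linarith [hlle K])
    (fun n => by
      have := hlp n
      unfold C2
      positivity)
    (fun n _ hnK => by
      have h1 := a_step K n hnK
      have h2 : 0 ≤ C2 / ν := by unfold C2; positivity
      calc C2 / ν * lamf K (n + 1) ^ (5 / 2 : ℝ) * (1 - lamf K n / CF / 8)
          = C2 / ν * (lamf K (n + 1) ^ (5 / 2 : ℝ) * (1 - lamf K n / CF / 8)) := by ring
        _ ≤ _ := by gcongr)
    (fun n _ _ => by
      have h1 := hlp n
      rw [sqrt_ell hν, rpow_five_half h1]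
      have h2 : 0 < Real.sqrt (lamf K n) := Real.sqrt_pos.2 h1
      have e1 : C2 / ν * (lamf K n ^ 2 * Real.sqrt (lamf K n)) * (ν * (1 / 2) ^ n / lamf K n ^ 2)
          = C2 * (Real.sqrt (lamf K n) * (1 / 2) ^ n) := by
        field_simp
      rw [e1]
      unfold C2
      have h3 : 0 < Real.sqrt (lamf K n) * (1 / 2) ^ n := by positivity
      nlinarith)
    (by
      have h1 := hlp K
      have hK : lamf K K = 1 / 36 := by
        unfold lamf Den
        rw [Nat.sub_self]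
        norm_num
      rw [sqrt_ell hν, rpow_five_half h1]
      have h2 : 0 < Real.sqrt (lamf K K) := Real.sqrt_pos.2 h1
      have h5 : (2 : ℝ) ^ K * (1 / 4) ^ K = (1 / 2) ^ K := by
        rw [← mul_pow]; norm_num
      have e1 : C2 / ν * (lamf K K ^ 2 * Real.sqrt (lamf K K))
          * (1 / 400000 * ν ^ 2 * 2 ^ K * ell ν K K)
          = C2 / 400000 * lamf K K ^ 3 * (Real.sqrt (lamf K K) * (1 / 2) ^ K) := by
        unfold ell
        rw [← h5]
        field_simp
      rw [e1]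
      have h3 : 0 < Real.sqrt (lamf K K) * (1 / 2) ^ K := by positivity
      have h6 : (7 : ℝ) ≤ C2 / 400000 * lamf K K ^ 3 := by
        rw [hK]
        unfold C2
        norm_num
      gcongr)
    (K - k0) k0 le_rfl (by omega) X (subset_refl X)
  refine ⟨F, fun q hq => ⟨(hF1 q hq).1, (hF1 q hq).2.1, (hF1 q hq).2.2.1⟩, hF2, hF3.trans ?_⟩
  have h1 : 0 ≤ C2 / ν * lamf K k0 ^ (5 / 2 : ℝ) := by
    have := hlp k0
    unfold C2
    positivity
  exact mul_le_mul_of_nonneg_left (hcas.PP_le X) h1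

end

end Pool.Agent.Helper24.ST
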