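import Mathlib

set_option autoImplicit false

/-!
A recursively defined sequence of parameters.
-/

open Set Filter Topology

namespace Pool.Agent.Helper24.ST

open Classical in
/-- The sums of the parameters. -/
noncomputable def Sr (γ : ℕ → ℝ) (P : ℕ → Prop) (a : ℝ) : ℕ → ℝ
  | 0 => 0
  | i + 1 => Sr γ P a i + if P i then min (1 / 36) (1 / 36 * γ i * Real.exp (a * Sr γ P a i)) else 0

/-- The parameters. -/
noncomputable def lm (γ : ℕ → ℝ) (P : ℕ → Prop) (a : ℝ) (i : ℕ) : ℝ :=
  min (1 / 36) (1 / 36 * γ i * Real.exp (a * Sr γ P a i))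

section

variable {γ : ℕ → ℝ} {P : ℕ → Prop} {a : ℝ}

theorem Sr_succ_pos {i : ℕ} (h : P i) : Sr γ P a (i + 1) = Sr γ P a i + lm γ P a i := by
  rw [Sr, if_pos h]
  rfl

theorem Sr_succ_neg {i : ℕ} (h : ¬ P i) : Sr γ P a (i + 1) = Sr γ P a i := by
  rw [Sr, if_neg h, add_zero]

theorem lm_pos (hγ : ∀ i, 0 < γ i) (i : ℕ) : 0 < lm γ P a i := by
  unfold lm
  have := hγ i
  have := Real.exp_pos (a * Sr γ P a i)
  positivity

theorem lm_le (i : ℕ) : lm γ P a i ≤ 1 / 36 := min_le_left _ _

theorem lm_le' (i : ℕ) : lm γ P a i ≤ 1 / 36 * γ i * Real.exp (a * Sr γ P a i) := min_le_right _ _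

theorem Sr_nonneg (hγ : ∀ i, 0 < γ i) (i : ℕ) : 0 ≤ Sr γ P a i := by
  induction i with
  | zero => exact le_rfl
  | succ i ih =>
    by_cases h : P i
    · rw [Sr_succ_pos h]
      have := lm_pos (P := P) (a := a) hγ i
      linarith
    · rw [Sr_succ_neg h]
      exact ih

theorem Sr_succ_le (hγ : ∀ i, 0 < γ i) (i : ℕ) : Sr γ P a (i + 1) ≤ Sr γ P a i + 1 / 36 := by
  by_cases h : P i
  · rw [Sr_succ_pos h]
    linarith [lm_le (γ := γ) (P := P) (a := a) i]
  · rw [Sr_succ_neg h]
    linarith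

theorem lm_ge (hγ : ∀ i, 0 < γ i) (ha : 0 ≤ a) {i : ℕ} {x : ℝ} (hx : x ≤ γ i) (hx1 : x ≤ 1) :
    1 / 36 * x ≤ lm γ P a i := by
  unfold lm
  refine le_min (by linarith) ?_
  have h1 : 1 ≤ Real.exp (a * Sr γ P a i) := by
    have := Sr_nonneg (P := P) (a := a) hγ i
    exact Real.one_le_exp (by positivity)
  have h2 := hγ i
  calc 1 / 36 * x ≤ 1 / 36 * γ i * 1 := by linarith
    _ ≤ _ := by gcongr

theorem exp_small {x : ℝ} (hx : x ≤ 1 / 36) : Real.exp x ≤ 4 / 3 := by
  have h1 : Real.exp x ≤ Real.exp (1 / 36) := Real.exp_le_exp.2 hx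
  have h2 : Real.exp (1 / 36) * Real.exp (-(1 / 36)) = 1 := by
    rw [← Real.exp_add]; simp
  have h3 := Real.add_one_le_exp (-(1 / 36) : ℝ)
  have h4 := Real.exp_pos (1 / 36)
  nlinarith

theorem lm_succ (hγ : ∀ i, 0 < γ i) (hanti : ∀ i, γ (i + 1) ≤ γ i) (ha : 0 ≤ a) (ha1 : a ≤ 1)
    (i : ℕ) : 3 * lm γ P a (i + 1) ≤ 4 * lm γ P a i := by
  have h1 : 1 / 36 * γ (i + 1) * Real.exp (a * Sr γ P a (i + 1))
      ≤ 4 / 3 * (1 / 36 * γ i * Real.exp (a * Sr γ P a i)) := by
    have h2 : Real.exp (a * Sr γ P a (i + 1)) ≤ Real.exp (a * Sr γ P a i) * (4 / 3) := by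
      have h3 := Sr_succ_le (P := P) (a := a) hγ i
      have h4 : a * Sr γ P a (i + 1) ≤ a * Sr γ P a i + a * (1 / 36) := by nlinarith
      calc Real.exp (a * Sr γ P a (i + 1)) ≤ Real.exp (a * Sr γ P a i + a * (1 / 36)) :=
            Real.exp_le_exp.2 h4
        _ = Real.exp (a * Sr γ P a i) * Real.exp (a * (1 / 36)) := Real.exp_add _ _
        _ ≤ _ := by
            gcongr
            exact exp_small (by linarith)
    have h5 := hanti i
    have h6 := hγ (i + 1)
    have h7 := hγ i
    calc 1 / 36 * γ (i + 1) * Real.exp (a * Sr γ P a (i + 1))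
        ≤ 1 / 36 * γ i * (Real.exp (a * Sr γ P a i) * (4 / 3)) := by gcongr
      _ = _ := by ring
  have h8 : lm γ P a (i + 1) ≤ 4 / 3 * lm γ P a i := by
    unfold lm
    rw [← min_mul_of_nonneg' (by norm_num : (0 : ℝ) ≤ 4 / 3)]
    exact min_le_min (by norm_num) h1
  linarith
where
  min_mul_of_nonneg' {x y c : ℝ} (hc : 0 ≤ c) : min (c * x) (c * y) = c * min x y :=
    (mul_min_of_nonneg x y hc).symm

/-- The parameters become large compared with the gauge. -/
theorem exists_scale (hγ : ∀ i, 0 < γ i) {κ : ℝ} (hκ : 0 < κ) (hκ1 : κ ≤ 1) {g Gm : ℕ → ℝ}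
    (hG : ∀ i, 0 < Gm i) (hg : ∀ i, g i = Gm i ^ (-(2 / 5) : ℝ)) (hPg : ∀ i, P i → γ i = g i)
    (hdiv : ¬ Summable fun i => Set.indicator {i | P i} g i) :
    ∃ i, P i ∧ Gm i ≤ Real.sqrt (lm γ P (2 / 5 * κ) i) * Real.exp (κ * Sr γ P (2 / 5 * κ) i) := by
  by_contra hc
  push Not at hc
  apply hdiv
  set a : ℝ := 2 / 5 * κ with ha
  have ha0 : 0 < a := by positivity
  have ha1 : a ≤ 1 := by rw [ha]; linarith
  have hg0 : ∀ i, 0 < g i := fun i => by rw [hg]; exact Real.rpow_pos_of_pos (hG i) _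
  have key : ∀ i, P i → 1 / 108 * g i * Real.exp (a * Sr γ P a i) ≤ lm γ P a i := by
    intro i hi
    have he := Real.exp_pos (a * Sr γ P a i)
    have hgi := hg0 i
    rcases le_total (1 / 36 * γ i * Real.exp (a * Sr γ P a i)) (1 / 36) with h | h
    · have e1 : lm γ P a i = 1 / 36 * g i * Real.exp (a * Sr γ P a i) := by
        unfold lm
        rw [min_eq_right h, hPg i hi]
      rw [e1]
      have : 0 < g i * Real.exp (a * Sr γ P a i) := by positivity
      linarith
    · have e1 : lm γ P a i = 1 / 36 := by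
        unfold lm
        rw [min_eq_left h]
      have h1 := hc i hi
      rw [e1] at h1
      have h2 : Real.sqrt (1 / 36) = 1 / 6 := by
        rw [show (1 / 36 : ℝ) = (1 / 6) ^ 2 by norm_num]
        exact Real.sqrt_sq (by norm_num)
      rw [h2] at h1
      rw [e1]
      have h3 : g i ≤ (1 / 6 * Real.exp (κ * Sr γ P a i)) ^ (-(2 / 5) : ℝ) := by
        rw [hg]
        exact Real.rpow_le_rpow_of_nonpos (by positivity) h1.le (by norm_num)
      have h4 : (1 / 6 * Real.exp (κ * Sr γ P a i)) ^ (-(2 / 5) : ℝ)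
          = (1 / 6 : ℝ) ^ (-(2 / 5) : ℝ) * Real.exp (-(a * Sr γ P a i)) := by
        rw [Real.mul_rpow (by norm_num) (Real.exp_pos _).le, ← Real.exp_mul]
        congr 2
        rw [ha]; ring
      have h5 : (1 / 6 : ℝ) ^ (-(2 / 5) : ℝ) ≤ 3 := by
        rw [show (1 / 6 : ℝ) = 6⁻¹ by norm_num, Real.inv_rpow (by norm_num), ← Real.rpow_neg (by norm_num),
          neg_neg]
        calc (6 : ℝ) ^ (2 / 5 : ℝ) ≤ 9 ^ (2 / 5 : ℝ) := by
              exact Real.rpow_le_rpow (by norm_num) (by norm_num) (by norm_num)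
          _ ≤ 9 ^ (1 / 2 : ℝ) := Real.rpow_le_rpow_of_exponent_le (by norm_num) (by norm_num)
          _ = 3 := by
              rw [← Real.sqrt_eq_rpow, show (9 : ℝ) = 3 ^ 2 by norm_num]
              exact Real.sqrt_sq (by norm_num)
      have h6 : g i * Real.exp (a * Sr γ P a i) ≤ 3 := by
        calc g i * Real.exp (a * Sr γ P a i)
            ≤ (3 * Real.exp (-(a * Sr γ P a i))) * Real.exp (a * Sr γ P a i) := by
              have : g i ≤ 3 * Real.exp (-(a * Sr γ P a i)) := by
                refine h3.trans ?_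
                rw [h4]
                gcongr
              gcongr
          _ = 3 * (Real.exp (-(a * Sr γ P a i)) * Real.exp (a * Sr γ P a i)) := by ring
          _ = 3 := by rw [← Real.exp_add]; simp
      linarith
  have tel : ∀ n, a / 216 * ∑ i ∈ Finset.range n, Set.indicator {i | P i} g i
      ≤ 1 - Real.exp (-(a * Sr γ P a n)) := by
    intro n
    induction n with
    | zero => simp [Sr]
    | succ n ih =>
      rw [Finset.sum_range_succ, mul_add]
      by_cases hn : P n
      · rw [Set.indicator_of_mem (show n ∈ {i | P i} from hn), Sr_succ_pos hn]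
        have h1 := key n hn
        have h2 := lm_le (γ := γ) (P := P) (a := a) n
        have h3 := lm_pos (P := P) (a := a) hγ n
        set s := Sr γ P a n with hs
        set x := a * lm γ P a n with hx
        have hx0 : 0 ≤ x := by positivity
        have hx1 : x ≤ 1 := by rw [hx]; nlinarith
        have e1 : Real.exp (-(a * (s + lm γ P a n))) = Real.exp (-(a * s)) * Real.exp (-x) := by
          rw [← Real.exp_add, hx]
          congr 1
          ring
        have h4 : Real.exp (-x) ≤ 1 - x / 2 := by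
          have h5 : Real.exp (-x) * Real.exp x = 1 := by rw [← Real.exp_add]; simp
          have h6 := Real.add_one_le_exp x
          have h7 := Real.exp_pos (-x)
          nlinarith
        have h8 := Real.exp_pos (-(a * s))
        have h9 : a / 216 * g n ≤ Real.exp (-(a * s)) * (x / 2) := by
          have h10 : Real.exp (-(a * s)) * Real.exp (a * s) = 1 := by rw [← Real.exp_add]; simp
          calc a / 216 * g n = a / 2 * (1 / 108 * g n * (Real.exp (-(a * s)) * Real.exp (a * s))) := by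
                rw [h10]; ring
            _ = a / 2 * Real.exp (-(a * s)) * (1 / 108 * g n * Real.exp (a * s)) := by ring
            _ ≤ a / 2 * Real.exp (-(a * s)) * lm γ P a n := by gcongr
            _ = _ := by rw [hx]; ring
        rw [e1]
        nlinarith
      · rw [Set.indicator_of_notMem (show n ∉ {i | P i} from hn), Sr_succ_neg hn]
        linarith
  refine summable_of_sum_range_le (c := 216 / a) (fun i => ?_) fun n => ?_
  · exact Set.indicator_nonneg (fun i _ => (hg0 i).le) i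
  · have h1 := tel n
    have h2 := Real.exp_pos (-(a * Sr γ P a n))
    have h3 : a / 216 * ∑ i ∈ Finset.range n, Set.indicator {i | P i} g i ≤ 1 := by linarith
    rw [le_div_iff₀ ha0]
    linarith

end

end Pool.Agent.Helper24.ST
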