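import Pool.Agent.Helper24.ST.Cas

set_option autoImplicit false

/-!
The lower bound before a singular time.
-/

open MeasureTheory Set Filter Topology
open scoped ContDiff ENNReal NNReal

namespace Pool.Agent.Helper24.ST

open H459R3.NS Pool.Agent.Q63.Win

/-- The end of the epoch which contains `s`. -/
theorem exists_end {G : Set ℝ} (hG : IsOpen G) {s t : ℝ} (hs : s ∈ G) (ht : t ∉ G) (hst : s ≤ t) :
    ∃ b, s < b ∧ b ≤ t ∧ b ∉ G ∧ Ico s b ⊆ G := by
  set A : Set ℝ := Gᶜ ∩ Ici s with hA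
  have hAc : IsClosed A := hG.isClosed_compl.inter isClosed_Ici
  have hne : A.Nonempty := ⟨t, ht, hst⟩
  have hbd : BddBelow A := ⟨s, fun x hx => hx.2⟩
  have hb : sInf A ∈ A := hAc.csInf_mem hne hbd
  refine ⟨sInf A, ?_, csInf_le hbd ⟨ht, hst⟩, hb.1, fun x hx => ?_⟩
  · refine lt_of_le_of_ne hb.2 fun h => ?_
    rw [h] at hs
    exact hb.1 hs
  · by_contra hx2
    have := csInf_le hbd (show x ∈ A from ⟨hx2, hx.1⟩)
    linarith [hx.2]

section

variable {ν T E : ℝ} {G : Set ℝ} {u : ℝ → V → V} {p : ℝ → V → ℝ}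

/-- The dissipation near the frequency `2 ^ n` is not small before a singular time. -/
theorem IsLeray.lower (h : IsLeray ν T E G u p) (hν : 0 < ν) {s t : ℝ} (hs : s ∈ G)
    (ht : t ∉ G) (hst : s ≤ t) (htT : t < T) (n : ℕ) (hn : 36 * ν * 4 ^ n * (t - s) ≤ 1) :
    1 / 400000 * ν ^ 2 * 2 ^ n ≤ YW n (cof (u s)) := by
  by_contra hc
  rw [not_le] at hc
  obtain ⟨b, hsb, hbt, hbG, hIco⟩ := exists_end h.openG hs ht hst
  obtain ⟨a, c, ha, hc', hac⟩ := exists_Icc h.openG hs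
  have hab : Ico a b ⊆ G := by
    intro x hx
    rcases lt_or_ge x s with hxs | hxs
    · exact hac ⟨hx.1, by linarith⟩
    · exact hIco ⟨hxs, hx.2⟩
  have hsol := h.isSol hab
  have hY := YY_small (h.rapV hs) hν n hc.le
  have hT : 36 * ν * (((2 ^ n : ℕ) : ℝ)) ^ 2 * (b - a - (s - a)) ≤ 1 := by
    refine le_trans ?_ hn
    have e1 : (((2 ^ n : ℕ) : ℝ)) ^ 2 = 4 ^ n := by
      push_cast
      rw [← pow_mul, mul_comm, pow_mul]
      norm_num
    rw [e1]
    have : b - a - (s - a) ≤ t - s := by linarith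
    gcongr
  have hY' : YY (2 ^ n) (cof (u (a + (s - a)))) ≤ ENNReal.ofReal (ν / 2) := by
    rw [add_sub_cancel]
    exact hY
  obtain ⟨C, hC⟩ := bounded_of_YY hsol hν (M := 2 ^ n) (s := s - a)
    ⟨by linarith, by linarith⟩ hT hY'
  obtain ⟨τ, hτ, x, i, hx⟩ := h.blowup s b (h.subG hs).1.le hsb (hbt.trans_lt htT)
    (Ioo_subset_Ico_self.trans hIco) hbG C
  have h1 := hC (τ - a) ⟨by linarith [hτ.1], by linarith [hτ.2]⟩ x i
  rw [add_sub_cancel] at h1
  linarith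

/-- The lower bound for the integral. -/
theorem IsLeray.lower_int (h : IsLeray ν T E G u p) (hν : 0 < ν) {t l : ℝ} (ht0 : t ∈ Ioo 0 T)
    (ht : t ∉ G) (hl : l ≤ t) (hl0 : 0 ≤ l) (n : ℕ) (hn : 36 * ν * 4 ^ n * l ≤ 1) :
    1 / 400000 * ν ^ 2 * 2 ^ n * l ≤ ∫ τ in G ∩ Ioo (t - l) t, YW n (cof (u τ)) := by
  have hm : MeasurableSet (G ∩ Ioo (t - l) t) := h.openG.measurableSet.inter measurableSet_Ioo
  have hv : volume (G ∩ Ioo (t - l) t) = ENNReal.ofReal l := by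
    have h1 : volume (Ioo (t - l) t) = ENNReal.ofReal l := by
      rw [Real.volume_Ioo]; congr 1; ring
    rw [← h1]
    refine le_antisymm (measure_mono inter_subset_right) ?_
    have h2 : Ioo (t - l) t ⊆ (G ∩ Ioo (t - l) t) ∪ (Ioo 0 T \ G) := by
      intro τ hτ
      by_cases hG : τ ∈ G
      · exact Or.inl ⟨hG, hτ⟩
      · exact Or.inr ⟨⟨by linarith [hτ.1], by linarith [hτ.2, ht0.2]⟩, hG⟩
    refine (measure_mono h2).trans ((measure_union_le _ _).trans ?_)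
    rw [h.fullG, add_zero]
  have hc : ∫ _τ in G ∩ Ioo (t - l) t, (1 / 400000 * ν ^ 2 * 2 ^ n : ℝ)
      = 1 / 400000 * ν ^ 2 * 2 ^ n * l := by
    rw [setIntegral_const, measureReal_def, hv, ENNReal.toReal_ofReal hl0, smul_eq_mul]
    ring
  rw [← hc]
  refine setIntegral_mono_on (integrableOn_const (by rw [hv]; exact ENNReal.ofReal_ne_top))
    ((h.int_YW hν.le n).mono_set inter_subset_left) hm fun τ hτ => ?_
  refine h.lower hν hτ.1 ht hτ.2.2.le ht0.2 n (le_trans ?_ hn)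
  have : t - τ ≤ l := by linarith [hτ.2.1]
  gcongr

end

end Pool.Agent.Helper24.ST
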