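import Pool.Agent.Helper24.ST.Gauge2
import Pool.Agent.Helper24.ST.Rec

set_option autoImplicit false

/-!
The integral test for the gauges.
-/

open MeasureTheory Set Filter Topology
open scoped ContDiff ENNReal NNReal

namespace Pool.Agent.Helper24.ST

open H459R3.NS Pool.Agent.Q63.Win

/-- Change of the geometric sequence. -/
theorem not_summable_geo {Γ : ℝ → ℝ} {δ : ℝ} (hδ : 0 < δ) (hΓ : AntitoneOn Γ (Ioo 0 δ))
    (hpos : ∀ r ∈ Ioo 0 δ, 0 < Γ r)
    (hdiv : ¬ Summable fun n : ℕ => Γ ((1 / 2) ^ n) ^ (-(2 / 5) : ℝ)) {A : ℝ} (hA : 0 < A) :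
    ¬ Summable fun n : ℕ => Γ (A * (1 / 8) ^ n) ^ (-(2 / 5) : ℝ) := by
  intro hs
  apply hdiv
  set g : ℕ → ℝ := fun n => Γ (A * (1 / 8) ^ n) ^ (-(2 / 5) : ℝ) with hg
  -- the threshold
  have hl1 : Tendsto (fun n : ℕ => A * (1 / 8 : ℝ) ^ n) atTop (𝓝 0) := by
    have := (tendsto_pow_atTop_nhds_zero_of_lt_one (by norm_num : (0 : ℝ) ≤ 1 / 8)
      (by norm_num)).const_mul A
    simpa using this
  obtain ⟨n0, hn0⟩ := (eventually_atTop.1 (hl1.eventually (gt_mem_nhds hδ)))
  obtain ⟨s, hs2⟩ := exists_pow_lt_of_lt_one hA (by norm_num : (1 / 2 : ℝ) < 1)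
  -- comparison
  have hcmp : ∀ m : ℕ, Γ ((1 / 2) ^ (m + (s + 3 * n0))) ^ (-(2 / 5) : ℝ) ≤ g (n0 + m / 3) := by
    intro m
    have h1 : (1 / 2 : ℝ) ^ (m + (s + 3 * n0)) ≤ A * (1 / 8) ^ (n0 + m / 3) := by
      have e1 : (1 / 8 : ℝ) ^ (n0 + m / 3) = (1 / 2) ^ (3 * (n0 + m / 3)) := by
        rw [pow_mul]; norm_num
      rw [e1]
      have h2 : (1 / 2 : ℝ) ^ (m + 3 * n0) ≤ (1 / 2) ^ (3 * (n0 + m / 3)) :=
        pow_le_pow_of_le_one (by norm_num) (by norm_num) (by omega)
      calc (1 / 2 : ℝ) ^ (m + (s + 3 * n0)) = (1 / 2) ^ s * (1 / 2) ^ (m + 3 * n0) := by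
            rw [← pow_add]; congr 1; ring
        _ ≤ A * (1 / 2) ^ (3 * (n0 + m / 3)) := by gcongr
    have h2 : A * (1 / 8) ^ (n0 + m / 3) < δ := hn0 _ (by omega)
    have h3 : (0 : ℝ) < (1 / 2) ^ (m + (s + 3 * n0)) := by positivity
    have hm1 : A * (1 / 8) ^ (n0 + m / 3) ∈ Ioo 0 δ := ⟨by positivity, h2⟩
    have h4 := hΓ ⟨h3, h1.trans_lt h2⟩ hm1 h1
    exact Real.rpow_le_rpow_of_nonpos (hpos _ hm1) h4 (by norm_num)
  have hg0 : ∀ n, 0 ≤ g (n0 + n) := fun n => by
    have hm1 : A * (1 / 8) ^ (n0 + n) ∈ Ioo 0 δ := ⟨by positivity, hn0 _ (by omega)⟩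
    exact Real.rpow_nonneg (hpos _ hm1).le _
  have hs1 : Summable fun n => g (n0 + n) := by
    have := (summable_nat_add_iff n0).2 hs
    refine this.congr fun n => ?_
    rw [add_comm]
  have hs3 : Summable fun m : ℕ => g (n0 + m / 3) := by
    refine summable_of_sum_range_le (c := 3 * ∑' n, g (n0 + n)) (fun m => hg0 _) fun m => ?_
    have h1 : ∀ N : ℕ, ∑ i ∈ Finset.range (3 * N), g (n0 + i / 3)
        = 3 * ∑ n ∈ Finset.range N, g (n0 + n) := by
      intro N
      induction N with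
      | zero => simp
      | succ N ih =>
        rw [show 3 * (N + 1) = 3 * N + 1 + 1 + 1 by ring, Finset.sum_range_succ,
          Finset.sum_range_succ, Finset.sum_range_succ, ih, Finset.sum_range_succ]
        have e1 : 3 * N / 3 = N := by omega
        have e2 : (3 * N + 1) / 3 = N := by omega
        have e3 : (3 * N + 1 + 1) / 3 = N := by omega
        rw [e1, e2, e3]
        ring
    calc ∑ i ∈ Finset.range m, g (n0 + i / 3) ≤ ∑ i ∈ Finset.range (3 * m), g (n0 + i / 3) :=
          Finset.sum_le_sum_of_subset_of_nonneg (Finset.range_mono (by omega)) fun i _ _ => hg0 _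
      _ = 3 * ∑ n ∈ Finset.range m, g (n0 + n) := h1 m
      _ ≤ 3 * ∑' n, g (n0 + n) := by
          have := hs1.sum_le_tsum (Finset.range m) fun i _ => hg0 i
          gcongr
  refine (summable_nat_add_iff (s + 3 * n0)).1 ?_
  refine Summable.of_nonneg_of_le (fun m => ?_) hcmp hs3
  have h1 : (1 / 2 : ℝ) ^ (m + (s + 3 * n0)) ≤ A * (1 / 8) ^ (n0 + m / 3) := by
    have e1 : (1 / 8 : ℝ) ^ (n0 + m / 3) = (1 / 2) ^ (3 * (n0 + m / 3)) := by
      rw [pow_mul]; norm_num
    rw [e1]
    have h2 : (1 / 2 : ℝ) ^ (m + 3 * n0) ≤ (1 / 2) ^ (3 * (n0 + m / 3)) :=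
      pow_le_pow_of_le_one (by norm_num) (by norm_num) (by omega)
    calc (1 / 2 : ℝ) ^ (m + (s + 3 * n0)) = (1 / 2) ^ s * (1 / 2) ^ (m + 3 * n0) := by
          rw [← pow_add]; congr 1; ring
      _ ≤ A * (1 / 2) ^ (3 * (n0 + m / 3)) := by gcongr
  have h2 : A * (1 / 8) ^ (n0 + m / 3) < δ := hn0 _ (by omega)
  have h3 : (0 : ℝ) < (1 / 2) ^ (m + (s + 3 * n0)) := by positivity
  exact Real.rpow_nonneg (hpos _ ⟨h3, h1.trans_lt h2⟩).le _

/-- The constant of the covering with variable parameters. -/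
noncomputable def C4' : ℝ := 8000000

section

variable {ν T E : ℝ} {G : Set ℝ} {u : ℝ → V → V} {p : ℝ → V → ℝ}

/-- The covering adapted to a sequence of weights. -/
theorem IsLeray.cover_test (h : IsLeray ν T E G u p) (hν : 0 < ν) {k0 : ℕ} {Gm : ℕ → ℝ}
    (hG : ∀ n, k0 ≤ n → 0 < Gm n) (hGm : ∀ n, k0 ≤ n → Gm n ≤ Gm (n + 1))
    (hdiv : ¬ Summable fun n : ℕ => Gm n ^ (-(2 / 5) : ℝ)) {X : Set ℝ}
    (hX : X ⊆ Ioo 0 T \ G) (hX2 : ∀ t ∈ X, 1 / 12 * (1 / 4) ^ k0 ≤ ν * t) :
    ∃ F : Finset (ℝ × ℝ), (∀ q ∈ F, ∃ n, k0 ≤ n ∧ 0 < q.2 ∧ 1 / 6 * (1 / 8) ^ n ≤ ν * (6 * q.2) ∧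
        ν * (6 * q.2) ≤ 1 / 6 * (1 / 4) ^ n) ∧
      (X ⊆ ⋃ q ∈ F, Icc (q.1 - 3 * q.2) (q.1 + 3 * q.2)) ∧
      ∀ Γ : ℝ → ℝ, (∀ n, k0 ≤ n → ∀ r, 1 / 6 * (1 / 8) ^ n ≤ ν * r → ν * r ≤ 1 / 6 * (1 / 4) ^ n →
        Γ r ≤ Gm n) → ∑ q ∈ F, Real.sqrt (6 * q.2) * Γ (6 * q.2)
          ≤ C4' / (ν * Real.sqrt ν) * Ptot G u k0 := by
  classical
  have hcas := h.cas hν.le
  have hfin : ∀ j, IsFiniteMeasure (dm G (fun τ => YW j (cof (u τ)))) := fun j =>
    dm_finite (h.int_YW hν.le j)
  have hCF := CF_pos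
  set κ : ℝ := 1 / (8 * CF) with hκ
  have hκ0 : 0 < κ := by positivity
  have hκ1 : κ ≤ 1 := by
    rw [hκ, div_le_one (by positivity)]
    linarith
  set a : ℝ := 2 / 5 * κ with ha
  have ha0 : 0 ≤ a := by positivity
  have ha1 : a ≤ 1 := by rw [ha]; linarith
  -- the shifted sequences
  set G' : ℕ → ℝ := fun i => Gm (k0 + i) with hG'
  have hG'0 : ∀ i, 0 < G' i := fun i => hG _ (by omega)
  set g : ℕ → ℝ := fun i => G' i ^ (-(2 / 5) : ℝ) with hg
  have hg0 : ∀ i, 0 < g i := fun i => Real.rpow_pos_of_pos (hG'0 i) _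
  set e : ℕ → ℝ := fun i => (1 / 2 : ℝ) ^ (k0 + i) with he
  have he0 : ∀ i, 0 < e i := fun i => by simp only [he]; positivity
  have he1 : ∀ i, e i ≤ 1 := fun i => pow_le_one₀ (by norm_num) (by norm_num)
  set γ : ℕ → ℝ := fun i => max (g i) (e i) with hγd
  have hγ : ∀ i, 0 < γ i := fun i => lt_max_of_lt_left (hg0 i)
  have hγe : ∀ i, e i ≤ γ i := fun i => le_max_right _ _
  have hanti : ∀ i, γ (i + 1) ≤ γ i := by
    intro i
    refine max_le_max ?_ ?_
    · exact Real.rpow_le_rpow_of_nonpos (hG'0 i) (hGm _ (by omega)) (by norm_num)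
    · simp only [he]
      exact pow_le_pow_of_le_one (by norm_num) (by norm_num) (by omega)
  set P : ℕ → Prop := fun i => e i ≤ g i with hP
  have hPg : ∀ i, P i → γ i = g i := fun i hi => max_eq_left hi
  have hdiv2 : ¬ Summable fun i => Set.indicator {i | P i} g i := by
    intro hs
    apply hdiv
    have h1 : Summable g := by
      have h2 : Summable e := by
        have h3 : Summable fun i : ℕ => (1 / 2 : ℝ) ^ i :=
          summable_geometric_of_lt_one (by norm_num) (by norm_num)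
        refine (h3.mul_left ((1 / 2) ^ k0)).congr fun i => ?_
        simp only [he]
        rw [pow_add]
      refine Summable.of_nonneg_of_le (fun i => (hg0 i).le) (fun i => ?_) (hs.add h2)
      by_cases hi : P i
      · rw [Set.indicator_of_mem (show i ∈ {i | P i} from hi)]
        linarith [he0 i]
      · rw [Set.indicator_of_notMem (show i ∉ {i | P i} from hi), zero_add]
        exact (not_le.1 hi).le
    refine (summable_nat_add_iff k0).1 (h1.congr fun i => ?_)
    simp only [hg, hG']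
    rw [add_comm]
  obtain ⟨m, hPm, hm⟩ := exists_scale hγ hκ0 hκ1 hG'0 (fun i => rfl) hPg hdiv2
  rw [← ha] at hm
  set K := k0 + m with hK
  set L : ℕ → ℝ := fun n => lm γ P a (n - k0) with hL
  set Sn' : ℕ → ℝ := fun n => Sr γ P a (n - k0) with hSn
  have hL0 : ∀ n, 0 < L n := fun n => lm_pos hγ _
  have hL1 : ∀ n, L n ≤ 1 / 36 := fun n => lm_le _
  set l : ℕ → ℝ := fun n => L n * (1 / 4) ^ n / ν with hl
  have hl0 : ∀ n, 0 < l n := fun n => by
    have := hL0 n
    simp only [hl]; positivity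
  have hstep : ∀ n, k0 ≤ n → 3 * l (n + 1) ≤ l n := by
    intro n hn
    have h1 := lm_succ (P := P) hγ hanti ha0 ha1 (n - k0)
    have h2 : n + 1 - k0 = n - k0 + 1 := by omega
    simp only [hl, hL]
    rw [h2, ← mul_div_assoc]
    refine div_le_div_of_nonneg_right ?_ hν.le
    rw [pow_succ]
    have : (0 : ℝ) < (1 / 4) ^ n := by positivity
    nlinarith
  have hlanti : ∀ i j, k0 ≤ i → i ≤ j → l j ≤ l i := by
    intro i j hi hij
    induction j, hij using Nat.le_induction with
    | base => exact le_rfl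
    | succ j hj ih =>
      have h1 := hstep j (by omega)
      have h2 := hl0 (j + 1)
      linarith
  have h3l : ∀ n j, k0 ≤ n → n < j → j ≤ K → 3 * l j ≤ l n := by
    intro n j hn hj _
    obtain ⟨i, rfl⟩ := Nat.exists_eq_add_of_lt hj
    have h1 := hstep (n + i) (by omega)
    have h2 := hlanti n (n + i) hn (by omega)
    linarith
  have hlow : ∀ n, k0 ≤ n → 1 / 6 * (1 / 8) ^ n ≤ ν * (6 * l n) := by
    intro n hn
    have h1 : 1 / 36 * (1 / 2 : ℝ) ^ n ≤ L n := by
      have h2 := lm_ge (P := P) hγ ha0 (hγe (n - k0)) (he1 (n - k0))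
      have h3 : e (n - k0) = (1 / 2 : ℝ) ^ n := by
        simp only [he]
        congr 1; omega
      rw [h3] at h2
      exact h2
    have h4 : (1 / 8 : ℝ) ^ n = (1 / 2) ^ n * (1 / 4) ^ n := by
      rw [← mul_pow]; norm_num
    have h5 : ν * (6 * l n) = 6 * L n * (1 / 4) ^ n := by
      simp only [hl]; field_simp
    rw [h5, h4]
    have h6 : (0 : ℝ) < (1 / 4) ^ n := by positivity
    calc 1 / 6 * ((1 / 2 : ℝ) ^ n * (1 / 4) ^ n) = 6 * (1 / 36 * (1 / 2) ^ n) * (1 / 4) ^ n := by ring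
      _ ≤ _ := by gcongr
  have hhigh : ∀ n, ν * (6 * l n) ≤ 1 / 6 * (1 / 4) ^ n := by
    intro n
    have h5 : ν * (6 * l n) = 6 * L n * (1 / 4) ^ n := by
      simp only [hl]; field_simp
    rw [h5]
    have h6 : (0 : ℝ) < (1 / 4) ^ n := by positivity
    have h7 := hL1 n
    calc 6 * L n * (1 / 4) ^ n ≤ 6 * (1 / 36) * (1 / 4) ^ n := by gcongr
      _ = _ := by ring
  set α : ℝ := C4' / (ν * Real.sqrt ν) with hα
  have hsν : 0 < Real.sqrt ν := Real.sqrt_pos.2 hν
  have hα0 : 0 < α := by rw [hα]; unfold C4'; positivity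
  have hsqrt : ∀ n, Real.sqrt (6 * l n) ≤ 2.5 * (1 / Real.sqrt ν) * (Real.sqrt (L n) * (1 / 2) ^ n) := by
    intro n
    have e1 : 6 * l n = 6 * (1 / ν) * (L n * ((1 / 2) ^ n) ^ 2) := by
      simp only [hl]
      rw [← pow_mul, mul_comm n 2, pow_mul]
      have : ((1 : ℝ) / 2) ^ 2 = 1 / 4 := by norm_num
      rw [this]
      ring
    rw [e1, Real.sqrt_mul (by positivity), Real.sqrt_mul (by norm_num : (0 : ℝ) ≤ 6),
      Real.sqrt_mul (hL0 n).le, Real.sqrt_sq (by positivity), Real.sqrt_div zero_le_one, Real.sqrt_one]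
    have h6 : Real.sqrt 6 ≤ 2.5 := by
      rw [Real.sqrt_le_iff]; norm_num
    gcongr
  set an : ℕ → ℝ := fun n => α * Real.exp (κ * Sn' n) with han
  have han0 : ∀ n, 0 < an n := fun n => by
    have := Real.exp_pos (κ * Sn' n)
    simp only [han]; positivity
  set w : ℕ → ℝ := fun n => if k0 ≤ n then Real.sqrt (6 * l n) * Gm n else 0 with hw
  have hw' : ∀ n, k0 ≤ n → w n = Real.sqrt (6 * l n) * Gm n := fun n hn => if_pos hn
  obtain ⟨F, hF1, hF2, hF3⟩ := cover_main (y := fun j => dm G (fun τ => YW j (cof (u τ))))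
    (l := l) (K := K) (k0 := k0) (A := 0) (B := T) (X0 := X)
    (fun t ht => ⟨(hX ht).1.1.le, (hX ht).1.2.le⟩)
    (c := fun n => if P (n - k0) then L n / CF else 0)
    (θ := fun n => if P (n - k0) then ν * (1 / 2) ^ n / L n ^ 2 else 7 * w n / an n)
    (a := an) (w := w) (β := 1 / 400000 * ν ^ 2 * 2 ^ K * l K)
    hl0 h3l
    (fun n => by
      have := hL0 n
      show 0 ≤ if P (n - k0) then L n / CF else 0
      split_ifs
      · positivity
      · exact le_rfl)
    (fun n => by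
      show (if P (n - k0) then L n / CF else 0) ≤ 1
      split_ifs
      · rw [div_le_one (by linarith)]
        linarith [hL1 n]
      · exact zero_le_one)
    (fun n hn hnK t ht p hp0 hp hpt => by
      by_cases hPn : P (n - k0)
      · rw [if_pos hPn] at hpt ⊢
        refine hcas.hypH hν (hL0 n) ((hL1 n).trans (by norm_num)) rfl ?_ (hX ht).1.2 hp0 hp hpt
        have h1 := hlanti k0 n le_rfl hn
        have h2 := hhigh k0
        have h3 := hX2 t ht
        have h4 : ν * (3 * l n) ≤ ν * t := by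
          calc ν * (3 * l n) ≤ ν * (3 * l k0) := by gcongr
            _ = 1 / 2 * (ν * (6 * l k0)) := by ring
            _ ≤ 1 / 2 * (1 / 6 * (1 / 4) ^ k0) := by gcongr
            _ = 1 / 12 * (1 / 4) ^ k0 := by ring
            _ ≤ ν * t := h3
        exact le_of_mul_le_mul_left h4 hν
      · rw [if_neg hPn, zero_mul]
        exact measureReal_nonneg)
    (fun t ht => by
      have h1 := hl0 K
      have h2 := hlanti k0 K le_rfl (by omega)
      refine h.ball_lower hν (hX ht) ?_ h1 K ?_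
      · have h3 := hhigh k0
        have h4 := hX2 t ht
        have h5 : ν * l K ≤ ν * t := by
          calc ν * l K ≤ ν * l k0 := by gcongr
            _ ≤ 1 / 2 * (ν * (6 * l k0)) := by
                have : 0 < ν * l k0 := mul_pos hν (hl0 k0)
                linarith
            _ ≤ 1 / 2 * (1 / 6 * (1 / 4) ^ k0) := by gcongr
            _ = 1 / 12 * (1 / 4) ^ k0 := by ring
            _ ≤ ν * t := h4
        exact le_of_mul_le_mul_left h5 hν
      · have h3 := hhigh K
        have h5 : (4 : ℝ) ^ K * (1 / 4) ^ K = 1 := by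
          rw [← mul_pow]; norm_num
        have h6 : (0 : ℝ) < 4 ^ K := by positivity
        calc 36 * ν * 4 ^ K * l K = 6 * 4 ^ K * (ν * (6 * l K)) := by ring
          _ ≤ 6 * 4 ^ K * (1 / 6 * (1 / 4) ^ K) := by gcongr
          _ = 4 ^ K * (1 / 4) ^ K := by ring
          _ ≤ 1 := h5.le)
    (fun n => (han0 n).le)
    (fun n hn _ => by
      by_cases hPn : P (n - k0)
      · rw [if_pos hPn]
        have e1 : Sn' (n + 1) = Sn' n + L n := by
          simp only [hSn, hL]
          rw [show n + 1 - k0 = n - k0 + 1 by omega, Sr_succ_pos hPn]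
        simp only [han]
        rw [e1, mul_add, Real.exp_add]
        have h1 : 1 - L n / CF / 8 ≤ Real.exp (-(κ * L n)) := by
          have h2 := Real.add_one_le_exp (-(κ * L n))
          have h3 : κ * L n = L n / CF / 8 := by rw [hκ]; field_simp
          rw [h3] at h2 ⊢
          linarith
        have h4 : Real.exp (κ * L n) * Real.exp (-(κ * L n)) = 1 := by
          rw [← Real.exp_add]; simp
        have h5 := Real.exp_pos (κ * Sn' n)
        have h6 := Real.exp_pos (κ * L n)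
        calc α * (Real.exp (κ * Sn' n) * Real.exp (κ * L n)) * (1 - L n / CF / 8)
            ≤ α * (Real.exp (κ * Sn' n) * Real.exp (κ * L n)) * Real.exp (-(κ * L n)) := by gcongr
          _ = α * Real.exp (κ * Sn' n) * (Real.exp (κ * L n) * Real.exp (-(κ * L n))) := by ring
          _ = _ := by rw [h4, mul_one]
      · rw [if_neg hPn]
        have e1 : Sn' (n + 1) = Sn' n := by
          simp only [hSn]
          rw [show n + 1 - k0 = n - k0 + 1 by omega, Sr_succ_neg hPn]
        simp only [han]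
        rw [e1]
        simp)
    (fun n hn _ => by
      by_cases hPn : P (n - k0)
      · rw [if_pos hPn, hw' n hn]
        have h1 := hsqrt n
        have hG0 := hG n hn
        have hLn := hL0 n
        have hsL : 0 < Real.sqrt (L n) := Real.sqrt_pos.2 hLn
        -- the bound for the parameter
        have h2 : L n ≤ 1 / 36 * g (n - k0) * Real.exp (a * Sn' n) := by
          have := lm_le' (γ := γ) (P := P) (a := a) (n - k0)
          rw [hPg _ hPn] at this
          exact this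
        have h3 : L n ^ 2 * Real.sqrt (L n) * Gm n ≤ Real.exp (κ * Sn' n) := by
          rw [← rpow_five_half hLn]
          have e0 : Gm n = G' (n - k0) := by
            simp only [hG']
            congr 1; omega
          have h4 : L n ^ (5 / 2 : ℝ) ≤ (g (n - k0) * Real.exp (a * Sn' n)) ^ (5 / 2 : ℝ) := by
            refine Real.rpow_le_rpow hLn.le (h2.trans ?_) (by norm_num)
            have := hg0 (n - k0)
            have := Real.exp_pos (a * Sn' n)
            have : 0 < g (n - k0) * Real.exp (a * Sn' n) := by positivity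
            linarith
          have h5 : (g (n - k0) * Real.exp (a * Sn' n)) ^ (5 / 2 : ℝ)
              = (G' (n - k0))⁻¹ * Real.exp (κ * Sn' n) := by
            rw [Real.mul_rpow (hg0 _).le (Real.exp_pos _).le, ← Real.exp_mul]
            simp only [hg]
            rw [← Real.rpow_mul (hG'0 _).le, show (-(2 / 5) : ℝ) * (5 / 2) = -1 by norm_num,
              Real.rpow_neg_one]
            congr 2
            rw [ha]; ring
          have hG1 := hG'0 (n - k0)
          calc L n ^ (5 / 2 : ℝ) * Gm n ≤ ((G' (n - k0))⁻¹ * Real.exp (κ * Sn' n)) * Gm n := by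
                rw [← h5]
                gcongr
            _ = Real.exp (κ * Sn' n) := by
                rw [e0]
                field_simp
        have h6 : 7 * (Real.sqrt (6 * l n) * Gm n)
            ≤ 17.5 * (1 / Real.sqrt ν) * (1 / 2) ^ n * (Real.sqrt (L n) * Gm n) := by
          calc 7 * (Real.sqrt (6 * l n) * Gm n)
              ≤ 7 * (2.5 * (1 / Real.sqrt ν) * (Real.sqrt (L n) * (1 / 2) ^ n) * Gm n) := by gcongr
            _ = _ := by ring
        have h7 : Real.sqrt (L n) * Gm n ≤ Real.exp (κ * Sn' n) / L n ^ 2 := by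
          rw [le_div_iff₀ (by positivity)]
          linarith
        have h8 : 0 < Real.exp (κ * Sn' n) / L n ^ 2 := by
          have := Real.exp_pos (κ * Sn' n)
          positivity
        have h9 : 0 < (1 / Real.sqrt ν) * (1 / 2 : ℝ) ^ n := by positivity
        calc 7 * (Real.sqrt (6 * l n) * Gm n)
            ≤ 17.5 * (1 / Real.sqrt ν) * (1 / 2) ^ n * (Real.sqrt (L n) * Gm n) := h6
          _ ≤ 17.5 * (1 / Real.sqrt ν) * (1 / 2) ^ n * (Real.exp (κ * Sn' n) / L n ^ 2) := by gcongr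
          _ ≤ C4' * (1 / Real.sqrt ν) * (1 / 2) ^ n * (Real.exp (κ * Sn' n) / L n ^ 2) := by
              gcongr
              unfold C4'
              norm_num
          _ = an n * (ν * (1 / 2) ^ n / L n ^ 2) := by
              simp only [han, hα]
              field_simp
      · rw [if_neg hPn]
        exact le_of_eq (by field_simp [(han0 n).ne']))
    (by
      have hkK : k0 ≤ K := by omega
      rw [hw' K hkK]
      have h1 := hsqrt K
      have hG0 := hG K hkK
      have hLn := hL0 K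
      have hsL : 0 < Real.sqrt (L K) := Real.sqrt_pos.2 hLn
      have hKm : K - k0 = m := by omega
      have h2 : Gm K ≤ Real.sqrt (L K) * Real.exp (κ * Sn' K) := by
        have e0 : Gm K = G' m := rfl
        rw [e0]
        simp only [hL, hSn]
        rw [hKm]
        exact hm
      have hss : Real.sqrt (L K) * Real.sqrt (L K) = L K := Real.mul_self_sqrt hLn.le
      have h5 : (2 : ℝ) ^ K * (1 / 4) ^ K = (1 / 2) ^ K := by
        rw [← mul_pow]; norm_num
      have hexp := Real.exp_pos (κ * Sn' K)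
      calc 7 * (Real.sqrt (6 * l K) * Gm K)
          ≤ 7 * (2.5 * (1 / Real.sqrt ν) * (Real.sqrt (L K) * (1 / 2) ^ K)
              * (Real.sqrt (L K) * Real.exp (κ * Sn' K))) := by gcongr
        _ = 17.5 * (1 / Real.sqrt ν) * (1 / 2) ^ K * (Real.sqrt (L K) * Real.sqrt (L K))
              * Real.exp (κ * Sn' K) := by ring
        _ = 17.5 * (1 / Real.sqrt ν) * (1 / 2) ^ K * L K * Real.exp (κ * Sn' K) := by rw [hss]
        _ ≤ C4' / 400000 * (1 / Real.sqrt ν) * (1 / 2) ^ K * L K * Real.exp (κ * Sn' K) := by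
            gcongr
            unfold C4'
            norm_num
        _ = an K * (1 / 400000 * ν ^ 2 * 2 ^ K * l K) := by
            simp only [han, hα, hl]
            rw [← h5]
            field_simp)
    (K - k0) k0 le_rfl (by omega) X (subset_refl X)
  refine ⟨F.image fun q => (q.1, l q.2), ?_, ?_, ?_⟩
  · intro q hq
    obtain ⟨q', hq', rfl⟩ := Finset.mem_image.1 hq
    obtain ⟨h1, h2, h3, -⟩ := hF1 q' hq'
    exact ⟨q'.2, h2, hl0 _, hlow _ h2, hhigh _⟩
  · intro x hx
    obtain ⟨q, hq, hxq⟩ := mem_iUnion₂.1 (hF2 hx)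
    exact mem_iUnion₂.2 ⟨_, Finset.mem_image.2 ⟨q, hq, rfl⟩, hxq⟩
  · intro Γ hΓ
    have hSk0 : an k0 = α := by
      simp only [han, hSn]
      rw [Nat.sub_self]
      have : Sr γ P a 0 = 0 := rfl
      rw [this, mul_zero, Real.exp_zero, mul_one]
    have hPP := hcas.PP_le (l := l) (K := K) (n := k0) X
    have hw0 : ∀ n, 0 ≤ w n := by
      intro n
      by_cases hn : k0 ≤ n
      · rw [hw' n hn]
        have := hG n hn
        positivity
      · simp only [hw]
        rw [if_neg hn]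
    -- pass to the sum over `F`
    have h1 : ∑ q ∈ F.image (fun q => (q.1, l q.2)), Real.sqrt (6 * q.2) * Γ (6 * q.2)
        ≤ ∑ q ∈ F.image (fun q => (q.1, l q.2)), Real.sqrt (6 * q.2) * max (Γ (6 * q.2)) 0 := by
      refine Finset.sum_le_sum fun q _ => ?_
      exact mul_le_mul_of_nonneg_left (le_max_left _ _) (Real.sqrt_nonneg _)
    have h2 : ∑ q ∈ F.image (fun q => (q.1, l q.2)), Real.sqrt (6 * q.2) * max (Γ (6 * q.2)) 0
        ≤ ∑ q ∈ F, Real.sqrt (6 * l q.2) * max (Γ (6 * l q.2)) 0 :=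
      Finset.sum_image_le_of_nonneg fun q _ => mul_nonneg (Real.sqrt_nonneg _) (le_max_right _ _)
    have h3 : ∑ q ∈ F, Real.sqrt (6 * l q.2) * max (Γ (6 * l q.2)) 0 ≤ ∑ q ∈ F, w q.2 := by
      refine Finset.sum_le_sum fun q hq => ?_
      obtain ⟨_, hq2, _, _⟩ := hF1 q hq
      rw [hw' _ hq2]
      have h4 := hΓ q.2 hq2 (6 * l q.2) (hlow _ hq2) (hhigh _)
      have h5 := hG q.2 hq2
      exact mul_le_mul_of_nonneg_left (max_le h4 h5.le) (Real.sqrt_nonneg _)
    refine h1.trans (h2.trans (h3.trans (hF3.trans ?_)))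
    rw [hSk0]
    exact mul_le_mul_of_nonneg_left hPP hα0.le

end

end Pool.Agent.Helper24.ST
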