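import Pool.Agent.Helper24.ST.Test

set_option autoImplicit false

/-!
The integral test for the gauges: conclusion.
-/

open MeasureTheory Set Filter Topology
open scoped ContDiff ENNReal NNReal

namespace Pool.Agent.Helper24.ST

open H459R3.NS Pool.Agent.Q63.Win

section

variable {ν T E : ℝ} {G : Set ℝ} {u : ℝ → V → V} {p : ℝ → V → ℝ}

theorem IsLeray.test_part (h : IsLeray ν T E G u p) (hν : 0 < ν) {Γ : ℝ → ℝ} {δ : ℝ}
    (hδ : 0 < δ) (hΓ : AntitoneOn Γ (Ioo 0 δ)) (hpos : ∀ r ∈ Ioo 0 δ, 0 < Γ r)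
    (hdiv : ¬ Summable fun n : ℕ => Γ ((1 / 2) ^ n) ^ (-(2 / 5) : ℝ)) {δ' : ℝ} (hδ' : 0 < δ') :
    Measure.mkMetric (gau Γ) {t ∈ Ioo 0 T \ G | δ' ≤ t} = 0 := by
  classical
  set X : Set ℝ := {t ∈ Ioo 0 T \ G | δ' ≤ t} with hXdef
  set A : ℝ := 1 / 6 / ν with hA
  have hA0 : 0 < A := by positivity
  set Gm : ℕ → ℝ := fun n => Γ (A * (1 / 8) ^ n) with hGm
  have hdiv2 := not_summable_geo hδ hΓ hpos hdiv hA0
  have hl4 : Tendsto (fun n : ℕ => A * (1 / 4 : ℝ) ^ n) atTop (𝓝 0) := by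
    have := (tendsto_pow_atTop_nhds_zero_of_lt_one (by norm_num : (0 : ℝ) ≤ 1 / 4)
      (by norm_num)).const_mul A
    simpa using this
  have hmin : 0 < min δ δ' := lt_min hδ hδ'
  obtain ⟨k1, hk1⟩ := eventually_atTop.1 (hl4.eventually (gt_mem_nhds hmin))
  have h84 : ∀ n : ℕ, (1 / 8 : ℝ) ^ n ≤ (1 / 4) ^ n := fun n =>
    pow_le_pow_left₀ (by norm_num) (by norm_num) n
  have hm8 : ∀ n, k1 ≤ n → A * (1 / 8) ^ n ∈ Ioo 0 δ := fun n hn => by
    refine ⟨by positivity, ?_⟩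
    have h1 := hk1 n hn
    rw [lt_min_iff] at h1
    refine lt_of_le_of_lt ?_ h1.1
    have := h84 n
    gcongr
  have hcov : ∀ k : ℕ, ∃ F : Finset (ℝ × ℝ), k1 ≤ k →
      (∀ q ∈ F, ∃ n, k ≤ n ∧ 0 < q.2 ∧ 1 / 6 * (1 / 8) ^ n ≤ ν * (6 * q.2) ∧
        ν * (6 * q.2) ≤ 1 / 6 * (1 / 4) ^ n) ∧
      (X ⊆ ⋃ q ∈ F, Icc (q.1 - 3 * q.2) (q.1 + 3 * q.2)) ∧
      ∀ Γ' : ℝ → ℝ, (∀ n, k ≤ n → ∀ r, 1 / 6 * (1 / 8) ^ n ≤ ν * r → ν * r ≤ 1 / 6 * (1 / 4) ^ n →
        Γ' r ≤ Gm n) → ∑ q ∈ F, Real.sqrt (6 * q.2) * Γ' (6 * q.2)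
          ≤ C4' / (ν * Real.sqrt ν) * Ptot G u k := by
    intro k
    by_cases hk : k1 ≤ k
    · obtain ⟨F, hF⟩ := h.cover_test hν (k0 := k) (Gm := Gm)
        (fun n hn => hpos _ (hm8 n (by omega)))
        (fun n hn => by
          have h1 := hm8 n (by omega)
          have h2 := hm8 (n + 1) (by omega)
          refine hΓ h2 h1 ?_
          have h3 : (1 / 8 : ℝ) ^ (n + 1) ≤ (1 / 8) ^ n :=
            pow_le_pow_of_le_one (by norm_num) (by norm_num) (by omega)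
          gcongr)
        hdiv2 (X := X) (fun t ht => ht.1) (fun t ht => by
          have h1 := hk1 k hk
          rw [lt_min_iff] at h1
          have h2 := h1.2
          rw [hA, div_mul_eq_mul_div, div_lt_iff₀ hν] at h2
          have h3 : δ' * ν ≤ t * ν := by
            have := ht.2
            gcongr
          have h4 : (0 : ℝ) < (1 / 4) ^ k := by positivity
          linarith)
      exact ⟨F, fun _ => hF⟩
    · exact ⟨∅, fun h' => absurd h' hk⟩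
  choose F hF using hcov
  have hlen : ∀ k, k1 ≤ k → ∀ q ∈ F k, 6 * q.2 ≤ A * (1 / 4) ^ k ∧ 0 < q.2 := by
    intro k hk q hq
    obtain ⟨n, hn, h1, h2, h3⟩ := (hF k hk).1 q hq
    refine ⟨?_, h1⟩
    have h4 : (1 / 4 : ℝ) ^ n ≤ (1 / 4) ^ k :=
      pow_le_pow_of_le_one (by norm_num) (by norm_num) hn
    have h5 : ν * (6 * q.2) ≤ ν * (A * (1 / 4) ^ k) := by
      have e1 : ν * (A * (1 / 4) ^ k) = 1 / 6 * (1 / 4) ^ k := by
        rw [hA]; field_simp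
      rw [e1]
      refine h3.trans ?_
      gcongr
    exact le_of_mul_le_mul_left h5 hν
  have hrt : Tendsto (fun k : ℕ => ENNReal.ofReal (A * (1 / 4) ^ k)) atTop (𝓝 0) := by
    rw [← ENNReal.ofReal_zero]
    exact ENNReal.tendsto_ofReal hl4
  have hdiam : ∀ (t e : ℝ), Metric.ediam (Icc (t - 3 * e) (t + 3 * e)) = ENNReal.ofReal (6 * e) := by
    intro t e
    rw [Real.ediam_Icc]
    congr 1
    ring
  have key := Measure.mkMetric_le_liminf_sum (X := ℝ) (ι := fun k => ↥(F k)) X (l := atTop)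
    (fun k => ENNReal.ofReal (A * (1 / 4) ^ k)) hrt
    (fun k i => Icc (i.1.1 - 3 * i.1.2) (i.1.1 + 3 * i.1.2))
    (by
      filter_upwards [eventually_ge_atTop k1] with k hk i
      rw [hdiam]
      exact ENNReal.ofReal_le_ofReal (hlen k hk i.1 i.2).1)
    (by
      filter_upwards [eventually_ge_atTop k1] with k hk x hx
      obtain ⟨q, hq, hxq⟩ := mem_iUnion₂.1 ((hF k hk).2.1 hx)
      exact mem_iUnion.2 ⟨⟨q, hq⟩, hxq⟩) (gau Γ)
  have hub : ∀ᶠ k in atTop, ∑ i : ↥(F k), gau Γ (Metric.ediam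
      (Icc (i.1.1 - 3 * i.1.2) (i.1.1 + 3 * i.1.2)))
      ≤ ENNReal.ofReal (C4' / (ν * Real.sqrt ν) * Ptot G u k) := by
    filter_upwards [eventually_ge_atTop k1] with k hk
    have hmem : ∀ i : ↥(F k), 6 * i.1.2 ∈ Ioo 0 δ := by
      intro i
      have h1 := hlen k hk i.1 i.2
      have h2 := hk1 k hk
      rw [lt_min_iff] at h2
      exact ⟨by linarith [h1.2], lt_of_le_of_lt h1.1 h2.1⟩
    have e1 : ∀ i : ↥(F k), gau Γ (Metric.ediam (Icc (i.1.1 - 3 * i.1.2) (i.1.1 + 3 * i.1.2)))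
        = ENNReal.ofReal (Real.sqrt (6 * i.1.2) * Γ (6 * i.1.2)) := by
      intro i
      rw [hdiam]
      unfold gau
      rw [ENNReal.toReal_ofReal (hmem i).1.le]
    simp_rw [e1]
    rw [← ENNReal.ofReal_sum_of_nonneg fun i _ =>
      mul_nonneg (Real.sqrt_nonneg _) (hpos _ (hmem i)).le]
    refine ENNReal.ofReal_le_ofReal ?_
    rw [Finset.univ_eq_attach,
      Finset.sum_attach (F k) (fun q : ℝ × ℝ => Real.sqrt (6 * q.2) * Γ (6 * q.2))]
    refine (hF k hk).2.2 Γ fun n hn r hr1 hr2 => ?_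
    have h1 : A * (1 / 8) ^ n ≤ r := by
      rw [hA, div_mul_eq_mul_div, div_le_iff₀ hν]
      linarith
    have h2 : r < δ := by
      have h3 := hk1 n (by omega)
      rw [lt_min_iff] at h3
      refine lt_of_le_of_lt ?_ h3.1
      rw [hA, div_mul_eq_mul_div, le_div_iff₀ hν]
      linarith
    have h3 := hm8 n (by omega)
    exact hΓ h3 ⟨h3.1.trans_le h1, h2⟩ h1
  have hlim2 : Tendsto (fun k : ℕ => ENNReal.ofReal (C4' / (ν * Real.sqrt ν) * Ptot G u k)) atTop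
      (𝓝 0) := by
    rw [← ENNReal.ofReal_zero]
    refine ENNReal.tendsto_ofReal ?_
    have h2 := (h.tendsto_Ptot hν.le).const_mul (C4' / (ν * Real.sqrt ν))
    rw [mul_zero] at h2
    exact h2
  refine le_antisymm (key.trans ?_) zero_le
  calc _ ≤ liminf (fun k : ℕ => ENNReal.ofReal (C4' / (ν * Real.sqrt ν) * Ptot G u k)) atTop :=
        liminf_le_liminf hub
    _ = 0 := hlim2.liminf_eq

/-- **The integral test.** -/
theorem IsLeray.test (h : IsLeray ν T E G u p) (hν : 0 < ν) {Γ : ℝ → ℝ} {δ : ℝ}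
    (hδ : 0 < δ) (hΓ : AntitoneOn Γ (Ioo 0 δ)) (hpos : ∀ r ∈ Ioo 0 δ, 0 < Γ r)
    (hdiv : ¬ Summable fun n : ℕ => Γ ((1 / 2) ^ n) ^ (-(2 / 5) : ℝ)) :
    Measure.mkMetric (gau Γ) (Ioo 0 T \ G) = 0 := by
  have hsub : Ioo 0 T \ G ⊆ ⋃ m : ℕ, {t ∈ Ioo 0 T \ G | 1 / ((m : ℝ) + 1) ≤ t} := by
    intro t ht
    obtain ⟨m, hm⟩ := exists_nat_one_div_lt ht.1.1
    exact mem_iUnion.2 ⟨m, ht, hm.le⟩
  refine measure_mono_null hsub (measure_iUnion_null fun m => ?_)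
  exact h.test_part hν hδ hΓ hpos hdiv (by positivity)

end

end Pool.Agent.Helper24.ST
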