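import Pool.Agent.Helper24.ST.Dim

set_option autoImplicit false

/-!
The total potential.
-/

open MeasureTheory Set Filter Topology
open scoped ContDiff ENNReal NNReal

namespace Pool.Agent.Helper24.ST

open H459R3.NS Pool.Agent.Q63.Win

theorem pol_N2 : Pol fun k => (N k : ℝ) ^ 2 :=
  pol_of_le (fun k => sq_nonneg _) zero_le_one sq_le_one_add

theorem tendsto_wt (k : K3) : Tendsto (fun n => wt n k) atTop (𝓝 0) := by
  have h0 := rh_pos
  have h1 : rh < 1 := by linarith [rh_lt]
  have h2 : Tendsto (fun n : ℕ => dd (sc k) n) atTop atTop := by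
    refine tendsto_atTop_mono (f := fun n => n - sc k) (fun n => ?_) (tendsto_sub_atTop_nat _)
    unfold dd
    omega
  have h3 := (tendsto_pow_atTop_nhds_zero_of_lt_one h0.le h1).comp h2
  have h4 := h3.mul_const ((N k : ℝ) ^ 2)
  rw [zero_mul] at h4
  exact h4

theorem tendsto_wz (k : K3) : Tendsto (fun n => wz n k) atTop (𝓝 0) := by
  refine tendsto_const_nhds.congr' ?_
  filter_upwards [eventually_ge_atTop (2 * N k)] with n hn
  unfold wz
  rw [if_neg]
  rw [not_lt]
  exact hn.trans Nat.lt_two_pow_self.le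

theorem tendsto_XX {φ : ℕ → K3 → ℝ} (h0 : ∀ n k, 0 ≤ φ n k) (h1 : ∀ n k, φ n k ≤ (N k : ℝ) ^ 2)
    (hl : ∀ k, Tendsto (fun n => φ n k) atTop (𝓝 0)) {c : Fam} (hc : RapV c) :
    Tendsto (fun n => XX (φ n) (amp c)) atTop (𝓝 0) := by
  have hs := XX_summable pol_N2 hc.rapR
  have := tendsto_tsum_of_dominated_convergence (f := fun n k => φ n k * amp c k ^ 2)
    (g := fun _ => (0 : ℝ)) (𝓕 := atTop) hs (fun k => by
      have := (hl k).mul_const (amp c k ^ 2)
      rwa [zero_mul] at this) (Eventually.of_forall fun n k => by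
      rw [Real.norm_eq_abs, abs_of_nonneg (mul_nonneg (h0 n k) (sq_nonneg _))]
      exact mul_le_mul_of_nonneg_right (h1 n k) (sq_nonneg _))
  rw [tsum_zero] at this
  exact this

section

variable {ν T E : ℝ} {G : Set ℝ} {u : ℝ → V → V} {p : ℝ → V → ℝ}

theorem IsLeray.tendsto_Ptot (h : IsLeray ν T E G u p) (hν : 0 ≤ ν) :
    Tendsto (fun n => Ptot G u n) atTop (𝓝 0) := by
  have hm : MeasurableSet G := h.openG.measurableSet
  have h1 : Tendsto (fun n => ∫ τ in G, ZW (n + 1) (cof (u τ))) atTop (𝓝 0) := by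
    have := tendsto_integral_of_dominated_convergence (μ := volume.restrict G)
      (F := fun n τ => ZW (n + 1) (cof (u τ))) (f := fun _ => 0) (fun τ => enstrophy (u τ))
      (fun n => (h.int_ZW hν (n + 1)).aestronglyMeasurable) h.enst_int
      (fun n => (ae_restrict_iff' hm).2 (Eventually.of_forall fun τ hτ => by
        rw [Real.norm_eq_abs, abs_of_nonneg (ZW_nonneg _ _)]
        have := h.ZW_le hτ (n + 1)
        have := ZW_nonneg (n + 1) (cof (u τ))
        linarith))
      ((ae_restrict_iff' hm).2 (Eventually.of_forall fun τ hτ => by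
        exact (tendsto_XX wz_nonneg wz_le tendsto_wz (h.rapV hτ)).comp (tendsto_add_atTop_nat 1)))
    simpa using this
  have h2 : Tendsto (fun n => ∫ τ in G, YW n (cof (u τ))) atTop (𝓝 0) := by
    have := tendsto_integral_of_dominated_convergence (μ := volume.restrict G)
      (F := fun n τ => YW n (cof (u τ))) (f := fun _ => 0) (fun τ => enstrophy (u τ))
      (fun n => (h.int_YW hν n).aestronglyMeasurable) h.enst_int
      (fun n => (ae_restrict_iff' hm).2 (Eventually.of_forall fun τ hτ => by
        rw [Real.norm_eq_abs, abs_of_nonneg (YW_nonneg _ _)]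
        have := h.YW_le hτ n
        have := YW_nonneg n (cof (u τ))
        linarith))
      ((ae_restrict_iff' hm).2 (Eventually.of_forall fun τ hτ => by
        exact tendsto_XX wt_nonneg wt_le tendsto_wt (h.rapV hτ)))
    simpa using this
  have h3 := (h1.add h2).const_mul 7
  rw [add_zero, mul_zero] at h3
  exact h3

/-- The total dissipation. -/
theorem IsLeray.enst_le (h : IsLeray ν T E G u p) (hν : 0 ≤ ν) :
    2 * ν * ∫ τ in G, enstrophy (u τ) ≤ E ^ 2 := by
  rcases le_or_gt T 0 with hT | hT
  · have : G = ∅ := by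
      ext x
      simp only [mem_empty_iff_false, iff_false]
      intro hx
      have := h.subG hx
      linarith [this.1, this.2]
    rw [this]
    simp only [Measure.restrict_empty, integral_zero_measure, mul_zero]
    positivity
  · set a : ℕ → ℝ := fun k => T / ((k : ℝ) + 3) with ha
    have ha0 : ∀ k, 0 < a k := fun k => by simp only [ha]; positivity
    have ha3 : ∀ k, a k ≤ T / 3 := fun k => by
      simp only [ha]
      have : (0 : ℝ) ≤ k := Nat.cast_nonneg k
      gcongr
      linarith
    have hanti : Antitone a := by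
      intro i j hij
      simp only [ha]
      have : (i : ℝ) ≤ j := by exact_mod_cast hij
      have : (0 : ℝ) ≤ i := Nat.cast_nonneg i
      gcongr
    have hlim : Tendsto a atTop (𝓝 0) := by
      have h1 : Tendsto (fun k : ℕ => (k : ℝ) + 3) atTop atTop :=
        tendsto_atTop_add_const_right _ _ tendsto_natCast_atTop_atTop
      exact h1.const_div_atTop T
    have hmono : Monotone fun k => G ∩ Ioo (a k) (T - a k) := fun i j hij =>
      inter_subset_inter_right _ (Ioo_subset_Ioo (hanti hij) (by linarith [hanti hij]))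
    have hU : ⋃ k, G ∩ Ioo (a k) (T - a k) = G := by
      ext τ
      simp only [mem_iUnion, mem_inter_iff, mem_Ioo]
      constructor
      · rintro ⟨k, h1, _⟩
        exact h1
      · intro h1
        have h2 := h.subG h1
        have h3 : 0 < min τ (T - τ) := lt_min h2.1 (by linarith [h2.2])
        obtain ⟨k, hk⟩ := (hlim.eventually (gt_mem_nhds h3)).exists
        rw [lt_min_iff] at hk
        exact ⟨k, h1, hk.1, by linarith [hk.2]⟩
    have hl := tendsto_setIntegral_of_monotone (μ := volume) (f := fun τ => enstrophy (u τ))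
      (fun k => h.openG.measurableSet.inter (measurableSet_Ioo (a := a k) (b := T - a k))) hmono
      (by rw [hU]; exact h.enst_int)
    rw [hU] at hl
    refine le_of_tendsto (hl.const_mul (2 * ν)) (Eventually.of_forall fun k => ?_)
    have hcas := h.cas hν
    obtain ⟨s, hsG, hs⟩ := hcas.exists_reg le_rfl (ha0 k) (by linarith [ha3 k])
    obtain ⟨t, htG, ht⟩ := hcas.exists_reg (a := T - a k) (b := T) (by linarith [ha3 k])
      (by linarith [ha0 k]) le_rfl
    refine le_trans ?_ (h.enst_total hsG htG (by linarith [hs.2, ht.1, ha3 k]))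
    refine mul_le_mul_of_nonneg_left ?_ (by positivity)
    refine setIntegral_mono_set (h.enst_int.mono_set inter_subset_left)
      (Eventually.of_forall fun τ => enstrophy_nonneg _) (LE.le.eventuallyLE ?_)
    exact inter_subset_inter_right _ (Ioo_subset_Ioo hs.2.le ht.1.le)

theorem Ptot_nonneg (G : Set ℝ) (u : ℝ → V → V) (n : ℕ) : 0 ≤ Ptot G u n := by
  unfold Ptot
  have h1 : 0 ≤ ∫ τ in G, ZW (n + 1) (cof (u τ)) := integral_nonneg fun τ => ZW_nonneg _ _
  have h2 : 0 ≤ ∫ τ in G, YW n (cof (u τ)) := integral_nonneg fun τ => YW_nonneg _ _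
  positivity

theorem IsLeray.Ptot_le (h : IsLeray ν T E G u p) (hν : 0 < ν) (n : ℕ) :
    Ptot G u n ≤ E ^ 2 / ν := by
  have hm : MeasurableSet G := h.openG.measurableSet
  have h1 : 36 * ∫ τ in G, ZW (n + 1) (cof (u τ)) ≤ ∫ τ in G, enstrophy (u τ) := by
    rw [← integral_const_mul]
    exact setIntegral_mono_on ((h.int_ZW hν.le _).const_mul _) h.enst_int hm
      fun τ hτ => h.ZW_le hτ _
  have h2 : 36 * ∫ τ in G, YW n (cof (u τ)) ≤ ∫ τ in G, enstrophy (u τ) := by
    rw [← integral_const_mul]
    exact setIntegral_mono_on ((h.int_YW hν.le _).const_mul _) h.enst_int hm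
      fun τ hτ => h.YW_le hτ _
  have h3 := h.enst_le hν.le
  have h4 : 0 ≤ ∫ τ in G, enstrophy (u τ) := integral_nonneg fun τ => enstrophy_nonneg _
  rw [le_div_iff₀ hν]
  unfold Ptot
  nlinarith

end

end Pool.Agent.Helper24.ST
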