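import Pool.Agent.Helper24.ST.Life2
import Pool.Agent.Helper24.ST.Flux
import Pool.Agent.Q63.Win.Lat

set_option autoImplicit false

/-!
Weighted sums of the squares of the Fourier coefficients.
-/

open MeasureTheory Set Filter Topology
open scoped ENNReal

namespace Pool.Agent.Helper24.ST

open H459R3.NS Pool.Agent.Q63.Win

/-- The fourth root of `1 / 2`. -/
noncomputable def th4 : ℝ := Real.sqrt (Real.sqrt (1 / 2))

theorem th4_pos : 0 < th4 := Real.sqrt_pos.2 (Real.sqrt_pos.2 (by norm_num))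

theorem th4_four : th4 ^ 4 = 1 / 2 := by
  have h1 : th4 ^ 2 = Real.sqrt (1 / 2) := Real.sq_sqrt (Real.sqrt_nonneg _)
  calc th4 ^ 4 = (th4 ^ 2) ^ 2 := by ring
    _ = 1 / 2 := by rw [h1, Real.sq_sqrt (by norm_num)]

theorem th4_lt : th4 < 0.85 := by
  by_contra h
  rw [not_lt] at h
  have h1 : (0.85 : ℝ) ^ 4 ≤ th4 ^ 4 := pow_le_pow_left₀ (by norm_num) h 4
  rw [th4_four] at h1
  norm_num at h1

/-- The square root of `1 / 2`. -/
noncomputable def rh : ℝ := th4 ^ 2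

theorem rh_pos : 0 < rh := pow_pos th4_pos 2

theorem rh_sq : rh ^ 2 = 1 / 2 := by
  unfold rh
  rw [← pow_mul]
  exact th4_four

theorem rh_lt : rh < 0.71 := by
  by_contra h
  rw [not_lt] at h
  have h1 : (0.71 : ℝ) ^ 2 ≤ rh ^ 2 := pow_le_pow_left₀ (by norm_num) h 2
  rw [rh_sq] at h1
  norm_num at h1

theorem rh_gt : 0.7 < rh := by
  by_contra h
  rw [not_lt] at h
  have h1 : rh ^ 2 ≤ (0.7 : ℝ) ^ 2 := pow_le_pow_left₀ rh_pos.le h 2
  rw [rh_sq] at h1
  norm_num at h1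

/-- The distance of two natural numbers. -/
def dd (m n : ℕ) : ℕ := (m - n) + (n - m)

/-- The dyadic scale of a frequency. -/
def sc (k : K3) : ℕ := Nat.clog 2 (N k)

theorem N_le_sc (k : K3) : N k ≤ 2 ^ sc k := Nat.le_pow_clog (by norm_num) _

theorem sc_le {k : K3} (hk : k ≠ 0) : 2 ^ sc k ≤ 2 * N k := by
  have h0 : 1 ≤ N k := Nat.one_le_iff_ne_zero.2 fun h => hk (N_eq_zero.1 h)
  rcases Nat.lt_or_ge 1 (N k) with h | h
  · have h1 := Nat.pow_pred_clog_lt_self (b := 2) (by norm_num) h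
    have h2 : 0 < Nat.clog 2 (N k) := Nat.clog_pos (by norm_num) h
    unfold sc
    obtain ⟨m, hm⟩ : ∃ m, Nat.clog 2 (N k) = m + 1 := ⟨_, (Nat.succ_pred_eq_of_pos h2).symm⟩
    rw [hm] at h1 ⊢
    simp only [Nat.pred_eq_sub_one, Nat.add_sub_cancel] at h1
    rw [pow_succ]
    omega
  · have : N k = 1 := le_antisymm h h0
    unfold sc
    rw [this]
    simp

theorem hi_of_lt {k : K3} {n : ℕ} (hk : k ≠ 0) (h : n < sc k) : 2 ^ (n + 1) < 2 * N k := by
  have h0 : 1 ≤ N k := Nat.one_le_iff_ne_zero.2 fun h => hk (N_eq_zero.1 h)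
  have h1 : 2 ^ n < N k := by
    by_contra hc
    rw [not_lt] at hc
    have : sc k ≤ n := by
      unfold sc
      exact (Nat.clog_le_iff_le_pow (by norm_num)).2 hc
    omega
  rw [pow_succ]
  omega

theorem le_sc_of_hi {k : K3} {n : ℕ} (h : 2 ^ n < 2 * N k) : n ≤ sc k := by
  have h1 : 2 ^ n < 2 ^ (sc k + 1) := by
    rw [pow_succ]
    have := N_le_sc k
    omega
  have := (Nat.pow_lt_pow_iff_right (by norm_num : 1 < 2)).1 h1
  omega

/-- The weight. -/
noncomputable def wt (n : ℕ) (k : K3) : ℝ := rh ^ dd (sc k) n * (N k : ℝ) ^ 2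

/-- The weight for the dissipation at high frequencies. -/
noncomputable def wz (n : ℕ) (k : K3) : ℝ := if 2 ^ n < 2 * N k then (N k : ℝ) ^ 2 else 0

/-- The weight for the energy at high frequencies. -/
noncomputable def we (n : ℕ) (k : K3) : ℝ := if 2 ^ n < 2 * N k then 1 else 0

theorem wt_nonneg (n : ℕ) (k : K3) : 0 ≤ wt n k := mul_nonneg (pow_nonneg rh_pos.le _) (sq_nonneg _)

theorem wz_nonneg (n : ℕ) (k : K3) : 0 ≤ wz n k := by unfold wz; split_ifs <;> positivity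

theorem we_nonneg (n : ℕ) (k : K3) : 0 ≤ we n k := by unfold we; split_ifs <;> positivity

theorem wt_le (n : ℕ) (k : K3) : wt n k ≤ (N k : ℝ) ^ 2 := by
  unfold wt
  have : rh ^ dd (sc k) n ≤ 1 := pow_le_one₀ rh_pos.le (by linarith [rh_lt])
  calc rh ^ dd (sc k) n * (N k : ℝ) ^ 2 ≤ 1 * (N k : ℝ) ^ 2 := by gcongr
    _ = _ := one_mul _

theorem wz_le (n : ℕ) (k : K3) : wz n k ≤ (N k : ℝ) ^ 2 := by
  unfold wz
  split_ifs
  · exact le_rfl
  · positivity

theorem pol_of_le {φ : K3 → ℝ} (h0 : ∀ k, 0 ≤ φ k) {C : ℝ} (hC : 0 ≤ C)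
    (h : ∀ k, φ k ≤ C * (1 + (N k : ℝ)) ^ 2) : Pol φ :=
  ⟨C, 2, hC, fun k => by rw [abs_of_nonneg (h0 k)]; exact h k⟩

theorem sq_le_one_add (k : K3) : (N k : ℝ) ^ 2 ≤ 1 * (1 + (N k : ℝ)) ^ 2 := by
  have : (0 : ℝ) ≤ N k := Nat.cast_nonneg _
  nlinarith

theorem pol_wt (n : ℕ) : Pol (wt n) :=
  pol_of_le (wt_nonneg n) zero_le_one fun k => (wt_le n k).trans (sq_le_one_add k)

theorem pol_wz (n : ℕ) : Pol (wz n) :=
  pol_of_le (wz_nonneg n) zero_le_one fun k => (wz_le n k).trans (sq_le_one_add k)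

theorem pol_we (n : ℕ) : Pol (we n) :=
  pol_of_le (we_nonneg n) zero_le_one fun k => by
    have : (0 : ℝ) ≤ N k := Nat.cast_nonneg _
    unfold we
    split_ifs <;> nlinarith

/-- The weighted dissipation near the frequency `2 ^ n`. -/
noncomputable def YW (n : ℕ) (c : Fam) : ℝ := XX (wt n) (amp c)

/-- The dissipation at the frequencies larger than `2 ^ n / 2`. -/
noncomputable def ZW (n : ℕ) (c : Fam) : ℝ := XX (wz n) (amp c)

/-- The energy at the frequencies larger than `2 ^ n / 2`. -/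
noncomputable def EW (n : ℕ) (c : Fam) : ℝ := XX (we n) (amp c)

theorem YW_nonneg (n : ℕ) (c : Fam) : 0 ≤ YW n c := XX_nonneg (wt_nonneg n)

theorem ZW_nonneg (n : ℕ) (c : Fam) : 0 ≤ ZW n c := XX_nonneg (wz_nonneg n)

theorem EW_nonneg (n : ℕ) (c : Fam) : 0 ≤ EW n c := XX_nonneg (we_nonneg n)

theorem XX_mono {φ ψ : K3 → ℝ} (hφ : Pol φ) (hψ : Pol ψ) {c : Fam} (hc : RapV c)
    (h : ∀ k, φ k ≤ ψ k) : XX φ (amp c) ≤ XX ψ (amp c) := by
  unfold XX
  refine Summable.tsum_le_tsum (fun k => ?_) (XX_summable hφ hc.rapR) (XX_summable hψ hc.rapR)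
  have := sq_nonneg (amp c k)
  have := h k
  gcongr

theorem XX_smul (a : ℝ) (φ : K3 → ℝ) (w : K3 → ℝ) : XX (fun k => a * φ k) w = a * XX φ w := by
  unfold XX
  rw [← tsum_mul_left]
  exact tsum_congr fun k => by ring

theorem pol_smul {φ : K3 → ℝ} (a : ℝ) (h : Pol φ) : Pol (fun k => a * φ k) := by
  obtain ⟨C, d, hC, h⟩ := h
  refine ⟨|a| * C, d, by positivity, fun k => ?_⟩
  rw [abs_mul]
  have := h k
  calc |a| * |φ k| ≤ |a| * (C * (1 + (N k : ℝ)) ^ d) := by gcongr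
    _ = _ := by ring

theorem pol_add {φ ψ : K3 → ℝ} (hφ : Pol φ) (hψ : Pol ψ) : Pol (fun k => φ k + ψ k) := by
  obtain ⟨C, d, hC, h⟩ := hφ
  obtain ⟨C', d', hC', h'⟩ := hψ
  refine ⟨C + C', d + d', by positivity, fun k => ?_⟩
  have h1 : (1 : ℝ) ≤ 1 + (N k : ℝ) := by
    have : (0 : ℝ) ≤ N k := Nat.cast_nonneg _
    linarith
  have h2 : (1 + (N k : ℝ)) ^ d ≤ (1 + (N k : ℝ)) ^ (d + d') :=
    pow_le_pow_right₀ h1 (by omega)
  have h3 : (1 + (N k : ℝ)) ^ d' ≤ (1 + (N k : ℝ)) ^ (d + d') :=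
    pow_le_pow_right₀ h1 (by omega)
  calc |φ k + ψ k| ≤ |φ k| + |ψ k| := abs_add_le _ _
    _ ≤ C * (1 + (N k : ℝ)) ^ d + C' * (1 + (N k : ℝ)) ^ d' := add_le_add (h k) (h' k)
    _ ≤ C * (1 + (N k : ℝ)) ^ (d + d') + C' * (1 + (N k : ℝ)) ^ (d + d') := by gcongr
    _ = _ := by ring

theorem XX_add {φ ψ : K3 → ℝ} (hφ : Pol φ) (hψ : Pol ψ) {c : Fam} (hc : RapV c) :
    XX (fun k => φ k + ψ k) (amp c) = XX φ (amp c) + XX ψ (amp c) := by
  unfold XX
  rw [← (XX_summable hφ hc.rapR).tsum_add (XX_summable hψ hc.rapR)]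
  exact tsum_congr fun k => by ring

/-- (I2) -/
theorem EW_le {c : Fam} (hc : RapV c) (n : ℕ) : 4 ^ n * EW n c ≤ 4 * YW n c := by
  unfold EW YW
  rw [← XX_smul, ← XX_smul]
  refine XX_mono (pol_smul _ (pol_we n)) (pol_smul _ (pol_wt n)) hc fun k => ?_
  unfold we wt
  split_ifs with h
  · have hk : k ≠ 0 := by
      rintro rfl
      rw [N_eq_zero.2 rfl] at h
      simp at h
    have h1 := le_sc_of_hi h
    have h2 : (2 : ℝ) ^ sc k ≤ 2 * N k := by exact_mod_cast sc_le hk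
    have h3 : dd (sc k) n = sc k - n := by unfold dd; omega
    rw [h3]
    have h4 : ((4 : ℝ) ^ n) * 4 ^ (sc k - n) = 4 ^ sc k := by
      rw [← pow_add]; congr 1; omega
    have h5 : (4 : ℝ) ^ sc k = ((2 : ℝ) ^ sc k) ^ 2 := by
      rw [← pow_mul, mul_comm, pow_mul]; norm_num
    have h6 : (4 : ℝ) ^ sc k ≤ 4 * (N k : ℝ) ^ 2 := by
      rw [h5]
      calc ((2 : ℝ) ^ sc k) ^ 2 ≤ (2 * (N k : ℝ)) ^ 2 := pow_le_pow_left₀ (by positivity) h2 2
        _ = _ := by ring
    have h7 : (1 : ℝ) ≤ 4 ^ (sc k - n) * rh ^ (sc k - n) := by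
      rw [← mul_pow]
      apply one_le_pow₀
      linarith [rh_gt]
    have h8 : 0 < rh ^ (sc k - n) := pow_pos rh_pos _
    calc (4 : ℝ) ^ n * 1 ≤ 4 ^ n * (4 ^ (sc k - n) * rh ^ (sc k - n)) := by gcongr
      _ = 4 ^ sc k * rh ^ (sc k - n) := by rw [← h4]; ring
      _ ≤ 4 * (N k : ℝ) ^ 2 * rh ^ (sc k - n) := by gcongr
      _ = _ := by ring
  · rw [mul_zero]
    have := rh_pos
    positivity

/-- (I3) -/
theorem YW_shift {c : Fam} (hc : RapV c) (j n : ℕ) : rh ^ dd j n * YW j c ≤ YW n c := by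
  unfold YW
  rw [← XX_smul]
  refine XX_mono (pol_smul _ (pol_wt j)) (pol_wt n) hc fun k => ?_
  unfold wt
  rw [← mul_assoc, ← pow_add]
  have h1 : dd (sc k) n ≤ dd j n + dd (sc k) j := by unfold dd; omega
  have h2 := pow_le_pow_of_le_one rh_pos.le (by linarith [rh_lt]) h1
  gcongr

/-- geometric sums -/
theorem geo_sum (m K : ℕ) : ∑ j ∈ Finset.range K, rh ^ dd m j ≤ 7 := by
  have h0 := rh_pos
  have h1 := rh_lt
  have h1' : 0 < 1 - rh := by linarith
  have key : ∀ K, (K ≤ m + 1 → ∑ j ∈ Finset.range K, rh ^ dd m j ≤ rh ^ (m + 1 - K) / (1 - rh)) ∧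
      (m + 1 ≤ K → ∑ j ∈ Finset.range K, rh ^ dd m j ≤ (2 - rh ^ (K - m)) / (1 - rh)) := by
    intro K
    induction K with
    | zero =>
      refine ⟨fun _ => ?_, fun h => by omega⟩
      simp only [Finset.range_zero, Finset.sum_empty]
      positivity
    | succ K ih =>
      have hA : K + 1 ≤ m + 1 → ∑ j ∈ Finset.range (K + 1), rh ^ dd m j
          ≤ rh ^ (m + 1 - (K + 1)) / (1 - rh) := by
        intro hK
        rw [Finset.sum_range_succ]
        have e1 : dd m K = m - K := by unfold dd; omega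
        have e2 : m + 1 - (K + 1) = m - K := by omega
        have e3 : m + 1 - K = m - K + 1 := by omega
        have h2 := ih.1 (by omega)
        rw [e3] at h2
        rw [e1, e2]
        refine (add_le_add h2 le_rfl).trans (le_of_eq ?_)
        rw [pow_succ]
        field_simp
        ring
      refine ⟨hA, fun hK => ?_⟩
      rcases Nat.lt_or_ge K (m + 1) with hlt | hge
      · have hKm : K = m := by omega
        have h2 := hA (by omega)
        refine h2.trans ?_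
        rw [hKm]
        simp only [Nat.sub_self, pow_zero, Nat.add_sub_cancel_left, pow_one]
        apply div_le_div_of_nonneg_right _ h1'.le
        linarith
      · rw [Finset.sum_range_succ]
        have e1 : dd m K = K - m := by unfold dd; omega
        have e2 : K + 1 - m = K - m + 1 := by omega
        rw [e1, e2]
        refine (add_le_add (ih.2 hge) le_rfl).trans (le_of_eq ?_)
        rw [pow_succ]
        field_simp
        ring
  have h2 : 1 / (1 - rh) ≤ 3.5 := by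
    rw [div_le_iff₀ h1']
    linarith
  rcases Nat.lt_or_ge K (m + 1) with h | h
  · refine ((key K).1 h.le).trans ?_
    have h3 : rh ^ (m + 1 - K) ≤ 1 := pow_le_one₀ h0.le (by linarith)
    calc rh ^ (m + 1 - K) / (1 - rh) ≤ 1 / (1 - rh) := by gcongr
      _ ≤ 7 := by linarith
  · refine ((key K).2 h).trans ?_
    have h3 : 0 ≤ rh ^ (K - m) := by positivity
    calc (2 - rh ^ (K - m)) / (1 - rh) ≤ 2 / (1 - rh) := by gcongr; linarith
      _ = 2 * (1 / (1 - rh)) := by ring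
      _ ≤ 7 := by linarith

theorem geo_le (m n K : ℕ) (hmn : m ≤ n) :
    ∑ j ∈ Finset.Icc n K, rh ^ dd m j ≤ 7 * rh ^ dd m n := by
  have e : ∀ j ∈ Finset.Icc n K, rh ^ dd m j = rh ^ dd m n * rh ^ dd n j := by
    intro j hj
    rw [Finset.mem_Icc] at hj
    rw [← pow_add]
    congr 1
    unfold dd
    omega
  rw [Finset.sum_congr rfl e, ← Finset.mul_sum]
  have h1 : ∑ j ∈ Finset.Icc n K, rh ^ dd n j ≤ ∑ j ∈ Finset.range (K + 1), rh ^ dd n j := by
    refine Finset.sum_le_sum_of_subset_of_nonneg (fun j hj => ?_) fun _ _ _ =>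
      pow_nonneg rh_pos.le _
    rw [Finset.mem_Icc] at hj
    rw [Finset.mem_range]
    omega
  have h2 := geo_sum n (K + 1)
  have h3 : 0 < rh ^ dd m n := pow_pos rh_pos _
  nlinarith

/-- (I4) -/
theorem sum_YW {c : Fam} (hc : RapV c) (n K : ℕ) :
    ∑ j ∈ Finset.Icc n K, YW j c ≤ 7 * (ZW (n + 1) c + YW n c) := by
  have e : ∑ j ∈ Finset.Icc n K, YW j c = XX (fun k => ∑ j ∈ Finset.Icc n K, wt j k) (amp c) := by
    unfold YW XX
    rw [← Summable.tsum_finsetSum fun j _ => XX_summable (pol_wt j) hc.rapR]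
    exact tsum_congr fun k => by rw [Finset.sum_mul]
  have hle : ∀ k, ∑ j ∈ Finset.Icc n K, wt j k ≤ 7 * (wz (n + 1) k + wt n k) := by
    intro k
    unfold wt
    rw [← Finset.sum_mul]
    by_cases hk : k = 0
    · subst hk
      rw [N_eq_zero.2 rfl]
      have := wz_nonneg (n + 1) 0
      simp only [CharP.cast_eq_zero, ne_eq, OfNat.ofNat_ne_zero, not_false_eq_true, zero_pow,
        mul_zero, add_zero]
      positivity
    · rcases Nat.lt_or_ge n (sc k) with h | h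
      · have h1 : wz (n + 1) k = (N k : ℝ) ^ 2 := by
          unfold wz
          rw [if_pos (hi_of_lt hk h)]
        rw [h1]
        have h2 : ∑ j ∈ Finset.Icc n K, rh ^ dd (sc k) j ≤ 7 := by
          refine le_trans ?_ (geo_sum (sc k) (K + 1))
          refine Finset.sum_le_sum_of_subset_of_nonneg (fun j hj => ?_) fun _ _ _ =>
            pow_nonneg rh_pos.le _
          rw [Finset.mem_Icc] at hj
          rw [Finset.mem_range]
          omega
        have h3 : 0 ≤ rh ^ dd (sc k) n := pow_nonneg rh_pos.le _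
        calc (∑ j ∈ Finset.Icc n K, rh ^ dd (sc k) j) * (N k : ℝ) ^ 2 ≤ 7 * (N k : ℝ) ^ 2 := by gcongr
          _ ≤ 7 * ((N k : ℝ) ^ 2 + rh ^ dd (sc k) n * (N k : ℝ) ^ 2) := by
              have : 0 ≤ rh ^ dd (sc k) n * (N k : ℝ) ^ 2 := by positivity
              linarith
      · have h1 := geo_le (sc k) n K h
        have h2 := wz_nonneg (n + 1) k
        calc (∑ j ∈ Finset.Icc n K, rh ^ dd (sc k) j) * (N k : ℝ) ^ 2
            ≤ (7 * rh ^ dd (sc k) n) * (N k : ℝ) ^ 2 := by gcongr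
          _ ≤ 7 * (wz (n + 1) k + rh ^ dd (sc k) n * (N k : ℝ) ^ 2) := by linarith
  have hP1 : Pol fun k => 7 * (wz (n + 1) k + wt n k) :=
    pol_smul 7 (pol_add (pol_wz (n + 1)) (pol_wt n))
  have hP2 : Pol fun k => ∑ j ∈ Finset.Icc n K, wt j k := by
    obtain ⟨C, d, hC, h⟩ := hP1
    refine ⟨C, d, hC, fun k => ?_⟩
    rw [abs_of_nonneg (Finset.sum_nonneg fun j _ => wt_nonneg j k)]
    exact (hle k).trans ((le_abs_self _).trans (h k))
  rw [e]
  refine (XX_mono hP2 hP1 hc hle).trans (le_of_eq ?_)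
  rw [XX_smul, XX_add (pol_wz (n + 1)) (pol_wt n) hc]
  rfl

end Pool.Agent.Helper24.ST
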